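import Pool.Agent.W573.RF.A
import Pool.Agent.K7.H84.GG.Stm

set_option autoImplicit false

/-!
Weisner's theorem for rank functions (project DC/GG of helper84, MP_dc96bc_co).
-/

namespace Pool.Agent.K7.H62.GGWEIS

open Finset DC813 Pool.Agent.W573.RF
open Pool.Agent.K7.H84.GG (fl cl hy StWeis)

variable {α : Type} [DecidableEq α]

theorem mem_cl {r : Finset α → ℕ} {E X : Finset α} {e : α} :
    e ∈ cl r E X ↔ e ∈ E ∧ r (insert e X) = r X := Finset.mem_filter

theorem rk_union_of {r : Finset α → ℕ} (hr : IsRk r) (X : Finset α) :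
    ∀ S : Finset α, (∀ e ∈ S, r (insert e X) = r X) → r (X ∪ S) = r X := by
  intro S
  induction S using Finset.induction_on with
  | empty => intro _; rw [union_empty]
  | insert a S ha ih =>
    intro h
    have h1 := ih fun e he => h e (mem_insert_of_mem he)
    have h2 := h a (mem_insert_self a S)
    have h3 := cl_le hr (subset_union_left : X ⊆ X ∪ S) h2.le
    rw [union_insert]
    have h4 := hr.mono (X ∪ S) (insert a (X ∪ S)) (subset_insert _ _)
    omega

theorem sub_cl {r : Finset α → ℕ} {E X : Finset α} (hX : X ⊆ E) : X ⊆ cl r E X := fun e he =>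
  mem_cl.2 ⟨hX he, by rw [insert_eq_of_mem he]⟩

theorem cl_sub {r : Finset α → ℕ} {E X : Finset α} : cl r E X ⊆ E := filter_subset _ _

theorem rk_cl {r : Finset α → ℕ} (hr : IsRk r) {E X : Finset α} (hX : X ⊆ E) :
    r (cl r E X) = r X := by
  have h := rk_union_of hr X (cl r E X) fun e he => (mem_cl.1 he).2
  rwa [union_eq_right.2 (sub_cl hX)] at h

theorem cl_closed {r : Finset α → ℕ} (hr : IsRk r) {E X : Finset α} (hX : X ⊆ E) {e : α}
    (he : e ∈ E) (h : r (insert e (cl r E X)) = r (cl r E X)) : e ∈ cl r E X := by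
  refine mem_cl.2 ⟨he, ?_⟩
  have h1 := hr.mono (insert e X) (insert e (cl r E X)) (insert_subset_insert e (sub_cl hX))
  have h2 := hr.mono X (insert e X) (subset_insert _ _)
  rw [h, rk_cl hr hX] at h1
  omega

theorem mem_fl {r : Finset α → ℕ} (hr : IsRk r) {E F : Finset α} :
    F ∈ fl r E ↔ F ⊆ E ∧ ∀ e ∈ E, r (insert e F) = r F → e ∈ F := by
  unfold fl; rw [mem_filter, mem_powerset]
  refine and_congr_right fun _ => forall₂_congr fun e _ => ?_
  have h := hr.mono F (insert e F) (subset_insert _ _)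
  constructor
  · intro h1 h2
    by_contra h3
    have := h1 h3
    omega
  · intro h1 h2
    by_contra h3
    exact h2 (h1 (by omega))

theorem cl_mem_fl {r : Finset α → ℕ} (hr : IsRk r) {E X : Finset α} (hX : X ⊆ E) :
    cl r E X ∈ fl r E := (mem_fl hr).2 ⟨cl_sub, fun _ he h => cl_closed hr hX he h⟩

theorem cl_eq_of_fl {r : Finset α → ℕ} (hr : IsRk r) {E F X : Finset α} (hF : F ∈ fl r E)
    (hX : X ⊆ F) (h : r X = r F) : cl r E X = F := by
  obtain ⟨h1, h2⟩ := (mem_fl hr).1 hF
  ext e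
  rw [mem_cl]
  constructor
  · rintro ⟨h3, h4⟩
    refine h2 e h3 ?_
    have h5 := cl_le hr hX h4.le
    have h6 := hr.mono F (insert e F) (subset_insert _ _)
    omega
  · intro h3
    refine ⟨h1 h3, ?_⟩
    have h5 := hr.mono (insert e X) F (insert_subset h3 hX)
    have h6 := hr.mono X (insert e X) (subset_insert _ _)
    omega

/-- **Weisner**: hyperplanes avoiding a point -/
theorem weisner {r : Finset α → ℕ} (hr : IsRk r) {E : Finset α} {p : α} (hp : p ∈ E) :
    ∑ H ∈ (fl r E).filter (fun H => r H + 1 = r E ∧ p ∉ H), mu r H = mu r E := by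
  classical
  -- the sets `Y` with `r Y + 1 = r E`, `p` not in the closure
  set S : Finset (Finset α) := (E.erase p).powerset.filter
    (fun Y => r Y + 1 = r E ∧ r (insert p Y) = r E) with hS
  have hpE : insert p (E.erase p) = E := insert_erase hp
  have e1 : ∑ X ∈ E.powerset.filter (fun X => r X = r E), (-1 : ℤ) ^ X.card =
      - ∑ Y ∈ S, (-1 : ℤ) ^ Y.card := by
    rw [sum_filter, ← hpE, sum_powerset_insert (notMem_erase p E), hpE, hS, sum_filter,
      ← sum_neg_distrib, ← sum_add_distrib]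
    refine sum_congr rfl fun Y hY => ?_
    have hYs := mem_powerset.1 hY
    have hpY : p ∉ Y := fun h => notMem_erase p E (hYs h)
    have hYE : insert p Y ⊆ E := insert_subset hp (hYs.trans (erase_subset _ _))
    have h1 := hr.mono Y (insert p Y) (subset_insert _ _)
    have h2 := hr.mono _ _ hYE
    have h3 := hr.insert_le Y p
    rw [card_insert_of_notMem hpY, pow_succ]
    by_cases ha : r Y = r E
    · have hb : r (insert p Y) = r E := by omega
      have hc : ¬ (r Y + 1 = r E ∧ r (insert p Y) = r E) := by omega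
      rw [if_pos ha, if_pos hb, if_neg hc]; ring
    · by_cases hb : r (insert p Y) = r E
      · have hc : r Y + 1 = r E ∧ r (insert p Y) = r E := by omega
        rw [if_neg ha, if_pos hb, if_pos hc]; ring
      · have hc : ¬ (r Y + 1 = r E ∧ r (insert p Y) = r E) := by omega
        rw [if_neg ha, if_neg hb, if_neg hc]; ring
  have hmaps : ∀ Y ∈ S, cl r E Y ∈ (fl r E).filter (fun H => r H + 1 = r E ∧ p ∉ H) := by
    intro Y hY
    rw [hS, mem_filter, mem_powerset] at hY
    obtain ⟨h1, h2, h3⟩ := hY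
    have hYE : Y ⊆ E := h1.trans (erase_subset _ _)
    refine mem_filter.2 ⟨cl_mem_fl hr hYE, by rw [rk_cl hr hYE]; exact h2, ?_⟩
    rw [mem_cl]
    rintro ⟨-, h4⟩
    omega
  have e2 : ∑ Y ∈ S, (-1 : ℤ) ^ Y.card =
      ∑ H ∈ (fl r E).filter (fun H => r H + 1 = r E ∧ p ∉ H),
        ∑ Y ∈ H.powerset.filter (fun Y => r Y = r H), (-1 : ℤ) ^ Y.card := by
    rw [← sum_fiberwise_of_maps_to hmaps]
    refine sum_congr rfl fun H hH => ?_
    obtain ⟨hH1, hH2, hH3⟩ := mem_filter.1 hH
    refine sum_congr ?_ fun _ _ => rfl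
    ext Y
    rw [mem_filter, mem_filter, mem_filter, mem_powerset, mem_powerset]
    constructor
    · rintro ⟨⟨h1, h2, h3⟩, rfl⟩
      have hYE : Y ⊆ E := h1.trans (erase_subset _ _)
      exact ⟨sub_cl hYE, (rk_cl hr hYE).symm⟩
    · rintro ⟨h1, h2⟩
      have hHE := ((mem_fl hr).1 hH1).1
      refine ⟨⟨?_, by omega, ?_⟩, cl_eq_of_fl hr hH1 h1 h2⟩
      · intro y hy
        exact mem_erase.2 ⟨fun h => hH3 (h ▸ h1 hy), hHE (h1 hy)⟩
      · have h5 : r (insert p H) ≠ r H := fun h => hH3 (((mem_fl hr).1 hH1).2 p hp h)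
        have h6 := hr.mono H (insert p H) (subset_insert _ _)
        have h7 := hr.insert_le H p
        have h8 := out_all hr (show r (insert p H) = r H + 1 by omega) h1
        omega
  have e3 : ∀ H ∈ (fl r E).filter (fun H => r H + 1 = r E ∧ p ∉ H), mu r H =
      - ((-1 : ℤ) ^ r E * ∑ Y ∈ H.powerset.filter (fun Y => r Y = r H), (-1 : ℤ) ^ Y.card) := by
    intro H hH
    obtain ⟨-, hH2, -⟩ := mem_filter.1 hH
    unfold mu
    rw [← hH2, pow_succ]
    rw [sum_congr (filter_congr_decidable _ _ _) fun _ _ => rfl]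
    ring
  rw [sum_congr rfl e3, sum_neg_distrib, ← mul_sum, ← e2]
  unfold mu
  have e4 : ∑ X ∈ E.powerset.filter (fun X => r X = r E), (-1 : ℤ) ^ X.card =
      - ∑ Y ∈ S, (-1 : ℤ) ^ Y.card := e1
  rw [sum_congr (filter_congr_decidable _ _ _) fun _ _ => rfl] at e4 ⊢
  rw [e4]
  ring

theorem t : StWeis := by
  intro α _ r E p hr hp _
  exact weisner hr hp

end Pool.Agent.K7.H62.GGWEIS
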