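import Mathlib

/-! Fourier analysis on `ZMod Q`: almost periods of the convolution of a set with itself. -/

set_option autoImplicit false

namespace Pool.Agent.K7.H62

open Finset ComplexConjugate

/-- the number of representations of `u` as a sum of elements of the sets `A j` -/
def rep {G : Type} [AddCommGroup G] [DecidableEq G] {s : ℕ} (A : Fin s → Finset G) (u : G) : ℕ :=
  ((Fintype.piFinset A).filter (fun x => ∑ j, x j = u)).card

theorem sum_rep {G : Type} [AddCommGroup G] [DecidableEq G] [Fintype G] {s : ℕ} (A : Fin s → Finset G) :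
    ∑ u, rep A u = ∏ j, (A j).card := by
  unfold rep
  rw [← Fintype.card_piFinset, card_eq_sum_card_fiberwise (f := fun x : Fin s → G => ∑ j, x j) (t := univ)
    (fun _ _ => mem_univ _)]

/-- one summand is determined by the others -/
theorem rep_le {G : Type} [AddCommGroup G] [DecidableEq G] {s : ℕ} (A : Fin s → Finset G) (u : G) (i : Fin s) :
    rep A u ≤ ∏ j, (Function.update A i {0} j).card := by
  unfold rep
  rw [← Fintype.card_piFinset]
  refine card_le_card_of_injOn (fun x => Function.update x i 0) ?_ ?_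
  · intro x hx
    rw [mem_coe, mem_filter, Fintype.mem_piFinset] at hx
    rw [mem_coe, Fintype.mem_piFinset]
    intro j
    by_cases hj : j = i
    · subst hj; simp
    · simp only [Function.update_of_ne hj]
      exact hx.1 j
  · intro x hx y hy hxy
    rw [mem_coe, mem_filter] at hx hy
    have h1 : ∀ j, j ≠ i → x j = y j := by
      intro j hj
      have := congrFun hxy j
      simpa only [Function.update_of_ne hj] using this
    have h2 : x i = y i := by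
      have e1 := hx.2.trans hy.2.symm
      rw [← add_sum_erase univ x (mem_univ i), ← add_sum_erase univ y (mem_univ i),
        sum_congr rfl fun j hj => h1 j (ne_of_mem_erase hj)] at e1
      exact add_right_cancel e1
    funext j
    by_cases hj : j = i
    · rw [hj]; exact h2
    · exact h1 j hj

section four

variable {Q : ℕ} [NeZero Q]

/-- the Fourier transform -/
noncomputable def Sf (f : ZMod Q → ℂ) (ξ : ZMod Q) : ℂ := ∑ x, f x * ZMod.stdAddChar (ξ * x)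

theorem char_orth (y : ZMod Q) : ∑ ξ : ZMod Q, (ZMod.stdAddChar (ξ * y) : ℂ) = if y = 0 then (Q : ℂ) else 0 := by
  have h := AddChar.sum_mulShift (R' := ℂ) y (ZMod.isPrimitive_stdAddChar Q)
  rw [h, ZMod.card]
  split_ifs <;> simp

theorem char_conj (x : ZMod Q) : conj (ZMod.stdAddChar x : ℂ) = ZMod.stdAddChar (-x) := by
  rw [AddChar.map_neg_eq_conj]

theorem char_sum {ι : Type} (s : Finset ι) (f : ι → ZMod Q) :
    (ZMod.stdAddChar (∑ i ∈ s, f i) : ℂ) = ∏ i ∈ s, (ZMod.stdAddChar (f i) : ℂ) := by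
  classical
  induction s using Finset.induction_on with
  | empty => simp
  | insert a s ha ih => rw [sum_insert ha, prod_insert ha, AddChar.map_add_eq_mul, ih]

theorem parseval (g : ZMod Q → ℂ) : ∑ ξ, ‖Sf g ξ‖ ^ 2 = Q * ∑ x, ‖g x‖ ^ 2 := by
  have h : ∑ ξ, (Sf g ξ * conj (Sf g ξ)) = (Q : ℂ) * ∑ x, g x * conj (g x) := by
    have e1 : ∀ ξ, Sf g ξ * conj (Sf g ξ) =
        ∑ x, ∑ y, g x * conj (g y) * ZMod.stdAddChar (ξ * (x - y)) := by
      intro ξ
      unfold Sf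
      rw [map_sum, sum_mul_sum]
      refine sum_congr rfl fun x _ => sum_congr rfl fun y _ => ?_
      rw [map_mul (starRingEnd ℂ), char_conj]
      have : (ZMod.stdAddChar (ξ * (x - y)) : ℂ) = ZMod.stdAddChar (ξ * x) * ZMod.stdAddChar (-(ξ * y)) := by
        rw [← AddChar.map_add_eq_mul]
        congr 1
        ring
      rw [this]
      ring
    rw [sum_congr rfl fun ξ _ => e1 ξ, sum_comm, mul_sum]
    refine sum_congr rfl fun x _ => ?_
    rw [sum_comm]
    have e2 : ∀ y, ∑ ξ : ZMod Q, g x * conj (g y) * ZMod.stdAddChar (ξ * (x - y)) =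
        if y = x then (Q : ℂ) * (g x * conj (g y)) else 0 := by
      intro y
      rw [← mul_sum, char_orth]
      by_cases h : y = x
      · rw [if_pos h, if_pos (by rw [h, sub_self])]; ring
      · rw [if_neg h, if_neg (fun e => h (sub_eq_zero.1 e).symm), mul_zero]
    rw [sum_congr rfl fun y _ => e2 y, sum_ite_eq' univ x, if_pos (mem_univ _)]
  have h2 : ((∑ ξ, ‖Sf g ξ‖ ^ 2 : ℝ) : ℂ) = ((Q * ∑ x, ‖g x‖ ^ 2 : ℝ) : ℂ) := by
    push_cast
    simp only [Complex.mul_conj] at h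
    calc ∑ ξ, ((‖Sf g ξ‖ : ℂ)) ^ 2 = ∑ ξ, ((Complex.normSq (Sf g ξ) : ℝ) : ℂ) := by
          refine sum_congr rfl fun ξ _ => ?_
          rw [Complex.normSq_eq_norm_sq]; push_cast; rfl
      _ = _ := h
      _ = _ := by
          congr 1
          refine sum_congr rfl fun x _ => ?_
          rw [Complex.normSq_eq_norm_sq]; push_cast; rfl
  exact_mod_cast h2

/-- the indicator function -/
noncomputable def indc (A : Finset (ZMod Q)) (x : ZMod Q) : ℂ := if x ∈ A then 1 else 0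

theorem Sf_indc (A : Finset (ZMod Q)) (ξ : ZMod Q) :
    Sf (indc A) ξ = ∑ x ∈ A, (ZMod.stdAddChar (ξ * x) : ℂ) := by
  unfold Sf indc
  have : ∀ x, (if x ∈ A then (1 : ℂ) else 0) * (ZMod.stdAddChar (ξ * x) : ℂ) =
      if x ∈ A then (ZMod.stdAddChar (ξ * x) : ℂ) else 0 := by
    intro x
    split_ifs <;> simp
  rw [sum_congr rfl fun x _ => this x, sum_ite_mem, univ_inter]

theorem Sf_neg (A : Finset (ZMod Q)) (ξ : ZMod Q) :
    Sf (indc (A.image (fun x => -x))) ξ = Sf (indc A) (-ξ) := by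
  rw [Sf_indc, Sf_indc, sum_image (fun x _ y _ h => neg_injective h)]
  refine sum_congr rfl fun x _ => ?_
  congr 1
  ring

theorem Sf_conj (A : Finset (ZMod Q)) (ξ : ZMod Q) : ‖Sf (indc A) (-ξ)‖ = ‖Sf (indc A) ξ‖ := by
  have : Sf (indc A) (-ξ) = conj (Sf (indc A) ξ) := by
    rw [Sf_indc, Sf_indc, map_sum]
    refine sum_congr rfl fun x _ => ?_
    rw [char_conj]
    congr 1
    ring
  rw [this, Complex.norm_conj]

theorem Sf_rep {s : ℕ} (A : Fin s → Finset (ZMod Q)) (ξ : ZMod Q) :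
    Sf (fun u => (rep A u : ℂ)) ξ = ∏ j, Sf (indc (A j)) ξ := by
  simp only [Sf_indc]
  rw [prod_univ_sum]
  unfold Sf rep
  rw [← sum_fiberwise (Fintype.piFinset A) (fun x : Fin s → ZMod Q => ∑ j, x j)]
  refine sum_congr rfl fun u _ => ?_
  rw [sum_congr rfl (g := fun _ => (ZMod.stdAddChar (ξ * u) : ℂ)), sum_const, nsmul_eq_mul]
  intro x hx
  rw [← char_sum, ← mul_sum, (mem_filter.1 hx).2]

theorem Sf_shift (g : ZMod Q → ℂ) (w ξ : ZMod Q) :
    Sf (fun u => g (u + w)) ξ = ZMod.stdAddChar (-(ξ * w)) * Sf g ξ := by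
  unfold Sf
  rw [mul_sum, ← Equiv.sum_comp (Equiv.addRight w) (fun u => ZMod.stdAddChar (-(ξ * w)) *
    (g u * ZMod.stdAddChar (ξ * u)))]
  refine sum_congr rfl fun u _ => ?_
  simp only [Equiv.coe_addRight]
  have : (ZMod.stdAddChar (ξ * u) : ℂ) = ZMod.stdAddChar (-(ξ * w)) * ZMod.stdAddChar (ξ * (u + w)) := by
    rw [← AddChar.map_add_eq_mul]
    congr 1
    ring
  rw [this]
  ring

theorem Sf_le (A : Finset (ZMod Q)) (ξ : ZMod Q) : ‖Sf (indc A) ξ‖ ≤ A.card := by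
  rw [Sf_indc]
  refine (norm_sum_le _ _).trans ?_
  simp

theorem sum_indc (A : Finset (ZMod Q)) : ∑ x, ‖indc A x‖ ^ 2 = A.card := by
  have : ∀ x, ‖indc A x‖ ^ 2 = if x ∈ A then (1 : ℝ) else 0 := by
    intro x
    unfold indc
    split_ifs <;> simp
  rw [sum_congr rfl fun x _ => this x, sum_boole]
  have h2 : univ.filter (fun x => x ∈ A) = A := by ext; simp
  rw [h2]

open Classical in
/-- the large spectrum is small -/
theorem spec_card (A : Finset (ZMod Q)) {t : ℝ} (ht : 0 < t) :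
    ((univ.filter (fun ξ => t ≤ ‖Sf (indc A) ξ‖)).card : ℝ) * t ^ 2 ≤ Q * A.card := by
  rw [← sum_indc A, ← parseval, ← nsmul_eq_mul]
  refine (card_nsmul_le_sum _ (fun ξ => ‖Sf (indc A) ξ‖ ^ 2) _ ?_).trans
    (sum_le_sum_of_subset_of_nonneg (filter_subset _ _) fun ξ _ _ => sq_nonneg _)
  intro ξ hξ
  exact pow_le_pow_left₀ ht.le (mem_filter.1 hξ).2 2

/-- **almost periods** of the number of representations -/
theorem almost_period {m : ℕ} (A : Fin (m + 2) → Finset (ZMod Q)) {n t σ : ℝ} (ht : 0 ≤ t) (hσ : 0 ≤ σ)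
    (hA : ∀ j, ((A j).card : ℝ) ≤ n) (w : ZMod Q)
    (hw : ∀ ξ : ZMod Q, t ≤ ‖Sf (indc (A 0)) ξ‖ → ‖(ZMod.stdAddChar (-(ξ * w)) : ℂ) - 1‖ ≤ σ) :
    ∑ u, ((rep A (u + w) : ℝ) - rep A u) ^ 2 ≤ (σ ^ 2 * n ^ 2 + 4 * t ^ 2) * n ^ (2 * m + 1) := by
  have hn : 0 ≤ n := (Nat.cast_nonneg _).trans (hA 0)
  have hQ : (0 : ℝ) < Q := by exact_mod_cast (NeZero.pos Q)
  set g : ZMod Q → ℂ := fun u => (rep A (u + w) : ℂ) - rep A u with hg
  have h1 : ∀ ξ, Sf g ξ = ((ZMod.stdAddChar (-(ξ * w)) : ℂ) - 1) * ∏ j, Sf (indc (A j)) ξ := by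
    intro ξ
    have e1 : Sf g ξ = Sf (fun u => (rep A (u + w) : ℂ)) ξ - Sf (fun u => (rep A u : ℂ)) ξ := by
      unfold Sf
      rw [← sum_sub_distrib]
      exact sum_congr rfl fun x _ => by simp only [hg]; ring
    rw [e1, Sf_shift (fun u => (rep A u : ℂ)) w ξ, Sf_rep]
    ring
  have h2 := parseval g
  have h3 : ∑ x, ‖g x‖ ^ 2 = ∑ u, ((rep A (u + w) : ℝ) - rep A u) ^ 2 := by
    refine sum_congr rfl fun u _ => ?_
    have : g u = (((rep A (u + w) : ℝ) - rep A u : ℝ) : ℂ) := by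
      simp only [hg]; push_cast; rfl
    rw [this, Complex.norm_real, Real.norm_eq_abs, sq_abs]
  rw [h3] at h2
  have h4 : ∀ ξ, ‖Sf g ξ‖ ^ 2 ≤ (σ ^ 2 * n ^ 2 + 4 * t ^ 2) * n ^ (2 * m) * ‖Sf (indc (A 1)) ξ‖ ^ 2 := by
    intro ξ
    have hp : ‖∏ j : Fin m, Sf (indc (A j.succ.succ)) ξ‖ ≤ n ^ m := by
      rw [norm_prod]
      refine (prod_le_prod (fun j _ => norm_nonneg _) fun j _ => (Sf_le _ ξ).trans (hA _)).trans ?_
      rw [prod_const, card_univ, Fintype.card_fin]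
    have hp2 := pow_le_pow_left₀ (norm_nonneg _) hp 2
    rw [h1, Fin.prod_univ_succ, Fin.prod_univ_succ, norm_mul, norm_mul, norm_mul, mul_pow, mul_pow, mul_pow]
    have e1 : (Fin.succ 0 : Fin (m + 2)) = 1 := rfl
    rw [e1]
    have h5 : ‖(ZMod.stdAddChar (-(ξ * w)) : ℂ) - 1‖ ^ 2 * ‖Sf (indc (A 0)) ξ‖ ^ 2 ≤
        σ ^ 2 * n ^ 2 + 4 * t ^ 2 := by
      by_cases h6 : t ≤ ‖Sf (indc (A 0)) ξ‖
      · have h7 := pow_le_pow_left₀ (norm_nonneg _) (hw ξ h6) 2
        have h8 := pow_le_pow_left₀ (norm_nonneg _) ((Sf_le (A 0) ξ).trans (hA 0)) 2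
        have h9 := mul_le_mul h7 h8 (sq_nonneg _) (sq_nonneg _)
        nlinarith [sq_nonneg t]
      · have h7 : ‖(ZMod.stdAddChar (-(ξ * w)) : ℂ) - 1‖ ≤ 2 := by
          refine (norm_sub_le _ _).trans ?_
          rw [AddChar.norm_apply, norm_one]
          norm_num
        have h8 := pow_le_pow_left₀ (norm_nonneg _) h7 2
        have h9 := pow_le_pow_left₀ (norm_nonneg _) (not_le.1 h6).le 2
        have h10 := mul_le_mul h8 h9 (sq_nonneg _) (by positivity)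
        have h11 : 0 ≤ σ ^ 2 * n ^ 2 := by positivity
        linarith
    have h12 : (n ^ m) ^ 2 = n ^ (2 * m) := by rw [← pow_mul, mul_comm]
    rw [h12] at hp2
    calc ‖(ZMod.stdAddChar (-(ξ * w)) : ℂ) - 1‖ ^ 2 * (‖Sf (indc (A 0)) ξ‖ ^ 2 * (‖Sf (indc (A 1)) ξ‖ ^ 2 *
          ‖∏ j : Fin m, Sf (indc (A j.succ.succ)) ξ‖ ^ 2))
        = (‖(ZMod.stdAddChar (-(ξ * w)) : ℂ) - 1‖ ^ 2 * ‖Sf (indc (A 0)) ξ‖ ^ 2) *
          ‖∏ j : Fin m, Sf (indc (A j.succ.succ)) ξ‖ ^ 2 * ‖Sf (indc (A 1)) ξ‖ ^ 2 := by ring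
      _ ≤ _ := mul_le_mul_of_nonneg_right (mul_le_mul h5 hp2 (sq_nonneg _) (by positivity)) (sq_nonneg _)
  have h5 : (Q : ℝ) * ∑ u, ((rep A (u + w) : ℝ) - rep A u) ^ 2 ≤
      Q * ((σ ^ 2 * n ^ 2 + 4 * t ^ 2) * n ^ (2 * m) * (A 1).card) := by
    rw [← h2]
    calc ∑ ξ, ‖Sf g ξ‖ ^ 2 ≤ ∑ ξ, (σ ^ 2 * n ^ 2 + 4 * t ^ 2) * n ^ (2 * m) * ‖Sf (indc (A 1)) ξ‖ ^ 2 :=
          sum_le_sum fun ξ _ => h4 ξ
      _ = (σ ^ 2 * n ^ 2 + 4 * t ^ 2) * n ^ (2 * m) * (Q * (A 1).card) := by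
          rw [← mul_sum, parseval, sum_indc]
      _ = _ := by ring
  have h6 := le_of_mul_le_mul_left h5 hQ
  refine h6.trans ?_
  have e : n ^ (2 * m + 1) = n ^ (2 * m) * n := pow_succ _ _
  rw [e, ← mul_assoc]
  exact mul_le_mul_of_nonneg_left (hA 1) (by positivity)

end four

end Pool.Agent.K7.H62
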