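import Mathlib
import Pool.Agent.K7.H62.Four

/-! Counting simultaneous representations, and lifting them to the integers. -/

set_option autoImplicit false

namespace Pool.Agent.K7.H62

open Finset

theorem prod_two {m n : ℕ} (c : Fin (m + 2) → ℕ) {j j' : Fin (m + 2)} (hj : j ≠ j') (h1 : c j = 1)
    (h2 : c j' = 1) (h : ∀ i, i ≠ j → i ≠ j' → c i ≤ n) : ∏ i, c i ≤ n ^ m := by
  rw [← mul_prod_erase univ c (mem_univ j), ← mul_prod_erase (univ.erase j) c (a := j')
    (mem_erase.2 ⟨hj.symm, mem_univ _⟩), h1, h2, one_mul, one_mul]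
  refine (prod_le_pow_card _ _ n fun i hi => ?_).trans ?_
  · rw [mem_erase, mem_erase] at hi
    exact h i hi.2.1 hi.1
  · rw [card_erase_of_mem (mem_erase.2 ⟨hj.symm, mem_univ _⟩), card_erase_of_mem (mem_univ _), card_univ,
      Fintype.card_fin]
    exact le_of_eq rfl

theorem rep_single {G : Type} [AddCommGroup G] [DecidableEq G] {m n : ℕ} (A : Fin (m + 2) → Finset G)
    (hA : ∀ j, (A j).card ≤ n) (j : Fin (m + 2)) (b u : G) :
    rep (Function.update A j {b}) u ≤ n ^ m := by
  obtain ⟨j', hj'⟩ : ∃ j' : Fin (m + 2), j ≠ j' := by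
    by_cases h : j = 0
    · exact ⟨1, by rw [h]; exact Fin.zero_ne_one⟩
    · exact ⟨0, h⟩
  refine (rep_le _ u j').trans (prod_two _ hj' ?_ ?_ ?_)
  · rw [Function.update_of_ne hj', Function.update_self, card_singleton]
  · rw [Function.update_self, card_singleton]
  · intro i h1 h2
    rw [Function.update_of_ne h2, Function.update_of_ne h1]
    exact hA i

/-- **counting**: many simultaneous representations imply that one avoids the exceptional tuples -/
theorem count_lemma {G : Type} [AddCommGroup G] [DecidableEq G] [Fintype G] {m k n E : ℕ}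
    (A : Fin (m + 2) → Finset G) (hA : ∀ j, (A j).card ≤ n) (w : Fin (k + 1) → G)
    (Bad : Fin (m + 2) → Finset (Fin (k + 1) → G)) (hE : ∀ j, (Bad j).card ≤ E)
    (h : (m + 2) * Fintype.card G * E * n ^ (m * (k + 1)) < ∑ u, ∏ i, rep A (u + w i)) :
    ∃ (u : G) (x : Fin (k + 1) → Fin (m + 2) → G), (∀ i j, x i j ∈ A j) ∧ (∀ i, ∑ j, x i j = u + w i) ∧
      ∀ j, (fun i => x i j) ∉ Bad j := by
  by_contra hcon
  push Not at hcon
  refine absurd h (not_lt.2 ?_)
  have h1 : ∀ u, ∏ i, rep A (u + w i) ≤ (m + 2) * (E * n ^ (m * (k + 1))) := by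
    intro u
    have e1 : ∏ i, rep A (u + w i) = (Fintype.piFinset (fun i : Fin (k + 1) =>
        (Fintype.piFinset A).filter (fun x => ∑ j, x j = u + w i))).card := by
      rw [Fintype.card_piFinset]; rfl
    have e2 : Fintype.piFinset (fun i : Fin (k + 1) =>
        (Fintype.piFinset A).filter (fun x => ∑ j, x j = u + w i)) ⊆
        univ.biUnion (fun j => (Bad j).biUnion (fun b => Fintype.piFinset (fun i : Fin (k + 1) =>
          (Fintype.piFinset (Function.update A j {b i})).filter (fun x => ∑ j, x j = u + w i)))) := by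
      intro x hx
      rw [Fintype.mem_piFinset] at hx
      have hx1 : ∀ i j, x i j ∈ A j := fun i j => by
        have := (mem_filter.1 (hx i)).1
        rw [Fintype.mem_piFinset] at this
        exact this j
      have hx2 : ∀ i, ∑ j, x i j = u + w i := fun i => (mem_filter.1 (hx i)).2
      obtain ⟨j, hj⟩ := hcon u x hx1 hx2
      rw [mem_biUnion]
      refine ⟨j, mem_univ _, ?_⟩
      rw [mem_biUnion]
      refine ⟨_, hj, ?_⟩
      rw [Fintype.mem_piFinset]
      intro i
      rw [mem_filter, Fintype.mem_piFinset]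
      refine ⟨fun l => ?_, hx2 i⟩
      by_cases hl : l = j
      · subst hl
        rw [Function.update_self, mem_singleton]
      · rw [Function.update_of_ne hl]
        exact hx1 i l
    rw [e1]
    refine (card_le_card e2).trans (card_biUnion_le.trans ?_)
    have e3 : ∀ j ∈ (univ : Finset (Fin (m + 2))), ((Bad j).biUnion (fun b => Fintype.piFinset (fun i : Fin (k + 1) =>
          (Fintype.piFinset (Function.update A j {b i})).filter (fun x => ∑ j, x j = u + w i)))).card ≤
          E * n ^ (m * (k + 1)) := by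
      intro j _
      refine card_biUnion_le.trans ?_
      have e4 : ∀ b ∈ Bad j, (Fintype.piFinset (fun i : Fin (k + 1) =>
          (Fintype.piFinset (Function.update A j {b i})).filter (fun x => ∑ j, x j = u + w i))).card ≤
          n ^ (m * (k + 1)) := by
        intro b _
        rw [Fintype.card_piFinset, pow_mul]
        refine (prod_le_pow_card _ _ (n ^ m) fun i _ => rep_single A hA j (b i) (u + w i)).trans ?_
        rw [card_univ, Fintype.card_fin]
      refine (sum_le_card_nsmul _ _ _ e4).trans ?_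
      rw [smul_eq_mul]
      exact Nat.mul_le_mul_right _ (hE j)
    refine (sum_le_card_nsmul _ _ _ e3).trans ?_
    rw [card_univ, Fintype.card_fin, smul_eq_mul]
  refine (sum_le_card_nsmul _ _ _ fun u _ => h1 u).trans ?_
  rw [card_univ, smul_eq_mul]
  exact le_of_eq (by ring)

/-- the image of a set of integers modulo `Q`, with a sign -/
def imgQ (Q : ℕ) (σ : ℤ) (A : Finset ℤ) : Finset (ZMod Q) := A.image (fun a => ((σ * a : ℤ) : ZMod Q))

open Classical in
/-- **lifting** -/
theorem lift {m k n E Q : ℕ} [NeZero Q] (hQ : Q = (m + 3) * n) (A : Finset ℤ) (hA : A ⊆ Icc 1 (n : ℤ))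
    (σ : Fin (m + 2) → ℤ) (hσ : ∀ j, σ j = 1 ∨ σ j = -1) (w : Fin (k + 1) → ℤ)
    (hw : ∀ i, |w i - w 0| ≤ n) (P : (Fin (k + 1) → ℤ) → Prop)
    (hE : ((Fintype.piFinset (fun _ : Fin (k + 1) => A)).filter (fun a => ¬ P a)).card ≤ E)
    (h : (((m + 2) * Q * E * n ^ (m * (k + 1)) : ℕ) : ℝ) < ∑ u : ZMod Q, ∏ i : Fin (k + 1),
      (rep (fun j => imgQ Q (σ j) A) (u + (w i : ZMod Q)) : ℝ)) :
    ∃ a : Fin (m + 2) → Fin (k + 1) → ℤ, (∀ j, P (a j)) ∧ (∀ j i, a j i ∈ A) ∧
      ∀ i, ∑ j, σ j * (a j i - a j 0) = w i - w 0 := by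
  have hcA : A.card ≤ n := by
    refine (card_le_card hA).trans ?_
    rw [Int.card_Icc]
    omega
  obtain ⟨u, x, hx1, hx2, hx3⟩ := count_lemma (G := ZMod Q) (n := n) (E := E)
    (fun j => imgQ Q (σ j) A)
    (fun j => card_image_le.trans hcA) (fun i => (w i : ZMod Q))
    (fun j => ((Fintype.piFinset (fun _ : Fin (k + 1) => A)).filter (fun a => ¬ P a)).image
      (fun a => fun i => ((σ j * a i : ℤ) : ZMod Q)))
    (fun j => card_image_le.trans hE) (by
      rw [ZMod.card]; exact_mod_cast h)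
  have hx4 : ∀ i j, ∃ a ∈ A, ((σ j * a : ℤ) : ZMod Q) = x i j := fun i j => mem_image.1 (hx1 i j)
  choose a ha1 ha2 using hx4
  refine ⟨fun j i => a i j, ?_, fun j i => ha1 i j, ?_⟩
  · intro j
    by_contra hP
    refine hx3 j (mem_image.2 ⟨fun i => a i j, mem_filter.2 ⟨?_, hP⟩, ?_⟩)
    · rw [Fintype.mem_piFinset]
      exact fun i => ha1 i j
    · funext i
      exact ha2 i j
  · intro i
    have hs : ∀ i j, 1 ≤ a i j ∧ a i j ≤ n := fun i j => mem_Icc.1 (hA (ha1 i j))
    have h1 : ((∑ j, σ j * (a i j - a 0 j) - (w i - w 0) : ℤ) : ZMod Q) = 0 := by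
      have e1 : ∀ i, ((∑ j, σ j * a i j : ℤ) : ZMod Q) = u + (w i : ZMod Q) := by
        intro i
        rw [← hx2 i, Int.cast_sum]
        exact sum_congr rfl fun j _ => ha2 i j
      have e2 : (∑ j, σ j * (a i j - a 0 j) - (w i - w 0) : ℤ) =
          (∑ j, σ j * a i j) - (∑ j, σ j * a 0 j) - (w i - w 0) := by
        congr 1
        rw [← sum_sub_distrib]
        exact sum_congr rfl fun j _ => by ring
      rw [e2, Int.cast_sub, Int.cast_sub, e1, e1]
      push_cast
      ring
    rw [ZMod.intCast_zmod_eq_zero_iff_dvd] at h1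
    have h2 : |∑ j, σ j * (a i j - a 0 j) - (w i - w 0)| < (Q : ℤ) := by
      have e1 : |∑ j, σ j * (a i j - a 0 j)| ≤ ∑ j : Fin (m + 2), ((n : ℤ) - 1) := by
        refine (abs_sum_le_sum_abs _ _).trans (sum_le_sum fun j _ => ?_)
        rw [abs_mul]
        have e2 : |σ j| = 1 := by
          rcases hσ j with h | h <;> rw [h] <;> simp
        rw [e2, one_mul, abs_le]
        have h3 := hs i j
        have h4 := hs 0 j
        constructor <;> linarith
      rw [sum_const, card_univ, Fintype.card_fin, nsmul_eq_mul] at e1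
      have e3 := abs_sub (∑ j, σ j * (a i j - a 0 j)) (w i - w 0)
      have e4 := hw i
      rw [hQ]
      push_cast at e1 ⊢
      have e5 : ((m : ℤ) + 2) * ((n : ℤ) - 1) + n < ((m : ℤ) + 3) * n := by
        nlinarith [Int.natCast_nonneg m]
      linarith
    have h3 := Int.eq_zero_of_abs_lt_dvd h1 h2
    linarith

end Pool.Agent.K7.H62
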