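import Mathlib
import Pool.Agent.K7.H62.Cnt

/-! Frequencies of the almost periods. -/

set_option autoImplicit false

namespace Pool.Agent.K7.H62

open Finset

theorem norm_char_le {Q : ℕ} [NeZero Q] (ξ : ZMod Q) (h : ℤ) {ρ : ℝ}
    (hρ : |(h : ℝ) * (((ξ.val : ℕ) : ℝ) / Q) - round ((h : ℝ) * (((ξ.val : ℕ) : ℝ) / Q))| ≤ ρ) :
    ‖(ZMod.stdAddChar (-(ξ * (h : ZMod Q))) : ℂ) - 1‖ ≤ 2 * Real.pi * ρ := by
  have hQ : (Q : ℂ) ≠ 0 := by exact_mod_cast (NeZero.ne Q)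
  have e1 : (-(ξ * (h : ZMod Q))) = ((-((ξ.val : ℕ) : ℤ) * h : ℤ) : ZMod Q) := by
    push_cast
    rw [ZMod.natCast_zmod_val]
    ring
  rw [e1, ZMod.stdAddChar_coe]
  set y : ℝ := (h : ℝ) * (((ξ.val : ℕ) : ℝ) / Q) with hy
  have e2 : Complex.exp (2 * Real.pi * Complex.I * ((-((ξ.val : ℕ) : ℤ) * h : ℤ) : ℂ) / Q) =
      Complex.exp (Complex.I * ((-(2 * Real.pi * (y - round y)) : ℝ) : ℂ)) := by
    rw [Complex.exp_eq_exp_iff_exists_int]
    refine ⟨-round y, ?_⟩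
    rw [hy]
    push_cast
    field_simp
    ring
  rw [e2]
  refine (Real.norm_exp_I_mul_ofReal_sub_one_le).trans ?_
  rw [norm_neg, Real.norm_eq_abs, abs_mul, abs_of_pos (by positivity : (0 : ℝ) < 2 * Real.pi)]
  exact mul_le_mul_of_nonneg_left hρ (by positivity)

theorem imgQ_norm {Q : ℕ} [NeZero Q] (A : Finset ℤ) {σ : ℤ} (hσ : σ = 1 ∨ σ = -1) (ξ : ZMod Q) :
    ‖Sf (indc (imgQ Q σ A)) ξ‖ = ‖Sf (indc (imgQ Q 1 A)) ξ‖ := by
  rcases hσ with rfl | rfl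
  · rfl
  · have : imgQ Q (-1) A = (imgQ Q 1 A).image (fun x => -x) := by
      unfold imgQ
      rw [image_image]
      refine image_congr fun a _ => ?_
      simp
    rw [this, Sf_neg, Sf_conj]

/-- **frequencies** for all choices of the signs -/
theorem freq {m n d Q : ℕ} (hn : 1 ≤ n) [NeZero Q] (hQ : Q = (m + 3) * n) (A : Finset ℤ) (hA : A.card ≤ n)
    {η ρ : ℝ} (hη : 0 < η) (hρ : 0 ≤ ρ) (hd : ((m : ℝ) + 3) / η ^ 2 ≤ d) :
    ∃ θ : Fin d → ℝ, (∀ j, 0 ≤ θ j ∧ θ j ≤ 1) ∧ ∀ σ : Fin (m + 2) → ℤ, (∀ j, σ j = 1 ∨ σ j = -1) → ∀ h : ℤ,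
      (∀ j, |(h : ℝ) * θ j - round ((h : ℝ) * θ j)| ≤ ρ) →
      ∑ u : ZMod Q, ((rep (fun j => imgQ Q (σ j) A) (u + (h : ZMod Q)) : ℝ) -
        rep (fun j => imgQ Q (σ j) A) u) ^ 2 ≤ ((2 * Real.pi * ρ) ^ 2 + 4 * η ^ 2) * (n : ℝ) ^ (2 * m + 3) := by
  classical
  have hn0 : (0 : ℝ) < n := by exact_mod_cast hn
  set t : ℝ := η * n with ht
  have ht0 : 0 < t := by positivity
  have hcard : ∀ σ : ℤ, ((imgQ Q σ A).card : ℝ) ≤ n := fun σ => by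
    exact_mod_cast (card_image_le.trans hA : (imgQ Q σ A).card ≤ n)
  set Λ : Finset (ZMod Q) := univ.filter (fun ξ => t ≤ ‖Sf (indc (imgQ Q 1 A)) ξ‖) with hΛ
  have hΛc : Λ.card ≤ d := by
    have h1 := spec_card (imgQ Q 1 A) ht0
    have h2 : (Λ.card : ℝ) * t ^ 2 ≤ Q * n := by
      refine le_trans ?_ (h1.trans (mul_le_mul_of_nonneg_left (hcard 1) (by positivity)))
      exact le_of_eq rfl
    have h3 : (Λ.card : ℝ) ≤ d := by
      refine le_trans ?_ hd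
      rw [le_div_iff₀ (by positivity)]
      have h4 : ((Q : ℕ) : ℝ) = (m + 3) * n := by rw [hQ]; push_cast; ring
      rw [h4, ht] at h2
      have h5 : (Λ.card : ℝ) * η ^ 2 * (n : ℝ) ^ 2 ≤ ((m : ℝ) + 3) * (n : ℝ) ^ 2 := by
        calc (Λ.card : ℝ) * η ^ 2 * (n : ℝ) ^ 2 = (Λ.card : ℝ) * (η * n) ^ 2 := by ring
          _ ≤ _ := h2
          _ = _ := by ring
      exact le_of_mul_le_mul_right h5 (by positivity)
    exact_mod_cast h3
  refine ⟨fun j => if h : (j : ℕ) < Λ.card then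
    (((Λ.equivFin.symm ⟨j, h⟩ : ZMod Q).val : ℕ) : ℝ) / Q else 0, ?_, ?_⟩
  · intro j
    have hQ0 : (0 : ℝ) < Q := by exact_mod_cast (NeZero.pos Q)
    dsimp only
    split_ifs with h
    · refine ⟨by positivity, ?_⟩
      rw [div_le_one hQ0]
      exact_mod_cast (ZMod.val_lt _).le
    · exact ⟨le_rfl, zero_le_one⟩
  · intro σ hσ h hh
    have h1 := almost_period (fun j => imgQ Q (σ j) A) (n := (n : ℝ)) (t := t) (σ := 2 * Real.pi * ρ) ht0.le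
      (by positivity) (fun j => hcard (σ j)) (h : ZMod Q) (by
        intro ξ hξ
        apply norm_char_le
        rw [imgQ_norm A (hσ 0)] at hξ
        have hmem : ξ ∈ Λ := mem_filter.2 ⟨mem_univ _, hξ⟩
        set i := Λ.equivFin ⟨ξ, hmem⟩ with hi
        have h2 := hh ⟨i, lt_of_lt_of_le i.2 hΛc⟩
        dsimp only at h2
        rw [dif_pos i.2] at h2
        have h3 : Λ.equivFin.symm ⟨(i : ℕ), i.2⟩ = ⟨ξ, hmem⟩ := by
          rw [Fin.eta, hi, Equiv.symm_apply_apply]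
        rw [h3] at h2
        exact h2)
    refine h1.trans (le_of_eq ?_)
    rw [ht]
    ring

/-- cluster points -/
theorem cluster {d : ℕ} (x : ℕ → Fin d → ℝ) (hx : ∀ n j, 0 ≤ x n j ∧ x n j ≤ 1) :
    ∃ θ : Fin d → ℝ, ∀ δ : ℝ, 0 < δ → ∀ N : ℕ, ∃ n, N ≤ n ∧ ∀ j, |x n j - θ j| ≤ δ := by
  obtain ⟨θ, -, φ, hφ, hlim⟩ := (isCompact_Icc (a := (0 : Fin d → ℝ)) (b := 1)).tendsto_subseq (x := x)
    (fun n => ⟨fun j => (hx n j).1, fun j => (hx n j).2⟩)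
  refine ⟨θ, fun δ hδ N => ?_⟩
  rw [Metric.tendsto_atTop] at hlim
  obtain ⟨N', hN'⟩ := hlim δ hδ
  refine ⟨φ (max N N'), (le_max_left _ _).trans (hφ.id_le _), fun j => ?_⟩
  have h1 := hN' (max N N') (le_max_right _ _)
  have h2 := dist_le_pi_dist ((x ∘ φ) (max N N')) θ j
  rw [Real.dist_eq] at h2
  exact h2.trans h1.le

/-- the distance to the nearest integer -/
theorem dist_round_le {x y : ℝ} (m : ℤ) {a b : ℝ} (h1 : |x - m| ≤ a) (h2 : |y - x| ≤ b) :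
    |y - round y| ≤ a + b := by
  refine (round_le y m).trans ?_
  have : y - m = (x - m) + (y - x) := by ring
  rw [this]
  exact (abs_add_le _ _).trans (add_le_add h1 h2)

end Pool.Agent.K7.H62
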