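import Mathlib
import Pool.Agent.K7.H62.Freq

/-! Uniformity of a set relative to a Bohr set. -/

set_option autoImplicit false

namespace Pool.Agent.K7.H62

open Finset ComplexConjugate

variable {Q : ℕ} [NeZero Q]

/-- partial Fourier sum -/
noncomputable def part (c : ZMod Q → ℂ) (L : Finset (ZMod Q)) (h : ZMod Q) : ℂ :=
  (Q : ℂ)⁻¹ * ∑ ξ ∈ L, Sf c ξ * ZMod.stdAddChar (-(ξ * h))

theorem Sf_part (c : ZMod Q → ℂ) (L : Finset (ZMod Q)) (ζ : ZMod Q) :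
    Sf (part c L) ζ = if ζ ∈ L then Sf c ζ else 0 := by
  classical
  have hQ : (Q : ℂ) ≠ 0 := by exact_mod_cast (NeZero.ne Q)
  have e1 : Sf (part c L) ζ = (Q : ℂ)⁻¹ * ∑ ξ ∈ L, Sf c ξ * ∑ h : ZMod Q, (ZMod.stdAddChar (h * (ζ - ξ)) : ℂ) := by
    show ∑ h, part c L h * ZMod.stdAddChar (ζ * h) = _
    unfold part
    rw [mul_sum]
    simp only [mul_sum, sum_mul]
    rw [sum_comm]
    refine sum_congr rfl fun ξ _ => sum_congr rfl fun h _ => ?_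
    have : (ZMod.stdAddChar (h * (ζ - ξ)) : ℂ) = ZMod.stdAddChar (-(ξ * h)) * ZMod.stdAddChar (ζ * h) := by
      rw [← AddChar.map_add_eq_mul]
      congr 1
      ring
    rw [this]
    ring
  rw [e1]
  have e2 : ∀ ξ ∈ L, Sf c ξ * ∑ h : ZMod Q, (ZMod.stdAddChar (h * (ζ - ξ)) : ℂ) =
      if ξ = ζ then (Q : ℂ) * Sf c ζ else 0 := by
    intro ξ _
    rw [char_orth]
    by_cases h : ξ = ζ
    · rw [if_pos h, if_pos (by rw [h, sub_self]), h]; ring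
    · rw [if_neg h, if_neg (fun e => h (sub_eq_zero.1 e).symm), mul_zero]
  rw [sum_congr rfl e2, sum_ite_eq' L ζ]
  split_ifs
  · field_simp
  · rw [mul_zero]

theorem Sf_sub (a b : ZMod Q → ℂ) (ξ : ZMod Q) : Sf (fun x => a x - b x) ξ = Sf a ξ - Sf b ξ := by
  unfold Sf
  rw [← sum_sub_distrib]
  exact sum_congr rfl fun x _ => by ring

/-- correlations with all functions are small on average over the translates by `B` -/
theorem corr_small (F Φ : ZMod Q → ℂ) (hΦ : ∀ x, ‖Φ x‖ ≤ 1) (L B : Finset (ZMod Q)) {κ η μ : ℝ} (hκ : 0 ≤ κ)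
    (hη : 0 ≤ η) (hμ : 0 < μ) (h1 : ∑ ξ ∈ L, ‖Sf F ξ‖ ^ 2 ≤ κ ^ 2 * (Q : ℝ) ^ 2) (h2 : ∀ ξ, ξ ∉ L → ‖Sf F ξ‖ ≤ η * Q)
    (hB : μ ^ 2 * Q ≤ B.card) :
    ∑ h ∈ B, ‖∑ x, Φ x * F (x + h)‖ ≤ (κ + η / μ) * (Q * B.card) := by
  classical
  have hQ : (0 : ℝ) < Q := by exact_mod_cast (NeZero.pos Q)
  set c : ZMod Q → ℂ := fun h => ∑ x, Φ x * F (x + h) with hc
  have hPhi : ∑ ξ, ‖Sf Φ ξ‖ ^ 2 ≤ (Q : ℝ) ^ 2 := by
    rw [parseval, sq]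
    refine mul_le_mul_of_nonneg_left ?_ hQ.le
    refine (sum_le_card_nsmul _ _ 1 fun x _ => pow_le_one₀ (norm_nonneg _) (hΦ x)).trans ?_
    rw [card_univ, ZMod.card, nsmul_eq_mul, mul_one]
  have hPhi' : ∑ ξ, ‖Sf Φ (-ξ)‖ ^ 2 ≤ (Q : ℝ) ^ 2 := by
    exact (le_of_eq (Equiv.sum_comp (Equiv.neg (ZMod Q)) (fun ξ => ‖Sf Φ ξ‖ ^ 2))).trans hPhi
  have hcS : ∀ ξ, Sf c ξ = Sf Φ (-ξ) * Sf F ξ := by
    intro ξ
    show ∑ h, (∑ x, Φ x * F (x + h)) * ZMod.stdAddChar (ξ * h) = _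
    unfold Sf
    rw [sum_mul_sum]
    simp only [sum_mul]
    rw [sum_comm]
    refine sum_congr rfl fun x _ => ?_
    rw [← Equiv.sum_comp (Equiv.addLeft x) (fun y => Φ x * ZMod.stdAddChar (-ξ * x) * (F y * ZMod.stdAddChar (ξ * y)))]
    refine sum_congr rfl fun h _ => ?_
    simp only [Equiv.coe_addLeft]
    have : (ZMod.stdAddChar (ξ * h) : ℂ) = ZMod.stdAddChar (-ξ * x) * ZMod.stdAddChar (ξ * (x + h)) := by
      rw [← AddChar.map_add_eq_mul]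
      congr 1
      ring
    rw [this]
    ring
  -- the structured part
  have ha : ∀ h, ‖part c L h‖ ≤ κ * Q := by
    intro h
    unfold part
    rw [norm_mul, norm_inv, Complex.norm_natCast]
    have e1 : ‖∑ ξ ∈ L, Sf c ξ * (ZMod.stdAddChar (-(ξ * h)) : ℂ)‖ ≤ ∑ ξ ∈ L, ‖Sf Φ (-ξ)‖ * ‖Sf F ξ‖ := by
      refine (norm_sum_le _ _).trans (sum_le_sum fun ξ _ => ?_)
      rw [norm_mul, AddChar.norm_apply, mul_one, hcS, norm_mul]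
    have e2 := sum_mul_sq_le_sq_mul_sq L (fun ξ => ‖Sf Φ (-ξ)‖) (fun ξ => ‖Sf F ξ‖)
    have e3 : ∑ ξ ∈ L, ‖Sf Φ (-ξ)‖ ^ 2 ≤ (Q : ℝ) ^ 2 :=
      (sum_le_sum_of_subset_of_nonneg (subset_univ _) fun _ _ _ => sq_nonneg _).trans hPhi'
    have e4 : (∑ ξ ∈ L, ‖Sf Φ (-ξ)‖ * ‖Sf F ξ‖) ^ 2 ≤ (κ * (Q : ℝ) ^ 2) ^ 2 := by
      refine e2.trans ?_
      calc (∑ ξ ∈ L, ‖Sf Φ (-ξ)‖ ^ 2) * ∑ ξ ∈ L, ‖Sf F ξ‖ ^ 2 ≤ (Q : ℝ) ^ 2 * (κ ^ 2 * (Q : ℝ) ^ 2) :=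
            mul_le_mul e3 h1 (sum_nonneg fun _ _ => sq_nonneg _) (by positivity)
        _ = _ := by ring
    have e5 : ∑ ξ ∈ L, ‖Sf Φ (-ξ)‖ * ‖Sf F ξ‖ ≤ κ * (Q : ℝ) ^ 2 :=
      le_of_sq_le_sq e4 (by positivity)
    calc ((Q : ℝ))⁻¹ * ‖∑ ξ ∈ L, Sf c ξ * (ZMod.stdAddChar (-(ξ * h)) : ℂ)‖ ≤ ((Q : ℝ))⁻¹ * (κ * (Q : ℝ) ^ 2) :=
          mul_le_mul_of_nonneg_left (e1.trans e5) (by positivity)
      _ = κ * Q := by field_simp
  -- the uniform part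
  set d : ZMod Q → ℂ := fun h => c h - part c L h with hd
  have hdS : ∀ ξ, Sf d ξ = if ξ ∈ L then 0 else Sf c ξ := by
    intro ξ
    rw [hd, Sf_sub, Sf_part]
    split_ifs <;> simp
  have hd2 : ∑ h, ‖d h‖ ^ 2 ≤ η ^ 2 * (Q : ℝ) ^ 3 := by
    have e1 := parseval d
    have e2 : ∑ ξ, ‖Sf d ξ‖ ^ 2 ≤ (η * Q) ^ 2 * (Q : ℝ) ^ 2 := by
      have e3 : ∀ ξ, ‖Sf d ξ‖ ^ 2 ≤ (η * Q) ^ 2 * ‖Sf Φ (-ξ)‖ ^ 2 := by
        intro ξ
        rw [hdS]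
        split_ifs with h
        · rw [norm_zero, zero_pow two_ne_zero]; positivity
        · rw [hcS, norm_mul, mul_pow, mul_comm]
          exact mul_le_mul_of_nonneg_right (pow_le_pow_left₀ (norm_nonneg _) (h2 ξ h) 2) (sq_nonneg _)
      refine (sum_le_sum fun ξ _ => e3 ξ).trans ?_
      rw [← mul_sum]
      exact mul_le_mul_of_nonneg_left hPhi' (sq_nonneg _)
    rw [e1] at e2
    have e4 : (Q : ℝ) * ∑ h, ‖d h‖ ^ 2 ≤ Q * (η ^ 2 * (Q : ℝ) ^ 3) := by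
      refine e2.trans (le_of_eq (by ring))
    exact le_of_mul_le_mul_left e4 hQ
  have hd3 : ∑ h ∈ B, ‖d h‖ ≤ η / μ * (Q * B.card) := by
    have e1 := sq_sum_le_card_mul_sum_sq (s := B) (f := fun h => ‖d h‖)
    have e2 : (∑ h ∈ B, ‖d h‖) ^ 2 ≤ (η / μ * (Q * B.card)) ^ 2 := by
      refine e1.trans ?_
      have e3 : ∑ h ∈ B, ‖d h‖ ^ 2 ≤ η ^ 2 * (Q : ℝ) ^ 3 :=
        (sum_le_sum_of_subset_of_nonneg (subset_univ _) fun _ _ _ => sq_nonneg _).trans hd2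
      have e4 : (Q : ℝ) ≤ B.card / μ ^ 2 := by
        rw [le_div_iff₀ (by positivity)]; linarith
      calc (B.card : ℝ) * ∑ h ∈ B, ‖d h‖ ^ 2 ≤ B.card * (η ^ 2 * (Q : ℝ) ^ 3) :=
            mul_le_mul_of_nonneg_left e3 (Nat.cast_nonneg _)
        _ = (B.card * η ^ 2 * (Q : ℝ) ^ 2) * Q := by ring
        _ ≤ (B.card * η ^ 2 * (Q : ℝ) ^ 2) * (B.card / μ ^ 2) := mul_le_mul_of_nonneg_left e4 (by positivity)
        _ = _ := by field_simp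
    exact le_of_sq_le_sq e2 (by positivity)
  calc ∑ h ∈ B, ‖c h‖ ≤ ∑ h ∈ B, (κ * Q + ‖d h‖) := by
        refine sum_le_sum fun h _ => ?_
        have : c h = part c L h + d h := by rw [hd]; ring
        rw [this]
        exact (norm_add_le _ _).trans (add_le_add (ha h) le_rfl)
    _ = B.card * (κ * Q) + ∑ h ∈ B, ‖d h‖ := by rw [sum_add_distrib, sum_const, nsmul_eq_mul]
    _ ≤ B.card * (κ * Q) + η / μ * (Q * B.card) := by linarith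
    _ = _ := by ring

/-- the real indicator function -/
noncomputable def fR (A : Finset (ZMod Q)) (x : ZMod Q) : ℝ := if x ∈ A then 1 else 0

/-- the density of `A` near `x` -/
noncomputable def gR (A B : Finset (ZMod Q)) (x : ZMod Q) : ℝ :=
  (∑ b ∈ B, ∑ b' ∈ B, fR A (x + b - b')) / (B.card : ℝ) ^ 2

/-- the normalized Fourier transform of a set -/
noncomputable def nu (B : Finset (ZMod Q)) (ξ : ZMod Q) : ℂ :=
  (∑ b ∈ B, (ZMod.stdAddChar (-(ξ * b)) : ℂ)) / (B.card : ℂ)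

theorem fR_nonneg (A : Finset (ZMod Q)) (x : ZMod Q) : 0 ≤ fR A x := by
  unfold fR; split_ifs <;> norm_num

theorem fR_le (A : Finset (ZMod Q)) (x : ZMod Q) : fR A x ≤ 1 := by
  unfold fR; split_ifs <;> norm_num

theorem fR_cast (A : Finset (ZMod Q)) (x : ZMod Q) : ((fR A x : ℝ) : ℂ) = indc A x := by
  unfold fR indc; split_ifs <;> simp

theorem gR_nonneg (A B : Finset (ZMod Q)) (x : ZMod Q) : 0 ≤ gR A B x :=
  div_nonneg (sum_nonneg fun _ _ => sum_nonneg fun _ _ => fR_nonneg _ _) (sq_nonneg _)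

theorem gR_le (A B : Finset (ZMod Q)) (x : ZMod Q) : gR A B x ≤ 1 := by
  unfold gR
  refine div_le_one_of_le₀ ?_ (sq_nonneg _)
  refine (sum_le_card_nsmul _ _ (B.card : ℝ) fun b _ => ?_).trans (le_of_eq (by rw [nsmul_eq_mul, sq]))
  refine (sum_le_card_nsmul _ _ 1 fun b' _ => fR_le _ _).trans (le_of_eq (by rw [nsmul_eq_mul, mul_one]))

theorem nu_le (B : Finset (ZMod Q)) (ξ : ZMod Q) : ‖nu B ξ‖ ≤ 1 := by
  unfold nu
  rw [norm_div, Complex.norm_natCast]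
  refine div_le_one_of_le₀ ?_ (Nat.cast_nonneg _)
  refine (norm_sum_le _ _).trans ?_
  simp

theorem nu_near {B : Finset (ZMod Q)} (hB : B.Nonempty) (ξ : ZMod Q) {σ : ℝ}
    (h : ∀ b ∈ B, ‖(ZMod.stdAddChar (-(ξ * b)) : ℂ) - 1‖ ≤ σ) : ‖nu B ξ - 1‖ ≤ σ := by
  have hb : (0 : ℝ) < B.card := by exact_mod_cast hB.card_pos
  have hb' : (B.card : ℂ) ≠ 0 := by exact_mod_cast hB.card_pos.ne'
  have e1 : nu B ξ - 1 = (∑ b ∈ B, ((ZMod.stdAddChar (-(ξ * b)) : ℂ) - 1)) / (B.card : ℂ) := by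
    unfold nu
    rw [sum_sub_distrib, sum_const, nsmul_eq_mul, mul_one, sub_div, div_self hb']
  rw [e1, norm_div, Complex.norm_natCast, div_le_iff₀ hb]
  refine (norm_sum_le _ _).trans ((sum_le_card_nsmul _ _ _ h).trans (le_of_eq ?_))
  rw [nsmul_eq_mul, mul_comm]

theorem nu_sum {B : Finset (ZMod Q)} (hB : B.Nonempty) : ∑ ξ, ‖nu B ξ‖ ^ 2 = Q / B.card := by
  have hb : (0 : ℝ) < B.card := by exact_mod_cast hB.card_pos
  have e1 : ∀ ξ, ‖nu B ξ‖ ^ 2 = ‖Sf (indc B) (-ξ)‖ ^ 2 / (B.card : ℝ) ^ 2 := by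
    intro ξ
    unfold nu
    rw [norm_div, Complex.norm_natCast, div_pow, Sf_indc]
    simp only [neg_mul]
  have e2 : ∑ ξ, ‖Sf (indc B) (-ξ)‖ ^ 2 = ∑ ξ, ‖Sf (indc B) ξ‖ ^ 2 :=
    Equiv.sum_comp (Equiv.neg (ZMod Q)) (fun ξ => ‖Sf (indc B) ξ‖ ^ 2)
  rw [sum_congr rfl fun ξ _ => e1 ξ, ← sum_div, e2, parseval, sum_indc]
  field_simp

theorem Sf_g (A B : Finset (ZMod Q)) (ξ : ZMod Q) :
    Sf (fun x => ((gR A B x : ℝ) : ℂ)) ξ = Sf (indc A) ξ * (((‖nu B ξ‖ ^ 2 : ℝ)) : ℂ) := by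
  have e0 : (((‖nu B ξ‖ ^ 2 : ℝ)) : ℂ) = nu B ξ * conj (nu B ξ) := by
    rw [Complex.mul_conj, Complex.normSq_eq_norm_sq]
  have e1 : Sf (fun x => ((gR A B x : ℝ) : ℂ)) ξ =
      (∑ b ∈ B, ∑ b' ∈ B, ∑ x, indc A (x + b - b') * (ZMod.stdAddChar (ξ * x) : ℂ)) / (B.card : ℂ) ^ 2 := by
    unfold Sf gR
    push_cast
    simp only [fR_cast, div_mul_eq_mul_div, sum_mul]
    rw [← sum_div, sum_comm]
    congr 1
    refine sum_congr rfl fun b _ => ?_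
    rw [sum_comm]
  have e2 : ∀ b b', ∑ x, indc A (x + b - b') * (ZMod.stdAddChar (ξ * x) : ℂ) =
      ZMod.stdAddChar (-(ξ * b)) * ZMod.stdAddChar (ξ * b') * Sf (indc A) ξ := by
    intro b b'
    unfold Sf
    rw [mul_sum, ← Equiv.sum_comp (Equiv.addRight (b - b')) (fun y => ZMod.stdAddChar (-(ξ * b)) *
      ZMod.stdAddChar (ξ * b') * (indc A y * ZMod.stdAddChar (ξ * y)))]
    refine sum_congr rfl fun x _ => ?_
    simp only [Equiv.coe_addRight]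
    have e3 : (ZMod.stdAddChar (ξ * x) : ℂ) = ZMod.stdAddChar (-(ξ * b)) * ZMod.stdAddChar (ξ * b') *
        ZMod.stdAddChar (ξ * (x + (b - b'))) := by
      rw [← AddChar.map_add_eq_mul, ← AddChar.map_add_eq_mul]
      congr 1
      ring
    rw [e3, add_sub_assoc]
    ring
  rw [e1, e0]
  simp only [e2]
  unfold nu
  rw [map_div₀, map_sum, Complex.conj_natCast]
  simp only [char_conj, neg_neg]
  rw [div_mul_div_comm, sum_mul_sum, mul_div_assoc', ← sq, mul_sum]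
  congr 1
  refine sum_congr rfl fun b _ => ?_
  rw [mul_sum]
  exact sum_congr rfl fun b' _ => by ring

/-- **uniformity**: `f` can be replaced by the local density -/
theorem unif (A B Λ L : Finset (ZMod Q)) {σ η μ : ℝ} (hσ : 0 ≤ σ) (hη : 0 ≤ η) (hμ : 0 < μ)
    (hημ : η ≤ σ * μ) (hBn : B.Nonempty) (hB : μ ^ 2 * Q ≤ B.card)
    (h1 : ∀ ξ, ξ ∉ L → ‖Sf (indc A) ξ‖ ≤ η * Q) (h2 : ∑ ξ ∈ L \ Λ, ‖Sf (indc A) ξ‖ ^ 2 ≤ σ ^ 2 * (Q : ℝ) ^ 2)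
    (h3 : ∀ ξ ∈ Λ, ∀ h ∈ B, ‖(ZMod.stdAddChar (-(ξ * h)) : ℂ) - 1‖ ≤ σ)
    (Φ : ZMod Q → ℝ) (hΦ : ∀ x, |Φ x| ≤ 1) :
    ∑ h ∈ B, |∑ x, Φ x * (fR A (x + h) - gR A B x)| ≤ 7 * σ * (Q * B.card) := by
  classical
  have hQ : (0 : ℝ) < Q := by exact_mod_cast (NeZero.pos Q)
  have hb : (0 : ℝ) < B.card := by exact_mod_cast hBn.card_pos
  have hA : ∑ ξ, ‖Sf (indc A) ξ‖ ^ 2 ≤ (Q : ℝ) ^ 2 := by
    rw [parseval, sum_indc, sq]
    refine mul_le_mul_of_nonneg_left ?_ hQ.le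
    have := card_le_univ A
    rw [ZMod.card] at this
    exact_mod_cast this
  have hησ : η ^ 2 / μ ^ 2 ≤ σ ^ 2 := by
    rw [div_le_iff₀ (by positivity), ← mul_pow]
    exact pow_le_pow_left₀ hη hημ 2
  -- first part
  set F : ZMod Q → ℂ := fun x => indc A x - ((gR A B x : ℝ) : ℂ) with hF
  have hFS : ∀ ξ, Sf F ξ = Sf (indc A) ξ * (((1 - ‖nu B ξ‖ ^ 2 : ℝ)) : ℂ) := by
    intro ξ
    rw [hF, Sf_sub, Sf_g]
    push_cast
    ring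
  have hnu01 : ∀ ξ, 0 ≤ 1 - ‖nu B ξ‖ ^ 2 ∧ 1 - ‖nu B ξ‖ ^ 2 ≤ 1 := by
    intro ξ
    have := pow_le_one₀ (n := 2) (norm_nonneg _) (nu_le B ξ)
    exact ⟨by linarith, by linarith [sq_nonneg ‖nu B ξ‖]⟩
  have hFn : ∀ ξ, ‖Sf F ξ‖ = ‖Sf (indc A) ξ‖ * (1 - ‖nu B ξ‖ ^ 2) := by
    intro ξ
    rw [hFS, norm_mul, Complex.norm_real, Real.norm_eq_abs, abs_of_nonneg (hnu01 ξ).1]
  have hFle : ∀ ξ, ‖Sf F ξ‖ ≤ ‖Sf (indc A) ξ‖ := by
    intro ξ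
    rw [hFn]
    exact mul_le_of_le_one_right (norm_nonneg _) (hnu01 ξ).2
  have hFΛ : ∀ ξ ∈ Λ, ‖Sf F ξ‖ ^ 2 ≤ 4 * σ ^ 2 * ‖Sf (indc A) ξ‖ ^ 2 := by
    intro ξ hξ
    have e1 := nu_near hBn ξ (h3 ξ hξ)
    have e2 : 1 - ‖nu B ξ‖ ≤ σ := by
      have := norm_sub_norm_le (1 : ℂ) (nu B ξ)
      rw [norm_one, norm_sub_rev] at this
      linarith
    have e3 := nu_le B ξ
    have e4 : 1 - ‖nu B ξ‖ ^ 2 ≤ 2 * σ := by nlinarith [norm_nonneg (nu B ξ)]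
    rw [hFn, mul_pow]
    have e5 := pow_le_pow_left₀ (hnu01 ξ).1 e4 2
    nlinarith [sq_nonneg ‖Sf (indc A) ξ‖, mul_le_mul_of_nonneg_left e5 (sq_nonneg ‖Sf (indc A) ξ‖)]
  have hpart1 : ∑ h ∈ B, ‖∑ x, ((Φ x : ℝ) : ℂ) * F (x + h)‖ ≤ (3 * σ + η / μ) * (Q * B.card) := by
    refine corr_small F (fun x => ((Φ x : ℝ) : ℂ)) (fun x => by rw [Complex.norm_real]; exact hΦ x) (L ∪ Λ) B
      (by positivity) hη hμ ?_ ?_ hB
    · have e1 : L ∪ Λ ⊆ (L \ Λ) ∪ Λ := by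
        intro ξ hξ
        rw [mem_union] at hξ ⊢
        rw [mem_sdiff]
        tauto
      have e2 : ∑ ξ ∈ L ∪ Λ, ‖Sf F ξ‖ ^ 2 ≤ ∑ ξ ∈ L \ Λ, ‖Sf F ξ‖ ^ 2 + ∑ ξ ∈ Λ, ‖Sf F ξ‖ ^ 2 := by
        refine (sum_le_sum_of_subset_of_nonneg e1 fun _ _ _ => sq_nonneg _).trans (le_of_eq ?_)
        rw [sum_union (sdiff_disjoint)]
      have e3 : ∑ ξ ∈ L \ Λ, ‖Sf F ξ‖ ^ 2 ≤ σ ^ 2 * (Q : ℝ) ^ 2 :=
        (sum_le_sum fun ξ _ => pow_le_pow_left₀ (norm_nonneg _) (hFle ξ) 2).trans h2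
      have e4 : ∑ ξ ∈ Λ, ‖Sf F ξ‖ ^ 2 ≤ 4 * σ ^ 2 * (Q : ℝ) ^ 2 := by
        refine (sum_le_sum fun ξ hξ => hFΛ ξ hξ).trans ?_
        rw [← mul_sum]
        refine mul_le_mul_of_nonneg_left ?_ (by positivity)
        exact (sum_le_sum_of_subset_of_nonneg (subset_univ _) fun _ _ _ => sq_nonneg _).trans hA
      have e5 : 0 ≤ σ ^ 2 * (Q : ℝ) ^ 2 := by positivity
      nlinarith
    · intro ξ hξ
      exact (hFle ξ).trans (h1 ξ (fun h => hξ (mem_union_left _ h)))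
  have hpart1' : ∀ h, |∑ x, Φ x * (fR A (x + h) - gR A B (x + h))| = ‖∑ x, ((Φ x : ℝ) : ℂ) * F (x + h)‖ := by
    intro h
    have : ∑ x, ((Φ x : ℝ) : ℂ) * F (x + h) = ((∑ x, Φ x * (fR A (x + h) - gR A B (x + h)) : ℝ) : ℂ) := by
      push_cast
      refine sum_congr rfl fun x _ => ?_
      simp only [hF]
      rw [fR_cast]
    rw [this, Complex.norm_real, Real.norm_eq_abs]
  -- second part
  have hpart2 : ∀ h ∈ B, |∑ x, Φ x * (gR A B (x + h) - gR A B x)| ≤ 3 * σ * Q := by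
    intro h hh
    set G : ZMod Q → ℂ := fun x => ((gR A B (x + h) : ℝ) : ℂ) - ((gR A B x : ℝ) : ℂ) with hG
    have e1 : ∀ ξ, ‖Sf G ξ‖ ^ 2 ≤ σ ^ 2 * ‖Sf (indc A) ξ‖ ^ 2 + (if ξ ∈ L \ Λ then 4 * ‖Sf (indc A) ξ‖ ^ 2 else 0) +
        4 * (η * Q) ^ 2 * ‖nu B ξ‖ ^ 2 := by
      intro ξ
      have e2 : Sf G ξ = ((ZMod.stdAddChar (-(ξ * h)) : ℂ) - 1) * (Sf (indc A) ξ * (((‖nu B ξ‖ ^ 2 : ℝ)) : ℂ)) := by
        rw [hG, Sf_sub, Sf_shift (fun x => ((gR A B x : ℝ) : ℂ)) h ξ, Sf_g]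
        ring
      have e3 : ‖Sf G ξ‖ ^ 2 = ‖(ZMod.stdAddChar (-(ξ * h)) : ℂ) - 1‖ ^ 2 * (‖Sf (indc A) ξ‖ ^ 2 * (‖nu B ξ‖ ^ 2) ^ 2) := by
        rw [e2, norm_mul, norm_mul, Complex.norm_real, Real.norm_eq_abs, abs_of_nonneg (sq_nonneg _)]
        ring
      have e4 : ‖(ZMod.stdAddChar (-(ξ * h)) : ℂ) - 1‖ ^ 2 ≤ 4 := by
        have : ‖(ZMod.stdAddChar (-(ξ * h)) : ℂ) - 1‖ ≤ 2 := by
          refine (norm_sub_le _ _).trans ?_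
          rw [AddChar.norm_apply, norm_one]
          norm_num
        nlinarith [norm_nonneg ((ZMod.stdAddChar (-(ξ * h)) : ℂ) - 1)]
      have e5 : (‖nu B ξ‖ ^ 2) ^ 2 ≤ 1 := pow_le_one₀ (sq_nonneg _) (pow_le_one₀ (norm_nonneg _) (nu_le B ξ))
      have e6 : (‖nu B ξ‖ ^ 2) ^ 2 ≤ ‖nu B ξ‖ ^ 2 := by
        rw [sq (‖nu B ξ‖ ^ 2)]
        exact mul_le_of_le_one_right (sq_nonneg _) (pow_le_one₀ (norm_nonneg _) (nu_le B ξ))
      have e7 : 0 ≤ ‖Sf (indc A) ξ‖ ^ 2 := sq_nonneg _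
      have e8 : 0 ≤ σ ^ 2 * ‖Sf (indc A) ξ‖ ^ 2 := by positivity
      have e9 : 0 ≤ 4 * (η * Q) ^ 2 * ‖nu B ξ‖ ^ 2 := by positivity
      rw [e3]
      by_cases hξ : ξ ∈ Λ
      · have h5 := pow_le_pow_left₀ (norm_nonneg _) (h3 ξ hξ h hh) 2
        have h6 : ‖Sf (indc A) ξ‖ ^ 2 * (‖nu B ξ‖ ^ 2) ^ 2 ≤ ‖Sf (indc A) ξ‖ ^ 2 := mul_le_of_le_one_right e7 e5
        have h7 := mul_le_mul h5 h6 (by positivity) (by positivity)
        have h8 : (0 : ℝ) ≤ (if ξ ∈ L \ Λ then 4 * ‖Sf (indc A) ξ‖ ^ 2 else 0) := by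
          split_ifs <;> positivity
        linarith
      · by_cases hξL : ξ ∈ L
        · rw [if_pos (mem_sdiff.2 ⟨hξL, hξ⟩)]
          have h6 : ‖Sf (indc A) ξ‖ ^ 2 * (‖nu B ξ‖ ^ 2) ^ 2 ≤ ‖Sf (indc A) ξ‖ ^ 2 := mul_le_of_le_one_right e7 e5
          have h7 := mul_le_mul e4 h6 (by positivity) (by positivity)
          linarith
        · rw [if_neg (fun h => hξL (mem_sdiff.1 h).1)]
          have h5 := pow_le_pow_left₀ (norm_nonneg _) (h1 ξ hξL) 2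
          have h6 := mul_le_mul h5 e6 (by positivity) (by positivity)
          have h7 := mul_le_mul e4 h6 (by positivity) (by positivity)
          linarith
    have e2 : ∑ ξ, ‖Sf G ξ‖ ^ 2 ≤ 9 * σ ^ 2 * (Q : ℝ) ^ 2 := by
      refine (sum_le_sum fun ξ _ => e1 ξ).trans ?_
      rw [sum_add_distrib, sum_add_distrib, ← mul_sum, ← mul_sum, sum_ite_mem, univ_inter, ← mul_sum, nu_sum hBn]
      have h5 : 4 * (η * Q) ^ 2 * ((Q : ℝ) / B.card) ≤ 4 * σ ^ 2 * (Q : ℝ) ^ 2 := by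
        have h6 : (Q : ℝ) / B.card ≤ 1 / μ ^ 2 := by
          rw [div_le_div_iff₀ hb (by positivity)]; linarith
        calc 4 * (η * Q) ^ 2 * ((Q : ℝ) / B.card) ≤ 4 * (η * Q) ^ 2 * (1 / μ ^ 2) :=
              mul_le_mul_of_nonneg_left h6 (by positivity)
          _ = 4 * (η ^ 2 / μ ^ 2) * (Q : ℝ) ^ 2 := by ring
          _ ≤ _ := by
              refine mul_le_mul_of_nonneg_right ?_ (sq_nonneg _)
              linarith
      have h6 : σ ^ 2 * ∑ ξ, ‖Sf (indc A) ξ‖ ^ 2 ≤ σ ^ 2 * (Q : ℝ) ^ 2 := mul_le_mul_of_nonneg_left hA (sq_nonneg _)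
      linarith
    have e3 : ∑ x, ‖G x‖ ^ 2 ≤ 9 * σ ^ 2 * Q := by
      have h5 := parseval G
      have h6 : (Q : ℝ) * ∑ x, ‖G x‖ ^ 2 ≤ Q * (9 * σ ^ 2 * Q) := by
        rw [← h5]; refine e2.trans (le_of_eq (by ring))
      exact le_of_mul_le_mul_left h6 hQ
    have e4 : |∑ x, Φ x * (gR A B (x + h) - gR A B x)| ≤ ∑ x, ‖G x‖ := by
      refine (abs_sum_le_sum_abs _ _).trans (sum_le_sum fun x _ => ?_)
      rw [abs_mul]
      have h5 : ‖G x‖ = |gR A B (x + h) - gR A B x| := by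
        have : G x = ((gR A B (x + h) - gR A B x : ℝ) : ℂ) := by simp only [hG]; push_cast; rfl
        rw [this, Complex.norm_real, Real.norm_eq_abs]
      rw [h5]
      exact mul_le_of_le_one_left (abs_nonneg _) (hΦ x)
    have e5 : (∑ x, ‖G x‖) ^ 2 ≤ (3 * σ * Q) ^ 2 := by
      refine (sq_sum_le_card_mul_sum_sq).trans ?_
      rw [card_univ, ZMod.card]
      calc (Q : ℝ) * ∑ x, ‖G x‖ ^ 2 ≤ Q * (9 * σ ^ 2 * Q) := mul_le_mul_of_nonneg_left e3 hQ.le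
        _ = _ := by ring
    exact e4.trans (le_of_sq_le_sq e5 (by positivity))
  -- together
  calc ∑ h ∈ B, |∑ x, Φ x * (fR A (x + h) - gR A B x)|
      ≤ ∑ h ∈ B, (‖∑ x, ((Φ x : ℝ) : ℂ) * F (x + h)‖ + 3 * σ * Q) := by
        refine sum_le_sum fun h hh => ?_
        have e1 : ∑ x, Φ x * (fR A (x + h) - gR A B x) = ∑ x, Φ x * (fR A (x + h) - gR A B (x + h)) +
            ∑ x, Φ x * (gR A B (x + h) - gR A B x) := by
          rw [← sum_add_distrib]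
          exact sum_congr rfl fun x _ => by ring
        rw [e1, ← hpart1' h]
        exact (abs_add_le _ _).trans (add_le_add le_rfl (hpart2 h hh))
    _ = ∑ h ∈ B, ‖∑ x, ((Φ x : ℝ) : ℂ) * F (x + h)‖ + B.card * (3 * σ * Q) := by
        rw [sum_add_distrib, sum_const, nsmul_eq_mul]
    _ ≤ (3 * σ + η / μ) * (Q * B.card) + B.card * (3 * σ * Q) := by linarith
    _ ≤ (3 * σ + σ) * (Q * B.card) + B.card * (3 * σ * Q) := by
        have : η / μ ≤ σ := by rw [div_le_iff₀ hμ]; exact hημ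
        have h5 : (0 : ℝ) ≤ Q * B.card := by positivity
        nlinarith
    _ = _ := by ring

end Pool.Agent.K7.H62
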