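import Mathlib
import Pool.Agent.K7.H62.Uni

/-! Counting in a Bohr set: telescoping, convexity, size of Bohr sets, choice of the level. -/

set_option autoImplicit false

namespace Pool.Agent.K7.H62

open Finset

theorem sum_pi_succ {G : Type} [DecidableEq G] {k : ℕ} (B : Finset G) (φ : (Fin (k + 1) → G) → ℝ) :
    ∑ h ∈ Fintype.piFinset (fun _ : Fin (k + 1) => B), φ h =
      ∑ a ∈ B, ∑ h' ∈ Fintype.piFinset (fun _ : Fin k => B), φ (Fin.cons a h') := by
  rw [← sum_product']
  refine sum_nbij' (fun h => (h 0, fun i => h i.succ)) (fun p => Fin.cons p.1 p.2) ?_ ?_ ?_ ?_ ?_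
  · intro h hh
    rw [Fintype.mem_piFinset] at hh
    rw [mem_product, Fintype.mem_piFinset]
    exact ⟨hh 0, fun i => hh _⟩
  · intro p hp
    rw [mem_product, Fintype.mem_piFinset] at hp
    rw [Fintype.mem_piFinset]
    intro i
    refine Fin.cases hp.1 (fun i => ?_) i
    exact hp.2 i
  · intro h _
    funext i
    refine Fin.cases rfl (fun i => rfl) i
  · intro p _
    rfl
  · intro h _
    congr 1
    funext i
    refine Fin.cases rfl (fun i => rfl) i

variable {Q : ℕ} [NeZero Q]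

/-- telescoping -/
theorem teleU (A B : Finset (ZMod Q)) {δ : ℝ} (hδ : 0 ≤ δ) (hU : ∀ Φ : ZMod Q → ℝ, (∀ x, |Φ x| ≤ 1) →
    ∑ h ∈ B, |∑ x, Φ x * (fR A (x + h) - gR A B x)| ≤ δ * B.card) : ∀ (k : ℕ) (Φ : ZMod Q → ℝ), (∀ x, |Φ x| ≤ 1) →
    ∑ h ∈ Fintype.piFinset (fun _ : Fin k => B), |∑ x, Φ x * (∏ i, fR A (x + h i) - gR A B x ^ k)| ≤
      k * δ * (B.card : ℝ) ^ k := by
  intro k
  induction k with
  | zero =>
    intro Φ _
    simp
  | succ k ih =>
    intro Φ hΦ
    rw [sum_pi_succ]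
    have h1 : ∀ a ∈ B, ∑ h' ∈ Fintype.piFinset (fun _ : Fin k => B),
        |∑ x, Φ x * (∏ i, fR A (x + (Fin.cons a h' : Fin (k + 1) → ZMod Q) i) - gR A B x ^ (k + 1))| ≤
        k * δ * (B.card : ℝ) ^ k + (B.card : ℝ) ^ k * |∑ x, (Φ x * gR A B x ^ k) * (fR A (x + a) - gR A B x)| := by
      intro a _
      have h2 : ∀ h' : Fin k → ZMod Q, |∑ x, Φ x * (∏ i, fR A (x + (Fin.cons a h' : Fin (k + 1) → ZMod Q) i) -
          gR A B x ^ (k + 1))| ≤ |∑ x, (Φ x * fR A (x + a)) * (∏ i, fR A (x + h' i) - gR A B x ^ k)| +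
          |∑ x, (Φ x * gR A B x ^ k) * (fR A (x + a) - gR A B x)| := by
        intro h'
        refine le_trans (le_of_eq ?_) (abs_add_le _ _)
        congr 1
        rw [← sum_add_distrib]
        refine sum_congr rfl fun x _ => ?_
        rw [Fin.prod_univ_succ]
        simp only [Fin.cons_zero, Fin.cons_succ]
        ring
      refine (sum_le_sum fun h' _ => h2 h').trans ?_
      rw [sum_add_distrib]
      refine add_le_add ?_ (le_of_eq ?_)
      · refine ih (fun x => Φ x * fR A (x + a)) fun x => ?_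
        rw [abs_mul, abs_of_nonneg (fR_nonneg A _)]
        exact mul_le_one₀ (hΦ x) (fR_nonneg A _) (fR_le A _)
      · rw [sum_const, nsmul_eq_mul, Fintype.card_piFinset, prod_const, card_univ, Fintype.card_fin]
        push_cast
        rfl
    refine (sum_le_sum h1).trans ?_
    rw [sum_add_distrib, sum_const, nsmul_eq_mul, ← mul_sum]
    have h2 := hU (fun x => Φ x * gR A B x ^ k) fun x => by
      rw [abs_mul, abs_of_nonneg (pow_nonneg (gR_nonneg A B x) _)]
      exact mul_le_one₀ (hΦ x) (pow_nonneg (gR_nonneg A B x) _) (pow_le_one₀ (gR_nonneg A B x) (gR_le A B x))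
    have h3 := mul_le_mul_of_nonneg_left h2 (by positivity : (0 : ℝ) ≤ (B.card : ℝ) ^ k)
    push_cast
    rw [pow_succ]
    nlinarith

/-- the main term -/
theorem main_term (A B : Finset (ZMod Q)) (hA : A.Nonempty) (hB : B.Nonempty) (k : ℕ) :
    (A.card : ℝ) * ((A.card : ℝ) / Q) ^ k ≤ ∑ x, fR A x * gR A B x ^ k := by
  have hQ : (0 : ℝ) < Q := by exact_mod_cast (NeZero.pos Q)
  have ha : (0 : ℝ) < A.card := by exact_mod_cast hA.card_pos
  have hb : (0 : ℝ) < B.card := by exact_mod_cast hB.card_pos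
  -- the case `k = 1`
  have h1 : (A.card : ℝ) ^ 2 / Q ≤ ∑ x, fR A x * gR A B x := by
    have e1 : ∑ x, fR A x * gR A B x = (∑ y, (∑ b ∈ B, fR A (y + b)) ^ 2) / (B.card : ℝ) ^ 2 := by
      unfold gR
      simp only [mul_div_assoc', ← sum_div]
      congr 1
      have e2 : ∀ x, fR A x * ∑ b ∈ B, ∑ b' ∈ B, fR A (x + b - b') =
          ∑ b ∈ B, ∑ b' ∈ B, fR A x * fR A (x + b - b') := by
        intro x
        rw [mul_sum]
        exact sum_congr rfl fun b _ => mul_sum _ _ _
      have e3 : ∀ y, (∑ b ∈ B, fR A (y + b)) ^ 2 = ∑ b ∈ B, ∑ b' ∈ B, fR A (y + b) * fR A (y + b') := by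
        intro y
        rw [sq, sum_mul_sum]
      rw [sum_congr rfl fun x _ => e2 x, sum_congr rfl fun y _ => e3 y, sum_comm, sum_comm (s := univ)]
      refine sum_congr rfl fun b _ => ?_
      rw [sum_comm, sum_comm (s := univ)]
      refine sum_congr rfl fun b' _ => ?_
      rw [← Equiv.sum_comp (Equiv.addRight b') (fun x => fR A x * fR A (x + b - b'))]
      refine sum_congr rfl fun x _ => ?_
      simp only [Equiv.coe_addRight]
      rw [mul_comm]
      congr 2
      ring
    have e2 : (∑ y, ∑ b ∈ B, fR A (y + b)) = B.card * A.card := by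
      rw [sum_comm]
      have e3 : ∀ b ∈ B, ∑ y, fR A (y + b) = A.card := by
        intro b _
        refine (Equiv.sum_comp (Equiv.addRight b) (fun x => fR A x)).trans ?_
        unfold fR
        rw [sum_boole]
        simp
      rw [sum_congr rfl e3, sum_const, nsmul_eq_mul]
    have e3 := sq_sum_le_card_mul_sum_sq (s := (univ : Finset (ZMod Q))) (f := fun y => ∑ b ∈ B, fR A (y + b))
    rw [e2, card_univ, ZMod.card] at e3
    rw [e1, div_le_div_iff₀ hQ (by positivity)]
    calc (A.card : ℝ) ^ 2 * (B.card : ℝ) ^ 2 = (B.card * A.card) ^ 2 := by ring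
      _ ≤ _ := e3
      _ = _ := by ring
  have e0 : ∀ φ : ZMod Q → ℝ, ∑ x, fR A x * φ x = ∑ x ∈ A, φ x := by
    intro φ
    unfold fR
    simp only [ite_mul, one_mul, zero_mul]
    rw [sum_ite_mem, univ_inter]
  rw [e0] at h1 ⊢
  have h2 := Real.pow_arith_mean_le_arith_mean_pow A (fun _ => (1 : ℝ) / A.card) (fun x => gR A B x)
    (fun _ _ => by positivity) (by rw [sum_const, nsmul_eq_mul]; field_simp) (fun x _ => gR_nonneg A B x) k
  rw [← mul_sum, ← mul_sum] at h2
  have h3 : (A.card : ℝ) / Q ≤ 1 / A.card * ∑ x ∈ A, gR A B x := by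
    have : (A.card : ℝ) / Q = 1 / A.card * ((A.card : ℝ) ^ 2 / Q) := by field_simp
    rw [this]
    exact mul_le_mul_of_nonneg_left h1 (by positivity)
  have h4 := (pow_le_pow_left₀ (by positivity) h3 k).trans h2
  calc (A.card : ℝ) * ((A.card : ℝ) / Q) ^ k ≤ A.card * (1 / A.card * ∑ x ∈ A, gR A B x ^ k) :=
        mul_le_mul_of_nonneg_left h4 ha.le
    _ = _ := by field_simp

end Pool.Agent.K7.H62
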