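import Mathlib

/-! Conditional expectations on a finite probability space with respect to the label of a point. -/

set_option autoImplicit false

namespace Pool.Agent.K7.H62

open Finset

section ce

variable {Ω L L' : Type} [Fintype Ω] [DecidableEq L] [DecidableEq L']

/-- the mass of the class of `ω` -/
noncomputable def ms (P : Ω → ℝ) (l : Ω → L) (ω : Ω) : ℝ := ∑ ω', if l ω' = l ω then P ω' else 0

/-- the conditional expectation of `f` given the label `l` -/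
noncomputable def ce (P : Ω → ℝ) (l : Ω → L) (f : Ω → ℝ) (ω : Ω) : ℝ :=
  (∑ ω', if l ω' = l ω then P ω' * f ω' else 0) / ms P l ω

theorem ms_congr (P : Ω → ℝ) (l : Ω → L) {ω ω' : Ω} (h : l ω = l ω') : ms P l ω = ms P l ω' := by
  unfold ms
  rw [h]

theorem ce_congr (P : Ω → ℝ) (l : Ω → L) (f : Ω → ℝ) {ω ω' : Ω} (h : l ω = l ω') :
    ce P l f ω = ce P l f ω' := by
  unfold ce
  rw [ms_congr P l h, h]

theorem ms_nonneg {P : Ω → ℝ} (hP : ∀ ω, 0 ≤ P ω) (l : Ω → L) (ω : Ω) : 0 ≤ ms P l ω := by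
  unfold ms
  refine sum_nonneg fun ω' _ => ?_
  split_ifs
  · exact hP _
  · exact le_rfl

theorem le_ms {P : Ω → ℝ} (hP : ∀ ω, 0 ≤ P ω) (l : Ω → L) (ω : Ω) : P ω ≤ ms P l ω := by
  unfold ms
  have := single_le_sum (f := fun ω' => if l ω' = l ω then P ω' else 0) (s := univ) (fun ω' _ => by
    show (0 : ℝ) ≤ if l ω' = l ω then P ω' else 0
    split_ifs
    · exact hP _
    · exact le_rfl) (mem_univ ω)
  simpa using this

/-- the basic property -/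
theorem ce_mul {P : Ω → ℝ} (hP : ∀ ω, 0 ≤ P ω) (l : Ω → L) (f g : Ω → ℝ)
    (hg : ∀ ω ω', l ω = l ω' → g ω = g ω') :
    ∑ ω, P ω * (ce P l f ω * g ω) = ∑ ω, P ω * (f ω * g ω) := by
  have h1 : ∀ ω, P ω * (ce P l f ω * g ω) =
      ∑ ω', if l ω' = l ω then P ω * g ω * (P ω' * f ω') / ms P l ω else 0 := by
    intro ω
    unfold ce
    have : P ω * ((∑ ω', if l ω' = l ω then P ω' * f ω' else 0) / ms P l ω * g ω) =
        (P ω * g ω / ms P l ω) * ∑ ω', if l ω' = l ω then P ω' * f ω' else 0 := by ring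
    rw [this, mul_sum]
    refine sum_congr rfl fun ω' _ => ?_
    split_ifs
    · ring
    · ring
  rw [sum_congr rfl fun ω _ => h1 ω, sum_comm]
  refine sum_congr rfl fun ω' _ => ?_
  have h2 : ∀ ω, (if l ω' = l ω then P ω * g ω * (P ω' * f ω') / ms P l ω else 0) =
      (P ω' * f ω' * g ω' / ms P l ω') * (if l ω = l ω' then P ω else 0) := by
    intro ω
    by_cases h : l ω' = l ω
    · rw [if_pos h, if_pos h.symm, hg ω ω' h.symm, ms_congr P l h.symm]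
      ring
    · rw [if_neg h, if_neg (fun e => h e.symm)]
      ring
  rw [sum_congr rfl fun ω _ => h2 ω, ← mul_sum]
  change P ω' * f ω' * g ω' / ms P l ω' * ms P l ω' = _
  rcases eq_or_ne (ms P l ω') 0 with h0 | h0
  · have h3 : P ω' = 0 := le_antisymm (by rw [← h0]; exact le_ms hP l ω') (hP ω')
    rw [h3]; ring
  · rw [div_mul_cancel₀ _ h0]; ring

theorem ce_nonneg {P : Ω → ℝ} (hP : ∀ ω, 0 ≤ P ω) (l : Ω → L) {f : Ω → ℝ} (hf : ∀ ω, 0 ≤ f ω) (ω : Ω) :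
    0 ≤ ce P l f ω := by
  unfold ce
  refine div_nonneg (sum_nonneg fun ω' _ => ?_) (ms_nonneg hP l ω)
  split_ifs
  · exact mul_nonneg (hP _) (hf _)
  · exact le_rfl

theorem ce_le_one {P : Ω → ℝ} (hP : ∀ ω, 0 ≤ P ω) (l : Ω → L) {f : Ω → ℝ} (hf : ∀ ω, f ω ≤ 1) (ω : Ω) :
    ce P l f ω ≤ 1 := by
  unfold ce
  refine div_le_one_of_le₀ ?_ (ms_nonneg hP l ω)
  unfold ms
  refine sum_le_sum fun ω' _ => ?_
  split_ifs
  · exact mul_le_of_le_one_right (hP _) (hf _)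
  · exact le_rfl

/-- the energy -/
noncomputable def en (P : Ω → ℝ) (l : Ω → L) (f : Ω → ℝ) : ℝ := ∑ ω, P ω * (ce P l f ω) ^ 2

/-- the energy increases by the squared distance -/
theorem en_diff {P : Ω → ℝ} (hP : ∀ ω, 0 ≤ P ω) (l : Ω → L) (l' : Ω → L') (f : Ω → ℝ)
    (hl : ∀ ω ω', l' ω = l' ω' → l ω = l ω') :
    ∑ ω, P ω * (ce P l' f ω - ce P l f ω) ^ 2 = en P l' f - en P l f := by
  have h1 := ce_mul hP l' f (ce P l f) (fun ω ω' h => ce_congr P l f (hl _ _ h))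
  have h2 := ce_mul hP l f (ce P l f) (fun _ _ h => ce_congr P l f h)
  unfold en
  rw [← sum_sub_distrib]
  have h3 : ∑ ω, P ω * (ce P l' f ω - ce P l f ω) ^ 2 =
      ∑ ω, (P ω * ce P l' f ω ^ 2 - P ω * ce P l f ω ^ 2) +
      (2 * ∑ ω, P ω * (ce P l f ω * ce P l f ω) - 2 * ∑ ω, P ω * (ce P l' f ω * ce P l f ω)) := by
    rw [mul_sum, mul_sum, ← sum_sub_distrib, ← sum_add_distrib]
    refine sum_congr rfl fun ω _ => ?_
    ring
  rw [h3, h1, h2]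
  ring

theorem en_le_one {P : Ω → ℝ} (hP : ∀ ω, 0 ≤ P ω) (hP1 : ∑ ω, P ω = 1) (l : Ω → L) {f : Ω → ℝ}
    (hf0 : ∀ ω, 0 ≤ f ω) (hf : ∀ ω, f ω ≤ 1) : en P l f ≤ 1 := by
  unfold en
  rw [← hP1]
  refine sum_le_sum fun ω _ => mul_le_of_le_one_right (hP _) ?_
  exact pow_le_one₀ (ce_nonneg hP l hf0 ω) (ce_le_one hP l hf ω)

theorem en_nonneg {P : Ω → ℝ} (hP : ∀ ω, 0 ≤ P ω) (l : Ω → L) (f : Ω → ℝ) : 0 ≤ en P l f :=
  sum_nonneg fun ω _ => mul_nonneg (hP _) (sq_nonneg _)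

/-- invariance -/
theorem ce_equiv {P : Ω → ℝ} (σ : Ω ≃ Ω) (hσ : ∀ ω, P (σ ω) = P ω) (l : Ω → L) (l' : Ω → L')
    (f f' : Ω → ℝ) (hf : ∀ ω, f' ω = f (σ ω)) (hl : ∀ ω ω', l' ω = l' ω' ↔ l (σ ω) = l (σ ω')) (ω : Ω) :
    ce P l' f' ω = ce P l f (σ ω) := by
  unfold ce ms
  congr 1
  · conv_rhs => rw [← Equiv.sum_comp σ]
    refine sum_congr rfl fun ω' _ => ?_
    by_cases h : l' ω' = l' ω
    · rw [if_pos h, if_pos ((hl _ _).1 h), hσ, hf]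
    · rw [if_neg h, if_neg (fun e => h ((hl _ _).2 e))]
  · conv_rhs => rw [← Equiv.sum_comp σ]
    refine sum_congr rfl fun ω' _ => ?_
    by_cases h : l' ω' = l' ω
    · rw [if_pos h, if_pos ((hl _ _).1 h), hσ]
    · rw [if_neg h, if_neg (fun e => h ((hl _ _).2 e))]

theorem en_equiv {P : Ω → ℝ} (σ : Ω ≃ Ω) (hσ : ∀ ω, P (σ ω) = P ω) (l : Ω → L) (l' : Ω → L')
    (f f' : Ω → ℝ) (hf : ∀ ω, f' ω = f (σ ω)) (hl : ∀ ω ω', l' ω = l' ω' ↔ l (σ ω) = l (σ ω')) :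
    en P l' f' = en P l f := by
  unfold en
  conv_rhs => rw [← Equiv.sum_comp σ]
  refine sum_congr rfl fun ω _ => ?_
  rw [ce_equiv σ hσ l l' f f' hf hl, hσ]

/-- Cauchy-Schwarz: the `L^1` distance -/
theorem l1_le {P : Ω → ℝ} (hP : ∀ ω, 0 ≤ P ω) (hP1 : ∑ ω, P ω = 1) (u : Ω → ℝ) {δ : ℝ} (hδ : 0 ≤ δ)
    (h : ∑ ω, P ω * (u ω) ^ 2 ≤ δ ^ 2) : ∑ ω, P ω * |u ω| ≤ δ := by
  have h1 : (∑ ω, P ω * |u ω|) ^ 2 ≤ (∑ ω, P ω) * ∑ ω, P ω * (u ω) ^ 2 := by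
    refine Finset.sum_sq_le_sum_mul_sum_of_sq_eq_mul univ (fun i _ => hP i)
      (fun i _ => mul_nonneg (hP i) (sq_nonneg _)) (fun i _ => ?_)
    rw [mul_pow, sq_abs]
    ring
  rw [hP1, one_mul] at h1
  exact abs_le_of_sq_le_sq' (h1.trans h) hδ |>.2

end ce

end Pool.Agent.K7.H62
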