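import Mathlib
import Pool.Agent.K7.H62.CE

/-! Exchangeable sequences of flagged points: the telescoping argument. -/

set_option autoImplicit false

namespace Pool.Agent.K7.H62

open Finset

/-- sequences of `T` flagged points -/
abbrev Om (ι : Type) (T : ℕ) : Type := Fin T → ι × Bool

section flag

variable {ι : Type} [Fintype ι] [DecidableEq ι] {T : ℕ}

/-- the flag -/
noncomputable def Yf (m : Fin T) (ω : Om ι T) : ℝ := if (ω m).2 then 1 else 0

theorem Yf_nonneg (m : Fin T) (ω : Om ι T) : 0 ≤ Yf m ω := by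
  unfold Yf; split_ifs <;> norm_num

theorem Yf_le_one (m : Fin T) (ω : Om ι T) : Yf m ω ≤ 1 := by
  unfold Yf; split_ifs <;> norm_num

/-- the label: the flagged points with index in `S` and the point with index `m` -/
def lab (S : Finset (Fin T)) (m : Fin T) (ω : Om ι T) : (Fin T → Option (ι × Bool)) × ι :=
  (fun i => if i ∈ S then some (ω i) else none, (ω m).1)

theorem lab_eq_iff {S : Finset (Fin T)} {m : Fin T} {ω ω' : Om ι T} :
    lab S m ω = lab S m ω' ↔ (∀ i ∈ S, ω i = ω' i) ∧ (ω m).1 = (ω' m).1 := by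
  unfold lab
  rw [Prod.mk.injEq]
  refine and_congr ?_ Iff.rfl
  constructor
  · intro h i hi
    have := congrFun h i
    simpa [hi] using this
  · intro h
    funext i
    by_cases hi : i ∈ S
    · simp [hi, h i hi]
    · simp [hi]

/-- the action of a permutation of the indices -/
def act (σ : Equiv.Perm (Fin T)) : Om ι T ≃ Om ι T where
  toFun ω := ω ∘ σ
  invFun ω := ω ∘ σ.symm
  left_inv ω := by funext i; simp
  right_inv ω := by funext i; simp

theorem act_apply (σ : Equiv.Perm (Fin T)) (ω : Om ι T) (i : Fin T) : act σ ω i = ω (σ i) := rfl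

/-- an exchangeable law -/
structure Law (P : Om ι T → ℝ) : Prop where
  nonneg : ∀ ω, 0 ≤ P ω
  total : ∑ ω, P ω = 1
  sym : ∀ (σ : Equiv.Perm (Fin T)) (ω : Om ι T), P (act σ ω) = P ω

/-- the indices below `j` -/
def ini (T j : ℕ) : Finset (Fin T) := univ.filter (fun i => (i : ℕ) < j)

theorem mem_ini {j : ℕ} {i : Fin T} : i ∈ ini T j ↔ (i : ℕ) < j := by
  unfold ini; simp

/-- the energy of level `j` -/
noncomputable def E (P : Om ι T → ℝ) (j : ℕ) (hj : j < T) : ℝ :=
  en P (lab (ini T j) ⟨j, hj⟩) (Yf ⟨j, hj⟩)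

/-- the context -/
def ctx (j : ℕ) (ω : Om ι T) : Fin T → Option (ι × Bool) := fun i => if i ∈ ini T j then some (ω i) else none

/-- the conditional probability of a flag at a point `z`, given the context -/
noncomputable def cphi (P : Om ι T → ℝ) (j : ℕ) (hj : j < T) (c : Fin T → Option (ι × Bool)) (z : ι) : ℝ :=
  (∑ ω, if lab (ini T j) ⟨j, hj⟩ ω = (c, z) then P ω * Yf ⟨j, hj⟩ ω else 0) /
    (∑ ω, if lab (ini T j) ⟨j, hj⟩ ω = (c, z) then P ω else 0)

theorem cphi_nonneg {P : Om ι T → ℝ} (hP : ∀ ω, 0 ≤ P ω) (j : ℕ) (hj : j < T) (c : Fin T → Option (ι × Bool))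
    (z : ι) : 0 ≤ cphi P j hj c z := by
  unfold cphi
  refine div_nonneg (sum_nonneg fun ω _ => ?_) (sum_nonneg fun ω _ => ?_)
  · split_ifs
    · exact mul_nonneg (hP _) (Yf_nonneg _ _)
    · exact le_rfl
  · split_ifs
    · exact hP _
    · exact le_rfl

theorem cphi_le_one {P : Om ι T → ℝ} (hP : ∀ ω, 0 ≤ P ω) (j : ℕ) (hj : j < T) (c : Fin T → Option (ι × Bool))
    (z : ι) : cphi P j hj c z ≤ 1 := by
  unfold cphi
  refine div_le_one_of_le₀ (sum_le_sum fun ω _ => ?_) (sum_nonneg fun ω _ => ?_)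
  · split_ifs
    · exact mul_le_of_le_one_right (hP _) (Yf_le_one _ _)
    · exact le_rfl
  · split_ifs
    · exact hP _
    · exact le_rfl

theorem ce_eq_cphi (P : Om ι T → ℝ) (j : ℕ) (hj : j < T) (ω : Om ι T) :
    ce P (lab (ini T j) ⟨j, hj⟩) (Yf ⟨j, hj⟩) ω = cphi P j hj (ctx j ω) (ω ⟨j, hj⟩).1 := rfl

theorem swap_ctx {j : ℕ} {a b : Fin T} (ha : j ≤ (a : ℕ)) (hb : j ≤ (b : ℕ)) (ω : Om ι T) :
    ctx j (act (Equiv.swap a b) ω) = ctx j ω := by
  unfold ctx
  funext i
  by_cases hi : i ∈ ini T j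
  · have h1 := mem_ini.1 hi
    have h2 : i ≠ a := by rintro rfl; omega
    have h3 : i ≠ b := by rintro rfl; omega
    rw [if_pos hi, if_pos hi, act_apply, Equiv.swap_apply_of_ne_of_ne h2 h3]
  · rw [if_neg hi, if_neg hi]

theorem ce_coarse {P : Om ι T → ℝ} (hP : Law P) (j : ℕ) (hj : j < T) (m : Fin T) (hm : j ≤ (m : ℕ))
    (ω : Om ι T) : ce P (lab (ini T j) m) (Yf m) ω = cphi P j hj (ctx j ω) (ω m).1 := by
  have hact : ∀ ω : Om ι T, act (Equiv.swap ⟨j, hj⟩ m) ω ⟨j, hj⟩ = ω m := by
    intro ω; rw [act_apply, Equiv.swap_apply_left]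
  have hlow : ∀ (ω : Om ι T) (i : Fin T), i ∈ ini T j → act (Equiv.swap ⟨j, hj⟩ m) ω i = ω i := by
    intro ω i hi
    have h1 := mem_ini.1 hi
    have h2 : i ≠ ⟨j, hj⟩ := by rintro rfl; simp at h1
    have h3 : i ≠ m := by rintro rfl; omega
    rw [act_apply, Equiv.swap_apply_of_ne_of_ne h2 h3]
  rw [ce_equiv (act (Equiv.swap ⟨j, hj⟩ m)) (fun ω => hP.sym _ ω) (lab (ini T j) ⟨j, hj⟩) (lab (ini T j) m)
    (Yf ⟨j, hj⟩) (Yf m) (fun ω => by unfold Yf; rw [hact]) (fun ω ω' => by
      rw [lab_eq_iff, lab_eq_iff, hact, hact]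
      refine and_congr ⟨fun h i hi => ?_, fun h i hi => ?_⟩ Iff.rfl
      · rw [hlow _ i hi, hlow _ i hi]; exact h i hi
      · rw [← hlow ω i hi, ← hlow ω' i hi]; exact h i hi), ce_eq_cphi, hact,
    swap_ctx (le_refl j) hm]

theorem en_coarse {P : Om ι T → ℝ} (hP : Law P) (j : ℕ) (hj : j < T) (m : Fin T) (hm : j ≤ (m : ℕ)) :
    en P (lab (ini T j) m) (Yf m) = E P j hj := by
  have hact : ∀ ω : Om ι T, act (Equiv.swap ⟨j, hj⟩ m) ω ⟨j, hj⟩ = ω m := by
    intro ω; rw [act_apply, Equiv.swap_apply_left]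
  have hlow : ∀ (ω : Om ι T) (i : Fin T), i ∈ ini T j → act (Equiv.swap ⟨j, hj⟩ m) ω i = ω i := by
    intro ω i hi
    have h1 := mem_ini.1 hi
    have h2 : i ≠ ⟨j, hj⟩ := by rintro rfl; simp at h1
    have h3 : i ≠ m := by rintro rfl; omega
    rw [act_apply, Equiv.swap_apply_of_ne_of_ne h2 h3]
  exact en_equiv (act (Equiv.swap ⟨j, hj⟩ m)) (fun ω => hP.sym _ ω) (lab (ini T j) ⟨j, hj⟩) (lab (ini T j) m)
    (Yf ⟨j, hj⟩) (Yf m) (fun ω => by unfold Yf; rw [hact]) (fun ω ω' => by
      rw [lab_eq_iff, lab_eq_iff, hact, hact]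
      refine and_congr ⟨fun h i hi => ?_, fun h i hi => ?_⟩ Iff.rfl
      · rw [hlow _ i hi, hlow _ i hi]; exact h i hi
      · rw [← hlow ω i hi, ← hlow ω' i hi]; exact h i hi)

/-- the fine index set: all indices `≤ j` except `m` -/
def fin' (T j : ℕ) (m : Fin T) : Finset (Fin T) := univ.filter (fun i => (i : ℕ) ≤ j ∧ i ≠ m)

theorem mem_fin' {j : ℕ} {m i : Fin T} : i ∈ fin' T j m ↔ (i : ℕ) ≤ j ∧ i ≠ m := by
  unfold fin'; simp

theorem en_fine {P : Om ι T → ℝ} (hP : Law P) (j : ℕ) (hj : j < T) (m : Fin T) (hm : (m : ℕ) ≤ j) :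
    en P (lab (fin' T j m) m) (Yf m) = E P j hj := by
  have hact : ∀ ω : Om ι T, act (Equiv.swap ⟨j, hj⟩ m) ω ⟨j, hj⟩ = ω m := by
    intro ω; rw [act_apply, Equiv.swap_apply_left]
  refine en_equiv (act (Equiv.swap ⟨j, hj⟩ m)) (fun ω => hP.sym _ ω) (lab (ini T j) ⟨j, hj⟩)
    (lab (fin' T j m) m) (Yf ⟨j, hj⟩) (Yf m) (fun ω => by unfold Yf; rw [hact]) (fun ω ω' => ?_)
  rw [lab_eq_iff, lab_eq_iff, hact, hact]
  refine and_congr ⟨fun h i hi => ?_, fun h i hi => ?_⟩ Iff.rfl
  · rw [act_apply, act_apply]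
    have h1 := mem_ini.1 hi
    apply h
    rw [mem_fin']
    by_cases him : i = m
    · subst him
      rw [Equiv.swap_apply_right]
      refine ⟨le_rfl, fun e => ?_⟩
      rw [← e] at h1
      simp at h1
    · have h2 : i ≠ ⟨j, hj⟩ := by rintro rfl; simp at h1
      rw [Equiv.swap_apply_of_ne_of_ne h2 him]
      exact ⟨h1.le, him⟩
  · obtain ⟨h1, h2⟩ := mem_fin'.1 hi
    have h3 := h (Equiv.swap ⟨j, hj⟩ m i) (by
      rw [mem_ini]
      by_cases hij : i = ⟨j, hj⟩
      · subst hij
        rw [Equiv.swap_apply_left]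
        refine lt_of_le_of_ne hm (fun e => h2 ?_)
        exact Fin.ext e.symm
      · rw [Equiv.swap_apply_of_ne_of_ne hij h2]
        refine lt_of_le_of_ne h1 (fun e => hij (Fin.ext e)))
    rw [act_apply, act_apply, Equiv.swap_apply_self] at h3
    exact h3

theorem E_le_one {P : Om ι T → ℝ} (hP : Law P) (j : ℕ) (hj : j < T) : E P j hj ≤ 1 :=
  en_le_one hP.nonneg hP.total _ (Yf_nonneg _) (Yf_le_one _)

theorem E_nonneg {P : Om ι T → ℝ} (hP : Law P) (j : ℕ) (hj : j < T) : 0 ≤ E P j hj :=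
  en_nonneg hP.nonneg _ _

/-- the points of the block after the context -/
def blk {k j : ℕ} (h : j + k < T) (ω : Om ι T) : Fin (k + 1) → ι := fun l => (ω ⟨j + l, by omega⟩).1

open Classical in
/-- the telescoping argument -/
theorem tele {P : Om ι T → ℝ} (hP : Law P) {k j : ℕ} (h : j + k < T) (bad : (Fin (k + 1) → ι) → Prop)
    (hbad : ∀ ω, P ω ≠ 0 → (∀ l : Fin (k + 1), (ω ⟨j + l, by omega⟩).2 = true) → ¬ bad (blk h ω))
    {δ : ℝ} (hδ : 0 ≤ δ) (hE : E P (j + k) h - E P j (by omega) ≤ δ ^ 2) :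
    ∑ ω, P ω * (if bad (blk h ω) then ∏ l, cphi P j (by omega) (ctx j ω) (blk h ω l) else 0) ≤ (k + 1) * δ := by
  have hjT : j < T := by omega
  set pos : Fin (k + 1) → Fin T := fun l => ⟨j + l, by omega⟩ with hpos
  set F : ℕ → Om ι T → Fin (k + 1) → ℝ := fun i ω l =>
    if (l : ℕ) < i then Yf (pos l) ω else cphi P j hjT (ctx j ω) (blk h ω l) with hF
  set D : ℕ → ℝ := fun i => ∑ ω, P ω * (if bad (blk h ω) then ∏ l, F i ω l else 0) with hD
  have hF0 : ∀ i ω l, 0 ≤ F i ω l := by
    intro i ω l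
    simp only [hF]
    split_ifs
    · exact Yf_nonneg _ _
    · exact cphi_nonneg hP.nonneg _ _ _ _
  have hF1 : ∀ i ω l, F i ω l ≤ 1 := by
    intro i ω l
    simp only [hF]
    split_ifs
    · exact Yf_le_one _ _
    · exact cphi_le_one hP.nonneg _ _ _ _
  have hDlast : D (k + 1) = 0 := by
    refine sum_eq_zero fun ω _ => ?_
    by_cases hPω : P ω = 0
    · rw [hPω, zero_mul]
    by_cases hb : bad (blk h ω)
    · rw [if_pos hb]
      have : ∃ l : Fin (k + 1), (ω (pos l)).2 ≠ true := by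
        by_contra hcon
        push Not at hcon
        exact hbad ω hPω hcon hb
      obtain ⟨l, hl⟩ := this
      rw [prod_eq_zero (mem_univ l), mul_zero]
      simp only [hF]
      rw [if_pos l.2]
      unfold Yf
      rw [if_neg hl]
    · rw [if_neg hb, mul_zero]
  have hstep : ∀ i, i < k + 1 → D i ≤ D (i + 1) + δ := by
    intro i hi
    obtain ⟨q, hq⟩ : ∃ q : Fin (k + 1), q = ⟨i, hi⟩ := ⟨_, rfl⟩
    have hqi : (q : ℕ) = i := by rw [hq]
    set g : Om ι T → ℝ := fun ω => if bad (blk h ω) then ∏ l ∈ univ.erase q, F i ω l else 0 with hg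
    have hg0 : ∀ ω, 0 ≤ g ω := by
      intro ω
      simp only [hg]
      split_ifs
      · exact prod_nonneg fun l _ => hF0 _ _ _
      · exact le_rfl
    have hg1 : ∀ ω, g ω ≤ 1 := by
      intro ω
      simp only [hg]
      split_ifs
      · exact prod_le_one (fun l _ => hF0 _ _ _) (fun l _ => hF1 _ _ _)
      · exact zero_le_one
    have e1 : D i = ∑ ω, P ω * (cphi P j hjT (ctx j ω) (blk h ω q) * g ω) := by
      refine sum_congr rfl fun ω _ => ?_
      simp only [hg]
      by_cases hb : bad (blk h ω)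
      · rw [if_pos hb, if_pos hb, ← mul_prod_erase univ _ (mem_univ q)]
        congr 2
        simp only [hF]
        rw [if_neg (by omega)]
      · rw [if_neg hb, if_neg hb]
        ring
    have e2 : D (i + 1) = ∑ ω, P ω * (Yf (pos q) ω * g ω) := by
      refine sum_congr rfl fun ω _ => ?_
      simp only [hg]
      by_cases hb : bad (blk h ω)
      · rw [if_pos hb, if_pos hb, ← mul_prod_erase univ _ (mem_univ q)]
        congr 2
        · simp only [hF]
          rw [if_pos (by omega)]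
        · refine prod_congr rfl fun l hl => ?_
          have hlq : (l : ℕ) ≠ i := by
            intro e
            exact (mem_erase.1 hl).1 (Fin.ext (by omega))
          simp only [hF]
          by_cases hli : (l : ℕ) < i
          · rw [if_pos hli, if_pos (by omega)]
          · rw [if_neg hli, if_neg (by omega)]
      · rw [if_neg hb, if_neg hb]
        ring
    -- replace the flag by its conditional expectation
    have e3 : ∑ ω, P ω * (Yf (pos q) ω * g ω) =
        ∑ ω, P ω * (ce P (lab (fin' T (j + k) (pos q)) (pos q)) (Yf (pos q)) ω * g ω) := by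
      symm
      apply ce_mul hP.nonneg
      intro ω ω' hl
      obtain ⟨h1, h2⟩ := lab_eq_iff.1 hl
      have hall : ∀ l : Fin (k + 1), (ω (pos l)).1 = (ω' (pos l)).1 := by
        intro l
        by_cases hlq : l = q
        · rw [hlq]; exact h2
        · rw [h1 (pos l) (mem_fin'.2 ⟨by simp only [hpos]; omega, fun e => hlq (by
            simp only [hpos] at e
            have := congrArg Fin.val e
            simp only at this
            exact Fin.ext (by omega))⟩)]
      have hblk : blk h ω = blk h ω' := funext fun l => hall l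
      have hctx : ctx j ω = ctx j ω' := by
        unfold ctx
        funext a
        by_cases ha : a ∈ ini T j
        · have := mem_ini.1 ha
          rw [if_pos ha, if_pos ha, h1 a (mem_fin'.2 ⟨by omega, fun e => by
            rw [e] at this; simp only [hpos] at this; omega⟩)]
        · rw [if_neg ha, if_neg ha]
      simp only [hg]
      rw [hblk]
      by_cases hb : bad (blk h ω')
      · rw [if_pos hb, if_pos hb]
        refine prod_congr rfl fun l hl => ?_
        have hlq := (mem_erase.1 hl).1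
        simp only [hF]
        rw [hctx, hblk]
        unfold Yf
        rw [h1 (pos l) (mem_fin'.2 ⟨by simp only [hpos]; omega, fun e => hlq (by
            simp only [hpos] at e
            have := congrArg Fin.val e
            simp only at this
            exact Fin.ext (by omega))⟩)]
      · rw [if_neg hb, if_neg hb]
    have hposq : j ≤ ((pos q : Fin T) : ℕ) := by simp only [hpos]; omega
    have e4 : ∀ ω, cphi P j hjT (ctx j ω) (blk h ω q) = ce P (lab (ini T j) (pos q)) (Yf (pos q)) ω := by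
      intro ω
      rw [ce_coarse hP j hjT (pos q) hposq]
      rfl
    have e5 : ∑ ω, P ω * |ce P (lab (fin' T (j + k) (pos q)) (pos q)) (Yf (pos q)) ω -
        ce P (lab (ini T j) (pos q)) (Yf (pos q)) ω| ≤ δ := by
      apply l1_le hP.nonneg hP.total _ hδ
      rw [en_diff hP.nonneg (lab (ini T j) (pos q)) (lab (fin' T (j + k) (pos q)) (pos q)) _ (by
        intro ω ω' hl
        obtain ⟨h1, h2⟩ := lab_eq_iff.1 hl
        rw [lab_eq_iff]
        refine ⟨fun a ha => h1 a (mem_fin'.2 ⟨?_, ?_⟩), h2⟩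
        · have := mem_ini.1 ha; omega
        · intro e
          have := mem_ini.1 ha
          rw [e] at this
          omega), en_coarse hP j hjT (pos q) hposq, en_fine hP (j + k) h (pos q) (by simp only [hpos]; omega)]
      exact hE
    rw [e1, e2, e3, sum_congr rfl fun ω _ => by rw [e4 ω]]
    have e6 : ∑ ω, P ω * (ce P (lab (ini T j) (pos q)) (Yf (pos q)) ω * g ω) ≤
        ∑ ω, P ω * (ce P (lab (fin' T (j + k) (pos q)) (pos q)) (Yf (pos q)) ω * g ω) +
        ∑ ω, P ω * |ce P (lab (fin' T (j + k) (pos q)) (pos q)) (Yf (pos q)) ω -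
        ce P (lab (ini T j) (pos q)) (Yf (pos q)) ω| := by
      rw [← sum_add_distrib]
      refine sum_le_sum fun ω _ => ?_
      rw [← mul_add]
      refine mul_le_mul_of_nonneg_left ?_ (hP.nonneg ω)
      set a := ce P (lab (ini T j) (pos q)) (Yf (pos q)) ω
      set b := ce P (lab (fin' T (j + k) (pos q)) (pos q)) (Yf (pos q)) ω
      have h1 : (a - b) * g ω ≤ |b - a| := by
        rw [abs_sub_comm]
        calc (a - b) * g ω ≤ |a - b| * g ω := mul_le_mul_of_nonneg_right (le_abs_self _) (hg0 ω)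
          _ ≤ |a - b| * 1 := mul_le_mul_of_nonneg_left (hg1 ω) (abs_nonneg _)
          _ = _ := mul_one _
      linarith
    linarith
  have hall : ∀ i, i ≤ k + 1 → D 0 ≤ D i + i * δ := by
    intro i
    induction i with
    | zero => intro _; simp
    | succ i ih =>
      intro hi
      have h1 := ih (by omega)
      have h2 := hstep i (by omega)
      push_cast
      linarith
  have h0 := hall (k + 1) le_rfl
  rw [hDlast, zero_add] at h0
  have e0 : D 0 = ∑ ω, P ω * (if bad (blk h ω) then ∏ l, cphi P j hjT (ctx j ω) (blk h ω l) else 0) := by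
    refine sum_congr rfl fun ω _ => ?_
    congr 1
  rw [← e0]
  push_cast at h0
  exact h0

end flag

end Pool.Agent.K7.H62
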