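import Mathlib
import Pool.Agent.K7.H62.Flag

/-! The law of large numbers for blocks and the decorrelation of the context and a block of points. -/

set_option autoImplicit false

namespace Pool.Agent.K7.H62

open Finset

theorem sum_comp_inj {κ τ ι : Type} [Fintype κ] [Fintype τ] [Fintype ι] [DecidableEq κ] [DecidableEq τ]
    (u : κ → τ) (hu : Function.Injective u) (G : (κ → ι) → ℝ) :
    (Fintype.card ι : ℝ) ^ (Fintype.card κ) * ∑ x : τ → ι, G (x ∘ u) =
      (Fintype.card ι : ℝ) ^ (Fintype.card τ) * ∑ y : κ → ι, G y := by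
  classical
  set p : τ → Prop := fun t => t ∈ Set.range u with hp
  let e1 : (τ → ι) ≃ ({t // p t} → ι) × ({t // ¬ p t} → ι) := Equiv.piEquivPiSubtypeProd p (fun _ => ι)
  let e0 : κ ≃ {t // p t} := Equiv.ofInjective u hu
  have h1 : ∑ x : τ → ι, G (x ∘ u) =
      ∑ ab : ({t // p t} → ι) × ({t // ¬ p t} → ι), G (ab.1 ∘ e0) := by
    rw [← Equiv.sum_comp e1]
    refine sum_congr rfl fun x _ => ?_
    congr 1
  have h2 : ∑ ab : ({t // p t} → ι) × ({t // ¬ p t} → ι), G (ab.1 ∘ e0) =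
      (Fintype.card ({t // ¬ p t} → ι) : ℝ) * ∑ a : {t // p t} → ι, G (a ∘ e0) := by
    rw [Fintype.sum_prod_type, mul_sum]
    refine sum_congr rfl fun a _ => ?_
    simp only [sum_const, card_univ, nsmul_eq_mul]
  have h3 : ∑ a : {t // p t} → ι, G (a ∘ e0) = ∑ y : κ → ι, G y := by
    rw [← Equiv.sum_comp (Equiv.arrowCongr e0.symm (Equiv.refl ι))]
    refine sum_congr rfl fun a _ => ?_
    congr 1
  have hcard : Fintype.card κ + Fintype.card {t // ¬ p t} = Fintype.card τ := by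
    rw [Fintype.card_congr e0, Fintype.card_subtype_compl]
    have := Fintype.card_subtype_le p
    omega
  rw [h1, h2, h3, ← hcard, pow_add, Fintype.card_fun]
  push_cast
  ring

section lln

variable {ι : Type} [Fintype ι] [DecidableEq ι] {T : ℕ}

/-- the positions of the block `l` -/
def bp {k j L : ℕ} (h : j + (k + 1) * L ≤ T) (l : Fin L) (i : Fin (k + 1)) : Fin T :=
  ⟨j + (k + 1) * l + i, by
    have h1 : (k + 1) * (l : ℕ) + (k + 1) ≤ (k + 1) * L := by
      have : (k + 1) * ((l : ℕ) + 1) ≤ (k + 1) * L := Nat.mul_le_mul_left _ l.2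
      linarith
    have := i.2
    omega⟩

theorem bp_inj {k j L : ℕ} (h : j + (k + 1) * L ≤ T) {l l' : Fin L} {i i' : Fin (k + 1)}
    (e : bp h l i = bp h l' i') : l = l' ∧ i = i' := by
  have e1 : j + (k + 1) * (l : ℕ) + i = j + (k + 1) * (l' : ℕ) + i' := congrArg Fin.val e
  have hi := i.2
  have hi' := i'.2
  have h1 : (l : ℕ) = l' := by
    rcases lt_trichotomy (l : ℕ) l' with hl | hl | hl
    · have : (k + 1) * ((l : ℕ) + 1) ≤ (k + 1) * (l' : ℕ) := Nat.mul_le_mul_left _ hl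
      have e2 : (k + 1) * ((l : ℕ) + 1) = (k + 1) * (l : ℕ) + (k + 1) := by ring
      omega
    · exact hl
    · have : (k + 1) * ((l' : ℕ) + 1) ≤ (k + 1) * (l : ℕ) := Nat.mul_le_mul_left _ hl
      have e2 : (k + 1) * ((l' : ℕ) + 1) = (k + 1) * (l' : ℕ) + (k + 1) := by ring
      omega
  refine ⟨Fin.ext h1, Fin.ext ?_⟩
  rw [h1] at e1
  omega

/-- the initial positions -/
def ip {k j L : ℕ} (h : j + (k + 1) * L ≤ T) (i : Fin j) : Fin T := ⟨i, by have := i.2; omega⟩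

theorem lln {k j L : ℕ} (h : j + (k + 1) * L ≤ T) (g : (Fin j → ι) → (Fin (k + 1) → ι) → ℝ)
    (hg : ∀ a z, |g a z| ≤ 1) (hg0 : ∀ a, ∑ z, g a z = 0) :
    ∑ x : Fin T → ι, (∑ l : Fin L, g (x ∘ ip h) (x ∘ bp h l)) ^ 2 ≤ (Fintype.card ι : ℝ) ^ T * L := by
  rcases Nat.eq_zero_or_pos (Fintype.card ι) with hι | hι
  · -- no points
    have hι' : IsEmpty ι := Fintype.card_eq_zero_iff.1 hι
    rcases Nat.eq_zero_or_pos L with hL | hL
    · subst hL
      simp
    · have : IsEmpty (Fin T → ι) := by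
        have hT : 0 < T := by
          have : 0 < (k + 1) * L := by positivity
          omega
        exact ⟨fun f => hι'.false (f ⟨0, hT⟩)⟩
      rw [Finset.univ_eq_empty, Finset.sum_empty]
      positivity
  have hn : (0 : ℝ) < Fintype.card ι := by exact_mod_cast hι
  have hexp : ∑ x : Fin T → ι, (∑ l : Fin L, g (x ∘ ip h) (x ∘ bp h l)) ^ 2 =
      ∑ l : Fin L, ∑ l' : Fin L, ∑ x : Fin T → ι,
        g (x ∘ ip h) (x ∘ bp h l) * g (x ∘ ip h) (x ∘ bp h l') := by
    have e1 : ∀ x : Fin T → ι, (∑ l : Fin L, g (x ∘ ip h) (x ∘ bp h l)) ^ 2 =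
        ∑ l : Fin L, ∑ l' : Fin L, g (x ∘ ip h) (x ∘ bp h l) * g (x ∘ ip h) (x ∘ bp h l') := by
      intro x
      rw [sq, sum_mul_sum]
    rw [sum_congr rfl fun x _ => e1 x, sum_comm]
    refine sum_congr rfl fun l _ => ?_
    rw [sum_comm]
  rw [hexp]
  have hterm : ∀ l l' : Fin L, ∑ x : Fin T → ι,
        g (x ∘ ip h) (x ∘ bp h l) * g (x ∘ ip h) (x ∘ bp h l') ≤
      if l = l' then (Fintype.card ι : ℝ) ^ T else 0 := by
    intro l l'
    split_ifs with hll
    · subst hll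
      calc ∑ x : Fin T → ι, g (x ∘ ip h) (x ∘ bp h l) * g (x ∘ ip h) (x ∘ bp h l)
          ≤ ∑ _x : Fin T → ι, (1 : ℝ) := by
            refine sum_le_sum fun x _ => ?_
            have := hg (x ∘ ip h) (x ∘ bp h l)
            rw [abs_le] at this
            nlinarith
        _ = _ := by simp
    · let u : Fin j ⊕ (Fin (k + 1) ⊕ Fin (k + 1)) → Fin T :=
        Sum.elim (ip h) (Sum.elim (bp h l) (bp h l'))
      have hu : Function.Injective u := by
        have hlow : ∀ (i : Fin j) (l : Fin L) (i' : Fin (k + 1)), ip h i ≠ bp h l i' := by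
          intro i l i' e
          have e1 : (i : ℕ) = j + (k + 1) * (l : ℕ) + i' := congrArg Fin.val e
          have := i.2
          omega
        intro a b hab
        rcases a with a | a | a <;> rcases b with b | b | b <;>
          simp only [u, Sum.elim_inl, Sum.elim_inr] at hab
        · have e := congrArg Fin.val hab
          have e' : (a : ℕ) = b := e
          rw [Fin.ext e']
        · exact absurd hab (hlow _ _ _)
        · exact absurd hab (hlow _ _ _)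
        · exact absurd hab.symm (hlow _ _ _)
        · rw [(bp_inj h hab).2]
        · exact absurd (bp_inj h hab).1 hll
        · exact absurd hab.symm (hlow _ _ _)
        · exact absurd (bp_inj h hab).1.symm hll
        · rw [(bp_inj h hab).2]
      have key := sum_comp_inj (ι := ι) u hu (fun y =>
        g (y ∘ Sum.inl) (y ∘ Sum.inr ∘ Sum.inl) * g (y ∘ Sum.inl) (y ∘ Sum.inr ∘ Sum.inr))
      have e2 : ∑ y : Fin j ⊕ (Fin (k + 1) ⊕ Fin (k + 1)) → ι,
          g (y ∘ Sum.inl) (y ∘ Sum.inr ∘ Sum.inl) * g (y ∘ Sum.inl) (y ∘ Sum.inr ∘ Sum.inr) = 0 := by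
        rw [← Equiv.sum_comp (Equiv.sumArrowEquivProdArrow (Fin j) (Fin (k + 1) ⊕ Fin (k + 1)) ι).symm,
          Fintype.sum_prod_type]
        refine sum_eq_zero fun a _ => ?_
        rw [← Equiv.sum_comp (Equiv.sumArrowEquivProdArrow (Fin (k + 1)) (Fin (k + 1)) ι).symm,
          Fintype.sum_prod_type]
        have e3 : ∀ b c : Fin (k + 1) → ι,
            g (((Equiv.sumArrowEquivProdArrow (Fin j) (Fin (k + 1) ⊕ Fin (k + 1)) ι).symm
              (a, (Equiv.sumArrowEquivProdArrow (Fin (k + 1)) (Fin (k + 1)) ι).symm (b, c))) ∘ Sum.inl)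
              (((Equiv.sumArrowEquivProdArrow (Fin j) (Fin (k + 1) ⊕ Fin (k + 1)) ι).symm
              (a, (Equiv.sumArrowEquivProdArrow (Fin (k + 1)) (Fin (k + 1)) ι).symm (b, c))) ∘
                Sum.inr ∘ Sum.inl) *
            g (((Equiv.sumArrowEquivProdArrow (Fin j) (Fin (k + 1) ⊕ Fin (k + 1)) ι).symm
              (a, (Equiv.sumArrowEquivProdArrow (Fin (k + 1)) (Fin (k + 1)) ι).symm (b, c))) ∘ Sum.inl)
              (((Equiv.sumArrowEquivProdArrow (Fin j) (Fin (k + 1) ⊕ Fin (k + 1)) ι).symm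
              (a, (Equiv.sumArrowEquivProdArrow (Fin (k + 1)) (Fin (k + 1)) ι).symm (b, c))) ∘
                Sum.inr ∘ Sum.inr) = g a b * g a c := by
          intro b c
          rfl
        calc _ = ∑ b : Fin (k + 1) → ι, ∑ c : Fin (k + 1) → ι, g a b * g a c :=
              sum_congr rfl fun b _ => sum_congr rfl fun c _ => e3 b c
          _ = (∑ b, g a b) * ∑ c, g a c := by rw [sum_mul_sum]
          _ = 0 := by rw [hg0, zero_mul]
      rw [e2, mul_zero] at key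
      have h4 := (mul_eq_zero.1 key).resolve_left (by positivity)
      exact h4.le
  calc ∑ l : Fin L, ∑ l' : Fin L, ∑ x : Fin T → ι,
        g (x ∘ ip h) (x ∘ bp h l) * g (x ∘ ip h) (x ∘ bp h l')
      ≤ ∑ l : Fin L, ∑ l' : Fin L, (if l = l' then (Fintype.card ι : ℝ) ^ T else 0) :=
        sum_le_sum fun l _ => sum_le_sum fun l' _ => hterm l l'
    _ = (Fintype.card ι : ℝ) ^ T * L := by
        simp [mul_comm]

/-- the context built from points and flags -/
def mkc (T : ℕ) {j : ℕ} (a : Fin j → ι) (y : Fin j → Bool) : Fin T → Option (ι × Bool) :=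
  fun i => if h : (i : ℕ) < j then some (a ⟨i, h⟩, y ⟨i, h⟩) else none

theorem ctx_eq_mkc {k j L : ℕ} (h : j + (k + 1) * L ≤ T) (ω : Om ι T) :
    ctx j ω = mkc T ((fun i => (ω i).1) ∘ ip h) ((fun i => (ω i).2) ∘ ip h) := by
  funext i
  unfold ctx mkc
  by_cases hi : (i : ℕ) < j
  · rw [if_pos (mem_ini.2 hi), dif_pos hi]
    rfl
  · rw [if_neg (fun e => hi (mem_ini.1 e)), dif_neg hi]

/-- the map which exchanges the first block and the block at distance `d` -/
def swf (T k j d : ℕ) (h : j + d + k < T) (t : Fin T) : Fin T :=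
  ⟨if j ≤ (t : ℕ) ∧ (t : ℕ) ≤ j + k then t + d
    else if j + d ≤ (t : ℕ) ∧ (t : ℕ) ≤ j + d + k then t - d else t, by
    have := t.2
    split_ifs <;> omega⟩

/-- the involution which exchanges the first block and the block at distance `d` -/
def sw (T k j d : ℕ) (h : j + d + k < T) (hd : d = 0 ∨ k + 1 ≤ d) : Equiv.Perm (Fin T) :=
  Function.Involutive.toPerm (swf T k j d h) (by
      intro t
      apply Fin.ext
      unfold swf
      simp only
      split_ifs <;> omega)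

theorem sw_low {k j d : ℕ} (h : j + d + k < T) (hd : d = 0 ∨ k + 1 ≤ d) (t : Fin T) (ht : (t : ℕ) < j) :
    sw T k j d h hd t = t := by
  show swf T k j d h t = t
  apply Fin.ext
  unfold swf
  simp only
  split_ifs <;> omega

theorem sw_blk {k j d : ℕ} (h : j + d + k < T) (hd : d = 0 ∨ k + 1 ≤ d) (i : Fin (k + 1)) :
    sw T k j d h hd ⟨j + d + i, by omega⟩ = ⟨j + i, by omega⟩ := by
  have hi := i.2
  show swf T k j d h ⟨j + d + i, by omega⟩ = ⟨j + i, by omega⟩
  apply Fin.ext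
  unfold swf
  simp only
  split_ifs <;> omega

theorem blk_sym {P : Om ι T → ℝ} (hP : Law P) {k j L : ℕ} (h : j + (k + 1) * L ≤ T) (h' : j + k < T)
    (Φ : (Fin T → Option (ι × Bool)) → (Fin (k + 1) → ι) → ℝ) (l : Fin L) :
    ∑ ω, P ω * Φ (ctx j ω) ((fun i => (ω i).1) ∘ bp h l) = ∑ ω, P ω * Φ (ctx j ω) (blk h' ω) := by
  have hl := l.2
  have h1 : (k + 1) * (l : ℕ) + (k + 1) ≤ (k + 1) * L := by
    have : (k + 1) * ((l : ℕ) + 1) ≤ (k + 1) * L := Nat.mul_le_mul_left _ l.2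
    linarith
  have hd : (k + 1) * (l : ℕ) = 0 ∨ k + 1 ≤ (k + 1) * (l : ℕ) := by
    rcases Nat.eq_zero_or_pos (l : ℕ) with h0 | h0
    · left; rw [h0, mul_zero]
    · right; exact Nat.le_mul_of_pos_right _ h0
  have h2 : j + (k + 1) * (l : ℕ) + k < T := by omega
  set σ := sw T k j ((k + 1) * l) h2 hd with hσ
  rw [← Equiv.sum_comp (act σ) (fun ω => P ω * Φ (ctx j ω) ((fun i => (ω i).1) ∘ bp h l))]
  refine sum_congr rfl fun ω _ => ?_
  rw [hP.sym]
  have e1 : ctx j (act σ ω) = ctx j ω := by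
    unfold ctx
    funext i
    by_cases hi : i ∈ ini T j
    · rw [if_pos hi, if_pos hi, act_apply, hσ, sw_low h2 hd i (mem_ini.1 hi)]
    · rw [if_neg hi, if_neg hi]
  have e2 : (fun i => (act σ ω i).1) ∘ bp h l = blk h' ω := by
    funext i
    show (act σ ω (bp h l i)).1 = (ω ⟨j + i, _⟩).1
    rw [act_apply]
    have : σ (bp h l i) = ⟨j + i, by omega⟩ := by
      rw [hσ]
      exact sw_blk h2 hd i
    rw [this]
  rw [e1, e2]

/-- the law has uniform points -/
def Unif (P : Om ι T → ℝ) : Prop :=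
  ∀ x : Fin T → ι, ∑ y : Fin T → Bool, P (fun i => (x i, y i)) = ((Fintype.card ι : ℝ) ^ T)⁻¹

theorem sum_Om (F : Om ι T → ℝ) : ∑ ω, F ω = ∑ x : Fin T → ι, ∑ y : Fin T → Bool, F (fun i => (x i, y i)) := by
  rw [← Equiv.sum_comp (Equiv.arrowProdEquivProdArrow (Fin T) (fun _ => ι) (fun _ => Bool)).symm,
    Fintype.sum_prod_type]
  rfl

theorem unif_sum {P : Om ι T → ℝ} (hu : Unif P) (F : (Fin T → ι) → ℝ) :
    ∑ ω, P ω * F (fun i => (ω i).1) = ((Fintype.card ι : ℝ) ^ T)⁻¹ * ∑ x, F x := by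
  rw [sum_Om, mul_sum]
  refine sum_congr rfl fun x _ => ?_
  show ∑ y : Fin T → Bool, P (fun i => (x i, y i)) * F x = _
  rw [← sum_mul, hu]

theorem decor [Nonempty ι] {P : Om ι T → ℝ} (hP : Law P) (hu : Unif P) {k j L : ℕ}
    (h : j + (k + 1) * L ≤ T) (h' : j + k < T) (hL : 0 < L)
    (Φ : (Fin T → Option (ι × Bool)) → (Fin (k + 1) → ι) → ℝ)
    (hΦ0 : ∀ c z, 0 ≤ Φ c z) (hΦ1 : ∀ c z, Φ c z ≤ 1) :
    |∑ ω, P ω * Φ (ctx j ω) (blk h' ω) -
      ∑ ω, P ω * (((Fintype.card ι : ℝ) ^ (k + 1))⁻¹ * ∑ z, Φ (ctx j ω) z)| ≤ 2 ^ j / √L := by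
  have hn : (0 : ℝ) < Fintype.card ι := by exact_mod_cast Fintype.card_pos
  have hnk : (0 : ℝ) < (Fintype.card ι : ℝ) ^ (k + 1) := by positivity
  have hLr : (0 : ℝ) < L := by exact_mod_cast hL
  set mean : (Fin T → Option (ι × Bool)) → ℝ := fun c => ((Fintype.card ι : ℝ) ^ (k + 1))⁻¹ * ∑ z, Φ c z
    with hmean
  have hcardz : ((Fintype.card (Fin (k + 1) → ι) : ℕ) : ℝ) = (Fintype.card ι : ℝ) ^ (k + 1) := by
    rw [Fintype.card_fun, Fintype.card_fin]; push_cast; rfl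
  have hm0 : ∀ c, 0 ≤ mean c := fun c => mul_nonneg (by positivity) (sum_nonneg fun z _ => hΦ0 c z)
  have hm1 : ∀ c, mean c ≤ 1 := by
    intro c
    simp only [hmean]
    rw [inv_mul_le_iff₀ hnk, mul_one, ← hcardz]
    calc ∑ z, Φ c z ≤ ∑ _z : Fin (k + 1) → ι, (1 : ℝ) := sum_le_sum fun z _ => hΦ1 c z
      _ = _ := by simp
  set g : (Fin j → Bool) → (Fin j → ι) → (Fin (k + 1) → ι) → ℝ := fun y a z =>
    Φ (mkc T a y) z - mean (mkc T a y) with hg
  have hg1 : ∀ y a z, |g y a z| ≤ 1 := by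
    intro y a z
    simp only [hg]
    rw [abs_le]
    constructor
    · linarith [hΦ0 (mkc T a y) z, hm1 (mkc T a y)]
    · linarith [hΦ1 (mkc T a y) z, hm0 (mkc T a y)]
  have hg0 : ∀ y a, ∑ z, g y a z = 0 := by
    intro y a
    simp only [hg]
    rw [sum_sub_distrib, sum_const, card_univ, nsmul_eq_mul, hcardz]
    simp only [hmean]
    rw [← mul_assoc, mul_inv_cancel₀ hnk.ne', one_mul, sub_self]
  set A : (Fin j → Bool) → (Fin T → ι) → ℝ := fun y x =>
    (L : ℝ)⁻¹ * ∑ l : Fin L, g y (x ∘ ip h) (x ∘ bp h l) with hA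
  -- the difference as an average
  have e1 : ∑ ω, P ω * Φ (ctx j ω) (blk h' ω) - ∑ ω, P ω * mean (ctx j ω) =
      ∑ ω, P ω * A ((fun i => (ω i).2) ∘ ip h) (fun i => (ω i).1) := by
    have e2 : ∑ ω, P ω * Φ (ctx j ω) (blk h' ω) =
        (L : ℝ)⁻¹ * ∑ l : Fin L, ∑ ω, P ω * Φ (ctx j ω) ((fun i => (ω i).1) ∘ bp h l) := by
      rw [sum_congr rfl fun l _ => blk_sym hP h h' Φ l, sum_const, card_univ, Fintype.card_fin, nsmul_eq_mul,
        ← mul_assoc, inv_mul_cancel₀ hLr.ne', one_mul]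
    have e3 : ∑ ω, P ω * mean (ctx j ω) = (L : ℝ)⁻¹ * ∑ _l : Fin L, ∑ ω, P ω * mean (ctx j ω) := by
      rw [sum_const, card_univ, Fintype.card_fin, nsmul_eq_mul, ← mul_assoc, inv_mul_cancel₀ hLr.ne', one_mul]
    rw [e2, e3, ← mul_sub, ← sum_sub_distrib]
    have e4 : ∀ l : Fin L, ∑ ω, P ω * Φ (ctx j ω) ((fun i => (ω i).1) ∘ bp h l) - ∑ ω, P ω * mean (ctx j ω) =
        ∑ ω, P ω * g ((fun i => (ω i).2) ∘ ip h) ((fun i => (ω i).1) ∘ ip h) ((fun i => (ω i).1) ∘ bp h l) := by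
      intro l
      rw [← sum_sub_distrib]
      refine sum_congr rfl fun ω _ => ?_
      simp only [hg]
      rw [← ctx_eq_mkc h ω]
      ring
    rw [sum_congr rfl fun l _ => e4 l, sum_comm, mul_sum]
    refine sum_congr rfl fun ω _ => ?_
    simp only [hA]
    rw [← mul_sum]
    ring
  rw [e1]
  have e5 : |∑ ω, P ω * A ((fun i => (ω i).2) ∘ ip h) (fun i => (ω i).1)| ≤
      ∑ ω, P ω * ∑ y : Fin j → Bool, |A y (fun i => (ω i).1)| := by
    refine (abs_sum_le_sum_abs _ _).trans (sum_le_sum fun ω _ => ?_)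
    rw [abs_mul, abs_of_nonneg (hP.nonneg ω)]
    refine mul_le_mul_of_nonneg_left ?_ (hP.nonneg ω)
    exact single_le_sum (f := fun y => |A y (fun i => (ω i).1)|) (fun _ _ => abs_nonneg _) (mem_univ _)
  refine e5.trans ?_
  have e6 : ∑ ω, P ω * ∑ y : Fin j → Bool, |A y (fun i => (ω i).1)| =
      ∑ y : Fin j → Bool, ((Fintype.card ι : ℝ) ^ T)⁻¹ * ∑ x, |A y x| := by
    rw [unif_sum hu (fun x => ∑ y : Fin j → Bool, |A y x|), sum_comm, mul_sum]
  rw [e6]
  have hnT : (0 : ℝ) < (Fintype.card ι : ℝ) ^ T := by positivity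
  have e7 : ∀ y : Fin j → Bool, ((Fintype.card ι : ℝ) ^ T)⁻¹ * ∑ x, |A y x| ≤ 1 / √L := by
    intro y
    have h1 := lln h (g y) (hg1 y) (hg0 y)
    have h2 : ∑ x, (A y x) ^ 2 ≤ (Fintype.card ι : ℝ) ^ T / L := by
      have : ∑ x, (A y x) ^ 2 = ((L : ℝ)⁻¹) ^ 2 * ∑ x : Fin T → ι,
          (∑ l : Fin L, g y (x ∘ ip h) (x ∘ bp h l)) ^ 2 := by
        rw [mul_sum]
        refine sum_congr rfl fun x _ => ?_
        simp only [hA]
        ring
      rw [this]
      calc ((L : ℝ)⁻¹) ^ 2 * _ ≤ ((L : ℝ)⁻¹) ^ 2 * ((Fintype.card ι : ℝ) ^ T * L) :=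
            mul_le_mul_of_nonneg_left h1 (by positivity)
        _ = _ := by field_simp
    have h3 : (∑ x, |A y x|) ^ 2 ≤ (Fintype.card ι : ℝ) ^ T * ∑ x, (A y x) ^ 2 := by
      have := sq_sum_le_card_mul_sum_sq (s := (univ : Finset (Fin T → ι))) (f := fun x => |A y x|)
      simp only [sq_abs, card_univ, Fintype.card_fun, Fintype.card_fin] at this
      push_cast at this
      exact this
    have h4 : (∑ x, |A y x|) ^ 2 ≤ ((Fintype.card ι : ℝ) ^ T / √L) ^ 2 := by
      refine h3.trans ((mul_le_mul_of_nonneg_left h2 hnT.le).trans (le_of_eq ?_))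
      rw [div_pow, Real.sq_sqrt hLr.le]
      ring
    have h5 := abs_le_of_sq_le_sq' h4 (by positivity)
    rw [inv_mul_le_iff₀ hnT]
    calc ∑ x, |A y x| ≤ (Fintype.card ι : ℝ) ^ T / √L := h5.2
      _ = _ := by ring
  calc ∑ y : Fin j → Bool, ((Fintype.card ι : ℝ) ^ T)⁻¹ * ∑ x, |A y x| ≤ ∑ _y : Fin j → Bool, 1 / √L :=
        sum_le_sum fun y _ => e7 y
    _ = 2 ^ j / √L := by
        rw [sum_const, card_univ, Fintype.card_fun, Fintype.card_fin, Fintype.card_bool, nsmul_eq_mul]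
        push_cast
        ring

end lln

end Pool.Agent.K7.H62
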