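import Mathlib
import Pool.Agent.K7.H62.Lln

/-! The covering theorem for exchangeable laws of flagged points. -/

set_option autoImplicit false

namespace Pool.Agent.K7.H62

open Finset

theorem card_thr (R : ℕ) (x : ℝ) (hx0 : 0 ≤ x) (hx1 : x ≤ R) :
    x - 1 ≤ ((univ.filter (fun r : Fin R => ((r : ℕ) : ℝ) + 1 ≤ x)).card : ℝ) ∧
    ((univ.filter (fun r : Fin R => ((r : ℕ) : ℝ) + 1 ≤ x)).card : ℝ) ≤ x := by
  have e : (univ.filter (fun r : Fin R => ((r : ℕ) : ℝ) + 1 ≤ x)) =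
      univ.filter (fun r : Fin R => (r : ℕ) < ⌊x⌋₊) := by
    ext r
    simp only [mem_filter, mem_univ, true_and]
    rw [Nat.lt_iff_add_one_le, Nat.le_floor_iff hx0]
    push_cast
    rfl
  have hf : ⌊x⌋₊ ≤ R := by
    have := Nat.floor_le hx0
    exact_mod_cast this.trans hx1
  rw [e, Fin.card_filter_val_lt, min_eq_right hf]
  exact ⟨(Nat.sub_one_lt_floor x).le, Nat.floor_le hx0⟩

theorem exists_small_step (a : ℕ → ℝ) (s : ℕ) (hs : 0 < s) (h0 : 0 ≤ a 0) (h1 : a s ≤ 1) :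
    ∃ i < s, a (i + 1) - a i ≤ 1 / s := by
  by_contra hcon
  push Not at hcon
  have h2 : ∑ i ∈ range s, (a (i + 1) - a i) = a s - a 0 := sum_range_sub a s
  have h3 : ∑ _i ∈ range s, (1 / s : ℝ) < ∑ i ∈ range s, (a (i + 1) - a i) :=
    sum_lt_sum_of_nonempty (nonempty_range_iff.2 hs.ne') fun i hi => hcon i (mem_range.1 hi)
  rw [h2, sum_const, card_range, nsmul_eq_mul, mul_one_div, div_self (by positivity)] at h3
  linarith

section cover

variable {ι : Type} [Fintype ι] [DecidableEq ι] {T : ℕ}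

theorem sum_head (k : ℕ) (F : ι → ℝ) :
    ∑ z : Fin (k + 1) → ι, F (z 0) = (Fintype.card ι : ℝ) ^ k * ∑ a, F a := by
  rcases Nat.eq_zero_or_pos (Fintype.card ι) with hι | hι
  · have hι' : IsEmpty ι := Fintype.card_eq_zero_iff.1 hι
    have : IsEmpty (Fin (k + 1) → ι) := ⟨fun f => hι'.false (f 0)⟩
    rw [univ_eq_empty, univ_eq_empty, sum_empty, sum_empty, mul_zero]
  · have hn : (0 : ℝ) < Fintype.card ι := by exact_mod_cast hι
    have h := sum_comp_inj (ι := ι) (fun _ : Unit => (0 : Fin (k + 1))) (fun _ _ _ => rfl) (fun y => F (y ()))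
    have e : ∑ y : Unit → ι, F (y ()) = ∑ a, F a := by
      rw [← Equiv.sum_comp (Equiv.funUnique Unit ι).symm]
      rfl
    rw [e, Fintype.card_unit, Fintype.card_fin] at h
    have h2 : (Fintype.card ι : ℝ) * ∑ z : Fin (k + 1) → ι, F (z 0) =
        (Fintype.card ι : ℝ) * ((Fintype.card ι : ℝ) ^ k * ∑ a, F a) := by
      rw [pow_one] at h
      calc _ = (Fintype.card ι : ℝ) ^ (k + 1) * ∑ a, F a := h
        _ = _ := by ring
    exact mul_left_cancel₀ hn.ne' h2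

open Classical in
theorem cover_aux [Nonempty ι] {k : ℕ} {P : Om ι T → ℝ} (hP : Law P) (hu : Unif P)
    (bad : (Fin (k + 1) → ι) → Prop)
    (hbad : ∀ ω, P ω ≠ 0 → ∀ u : Fin (k + 1) → Fin T, (∀ l, (ω (u l)).2 = true) →
      ¬ bad (fun l => (ω (u l)).1))
    {j L R : ℕ} (h : j + (k + 1) * L ≤ T) (h' : j + k < T) (hL : 0 < L) (hR : 0 < R)
    {ε δ η δ₀ β : ℝ} (hδ : 0 ≤ δ) (hε : 0 < ε)
    (hE : E P (j + k) h' - E P j (by omega) ≤ δ ^ 2) (hη : 2 ^ j / √L ≤ η)
    (hδη : (k + 1) * δ + η ≤ ε ^ 2 / R ^ (k + 1))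
    (hβ : ∀ m, ∑ z, |(∑ ω, P ω * (if (ω m).1 = z then Yf m ω else 0)) - β / Fintype.card ι| ≤ δ₀) :
    ∃ (Ξ : Type) (_ : Fintype Ξ) (p : Ξ → ℝ) (W : Ξ → Finset ι), (∀ ξ, 0 ≤ p ξ) ∧ ∑ ξ, p ξ = 1 ∧
      (∀ ξ, ((univ.filter (fun z : Fin (k + 1) → ι => bad z ∧ ∀ l, z l ∈ W ξ)).card : ℝ) ≤
        ε * (Fintype.card ι : ℝ) ^ (k + 1)) ∧
      ∑ z, |∑ ξ, p ξ * (if z ∈ W ξ then 1 else 0) - β| ≤
        (2 * η + δ₀ + 1 / R + ε) * Fintype.card ι := by
  have hjT : j < T := by omega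
  have hn : (0 : ℝ) < Fintype.card ι := by exact_mod_cast Fintype.card_pos
  have hRr : (0 : ℝ) < R := by exact_mod_cast hR
  set n : ℝ := ((Fintype.card ι : ℕ) : ℝ) with hndef
  have hnk : (0 : ℝ) < n ^ (k + 1) := by positivity
  set φ := cphi P j hjT with hφ
  have hφ0 : ∀ c z, 0 ≤ φ c z := cphi_nonneg hP.nonneg j hjT
  have hφ1 : ∀ c z, φ c z ≤ 1 := cphi_le_one hP.nonneg j hjT
  set Φ : (Fin T → Option (ι × Bool)) → (Fin (k + 1) → ι) → ℝ := fun c z =>
    if bad z then ∏ l, φ c (z l) else 0 with hΦ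
  have hΦ0 : ∀ c z, 0 ≤ Φ c z := by
    intro c z; simp only [hΦ]; split_ifs
    · exact prod_nonneg fun l _ => hφ0 _ _
    · exact le_rfl
  have hΦ1 : ∀ c z, Φ c z ≤ 1 := by
    intro c z; simp only [hΦ]; split_ifs
    · exact prod_le_one (fun l _ => hφ0 _ _) (fun l _ => hφ1 _ _)
    · exact zero_le_one
  set Bc : (Fin T → Option (ι × Bool)) → ℝ := fun c => (n ^ (k + 1))⁻¹ * ∑ z, Φ c z with hBc
  have hBc0 : ∀ c, 0 ≤ Bc c := fun c => mul_nonneg (by positivity) (sum_nonneg fun z _ => hΦ0 c z)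
  -- few bad tuples on average
  have hB : ∑ ω, P ω * Bc (ctx j ω) ≤ ε ^ 2 / R ^ (k + 1) := by
    have h1 := tele hP h' bad (fun ω hω hf => hbad ω hω _ hf) hδ hE
    have h2 := (abs_le.1 ((decor hP hu h h' hL Φ hΦ0 hΦ1).trans hη)).1
    have h3 : ∑ ω, P ω * Φ (ctx j ω) (blk h' ω) ≤ (k + 1) * δ := h1
    have h4 : ∑ ω, P ω * Bc (ctx j ω) ≤ (k + 1) * δ + η := by
      simp only [hBc]
      linarith
    exact h4.trans hδη
  -- the marginals
  have hmar : ∀ s : ι → ℝ, (∀ z, 0 ≤ s z) → (∀ z, s z ≤ 1) →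
      |∑ z, s z * ((∑ ω, P ω * (if (ω ⟨j, hjT⟩).1 = z then Yf ⟨j, hjT⟩ ω else 0)) -
        n⁻¹ * ∑ ω, P ω * φ (ctx j ω) z)| ≤ η := by
    intro s hs0 hs1
    have h1 := (decor hP hu h h' hL (fun c z => s (z 0) * φ c (z 0))
      (fun c z => mul_nonneg (hs0 _) (hφ0 _ _)) (fun c z => mul_le_one₀ (hs1 _) (hφ0 _ _) (hφ1 _ _))).trans hη
    have e1 : ∑ ω, P ω * (s (blk h' ω 0) * φ (ctx j ω) (blk h' ω 0)) =
        ∑ z, s z * (∑ ω, P ω * (if (ω ⟨j, hjT⟩).1 = z then Yf ⟨j, hjT⟩ ω else 0)) := by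
      have e2 : ∑ ω, P ω * (s (blk h' ω 0) * φ (ctx j ω) (blk h' ω 0)) =
          ∑ ω, P ω * (ce P (lab (ini T j) ⟨j, hjT⟩) (Yf ⟨j, hjT⟩) ω * s (ω ⟨j, hjT⟩).1) := by
        refine sum_congr rfl fun ω _ => ?_
        rw [ce_eq_cphi]
        have : blk h' ω 0 = (ω ⟨j, hjT⟩).1 := rfl
        rw [this]
        ring
      rw [e2, ce_mul hP.nonneg _ _ _ (by
        intro ω ω' hl
        rw [(lab_eq_iff.1 hl).2])]
      have e3 : ∀ z, s z * (∑ ω, P ω * (if (ω ⟨j, hjT⟩).1 = z then Yf ⟨j, hjT⟩ ω else 0)) =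
          ∑ ω, P ω * (if (ω ⟨j, hjT⟩).1 = z then Yf ⟨j, hjT⟩ ω * s z else 0) := by
        intro z
        rw [mul_sum]
        refine sum_congr rfl fun ω _ => ?_
        split_ifs <;> ring
      rw [sum_congr rfl fun z _ => e3 z, sum_comm]
      refine sum_congr rfl fun ω _ => ?_
      rw [← mul_sum, sum_ite_eq univ (ω ⟨j, hjT⟩).1 (fun z => Yf ⟨j, hjT⟩ ω * s z), if_pos (mem_univ _)]
    have e4 : ∑ ω, P ω * ((n ^ (k + 1))⁻¹ * ∑ z : Fin (k + 1) → ι, s (z 0) * φ (ctx j ω) (z 0)) =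
        ∑ z, s z * (n⁻¹ * ∑ ω, P ω * φ (ctx j ω) z) := by
      have e5 : ∀ ω, P ω * ((n ^ (k + 1))⁻¹ * ∑ z : Fin (k + 1) → ι, s (z 0) * φ (ctx j ω) (z 0)) =
          ∑ z, n⁻¹ * (P ω * (s z * φ (ctx j ω) z)) := by
        intro ω
        rw [sum_head k (fun a => s a * φ (ctx j ω) a), ← mul_sum, ← mul_sum]
        rw [pow_succ, mul_inv]
        have : (n ^ k)⁻¹ * n ^ k = 1 := inv_mul_cancel₀ (by positivity)
        calc P ω * ((n ^ k)⁻¹ * n⁻¹ * (n ^ k * ∑ a, s a * φ (ctx j ω) a)) =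
            ((n ^ k)⁻¹ * n ^ k) * (n⁻¹ * (P ω * ∑ a, s a * φ (ctx j ω) a)) := by ring
          _ = _ := by rw [this, one_mul]
      rw [sum_congr rfl fun ω _ => e5 ω, sum_comm]
      refine sum_congr rfl fun z _ => ?_
      rw [← mul_sum, mul_left_comm]
      congr 1
      rw [mul_sum]
      refine sum_congr rfl fun ω _ => ?_
      ring
    have e6 : ∑ z, s z * ((∑ ω, P ω * (if (ω ⟨j, hjT⟩).1 = z then Yf ⟨j, hjT⟩ ω else 0)) -
        n⁻¹ * ∑ ω, P ω * φ (ctx j ω) z) =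
        ∑ z, s z * (∑ ω, P ω * (if (ω ⟨j, hjT⟩).1 = z then Yf ⟨j, hjT⟩ ω else 0)) -
        ∑ z, s z * (n⁻¹ * ∑ ω, P ω * φ (ctx j ω) z) := by
      rw [← sum_sub_distrib]
      exact sum_congr rfl fun z _ => by ring
    rw [e6, ← e1, ← e4]
    exact h1
  set a : ι → ℝ := fun z => ∑ ω, P ω * (if (ω ⟨j, hjT⟩).1 = z then Yf ⟨j, hjT⟩ ω else 0) with ha
  set b : ι → ℝ := fun z => n⁻¹ * ∑ ω, P ω * φ (ctx j ω) z with hb
  have hab : ∑ z, |a z - b z| ≤ 2 * η := by
    have h1 := hmar (fun z => if 0 ≤ a z - b z then 1 else 0) (fun z => by split_ifs <;> norm_num)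
      (fun z => by split_ifs <;> norm_num)
    have h2 := hmar (fun z => if 0 ≤ a z - b z then 0 else 1) (fun z => by split_ifs <;> norm_num)
      (fun z => by split_ifs <;> norm_num)
    have h3 : ∑ z, |a z - b z| = (∑ z, (if 0 ≤ a z - b z then (1 : ℝ) else 0) * (a z - b z)) -
        ∑ z, (if 0 ≤ a z - b z then (0 : ℝ) else 1) * (a z - b z) := by
      rw [← sum_sub_distrib]
      refine sum_congr rfl fun z _ => ?_
      split_ifs with h0
      · rw [abs_of_nonneg h0]; ring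
      · rw [abs_of_neg (not_le.1 h0)]; ring
    rw [h3]
    have h4 := (abs_le.1 h1).2
    have h5 := (abs_le.1 h2).1
    simp only [ha, hb] at h4 h5 ⊢
    linarith
  have hbβ : ∑ z, |b z - β / n| ≤ 2 * η + δ₀ := by
    calc ∑ z, |b z - β / n| ≤ ∑ z, (|a z - b z| + |a z - β / n|) := by
          refine sum_le_sum fun z _ => ?_
          calc |b z - β / n| = |-(a z - b z) + (a z - β / n)| := by ring_nf
            _ ≤ |-(a z - b z)| + |a z - β / n| := abs_add_le _ _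
            _ = _ := by rw [abs_neg]
      _ = ∑ z, |a z - b z| + ∑ z, |a z - β / n| := sum_add_distrib
      _ ≤ _ := add_le_add hab (hβ ⟨j, hjT⟩)
  -- the sets
  set gd : Om ι T → Prop := fun ω => Bc (ctx j ω) ≤ ε / R ^ (k + 1) with hgd
  set W : Fin R × Om ι T → Finset ι := fun ξ =>
    if gd ξ.2 then univ.filter (fun z => ((ξ.1 : ℕ) : ℝ) + 1 ≤ R * φ (ctx j ξ.2) z) else ∅ with hW
  refine ⟨Fin R × Om ι T, inferInstance, fun ξ => P ξ.2 / R, W, fun ξ => div_nonneg (hP.nonneg _) hRr.le,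
    ?_, ?_, ?_⟩
  · rw [Fintype.sum_prod_type]
    simp only
    rw [sum_const, card_univ, Fintype.card_fin, nsmul_eq_mul, ← sum_div, hP.total]
    field_simp
  · rintro ⟨r, ω⟩
    by_cases hg : gd ω
    swap
    · have : (univ.filter (fun z : Fin (k + 1) → ι => bad z ∧ ∀ l, z l ∈ W (r, ω))) = ∅ := by
        rw [filter_eq_empty_iff]
        rintro z - ⟨-, h2⟩
        have h3 := h2 0
        simp only [hW] at h3
        rw [if_neg hg] at h3
        exact absurd h3 (notMem_empty _)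
      rw [this, card_empty, Nat.cast_zero]
      positivity
    have h1 : ((univ.filter (fun z : Fin (k + 1) → ι => bad z ∧ ∀ l, z l ∈ W (r, ω))).card : ℝ) *
        (1 / R ^ (k + 1)) ≤ ∑ z, Φ (ctx j ω) z := by
      rw [← nsmul_eq_mul]
      refine (card_nsmul_le_sum _ (fun z => Φ (ctx j ω) z) _ ?_).trans
        (sum_le_sum_of_subset_of_nonneg (filter_subset _ _) fun z _ _ => hΦ0 _ _)
      intro z hz
      obtain ⟨h2, h3⟩ := (mem_filter.1 hz).2
      simp only [hΦ]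
      rw [if_pos h2]
      have h4 : ∀ l, (1 / R : ℝ) ≤ φ (ctx j ω) (z l) := by
        intro l
        have h5 := h3 l
        simp only [hW] at h5
        rw [if_pos hg, mem_filter] at h5
        rw [div_le_iff₀ hRr]
        have h6 : (0 : ℝ) ≤ ((r : ℕ) : ℝ) := Nat.cast_nonneg _
        have h7 := h5.2
        linarith
      calc (1 / R ^ (k + 1) : ℝ) = ∏ _l : Fin (k + 1), (1 / R : ℝ) := by
            rw [prod_const, card_univ, Fintype.card_fin, div_pow, one_pow]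
        _ ≤ ∏ l, φ (ctx j ω) (z l) := prod_le_prod (fun l _ => by positivity) fun l _ => h4 l
    have h8 : ∑ z, Φ (ctx j ω) z ≤ n ^ (k + 1) * (ε / R ^ (k + 1)) := by
      have := hg
      simp only [hgd, hBc] at this
      rwa [inv_mul_le_iff₀ hnk] at this
    have hRk : (0 : ℝ) < (R : ℝ) ^ (k + 1) := by positivity
    have h9 := h1.trans h8
    rw [mul_one_div, div_le_iff₀ hRk] at h9
    calc _ ≤ n ^ (k + 1) * (ε / R ^ (k + 1)) * R ^ (k + 1) := h9
      _ = _ := by field_simp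
  · -- the covering probability
    have hbadmass : ∑ ω, P ω * (if gd ω then 0 else 1) ≤ ε := by
      have hRk : (0 : ℝ) < (R : ℝ) ^ (k + 1) := by positivity
      have h1 : (∑ ω, P ω * (if gd ω then (0 : ℝ) else 1)) * (ε / R ^ (k + 1)) ≤ ∑ ω, P ω * Bc (ctx j ω) := by
        rw [sum_mul]
        refine sum_le_sum fun ω _ => ?_
        rw [mul_assoc]
        refine mul_le_mul_of_nonneg_left ?_ (hP.nonneg ω)
        split_ifs with hg
        · rw [zero_mul]; exact hBc0 _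
        · rw [one_mul]
          exact (not_le.1 hg).le
      have h2 := h1.trans hB
      have h3 : ε ^ 2 / (R : ℝ) ^ (k + 1) = ε * (ε / R ^ (k + 1)) := by ring
      rw [h3] at h2
      exact le_of_mul_le_mul_right h2 (by positivity)
    have hpz : ∀ z, ∑ ξ, P ξ.2 / R * (if z ∈ W ξ then (1 : ℝ) else 0) =
        ∑ ω, P ω * (if gd ω then
          ((univ.filter (fun r : Fin R => ((r : ℕ) : ℝ) + 1 ≤ R * φ (ctx j ω) z)).card : ℝ) / R else 0) := by
      intro z
      rw [Fintype.sum_prod_type, sum_comm]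
      refine sum_congr rfl fun ω _ => ?_
      by_cases hg : gd ω
      · rw [if_pos hg]
        have h1 : ∀ r : Fin R, P ω / R * (if z ∈ W (r, ω) then (1 : ℝ) else 0) =
            P ω / R * (if ((r : ℕ) : ℝ) + 1 ≤ R * φ (ctx j ω) z then 1 else 0) := by
          intro r
          simp only [hW]
          rw [if_pos hg]
          simp only [mem_filter, mem_univ, true_and]
        rw [sum_congr rfl fun r _ => h1 r, ← mul_sum, sum_boole]
        ring
      · rw [if_neg hg, mul_zero]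
        refine sum_eq_zero fun r _ => ?_
        simp only [hW]
        rw [if_neg hg, if_neg (notMem_empty _), mul_zero]
    have hdist : ∀ z, |∑ ξ, P ξ.2 / R * (if z ∈ W ξ then (1 : ℝ) else 0) - ∑ ω, P ω * φ (ctx j ω) z| ≤
        1 / R + ε := by
      intro z
      rw [hpz z, ← sum_sub_distrib]
      calc |∑ ω, (P ω * (if gd ω then
          ((univ.filter (fun r : Fin R => ((r : ℕ) : ℝ) + 1 ≤ R * φ (ctx j ω) z)).card : ℝ) / R else 0) -
          P ω * φ (ctx j ω) z)| ≤ ∑ ω, (P ω * (1 / R) + P ω * (if gd ω then 0 else 1)) := by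
            refine (abs_sum_le_sum_abs _ _).trans (sum_le_sum fun ω _ => ?_)
            rw [← mul_sub, abs_mul, abs_of_nonneg (hP.nonneg ω), ← mul_add]
            refine mul_le_mul_of_nonneg_left ?_ (hP.nonneg ω)
            have hx0 : 0 ≤ R * φ (ctx j ω) z := mul_nonneg hRr.le (hφ0 _ _)
            have hx1 : R * φ (ctx j ω) z ≤ R := mul_le_of_le_one_right hRr.le (hφ1 _ _)
            obtain ⟨h1, h2⟩ := card_thr R _ hx0 hx1
            split_ifs with hg
            · rw [add_zero, abs_le]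
              constructor
              · rw [neg_le_sub_iff_le_add, ← sub_le_iff_le_add, le_div_iff₀ hRr]
                calc (φ (ctx j ω) z - 1 / R) * R = R * φ (ctx j ω) z - 1 := by field_simp
                  _ ≤ _ := h1
              · have : ((univ.filter (fun r : Fin R => ((r : ℕ) : ℝ) + 1 ≤ R * φ (ctx j ω) z)).card : ℝ) / R ≤
                    φ (ctx j ω) z := by
                  rw [div_le_iff₀ hRr]
                  linarith
                have h3 : (0 : ℝ) ≤ 1 / R := by positivity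
                linarith
            · rw [zero_sub, abs_neg, abs_of_nonneg (hφ0 _ _)]
              have h3 : (0 : ℝ) ≤ 1 / R := by positivity
              linarith [hφ1 (ctx j ω) z]
        _ = 1 / R + ∑ ω, P ω * (if gd ω then 0 else 1) := by
            rw [sum_add_distrib, ← sum_mul, hP.total, one_mul]
        _ ≤ _ := by linarith
    calc ∑ z, |∑ ξ, P ξ.2 / R * (if z ∈ W ξ then (1 : ℝ) else 0) - β|
        ≤ ∑ z, ((1 / R + ε) + n * |b z - β / n|) := by
          refine sum_le_sum fun z _ => ?_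
          have e1 : n * |b z - β / n| = |∑ ω, P ω * φ (ctx j ω) z - β| := by
            rw [← abs_of_pos hn, ← abs_mul, abs_of_pos hn]
            congr 1
            simp only [hb]
            field_simp
          rw [e1]
          exact (abs_sub_le _ (∑ ω, P ω * φ (ctx j ω) z) _).trans (add_le_add_left (hdist z) _)
      _ = n * (1 / R + ε) + n * ∑ z, |b z - β / n| := by
          rw [sum_add_distrib, sum_const, card_univ, nsmul_eq_mul, ← mul_sum]
      _ ≤ n * (1 / R + ε) + n * (2 * η + δ₀) := by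
          have := mul_le_mul_of_nonneg_left hbβ hn.le
          linarith
      _ = _ := by ring

theorem cover_flag (k : ℕ) (ε : ℝ) (hε : 0 < ε) (hε1 : ε ≤ 1) : ∃ T : ℕ, 1 ≤ T ∧
    ∀ (ι : Type) [Fintype ι] [DecidableEq ι] [Nonempty ι] (P : Om ι T → ℝ), Law P → Unif P →
    ∀ (bad : (Fin (k + 1) → ι) → Prop) [DecidablePred bad],
    (∀ ω, P ω ≠ 0 → ∀ u : Fin (k + 1) → Fin T, (∀ l, (ω (u l)).2 = true) →
      ¬ bad (fun l => (ω (u l)).1)) →
    ∀ β : ℝ, (∀ m, ∑ z, |(∑ ω, P ω * (if (ω m).1 = z then Yf m ω else 0)) - β / Fintype.card ι| ≤ ε) →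
    ∃ (Ξ : Type) (_ : Fintype Ξ) (p : Ξ → ℝ) (W : Ξ → Finset ι), (∀ ξ, 0 ≤ p ξ) ∧ ∑ ξ, p ξ = 1 ∧
      (∀ ξ, ((univ.filter (fun z : Fin (k + 1) → ι => bad z ∧ ∀ l, z l ∈ W ξ)).card : ℝ) ≤
        ε * (Fintype.card ι : ℝ) ^ (k + 1)) ∧
      ∑ z, |∑ ξ, p ξ * (if z ∈ W ξ then 1 else 0) - β| ≤ 4 * ε * Fintype.card ι := by
  classical
  obtain ⟨R, hR⟩ := exists_nat_gt (1 / ε)
  have hR0 : (0 : ℝ) < R := lt_trans (by positivity) hR
  have hRn : 0 < R := by exact_mod_cast hR0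
  have hR1 : (1 : ℝ) ≤ R := by exact_mod_cast hRn
  set τ : ℝ := ε ^ 2 / (2 * R ^ (k + 1)) with hτ
  have hτ0 : 0 < τ := by positivity
  set δ : ℝ := τ / (k + 1) with hδ
  have hδ0 : 0 < δ := by positivity
  obtain ⟨s, hs⟩ := exists_nat_gt (1 / δ ^ 2)
  have hs0 : (0 : ℝ) < s := lt_trans (by positivity) hs
  have hsn : 0 < s := by exact_mod_cast hs0
  obtain ⟨L, hL⟩ := exists_nat_gt ((2 ^ (k * s) / τ) ^ 2)
  have hL0 : (0 : ℝ) < L := lt_of_le_of_lt (by positivity) hL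
  have hLn : 0 < L := by exact_mod_cast hL0
  have hLk : (k + 1) ≤ (k + 1) * L := Nat.le_mul_of_pos_right _ hLn
  obtain ⟨T, hT⟩ : ∃ T, T = k * s + (k + 1) * L := ⟨_, rfl⟩
  refine ⟨T, by omega, ?_⟩
  intro ι _ _ _ P hP hu bad _ hbad β hβ
  have ha0 : ∀ i, 0 ≤ (if h : k * i < T then E P (k * i) h else 1) := by
    intro i
    split_ifs
    · exact E_nonneg hP _ _
    · exact zero_le_one
  have ha1 : ∀ i, (if h : k * i < T then E P (k * i) h else 1) ≤ 1 := by
    intro i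
    split_ifs
    · exact E_le_one hP _ _
    · exact le_rfl
  obtain ⟨i, hi, hstep⟩ := exists_small_step (fun i => if h : k * i < T then E P (k * i) h else 1) s hsn
    (ha0 0) (ha1 s)
  have hki : k * (i + 1) ≤ k * s := Nat.mul_le_mul_left _ hi
  have hki' : k * (i + 1) = k * i + k := by ring
  have h' : k * i + k < T := by omega
  have h : k * i + (k + 1) * L ≤ T := by omega
  have hE : E P (k * i + k) h' - E P (k * i) (by omega) ≤ δ ^ 2 := by
    rw [dif_pos (by omega), dif_pos (by omega)] at hstep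
    have e : ∀ (a b : ℕ) (ha : a < T) (hb : b < T), a = b → E P a ha = E P b hb := by
      intro a b ha hb e; subst e; rfl
    rw [e _ (k * i + k) _ h' hki'] at hstep
    refine hstep.trans ?_
    rw [div_le_iff₀ hs0]
    rw [div_lt_iff₀ (by positivity)] at hs
    linarith
  have hη : (2 : ℝ) ^ (k * i) / √L ≤ τ := by
    rw [div_le_iff₀ (Real.sqrt_pos.2 hL0)]
    have h1 : (2 : ℝ) ^ (k * s) / τ < √L := by
      rw [Real.lt_sqrt (by positivity)]
      exact hL
    rw [div_lt_iff₀ hτ0] at h1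
    have h2 : (2 : ℝ) ^ (k * i) ≤ 2 ^ (k * s) := pow_le_pow_right₀ (by norm_num) (Nat.mul_le_mul_left _ hi.le)
    linarith
  obtain ⟨Ξ, inst, p, W, h1, h2, h3, h4⟩ := cover_aux hP hu bad hbad h h' hLn hRn (δ := δ) (η := τ) (ε := ε)
    (δ₀ := ε) (β := β) hδ0.le hε hE hη (by
      rw [hδ]
      have : ((k : ℝ) + 1) * (τ / (k + 1)) = τ := by field_simp
      rw [this, hτ]
      apply le_of_eq
      field_simp
      ring) hβ
  refine ⟨Ξ, inst, p, W, h1, h2, fun ξ => ?_, h4.trans ?_⟩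
  · refine le_trans (le_of_eq ?_) (h3 ξ)
    congr!
  · refine mul_le_mul_of_nonneg_right ?_ (Nat.cast_nonneg _)
    have h5 : 1 / (R : ℝ) ≤ ε := by
      rw [div_le_iff₀ hR0]
      rw [div_lt_iff₀ hε] at hR
      linarith
    have h6 : 2 * τ ≤ ε := by
      rw [hτ]
      have h7 : (1 : ℝ) ≤ R ^ (k + 1) := one_le_pow₀ hR1
      rw [mul_div_assoc', div_le_iff₀ (by positivity)]
      nlinarith
    linarith

end cover

end Pool.Agent.K7.H62
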