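import Mathlib
import Pool.Agent.K7.H62.Cover

/-! Sampling a bounded number of sets. -/

set_option autoImplicit false

namespace Pool.Agent.K7.H62

open Finset

section samp

variable {ι : Type} [Fintype ι] [DecidableEq ι]

theorem one_step {Ξ : Type} [Fintype Ξ] (p : Ξ → ℝ) (hp0 : ∀ ξ, 0 ≤ p ξ) (hp1 : ∑ ξ, p ξ = 1)
    (X : Ξ → ι → ℝ) (hX : ∀ ξ z, |X ξ z| ≤ 1) (hX0 : ∀ z, ∑ ξ, p ξ * X ξ z = 0) (u : ι → ℝ) :
    ∃ ξ, ∑ z, (u z + X ξ z) ^ 2 ≤ ∑ z, (u z) ^ 2 + Fintype.card ι := by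
  by_contra hcon
  push Not at hcon
  have h1 : ∑ ξ, p ξ * ∑ z, (u z + X ξ z) ^ 2 ≤ ∑ z, (u z) ^ 2 + Fintype.card ι := by
    have e : ∀ ξ, p ξ * ∑ z, (u z + X ξ z) ^ 2 =
        p ξ * ∑ z, (u z) ^ 2 + ∑ z, 2 * u z * (p ξ * X ξ z) + p ξ * ∑ z, (X ξ z) ^ 2 := by
      intro ξ
      rw [mul_sum, mul_sum, mul_sum, ← sum_add_distrib, ← sum_add_distrib]
      refine sum_congr rfl fun z _ => ?_
      ring
    rw [sum_congr rfl fun ξ _ => e ξ, sum_add_distrib, sum_add_distrib, ← sum_mul, hp1, one_mul, sum_comm]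
    have e2 : ∑ z, ∑ ξ, 2 * u z * (p ξ * X ξ z) = 0 := by
      refine sum_eq_zero fun z _ => ?_
      rw [← mul_sum, hX0, mul_zero]
    rw [e2, add_zero]
    have e3 : ∑ ξ, p ξ * ∑ z, (X ξ z) ^ 2 ≤ ∑ ξ, p ξ * (Fintype.card ι : ℝ) := by
      refine sum_le_sum fun ξ _ => mul_le_mul_of_nonneg_left ?_ (hp0 ξ)
      calc ∑ z, (X ξ z) ^ 2 ≤ ∑ _z : ι, (1 : ℝ) := by
            refine sum_le_sum fun z _ => ?_
            have := hX ξ z
            rw [← sq_abs]
            exact pow_le_one₀ (abs_nonneg _) this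
        _ = _ := by simp
    rw [← sum_mul, hp1, one_mul] at e3
    linarith
  have h2 : ∑ ξ, p ξ * (∑ z, (u z) ^ 2 + Fintype.card ι) < ∑ ξ, p ξ * ∑ z, (u z + X ξ z) ^ 2 := by
    have hex : ∃ ξ, 0 < p ξ := by
      by_contra h0
      push Not at h0
      have : ∑ ξ, p ξ ≤ 0 := sum_nonpos fun ξ _ => h0 ξ
      linarith
    obtain ⟨ξ₀, hξ₀⟩ := hex
    refine sum_lt_sum (fun ξ _ => mul_le_mul_of_nonneg_left (hcon ξ).le (hp0 ξ)) ⟨ξ₀, mem_univ _, ?_⟩
    exact mul_lt_mul_of_pos_left (hcon ξ₀) hξ₀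
  rw [← sum_mul, hp1, one_mul] at h2
  linarith

theorem many_steps {Ξ : Type} [Fintype Ξ] (p : Ξ → ℝ) (hp0 : ∀ ξ, 0 ≤ p ξ) (hp1 : ∑ ξ, p ξ = 1)
    (X : Ξ → ι → ℝ) (hX : ∀ ξ z, |X ξ z| ≤ 1) (hX0 : ∀ z, ∑ ξ, p ξ * X ξ z = 0) (m : ℕ) :
    ∃ s : Fin m → Ξ, ∑ z, (∑ i, X (s i) z) ^ 2 ≤ m * Fintype.card ι := by
  induction m with
  | zero => exact ⟨Fin.elim0, by simp⟩
  | succ m ih =>
    obtain ⟨s, hs⟩ := ih
    obtain ⟨ξ, hξ⟩ := one_step p hp0 hp1 X hX hX0 (fun z => ∑ i, X (s i) z)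
    refine ⟨Fin.snoc s ξ, ?_⟩
    have e : ∀ z, ∑ i, X ((Fin.snoc s ξ : Fin (m + 1) → Ξ) i) z = ∑ i, X (s i) z + X ξ z := by
      intro z
      rw [Fin.sum_univ_castSucc]
      simp
    rw [sum_congr rfl fun z _ => by rw [e z]]
    push_cast
    calc _ ≤ _ := hξ
      _ ≤ m * Fintype.card ι + Fintype.card ι := by linarith
      _ = _ := by ring

theorem card_markov (f : ι → ℝ) (hf : ∀ z, 0 ≤ f z) {c : ℝ} (hc : 0 < c) (s : Finset ι)
    (hs : ∀ z ∈ s, c ≤ f z) : (s.card : ℝ) * c ≤ ∑ z, f z := by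
  rw [← nsmul_eq_mul]
  exact (card_nsmul_le_sum s f c hs).trans
    (sum_le_sum_of_subset_of_nonneg (subset_univ _) fun z _ _ => hf z)

end samp

open Classical in
theorem cover_flag2 (k : ℕ) (ε : ℝ) (hε : 0 < ε) : ∃ T m : ℕ, 1 ≤ T ∧ 1 ≤ m ∧ ∃ δ₀ : ℝ, 0 < δ₀ ∧
    ∀ (ι : Type) [Fintype ι] [Nonempty ι] (P : Om ι T → ℝ), Law P → Unif P →
    ∀ (bad : (Fin (k + 1) → ι) → Prop),
    (∀ ω, P ω ≠ 0 → ∀ u : Fin (k + 1) → Fin T, (∀ l, (ω (u l)).2 = true) →
      ¬ bad (fun l => (ω (u l)).1)) →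
    ∀ β : ℝ, (∀ m, ∑ z, |(∑ ω, P ω * (if (ω m).1 = z then Yf m ω else 0)) - β / Fintype.card ι| ≤ δ₀) →
    ∃ W : Fin m → Finset ι,
      (∀ i, ((univ.filter (fun z : Fin (k + 1) → ι => bad z ∧ ∀ l, z l ∈ W i)).card : ℝ) ≤
        ε * (Fintype.card ι : ℝ) ^ (k + 1)) ∧
      ((univ.filter (fun z => ¬ |((univ.filter (fun i => z ∈ W i)).card : ℝ) / m - β| ≤ ε)).card : ℝ) ≤
        ε * Fintype.card ι := by
  wlog hε1 : ε ≤ 1 with H
  · obtain ⟨T, m, hT, hm, δ₀, hδ₀, h⟩ := H k 1 one_pos le_rfl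
    have h1 : (1 : ℝ) ≤ ε := (not_le.1 hε1).le
    refine ⟨T, m, hT, hm, δ₀, hδ₀, fun ι _ _ P hP hu bad hbad β hβ => ?_⟩
    obtain ⟨W, hW1, hW2⟩ := h ι P hP hu bad hbad β hβ
    refine ⟨W, fun i => (hW1 i).trans (mul_le_mul_of_nonneg_right h1 (by positivity)), ?_⟩
    refine le_trans ?_ (hW2.trans (mul_le_mul_of_nonneg_right h1 (by positivity)))
    rw [Nat.cast_le]
    apply card_le_card
    intro z hz
    rw [mem_filter] at hz ⊢
    exact ⟨mem_univ _, fun h2 => hz.2 (h2.trans h1)⟩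
  set δ : ℝ := ε ^ 2 / 16 with hδ
  have hδ0 : 0 < δ := by positivity
  have hδ1 : δ ≤ 1 := by
    rw [hδ, div_le_one (by norm_num)]
    nlinarith
  have hδε : δ ≤ ε := by
    rw [hδ, div_le_iff₀ (by norm_num)]
    nlinarith
  obtain ⟨T, hT, hcov⟩ := cover_flag k δ hδ0 hδ1
  obtain ⟨m, hm⟩ := exists_nat_gt (8 / ε ^ 3)
  have hm0 : (0 : ℝ) < m := lt_trans (by positivity) hm
  have hm1 : 0 < m := by exact_mod_cast hm0
  refine ⟨T, m, hT, hm1, δ, hδ0, ?_⟩
  intro ι _ _ P hP hu bad hbad β hβ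
  obtain ⟨Ξ, inst, p, W, hp0, hp1, hW1, hW2⟩ := hcov ι P hP hu bad hbad β (by
    intro m
    refine le_trans (le_of_eq ?_) (hβ m)
    congr!)
  set pz : ι → ℝ := fun z => ∑ ξ, p ξ * (if z ∈ W ξ then (1 : ℝ) else 0) with hpz
  have hpz0 : ∀ z, 0 ≤ pz z := fun z => sum_nonneg fun ξ _ => mul_nonneg (hp0 ξ) (by split_ifs <;> norm_num)
  have hpz1 : ∀ z, pz z ≤ 1 := by
    intro z
    rw [← hp1]
    refine sum_le_sum fun ξ _ => mul_le_of_le_one_right (hp0 ξ) (by split_ifs <;> norm_num)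
  obtain ⟨s, hs⟩ := many_steps (ι := ι) p hp0 hp1 (fun ξ z => (if z ∈ W ξ then (1 : ℝ) else 0) - pz z)
    (fun ξ z => by
      rw [abs_le]
      have h0 := hpz0 z
      have h1 := hpz1 z
      split_ifs <;> constructor <;> linarith)
    (fun z => by
      have : ∑ ξ, p ξ * ((if z ∈ W ξ then (1 : ℝ) else 0) - pz z) =
          ∑ ξ, p ξ * (if z ∈ W ξ then (1 : ℝ) else 0) - ∑ ξ, p ξ * pz z := by
        rw [← sum_sub_distrib]
        exact sum_congr rfl fun ξ _ => by ring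
      rw [this, ← sum_mul, hp1, one_mul]
      exact sub_self _) m
  set n : ℝ := ((Fintype.card ι : ℕ) : ℝ) with hn
  have hn0 : 0 ≤ n := Nat.cast_nonneg _
  refine ⟨fun i => W (s i), fun i => ?_, ?_⟩
  · refine le_trans ?_ ((hW1 (s i)).trans (mul_le_mul_of_nonneg_right hδε (by positivity)))
    refine le_of_eq ?_
    congr!
  · set fr : ι → ℝ := fun z => ((univ.filter (fun i => z ∈ W (s i))).card : ℝ) / m with hfr
    have e1 : ∀ z, ∑ i, ((if z ∈ W (s i) then (1 : ℝ) else 0) - pz z) = m * (fr z - pz z) := by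
      intro z
      rw [sum_sub_distrib, sum_const, card_univ, Fintype.card_fin, nsmul_eq_mul, sum_boole, mul_sub]
      congr 1
      simp only [hfr]
      field_simp
    have hs' : ∑ z, (fr z - pz z) ^ 2 ≤ n / m := by
      have h1 : ∑ z, (m * (fr z - pz z)) ^ 2 ≤ m * n := by
        refine le_trans (le_of_eq ?_) hs
        exact sum_congr rfl fun z _ => by rw [e1 z]
      have h2 : ∑ z, (m * (fr z - pz z)) ^ 2 = m ^ 2 * ∑ z, (fr z - pz z) ^ 2 := by
        rw [mul_sum]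
        exact sum_congr rfl fun z _ => by ring
      rw [h2] at h1
      rw [le_div_iff₀ hm0]
      have h3 : (m : ℝ) * ((∑ z, (fr z - pz z) ^ 2) * m) ≤ m * n := by
        calc (m : ℝ) * ((∑ z, (fr z - pz z) ^ 2) * m) = m ^ 2 * ∑ z, (fr z - pz z) ^ 2 := by ring
          _ ≤ _ := h1
      exact le_of_mul_le_mul_left h3 hm0
    -- the two exceptional sets
    have hsub : (univ.filter (fun z => ¬ |fr z - β| ≤ ε)) ⊆
        (univ.filter (fun z => ε / 2 < |fr z - pz z|)) ∪ (univ.filter (fun z => ε / 2 < |pz z - β|)) := by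
      intro z hz
      rw [mem_filter] at hz
      rw [mem_union, mem_filter, mem_filter]
      by_contra hcon
      push Not at hcon
      have h1 := hcon.1 (mem_univ _)
      have h2 := hcon.2 (mem_univ _)
      exact hz.2 ((abs_sub_le _ (pz z) _).trans (by linarith))
    have hc1 : ((univ.filter (fun z => ε / 2 < |fr z - pz z|)).card : ℝ) ≤ ε / 2 * n := by
      have h1 := card_markov (fun z => (fr z - pz z) ^ 2) (fun z => sq_nonneg _) (c := (ε / 2) ^ 2)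
        (by positivity) (univ.filter (fun z => ε / 2 < |fr z - pz z|)) (by
          intro z hz
          have := (mem_filter.1 hz).2
          rw [← sq_abs (fr z - pz z)]
          exact pow_le_pow_left₀ (by positivity) this.le 2)
      have h2 := h1.trans hs'
      have h3 : n / m ≤ (ε / 2 * n) * (ε / 2) ^ 2 := by
        rw [div_le_iff₀ hm0]
        have h4 : 1 ≤ ε ^ 3 / 8 * m := by
          rw [div_lt_iff₀ (by positivity)] at hm
          linarith
        calc n = 1 * n := (one_mul n).symm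
          _ ≤ (ε ^ 3 / 8 * m) * n := mul_le_mul_of_nonneg_right h4 hn0
          _ = _ := by ring
      exact le_of_mul_le_mul_right (h2.trans h3) (by positivity)
    have hc2 : ((univ.filter (fun z => ε / 2 < |pz z - β|)).card : ℝ) ≤ ε / 2 * n := by
      have h1 := card_markov (fun z => |pz z - β|) (fun z => abs_nonneg _) (c := ε / 2)
        (by positivity) (univ.filter (fun z => ε / 2 < |pz z - β|)) (by
          intro z hz
          exact (mem_filter.1 hz).2.le)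
      have h2 : ∑ z, |pz z - β| ≤ 4 * δ * n := by
        refine le_trans (le_of_eq ?_) hW2
        refine sum_congr rfl fun z _ => ?_
        congr!
      have h3 := h1.trans h2
      have h4 : 4 * δ * n = (ε / 2 * n) * (ε / 2) := by rw [hδ]; ring
      rw [h4] at h3
      exact le_of_mul_le_mul_right h3 (by positivity)
    have h5 : ((univ.filter (fun z => ¬ |fr z - β| ≤ ε)).card : ℝ) ≤
        ((univ.filter (fun z => ε / 2 < |fr z - pz z|)).card : ℝ) +
        ((univ.filter (fun z => ε / 2 < |pz z - β|)).card : ℝ) := by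
      exact_mod_cast (card_le_card hsub).trans (card_union_le _ _)
    have h6 : ((univ.filter (fun z => ¬ |fr z - β| ≤ ε)).card : ℝ) ≤ ε * n := by linarith
    refine le_trans (le_of_eq ?_) h6
    congr!

end Pool.Agent.K7.H62
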