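import Mathlib
import Pool.Agent.K7.H62.Samp
import Pool.Agent.W25.QL.Main

/-! The covering theorem for families closed under subsets with the coloured property. -/

set_option autoImplicit false

namespace Pool.Agent.K7.H62

open Finset
open Pool.Agent.W25.QL
open Pool.Agent.W70.QP (Cx mem_Cx ind)

section wt

variable {ι : Type} [Fintype ι] [DecidableEq ι] {T : ℕ}

theorem sum_pow_image {x : Fin T → ι} (hx : Function.Injective x) (g : Finset ι → ℝ) :
    ∑ S : Finset (Fin T), g (S.image x) = ∑ F ∈ (univ.image x).powerset, g F := by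
  refine sum_nbij (fun S => S.image x) (fun S _ => ?_) ?_ ?_ (fun S _ => rfl)
  · exact mem_powerset.2 (image_subset_image (subset_univ _))
  · intro S _ S' _ h
    exact image_injective hx h
  · intro F hF
    have hF' := mem_powerset.1 (mem_coe.1 hF)
    refine ⟨univ.filter (fun i => x i ∈ F), mem_coe.2 (mem_univ _), ?_⟩
    ext a
    simp only [mem_image, mem_filter, mem_univ, true_and]
    constructor
    · rintro ⟨i, hi, rfl⟩; exact hi
    · intro ha
      obtain ⟨i, _, rfl⟩ := mem_image.1 (hF' ha)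
      exact ⟨i, ha, rfl⟩

theorem sum_flags (g : Finset (Fin T) → ℝ) :
    ∑ y : Fin T → Bool, g (univ.filter (fun i => y i = true)) = ∑ S : Finset (Fin T), g S := by
  refine sum_nbij (fun y => univ.filter (fun i => y i = true)) (fun _ _ => mem_univ _) ?_ ?_ (fun _ _ => rfl)
  · intro y _ y' _ h
    funext i
    have h1 : i ∈ univ.filter (fun i => y i = true) ↔ i ∈ univ.filter (fun i => y' i = true) := by
      have := congrArg (fun s : Finset (Fin T) => i ∈ s) h
      exact this.to_iff
    simp only [mem_filter, mem_univ, true_and] at h1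
    cases h2 : y i <;> cases h3 : y' i <;> simp_all
  · intro S _
    refine ⟨fun i => decide (i ∈ S), mem_coe.2 (mem_univ _), ?_⟩
    ext i
    simp

/-- weights on the members of `G` inside `A` which cover every point with the weight `β` -/
def HasW (G : Finset ι → Prop) (β : ℝ) (A : Finset ι) (w : Finset ι → ℝ) : Prop :=
  (∀ F, 0 ≤ w F) ∧ (∀ F, w F ≠ 0 → F ⊆ A ∧ G F) ∧ ∑ F ∈ A.powerset, w F = 1 ∧
    ∀ a ∈ A, ∑ F ∈ A.powerset, (if a ∈ F then w F else 0) = β

open Classical in
/-- the chosen weights -/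
noncomputable def wt (G : Finset ι → Prop) (β : ℝ) (A : Finset ι) : Finset ι → ℝ :=
  if h : ∃ w, HasW G β A w then h.choose else fun F => if F = ∅ then 1 else 0

theorem wt_nonneg (G : Finset ι → Prop) (β : ℝ) (A F : Finset ι) : 0 ≤ wt G β A F := by
  unfold wt
  split_ifs with h
  · exact h.choose_spec.1 F
  · simp only
    split_ifs <;> norm_num

theorem wt_supp {G : Finset ι → Prop} (hG0 : G ∅) (β : ℝ) (A F : Finset ι) (h : wt G β A F ≠ 0) :
    F ⊆ A ∧ G F := by
  unfold wt at h
  split_ifs at h with h'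
  · exact h'.choose_spec.2.1 F h
  · by_cases hF : F = ∅
    · subst hF
      exact ⟨empty_subset _, hG0⟩
    · simp [hF] at h

theorem wt_sum (G : Finset ι → Prop) (β : ℝ) (A : Finset ι) : ∑ F ∈ A.powerset, wt G β A F = 1 := by
  unfold wt
  split_ifs with h
  · exact h.choose_spec.2.2.1
  · rw [sum_ite_eq' A.powerset ∅ (fun _ => (1 : ℝ)), if_pos (empty_mem_powerset _)]

theorem wt_mar {G : Finset ι → Prop} {β : ℝ} {A : Finset ι} (h : ∃ w, HasW G β A w) (a : ι) (ha : a ∈ A) :
    ∑ F ∈ A.powerset, (if a ∈ F then wt G β A F else 0) = β := by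
  unfold wt
  rw [dif_pos h]
  exact h.choose_spec.2.2.2 a ha

/-- the flagged points -/
def flg (ω : Om ι T) : Finset ι := (univ.filter (fun i => (ω i).2 = true)).image (fun i => (ω i).1)

open Classical in
/-- the law -/
noncomputable def PL (G : Finset ι → Prop) (β : ℝ) (T : ℕ) (ω : Om ι T) : ℝ :=
  ((Fintype.card ι : ℝ) ^ T)⁻¹ *
    (if Function.Injective (fun i => (ω i).1) then wt G β (univ.image (fun i => (ω i).1)) (flg ω)
      else if ∀ i, (ω i).2 = false then 1 else 0)

theorem PL_nonneg (G : Finset ι → Prop) (β : ℝ) (ω : Om ι T) : 0 ≤ PL G β T ω := by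
  unfold PL
  refine mul_nonneg (by positivity) ?_
  split_ifs
  · exact wt_nonneg _ _ _ _
  · exact zero_le_one
  · exact le_rfl

theorem PL_sym (G : Finset ι → Prop) (β : ℝ) (σ : Equiv.Perm (Fin T)) (ω : Om ι T) :
    PL G β T (act σ ω) = PL G β T ω := by
  have h1 : Function.Injective (fun i => (act σ ω i).1) ↔ Function.Injective (fun i => (ω i).1) := by
    constructor
    · intro h
      have := h.comp σ.symm.injective
      convert this using 1
      funext i
      simp [act_apply]
    · intro h
      exact h.comp σ.injective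
  have h2 : univ.image (fun i => (act σ ω i).1) = univ.image (fun i => (ω i).1) := by
    ext a
    simp only [mem_image, mem_univ, true_and, act_apply]
    constructor
    · rintro ⟨i, rfl⟩; exact ⟨σ i, rfl⟩
    · rintro ⟨i, rfl⟩; exact ⟨σ.symm i, by simp⟩
  have h3 : flg (act σ ω) = flg ω := by
    unfold flg
    ext a
    rw [mem_image, mem_image]
    constructor
    · rintro ⟨i, hi, rfl⟩
      exact ⟨σ i, mem_filter.2 ⟨mem_univ _, (mem_filter.1 hi).2⟩, rfl⟩
    · rintro ⟨i, hi, rfl⟩
      refine ⟨σ.symm i, mem_filter.2 ⟨mem_univ _, ?_⟩, ?_⟩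
      · rw [act_apply, Equiv.apply_symm_apply]
        exact (mem_filter.1 hi).2
      · rw [act_apply, Equiv.apply_symm_apply]
  have h4 : (∀ i, (act σ ω i).2 = false) ↔ ∀ i, (ω i).2 = false := by
    constructor
    · intro h i
      have := h (σ.symm i)
      simpa [act_apply] using this
    · intro h i
      exact h (σ i)
  unfold PL
  simp only [h1, h2, h3, h4]

theorem PL_unif (G : Finset ι → Prop) (β : ℝ) : Unif (PL G β T) := by
  intro x
  unfold PL
  rw [← mul_sum]
  have key : ∑ y : Fin T → Bool, (if Function.Injective x then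
      wt G β (univ.image x) (flg (fun i => (x i, y i))) else if ∀ i, y i = false then 1 else 0) = (1 : ℝ) := by
    by_cases hx : Function.Injective x
    · simp only [if_pos hx]
      have h1 := sum_flags (T := T) (fun S => wt G β (univ.image x) (S.image x))
      rw [sum_pow_image hx (fun F => wt G β (univ.image x) F), wt_sum] at h1
      rw [← h1]
      rfl
    · simp only [if_neg hx]
      rw [sum_boole]
      have : (univ.filter (fun y : Fin T → Bool => ∀ i, y i = false)) = {fun _ => false} := by
        ext y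
        simp only [mem_filter, mem_univ, true_and, mem_singleton]
        exact ⟨fun h => funext h, fun h i => by rw [h]⟩
      rw [this, card_singleton, Nat.cast_one]
  simp only at key ⊢
  rw [key, mul_one]

theorem PL_law [Nonempty ι] (G : Finset ι → Prop) (β : ℝ) : Law (PL G β T) := by
  refine ⟨PL_nonneg G β, ?_, fun σ ω => PL_sym G β σ ω⟩
  rw [sum_Om, sum_congr rfl fun x _ => PL_unif G β x, sum_const, card_univ, Fintype.card_fun, Fintype.card_fin,
    nsmul_eq_mul]
  push_cast
  have : (0 : ℝ) < Fintype.card ι := by exact_mod_cast Fintype.card_pos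
  exact mul_inv_cancel₀ (by positivity)

theorem PL_supp {G : Finset ι → Prop} (hG0 : G ∅) (β : ℝ) (ω : Om ι T) (h : PL G β T ω ≠ 0)
    (hf : ∃ i, (ω i).2 = true) : G (flg ω) := by
  unfold PL at h
  have h1 := right_ne_zero_of_mul h
  split_ifs at h1 with h2 h3
  · exact (wt_supp hG0 β _ _ h1).2
  · obtain ⟨i, hi⟩ := hf
    rw [h3 i] at hi
    exact absurd hi (by simp)
  · exact absurd rfl h1

open Classical in
/-- the probability of a flag, given the points -/
theorem PL_mar (G : Finset ι → Prop) (β : ℝ) (x : Fin T → ι) (hx : Function.Injective x)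
    (hw : ∃ w, HasW G β (univ.image x) w) (m : Fin T) :
    ∑ y : Fin T → Bool, PL G β T (fun i => (x i, y i)) * Yf m (fun i => (x i, y i)) =
      ((Fintype.card ι : ℝ) ^ T)⁻¹ * β := by
  unfold PL
  simp only [mul_assoc]
  rw [← mul_sum]
  congr 1
  simp only [if_pos hx]
  have h1 := sum_flags (T := T) (fun S => if x m ∈ S.image x then wt G β (univ.image x) (S.image x) else 0)
  rw [sum_pow_image hx (fun F => if x m ∈ F then wt G β (univ.image x) F else 0),
    wt_mar hw (x m) (mem_image_of_mem _ (mem_univ _))] at h1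
  conv_rhs => rw [← h1]
  refine sum_congr rfl fun y _ => ?_
  have h2 : x m ∈ (univ.filter (fun i => y i = true)).image x ↔ y m = true := by
    rw [hx.mem_finset_image]
    simp
  unfold Yf
  by_cases h3 : y m = true
  · rw [if_pos (h2.2 h3)]
    simp only [h3, if_true, mul_one]
    rfl
  · rw [if_neg (fun e => h3 (h2.1 e))]
    simp [h3]

theorem count_fib (m : Fin T) (z : ι) : (Fintype.card ι : ℝ) * ∑ x : Fin T → ι, (if x m = z then (1 : ℝ) else 0) =
    (Fintype.card ι : ℝ) ^ T := by
  have h := sum_comp_inj (ι := ι) (fun _ : Unit => m) (fun _ _ _ => rfl) (fun y => if y () = z then (1 : ℝ) else 0)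
  have e : ∑ y : Unit → ι, (if y () = z then (1 : ℝ) else 0) = 1 := by
    rw [← Equiv.sum_comp (Equiv.funUnique Unit ι).symm]
    show ∑ a : ι, (if a = z then (1 : ℝ) else 0) = 1
    rw [sum_ite_eq' univ z (fun _ => (1 : ℝ)), if_pos (mem_univ _)]
  rw [e, Fintype.card_unit, Fintype.card_fin, pow_one, mul_one] at h
  exact h

open Classical in
theorem mar_dist [Nonempty ι] (G : Finset ι → Prop) (β : ℝ) (m : Fin T) :
    ∑ z, |(∑ ω : Om ι T, PL G β T ω * (if (ω m).1 = z then Yf m ω else 0)) - β / Fintype.card ι| ≤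
      (1 + |β|) * (((Fintype.card ι : ℝ) ^ T)⁻¹ * ((univ.filter (fun x : Fin T → ι =>
        ¬ (Function.Injective x ∧ ∃ w, HasW G β (univ.image x) w))).card : ℝ)) := by
  have hn : (0 : ℝ) < Fintype.card ι := by exact_mod_cast Fintype.card_pos
  set n : ℝ := ((Fintype.card ι : ℕ) : ℝ) with hndef
  have hnT : 0 < n ^ T := by positivity
  set M : (Fin T → ι) → ℝ := fun x => ∑ y : Fin T → Bool, PL G β T (fun i => (x i, y i)) *
    Yf m (fun i => (x i, y i)) with hM
  have hM0 : ∀ x, 0 ≤ M x := fun x => sum_nonneg fun y _ => mul_nonneg (PL_nonneg _ _ _) (Yf_nonneg _ _)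
  have hM1 : ∀ x, M x ≤ (n ^ T)⁻¹ := by
    intro x
    rw [← PL_unif G β x]
    exact sum_le_sum fun y _ => mul_le_of_le_one_right (PL_nonneg _ _ _) (Yf_le_one _ _)
  have e1 : ∀ z, (∑ ω : Om ι T, PL G β T ω * (if (ω m).1 = z then Yf m ω else 0)) =
      ∑ x : Fin T → ι, (if x m = z then M x else 0) := by
    intro z
    rw [sum_Om]
    refine sum_congr rfl fun x _ => ?_
    simp only [hM]
    split_ifs
    · rfl
    · simp
  have e2 : ∀ z, β / n = ∑ x : Fin T → ι, (if x m = z then (n ^ T)⁻¹ * β else 0) := by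
    intro z
    have h1 := count_fib (ι := ι) m z
    rw [← hndef] at h1
    have h2 : ∑ x : Fin T → ι, (if x m = z then (n ^ T)⁻¹ * β else 0) =
        (n ^ T)⁻¹ * β * ∑ x : Fin T → ι, (if x m = z then (1 : ℝ) else 0) := by
      rw [mul_sum]
      refine sum_congr rfl fun x _ => ?_
      split_ifs <;> ring
    rw [h2]
    have h3 : ∑ x : Fin T → ι, (if x m = z then (1 : ℝ) else 0) = n ^ T / n := by
      rw [eq_div_iff hn.ne', mul_comm]
      exact h1
    rw [h3]
    field_simp
  have h3 : ∀ z, |(∑ ω : Om ι T, PL G β T ω * (if (ω m).1 = z then Yf m ω else 0)) - β / n| ≤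
      ∑ x : Fin T → ι, (if x m = z then |M x - (n ^ T)⁻¹ * β| else 0) := by
    intro z
    rw [e1 z, e2 z, ← sum_sub_distrib]
    refine (abs_sum_le_sum_abs _ _).trans (sum_le_sum fun x _ => ?_)
    split_ifs
    · exact le_rfl
    · simp
  calc _ ≤ ∑ z, ∑ x : Fin T → ι, (if x m = z then |M x - (n ^ T)⁻¹ * β| else 0) := sum_le_sum fun z _ => h3 z
    _ = ∑ x : Fin T → ι, |M x - (n ^ T)⁻¹ * β| := by
        rw [sum_comm]
        refine sum_congr rfl fun x _ => ?_
        rw [sum_ite_eq univ (x m) (fun _ => |M x - (n ^ T)⁻¹ * β|), if_pos (mem_univ _)]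
    _ ≤ ∑ x : Fin T → ι, (if ¬ (Function.Injective x ∧ ∃ w, HasW G β (univ.image x) w) then
          (1 + |β|) * (n ^ T)⁻¹ else 0) := by
        refine sum_le_sum fun x _ => ?_
        by_cases h4 : Function.Injective x ∧ ∃ w, HasW G β (univ.image x) w
        swap
        · rw [if_pos h4, abs_le]
          have h5 := hM0 x
          have h6 := hM1 x
          have h7 : 0 ≤ (n ^ T)⁻¹ := by positivity
          have h8 : |(n ^ T)⁻¹ * β| = |β| * (n ^ T)⁻¹ := by rw [abs_mul, abs_of_nonneg h7, mul_comm]
          have h9 := abs_le.1 (le_of_eq h8)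
          constructor <;> nlinarith [h9.1, h9.2]
        · rw [if_neg (not_not.2 h4)]
          have := PL_mar G β x h4.1 h4.2 m
          simp only [hM]
          rw [this, sub_self, abs_zero]
    _ = _ := by
        rw [← sum_filter, sum_const, nsmul_eq_mul]
        ring

end wt

open Classical in
theorem hasW_of {lam : ℝ} (hlam : 0 < lam) {α : Type} [DecidableEq α] {V : Finset α} {G : Finset α → Prop}
    (hG : ∀ F F' : Finset α, F' ⊆ F → G F → G F') (hG0 : G ∅) {T : ℕ} (x : Fin T → V)
    (hx : Function.Injective x) (hf : ∀ m, ¬ Fails lam (Cx G (fun i => (x i : α))) m) :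
    ∃ w, HasW (fun F : Finset V => G (F.image (fun a : V => (a : α)))) (1 / lam) (univ.image x) w := by
  set C := Cx G (fun i => (x i : α)) with hC
  have hdc : ∀ S ∈ C, ∀ S', S' ⊆ S → S' ∈ C := by
    intro S hS S' hS'
    rw [hC, mem_Cx] at hS ⊢
    exact hG _ _ (image_subset_image hS') hS
  obtain ⟨w, hw0, hw1, hwg⟩ := exists_weights hlam C hdc (by
    intro m
    by_cases h0 : 1 ≤ ∑ g, m g
    · have h1 := hf m
      unfold Fails at h1
      push Not at h1
      obtain ⟨S, hS, h2⟩ := h1 h0
      exact ⟨S, hS, h2⟩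
    · refine ⟨∅, by rw [hC, mem_Cx, image_empty]; exact hG0, ?_⟩
      have h1 : ∑ g, m g = 0 := by omega
      rw [h1, sum_empty]
      simp)
  -- the set of the indices of `F`
  set ix : Finset V → Finset (Fin T) := fun F => univ.filter (fun i => x i ∈ F) with hix
  have hixim : ∀ S : Finset (Fin T), ix (S.image x) = S := by
    intro S
    ext i
    simp only [hix, mem_filter, mem_univ, true_and]
    exact hx.mem_finset_image
  refine ⟨fun F => if F ⊆ univ.image x ∧ ix F ∈ C then w (ix F) else 0, fun F => ?_, fun F hF => ?_, ?_, ?_⟩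
  · show 0 ≤ (if F ⊆ univ.image x ∧ ix F ∈ C then w (ix F) else 0)
    split_ifs with h
    · exact hw0 _ h.2
    · exact le_rfl
  · have hF' : (if F ⊆ univ.image x ∧ ix F ∈ C then w (ix F) else 0) ≠ 0 := hF
    split_ifs at hF' with h
    · refine ⟨h.1, ?_⟩
      have h2 := h.2
      rw [hC, mem_Cx] at h2
      refine hG _ _ ?_ h2
      intro a ha
      obtain ⟨v, hv, rfl⟩ := mem_image.1 ha
      obtain ⟨i, _, hi⟩ := mem_image.1 (h.1 hv)
      refine mem_image.2 ⟨i, ?_, by rw [hi]⟩
      simp only [hix, mem_filter, mem_univ, true_and]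
      rw [hi]; exact hv
    · exact absurd rfl hF'
  · show ∑ F ∈ (univ.image x).powerset, (if F ⊆ univ.image x ∧ ix F ∈ C then w (ix F) else 0) = 1
    rw [← sum_pow_image hx (fun F => if F ⊆ univ.image x ∧ ix F ∈ C then w (ix F) else 0), ← hw1,
      ← sum_filter_add_sum_filter_not univ (fun S => S ∈ C)]
    have e1 : ∑ S ∈ univ.filter (fun S : Finset (Fin T) => ¬ S ∈ C),
        (if S.image x ⊆ univ.image x ∧ ix (S.image x) ∈ C then w (ix (S.image x)) else 0) = 0 := by
      refine sum_eq_zero fun S hS => ?_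
      rw [hixim, if_neg]
      intro h
      exact (mem_filter.1 hS).2 h.2
    have e2 : ∑ S ∈ univ.filter (fun S : Finset (Fin T) => S ∈ C),
        (if S.image x ⊆ univ.image x ∧ ix (S.image x) ∈ C then w (ix (S.image x)) else 0) = ∑ S ∈ C, w S := by
      have e3 : univ.filter (fun S : Finset (Fin T) => S ∈ C) = C := by ext S; simp
      rw [e3]
      refine sum_congr rfl fun S hS => ?_
      rw [hixim, if_pos ⟨image_subset_image (subset_univ _), hS⟩]
    rw [e1, e2, add_zero]
  · intro a ha
    obtain ⟨g, _, hg⟩ := mem_image.1 ha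
    show ∑ F ∈ (univ.image x).powerset, (if a ∈ F then
      (if F ⊆ univ.image x ∧ ix F ∈ C then w (ix F) else 0) else 0) = 1 / lam
    rw [← sum_pow_image hx (fun F => if a ∈ F then (if F ⊆ univ.image x ∧ ix F ∈ C then w (ix F) else 0) else 0),
      ← hwg g, ← sum_filter_add_sum_filter_not univ (fun S => S ∈ C)]
    have e1 : ∑ S ∈ univ.filter (fun S : Finset (Fin T) => ¬ S ∈ C),
        (if a ∈ S.image x then (if S.image x ⊆ univ.image x ∧ ix (S.image x) ∈ C then w (ix (S.image x)) else 0)
          else 0) = 0 := by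
      refine sum_eq_zero fun S hS => ?_
      rw [hixim]
      split_ifs with h5 h6
      · exact absurd h6.2 (mem_filter.1 hS).2
      · rfl
      · rfl
    have e2 : ∑ S ∈ univ.filter (fun S : Finset (Fin T) => S ∈ C),
        (if a ∈ S.image x then (if S.image x ⊆ univ.image x ∧ ix (S.image x) ∈ C then w (ix (S.image x)) else 0)
          else 0) = ∑ S ∈ C, w S * ind S g := by
      have e3 : univ.filter (fun S : Finset (Fin T) => S ∈ C) = C := by ext S; simp
      rw [e3]
      refine sum_congr rfl fun S hS => ?_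
      have h5 : S.image x ⊆ univ.image x ∧ S ∈ C := ⟨image_subset_image (subset_univ _), hS⟩
      have h6 : a ∈ S.image x ↔ g ∈ S := by rw [← hg, hx.mem_finset_image]
      rw [hixim]
      unfold ind
      by_cases h7 : g ∈ S
      · rw [if_pos (h6.2 h7), if_pos h5, if_pos h7, mul_one]
      · rw [if_neg (fun h => h7 (h6.1 h)), if_neg h7, mul_zero]
    rw [e1, e2, add_zero]

open Classical in
/-- **the covering theorem** -/
theorem cover_gen {lam : ℝ} (hlam : 0 < lam) (k : ℕ) (ε : ℝ) (hε : 0 < ε) (Kf : ℕ → ℕ) :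
    ∃ T M m : ℕ, 1 ≤ T ∧ 1 ≤ m ∧ ∃ n₀ : ℕ, ∀ (α : Type) [DecidableEq α] (V : Finset α) (G : Finset α → Prop),
      n₀ ≤ V.card → (∀ F F' : Finset α, F' ⊆ F → G F → G F') →
      QProp lam Kf T M V (fun _ => ()) G →
      ∃ W : Fin m → Finset α, (∀ i, W i ⊆ V) ∧
        (∀ i, (((Fintype.piFinset (fun _ : Fin (k + 1) => W i)).filter (fun y =>
          ¬ (Function.Injective y ∧ G (univ.image y)))).card : ℝ) ≤ ε * (V.card : ℝ) ^ (k + 1)) ∧
        ((V.filter (fun v => ¬ |((univ.filter (fun i => v ∈ W i)).card : ℝ) / m - 1 / lam| ≤ ε)).card : ℝ) ≤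
          ε * V.card := by
  obtain ⟨T, m, hT, hm, δ₀, hδ₀, hcov⟩ := cover_flag2 k (ε / 2) (by linarith)
  set δ : ℝ := min (δ₀ / (2 * (1 + |1 / lam|))) (1 / 4) with hδ
  have hden : 0 < 2 * (1 + |1 / lam|) := by positivity
  have hδ0 : 0 < δ := lt_min (by positivity) (by norm_num)
  have hδ1 : δ ≤ 1 / 4 := min_le_right _ _
  have hδ2 : (1 + |1 / lam|) * (2 * δ) ≤ δ₀ := by
    have h1 : δ ≤ δ₀ / (2 * (1 + |1 / lam|)) := min_le_left _ _
    rw [le_div_iff₀ hden] at h1
    linarith
  obtain ⟨M, hM⟩ := bad_rare hlam T Kf δ hδ0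
  obtain ⟨n₁, hn₁⟩ := hM Unit
  obtain ⟨n₂, hn₂⟩ := exists_nat_gt ((T : ℝ) ^ 2 / δ)
  obtain ⟨n₃, hn₃⟩ := exists_nat_gt (((k + 1 : ℕ) : ℝ) ^ 2 / (ε / 2))
  refine ⟨T, M, m, hT, hm, n₁ + n₂ + n₃ + 1, ?_⟩
  intro α _ V G hV hG hQ
  have hbad := hn₁ α V (fun _ => ()) G (by omega) hG hQ
  have hVne : V.Nonempty := card_pos.1 (by omega)
  obtain ⟨v0, hv0⟩ := hVne
  haveI : Nonempty V := ⟨⟨v0, hv0⟩⟩
  have hcard : Fintype.card V = V.card := Fintype.card_coe V
  have hn0 : (0 : ℝ) < V.card := by exact_mod_cast (by omega : 0 < V.card)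
  have hnT : (0 : ℝ) < (V.card : ℝ) ^ T := by positivity
  -- the transfer between functions into the subtype and functions into `α`
  have htr : ∀ (r : ℕ) (p : (Fin r → α) → Prop),
      (univ.filter (fun x : Fin r → V => p (fun i => (x i : α)))).card =
      ((Fintype.piFinset (fun _ : Fin r => V)).filter p).card := by
    intro r p
    refine card_bij (fun x _ => fun i => (x i : α)) ?_ ?_ ?_
    · intro x hx
      rw [mem_filter, Fintype.mem_piFinset]
      exact ⟨fun i => (x i).2, (mem_filter.1 hx).2⟩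
    · intro x _ x' _ h
      funext i
      exact Subtype.ext (congrFun h i)
    · intro y hy
      rw [mem_filter, Fintype.mem_piFinset] at hy
      exact ⟨fun i => ⟨y i, hy.1 i⟩, mem_filter.2 ⟨mem_univ _, hy.2⟩, rfl⟩
  -- non injective maps are rare
  have hninj : ∀ (r : ℕ) (e : ℝ), 0 < e → (r : ℝ) ^ 2 / e < V.card →
      (((Fintype.piFinset (fun _ : Fin r => V)).filter (fun y => ¬ Function.Injective y)).card : ℝ) ≤
        e * (V.card : ℝ) ^ r := by
    intro r e he hr
    have h1 := Pool.Agent.H362R2.CM.card_not_injective_le r V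
    rw [div_lt_iff₀ he] at hr
    have h2 : (((Fintype.piFinset (fun _ : Fin r => V)).filter
        (fun y => ¬ Function.Injective y)).card : ℝ) * V.card ≤ (e * (V.card : ℝ) ^ r) * V.card := by
      refine le_trans (le_of_eq (by congr!)) (h1.trans ?_)
      calc (r : ℝ) ^ 2 * (V.card : ℝ) ^ r ≤ (V.card * e) * (V.card : ℝ) ^ r :=
            mul_le_mul_of_nonneg_right hr.le (by positivity)
        _ = _ := by ring
    exact le_of_mul_le_mul_right h2 hn0
  have hVn2 : ((n₂ : ℕ) : ℝ) ≤ V.card := by exact_mod_cast (by omega : n₂ ≤ V.card)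
  have hVn3 : ((n₃ : ℕ) : ℝ) ≤ V.card := by exact_mod_cast (by omega : n₃ ≤ V.card)
  have hniT := hninj T δ hδ0 (hn₂.trans_le hVn2)
  have hniK := hninj (k + 1) (ε / 2) (by linarith) (hn₃.trans_le hVn3)
  -- the bad samples
  have hbadx : ((univ.filter (fun x : Fin T → V => ¬ (Function.Injective x ∧
      ∀ m, ¬ Fails lam (Cx G (fun i => (x i : α))) m))).card : ℝ) ≤ 2 * δ * (V.card : ℝ) ^ T := by
    have e1 : (univ.filter (fun x : Fin T → V => ¬ (Function.Injective x ∧
      ∀ m, ¬ Fails lam (Cx G (fun i => (x i : α))) m))) ⊆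
        (univ.filter (fun x : Fin T → V => ¬ Function.Injective (fun i => (x i : α)))) ∪
        (univ.filter (fun x : Fin T → V => Function.Injective (fun i => (x i : α)) ∧
          ∃ m, Fails lam (Cx G (fun i => (x i : α))) m)) := by
      intro x hx
      rw [mem_filter] at hx
      rw [mem_union, mem_filter, mem_filter]
      have hxi : Function.Injective x ↔ Function.Injective (fun i => (x i : α)) :=
        ⟨fun h => Subtype.val_injective.comp h, fun h => Function.Injective.of_comp h⟩
      by_cases h1 : Function.Injective x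
      · right
        refine ⟨mem_univ _, hxi.1 h1, ?_⟩
        by_contra hcon
        push Not at hcon
        exact hx.2 ⟨h1, hcon⟩
      · left
        exact ⟨mem_univ _, fun h => h1 (hxi.2 h)⟩
    have h1 := (card_le_card e1).trans (card_union_le _ _)
    have h2 : ((univ.filter (fun x : Fin T → V => ¬ (Function.Injective x ∧
      ∀ m, ¬ Fails lam (Cx G (fun i => (x i : α))) m))).card : ℝ) ≤
        ((univ.filter (fun x : Fin T → V => ¬ Function.Injective (fun i => (x i : α)))).card : ℝ) +
        ((univ.filter (fun x : Fin T → V => Function.Injective (fun i => (x i : α)) ∧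
          ∃ m, Fails lam (Cx G (fun i => (x i : α))) m)).card : ℝ) := by exact_mod_cast h1
    have h3 : ((univ.filter (fun x : Fin T → V => Function.Injective (fun i => (x i : α)) ∧
          ∃ m, Fails lam (Cx G (fun i => (x i : α))) m)).card : ℝ) ≤ δ * (V.card : ℝ) ^ T := by
      have h4 := htr T (fun y => Function.Injective y ∧ ∃ m, Fails lam (Cx G y) m)
      refine le_trans (le_of_eq ?_) hbad
      rw [Nat.cast_inj]
      refine Eq.trans ?_ (h4.trans ?_)
      · congr!
      · congr!
    have h5 : ((univ.filter (fun x : Fin T → V => ¬ Function.Injective (fun i => (x i : α)))).card : ℝ) ≤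
        δ * (V.card : ℝ) ^ T := by
      have h4 := htr T (fun y => ¬ Function.Injective y)
      refine le_trans (le_of_eq ?_) hniT
      rw [Nat.cast_inj]
      refine Eq.trans ?_ (h4.trans ?_)
      · congr!
      · congr!
    linarith
  -- the empty set is in the family
  have hG0 : G ∅ := by
    have h1 : ∃ x : Fin T → V, Function.Injective x ∧ ∀ m, ¬ Fails lam (Cx G (fun i => (x i : α))) m := by
      by_contra hcon
      have h2 : (univ.filter (fun x : Fin T → V => ¬ (Function.Injective x ∧
        ∀ m, ¬ Fails lam (Cx G (fun i => (x i : α))) m))) = univ := by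
        rw [filter_eq_self]
        intro x _ h
        exact hcon ⟨x, h⟩
      rw [h2, card_univ, Fintype.card_fun, Fintype.card_fin, hcard] at hbadx
      push_cast at hbadx
      nlinarith
    obtain ⟨x, _, hx⟩ := h1
    have h3 := hx (fun _ => 1)
    unfold Fails at h3
    push Not at h3
    obtain ⟨S, hS, _⟩ := h3 (by simpa using hT)
    exact hG _ _ (empty_subset _) (mem_Cx.1 hS)
  set G' : Finset V → Prop := fun F => G (F.image (fun a : V => (a : α))) with hG'
  have hG'0 : G' ∅ := by
    show G ((∅ : Finset V).image _)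
    rw [image_empty]; exact hG0
  have hmar : ∀ mm : Fin T, ∑ z : V, |(∑ ω : Om V T, PL G' (1 / lam) T ω *
      (if (ω mm).1 = z then Yf mm ω else 0)) - 1 / lam / Fintype.card V| ≤ δ₀ := by
    intro mm
    refine (mar_dist G' (1 / lam) mm).trans ?_
    refine le_trans (mul_le_mul_of_nonneg_left ?_ (by positivity)) hδ2
    rw [hcard, inv_mul_le_iff₀ hnT]
    refine le_trans ?_ (hbadx.trans (le_of_eq (by ring)))
    rw [Nat.cast_le]
    apply card_le_card
    intro x hx
    rw [mem_filter] at hx ⊢
    refine ⟨mem_univ _, fun h => hx.2 ⟨h.1, ?_⟩⟩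
    exact hasW_of hlam hG hG0 x h.1 h.2
  obtain ⟨W, hW1, hW2⟩ := hcov V (PL G' (1 / lam) T) (PL_law G' _) (PL_unif G' _)
    (fun z => ¬ G (univ.image (fun l => (z l : α)))) (by
      intro ω hω u hu hb
      apply hb
      have h1 : G (( flg ω).image (fun a : V => (a : α))) := PL_supp hG'0 _ ω hω ⟨u 0, hu 0⟩
      refine hG _ _ ?_ h1
      intro a ha
      obtain ⟨l, _, rfl⟩ := mem_image.1 ha
      refine mem_image_of_mem _ ?_
      exact mem_image.2 ⟨u l, mem_filter.2 ⟨mem_univ _, hu l⟩, rfl⟩) (1 / lam) (by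
      intro mm
      refine le_trans (le_of_eq ?_) (hmar mm)
      congr!)
  refine ⟨fun i => (W i).image (fun a : V => (a : α)), ?_, ?_, ?_⟩
  · intro i a ha
    obtain ⟨v, _, rfl⟩ := mem_image.1 ha
    exact v.2
  · intro i
    have h1 := hW1 i
    rw [hcard] at h1
    have h2 : ((Fintype.piFinset (fun _ : Fin (k + 1) => (W i).image (fun a : V => (a : α)))).filter (fun y =>
        ¬ (Function.Injective y ∧ G (univ.image y)))) ⊆
        ((Fintype.piFinset (fun _ : Fin (k + 1) => V)).filter (fun y => ¬ Function.Injective y)) ∪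
        (univ.filter (fun z : Fin (k + 1) → V => ¬ G (univ.image (fun l => (z l : α))) ∧ ∀ l, z l ∈ W i)).image
          (fun z => fun l => (z l : α)) := by
      intro y hy
      rw [mem_filter, Fintype.mem_piFinset] at hy
      have h3 : ∀ l, ∃ v : V, v ∈ W i ∧ (v : α) = y l := fun l => by
        obtain ⟨v, hv, hvy⟩ := mem_image.1 (hy.1 l)
        exact ⟨v, hv, hvy⟩
      choose z hz hzy using h3
      have hy' : y = fun l => (z l : α) := funext fun l => (hzy l).symm
      rw [mem_union, mem_filter, Fintype.mem_piFinset, mem_image]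
      by_cases h4 : Function.Injective y
      · right
        refine ⟨z, mem_filter.2 ⟨mem_univ _, ?_, hz⟩, hy'.symm⟩
        intro h5
        exact hy.2 ⟨h4, by rw [hy']; exact h5⟩
      · left
        exact ⟨fun l => by rw [← hzy l]; exact (z l).2, h4⟩
    have h3 := (card_le_card h2).trans ((card_union_le _ _).trans (Nat.add_le_add_left card_image_le _))
    have h4 : (((Fintype.piFinset (fun _ : Fin (k + 1) => (W i).image (fun a : V => (a : α)))).filter (fun y =>
        ¬ (Function.Injective y ∧ G (univ.image y)))).card : ℝ) ≤ _ := Nat.cast_le.2 h3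
    push_cast at h4
    have h5 : ((univ.filter (fun z : Fin (k + 1) → V => ¬ G (univ.image (fun l => (z l : α))) ∧
        ∀ l, z l ∈ W i)).card : ℝ) ≤ ε / 2 * (V.card : ℝ) ^ (k + 1) := by
      refine le_trans (le_of_eq ?_) h1
      congr!
    refine le_trans (le_of_eq ?_) (h4.trans (le_trans (add_le_add hniK h5) (le_of_eq (by ring))))
    congr!
  · rw [hcard] at hW2
    have h1 : (V.filter (fun v => ¬ |((univ.filter (fun i => v ∈ (W i).image (fun a : V => (a : α)))).card : ℝ) / m -
        1 / lam| ≤ ε)) ⊆ (univ.filter (fun z : V => ¬ |((univ.filter (fun i => z ∈ W i)).card : ℝ) / m - 1 / lam| ≤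
          ε / 2)).image (fun a : V => (a : α)) := by
      intro v hv
      rw [mem_filter] at hv
      refine mem_image.2 ⟨⟨v, hv.1⟩, mem_filter.2 ⟨mem_univ _, fun h => hv.2 ?_⟩, rfl⟩
      have h2 : (univ.filter (fun i => v ∈ (W i).image (fun a : V => (a : α)))) =
          univ.filter (fun i => (⟨v, hv.1⟩ : V) ∈ W i) := by
        ext i
        simp only [mem_filter, mem_univ, true_and, mem_image]
        constructor
        · rintro ⟨a, ha, hav⟩
          have : a = ⟨v, hv.1⟩ := Subtype.ext hav
          rw [← this]; exact ha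
        · intro h
          exact ⟨_, h, rfl⟩
      rw [h2]
      linarith
    have h2 := (card_le_card h1).trans card_image_le
    have h3 : ((V.filter (fun v => ¬ |((univ.filter (fun i => v ∈ (W i).image (fun a : V => (a : α)))).card : ℝ) / m -
        1 / lam| ≤ ε)).card : ℝ) ≤ _ := Nat.cast_le.2 h2
    refine le_trans (le_of_eq ?_) (h3.trans (le_trans (le_of_eq ?_) (hW2.trans ?_)))
    · congr!
    · congr!
    · exact mul_le_mul_of_nonneg_right (by linarith) hn0.le

end Pool.Agent.K7.H62
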