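import Mathlib
import Pool.Agent.Y827.HN.Fin
import Pool.Agent.K7.H62.Gen

/-! Coverings by nearly complete sets: all patterns of prime and composite values along narrow progressions. -/

set_option autoImplicit false

namespace Pool.Agent.K7.H62

open Finset Filter Topology
open Pool.Agent.W25.QL
open Pool.Agent.Y827.LS
open Pool.Agent.Y827.GS
open Pool.Agent.Y827.RO
open Pool.Agent.Y827.HN

open Classical in
/-- `W` is a covering of `V` by sets almost all of whose `(k + 1)`-tuples are in `G` -/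
def IsCov {α : Type} [DecidableEq α] (k m : ℕ) (ε : ℝ) (V : Finset α) (W : Fin m → Finset α)
    (G : Finset (Fin (k + 1) → α)) : Prop :=
  (∀ a ∈ G, (∀ i, a i ∈ V) ∧ Function.Injective a) ∧ (∀ j, W j ⊆ V) ∧
  (∀ j, (((Fintype.piFinset (fun _ : Fin (k + 1) => W j)).filter (fun a => a ∉ G)).card : ℝ) ≤
    ε * (V.card : ℝ) ^ (k + 1)) ∧
  (((V.filter (fun v => ¬ |((univ.filter (fun j => v ∈ W j)).card : ℝ) / m - 5 / 18| ≤ ε)).card : ℝ) ≤
    ε * V.card)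

open Classical in
theorem formsXC (k : ℕ) (ε : ℝ) (hε : 0 < ε) : ∃ z n₀ m : ℕ, 1 ≤ m ∧ ∀ V : Finset (ℤ × ℤ),
    (∀ f ∈ V, 0 < f.1 ∧ IsCoprime f.1 f.2) → AdmF z V → n₀ ≤ V.card →
    ∀ U : Finset (ℤ × ℤ), (∀ u ∈ U, 0 < u.1 ∧ IsCoprime u.1 u.2 ∧ u ∉ V) → ∀ l : ℕ, ∃ C : ℕ,
    ∀ᶠ N : ℕ in atTop, ∃ W : Fin m → Finset (ℤ × ℤ), IsCov k m ε V W (PhiX k V U l C N) := by
  choose Kf hKf1 hKf using patRD
  obtain ⟨T, M, m, hT, hm, n₀, hn₀⟩ := cover_gen (lam := 18 / 5) (by norm_num) k ε hε Kf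
  refine ⟨∑ T' ∈ range (M + 1), T' * Kf T', n₀, m, hm, ?_⟩
  intro V hVpos hVadm hVn U hU l
  have hadm : ∀ T' : ℕ, T' ≤ M → ∀ H : Fin T' → Fin (Kf T') → ℤ × ℤ, (∀ g i, H g i ∈ V) →
      ∀ p : ℕ, p.Prime → p ≤ T' * Kf T' → ∃ r : ℤ, ∀ g i,
          ¬ (p : ℤ) ∣ (H g i).1 * r + (H g i).2 := by
    intro T' hT' H hHV p hp hpT
    obtain ⟨r, hr⟩ := hVadm p (hpT.trans
      (Finset.single_le_sum (f := fun T' => T' * Kf T') (fun _ _ => Nat.zero_le _)
            (mem_range.2 (by omega)))) hp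
    exact ⟨r, fun g i => hr _ (hHV g i)⟩
  have hC : ∀ T' : Fin (M + 1), ∀ H : Fin (T' : ℕ) → Fin (Kf T') → V, ∃ C : ℕ,
      ∀ᶠ N : ℕ in atTop, 1 ≤ (T' : ℕ) →
      Function.Injective (fun z : Fin (T' : ℕ) × Fin (Kf T') => ((H z.1 z.2 : V) : ℤ × ℤ)) →
      ∃ (S : Finset (Fin (T' : ℕ))) (cc : Fin (T' : ℕ) → Fin (Kf T')),
        ((T' : ℕ) : ℝ) ≤ (18 / 5) * (S.card : ℝ) ∧
        AllP U l C N (S.image (fun g => ((H g (cc g) : V) : ℤ × ℤ))) := by
    intro T' H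
    by_cases h0 : 1 ≤ (T' : ℕ)
    swap
    · exact ⟨0, Eventually.of_forall fun x h => absurd h h0⟩
    by_cases h1 : Function.Injective
        (fun z : Fin (T' : ℕ) × Fin (Kf T') => ((H z.1 z.2 : V) : ℤ × ℤ))
    swap
    · exact ⟨0, Eventually.of_forall fun x _ h => absurd h h1⟩
    obtain ⟨C, h2⟩ := hKf T' h0 (fun g i => ((H g i : V) : ℤ × ℤ)) h1
      (fun g i => hVpos _ (H g i).2)
      (hadm T' (by have := T'.2; omega) _ (fun g i => (H g i).2)) U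
      (fun u hu => ⟨(hU u hu).1, (hU u hu).2.1, fun g i h => (hU u hu).2.2 (by rw [h]; exact (H g i).2)⟩) l
    refine ⟨C, ?_⟩
    filter_upwards [h2] with x hx _ _
    exact hx
  choose CC hCC using hC
  set C : ℕ := ∑ T' : Fin (M + 1), ∑ H : Fin (T' : ℕ) → Fin (Kf T') → V, CC T' H with hCdef
  refine ⟨C, ?_⟩
  have hCle : ∀ (T' : Fin (M + 1)) (H : Fin (T' : ℕ) → Fin (Kf T') → V), CC T' H ≤ C := by
    intro T' H
    refine le_trans ?_ (single_le_sum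
      (f := fun T' : Fin (M + 1) => ∑ H : Fin (T' : ℕ) → Fin (Kf T') → V, CC T' H)
      (fun _ _ => Nat.zero_le _) (mem_univ T'))
    exact single_le_sum (f := fun H : Fin (T' : ℕ) → Fin (Kf T') → V => CC T' H)
      (fun _ _ => Nat.zero_le _) (mem_univ H)
  have hev : ∀ᶠ N : ℕ in atTop, ∀ T' : Fin (M + 1), ∀ H : Fin (T' : ℕ) → Fin (Kf T') → V,
      1 ≤ (T' : ℕ) →
      Function.Injective (fun z : Fin (T' : ℕ) × Fin (Kf T') => ((H z.1 z.2 : V) : ℤ × ℤ)) →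
      ∃ (S : Finset (Fin (T' : ℕ))) (cc : Fin (T' : ℕ) → Fin (Kf T')),
        ((T' : ℕ) : ℝ) ≤ (18 / 5) * (S.card : ℝ) ∧
        AllP U l (CC T' H) N (S.image (fun g => ((H g (cc g) : V) : ℤ × ℤ))) :=
    eventually_all.2 fun T' => eventually_all.2 fun H => hCC T' H
  filter_upwards [hev, eventually_ge_atTop 3] with N hN hN3
  obtain ⟨W, hW1, hW2, hW3⟩ := hn₀ (ℤ × ℤ) V (fun F => AllP U l C N F) hVn
    (fun F F' hF h => AllP_anti hF h) (by
      intro T' hT'1 hT'M H hHV hHinj _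
      obtain ⟨S, cc, hS, hcc⟩ := hN ⟨T', by omega⟩ (fun g i => ⟨H g i, hHV g i⟩) hT'1 hHinj
      exact ⟨S, cc, hS, AllP_mono hN3 (hCle _ _) hcc⟩)
  refine ⟨W, fun a ha => ⟨(PhiX_mem ha).1, (PhiX_mem ha).2.1⟩, hW1, fun j => ?_, ?_⟩
  · refine le_trans ?_ (hW2 j)
    rw [Nat.cast_le]
    apply card_le_card
    intro y hy0
    have hy := mem_filter.1 hy0
    refine mem_filter.2 ⟨hy.1, fun h => hy.2 ?_⟩
    unfold PhiX
    have hy1 := Fintype.mem_piFinset.1 hy.1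
    refine mem_filter.2 ⟨Fintype.mem_piFinset.2 fun i => hW1 j (hy1 i), h.1, ?_⟩
    convert h.2
  · refine le_trans (le_of_eq ?_) hW3
    have e : (1 : ℝ) / (18 / 5) = 5 / 18 := by norm_num
    rw [e]

theorem IsCov.finite_type {α : Type} [DecidableEq α] {k m : ℕ} {ε : ℝ} {V : Finset α} {W : Fin m → Finset α}
    {G : Finset (Fin (k + 1) → α)} (h : IsCov k m ε V W G) : ∀ j, W j ∈ V.powerset :=
  fun j => mem_powerset.2 (h.2.1 j)

open Classical in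
/-- one covering and one family of tuples for all lengths and all sets of further forms -/
theorem familyXC {k m : ℕ} {ε : ℝ} {V : Finset (ℤ × ℤ)} (Uf : ℕ → Finset (ℤ × ℤ)) (hUf : Monotone Uf)
    (hev : ∀ l : ℕ, ∃ C : ℕ, ∀ᶠ N : ℕ in atTop,
      ∃ W : Fin m → Finset (ℤ × ℤ), IsCov k m ε V W (PhiX k V (Uf l) l C N)) :
    ∃ (W : Fin m → Finset (ℤ × ℤ)) (𝒢 : Finset (Fin (k + 1) → ℤ × ℤ)), IsCov k m ε V W 𝒢 ∧
      ∀ l : ℕ, ∃ C : ℕ, ∃ᶠ N : ℕ in atTop, ∀ f ∈ 𝒢, AllP (Uf l) l C N (univ.image f) := by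
  set PS := (Fintype.piFinset (fun _ : Fin (k + 1) => V)).powerset with hPS
  choose C hev using hev
  have hmem : ∀ l N, PhiX k V (Uf l) l (C l) N ∈ PS := fun l N => PhiX_sub k V (Uf l) l (C l) N
  have hpig : ∀ l : ℕ, ∃ b : (Fin m → V.powerset) × PS,
      IsCov k m ε V (fun j => (b.1 j : Finset (ℤ × ℤ))) (b.2 : Finset (Fin (k + 1) → ℤ × ℤ)) ∧
      ∃ᶠ N : ℕ in atTop, (⟨PhiX k V (Uf l) l (C l) N, hmem l N⟩ : PS) = b.2 := by
    intro l
    by_contra hcon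
    push Not at hcon
    have h1 : ∀ b : (Fin m → V.powerset) × PS, ∀ᶠ N : ℕ in atTop,
        IsCov k m ε V (fun j => (b.1 j : Finset (ℤ × ℤ))) (b.2 : Finset (Fin (k + 1) → ℤ × ℤ)) →
        (⟨PhiX k V (Uf l) l (C l) N, hmem l N⟩ : PS) ≠ b.2 := by
      intro b
      by_cases hb : IsCov k m ε V (fun j => (b.1 j : Finset (ℤ × ℤ))) (b.2 : Finset (Fin (k + 1) → ℤ × ℤ))
      · have h2 := hcon b hb
        filter_upwards [h2] with N hN _ using hN
      · exact Eventually.of_forall fun N h => absurd h hb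
    have h2 := (eventually_all.2 h1).and (hev l)
    obtain ⟨N, hN1, W, hW⟩ := h2.exists
    exact hN1 (fun j => ⟨W j, hW.finite_type j⟩, ⟨PhiX k V (Uf l) l (C l) N, hmem l N⟩) hW rfl
  choose b hb1 hb2 using hpig
  obtain ⟨B, hB⟩ := Finite.exists_infinite_fiber b
  have hBinf : (b ⁻¹' {B}).Infinite := Set.infinite_coe_iff.1 hB
  obtain ⟨j0, hj0⟩ := hBinf.nonempty
  have hj0' : b j0 = B := hj0
  have hval : ∀ l N, b l = B → (⟨PhiX k V (Uf l) l (C l) N, hmem l N⟩ : PS) = (b l).2 →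
      (B.2 : Finset (Fin (k + 1) → ℤ × ℤ)) = PhiX k V (Uf l) l (C l) N := by
    intro l N h1 h2
    rw [h1] at h2
    exact (congrArg Subtype.val h2).symm
  refine ⟨fun j => (B.1 j : Finset (ℤ × ℤ)), B.2, by rw [← hj0']; exact hb1 j0, fun l => ?_⟩
  obtain ⟨j, hj, hjl⟩ := hBinf.exists_gt l
  have hj' : b j = B := hj
  refine ⟨C j, (hb2 j).mono ?_⟩
  intro N hN f hf
  rw [hval j N hj' hN] at hf
  exact AllP_len (hUf hjl.le) hjl.le (PhiX_mem hf).2.2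

open Classical in
theorem finXC (k : ℕ) (ε : ℝ) (hε : 0 < ε) : ∃ z n₀ m : ℕ, 1 ≤ m ∧
    ∀ V : Finset (ℤ × ℤ), (∀ f ∈ V, 0 < f.1 ∧ IsCoprime f.1 f.2) → AdmF z V → n₀ ≤ V.card →
      (∃ (W : Fin m → Finset (ℤ × ℤ)) (G : Finset (Fin (k + 1) → ℤ × ℤ)), IsCov k m ε V W G ∧
        ∀ (l : ℕ) (U : Finset (ℤ × ℤ)), (∀ u ∈ U, 0 < u.1 ∧ IsCoprime u.1 u.2 ∧ u ∉ V) →
          ∃ C : ℕ, ∃ᶠ N : ℕ in atTop, ∀ f ∈ G, AllP U l C N (univ.image f)) ∧
      ∀ U : Finset (ℤ × ℤ), (∀ u ∈ U, 0 < u.1 ∧ IsCoprime u.1 u.2 ∧ u ∉ V) → ∀ l : ℕ, ∃ C : ℕ,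
        ∀ᶠ N : ℕ in atTop, ∃ W : Fin m → Finset (ℤ × ℤ), IsCov k m ε V W (PhiX k V U l C N) := by
  obtain ⟨z, n₀, m, hm, h⟩ := formsXC k ε hε
  refine ⟨z, n₀, m, hm, fun V hV hadm hn => ⟨?_, h V hV hadm hn⟩⟩
  set Uf : ℕ → Finset (ℤ × ℤ) := fun l =>
    ((Icc (-(l : ℤ)) l) ×ˢ (Icc (-(l : ℤ)) l)).filter (fun u => 0 < u.1 ∧ IsCoprime u.1 u.2 ∧ u ∉ V) with hUf
  have hmono : Monotone Uf := by
    intro l l' hl u hu
    simp only [hUf, mem_filter, mem_product, mem_Icc] at hu ⊢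
    have : (l : ℤ) ≤ l' := by exact_mod_cast hl
    exact ⟨⟨⟨by linarith [hu.1.1.1], by linarith [hu.1.1.2]⟩, ⟨by linarith [hu.1.2.1], by linarith [hu.1.2.2]⟩⟩, hu.2⟩
  obtain ⟨W, G, hG1, hG3⟩ := familyXC (k := k) (m := m) (ε := ε) (V := V) Uf hmono
    (fun l => h V hV hadm hn (Uf l) (fun u hu => (mem_filter.1 hu).2) l)
  refine ⟨W, G, hG1, fun l U hU => ?_⟩
  obtain ⟨R, hR⟩ : ∃ R : ℕ, ∀ u ∈ U, u.1.natAbs ≤ R ∧ u.2.natAbs ≤ R := by
    refine ⟨∑ u ∈ U, (u.1.natAbs + u.2.natAbs), fun u hu => ?_⟩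
    have := single_le_sum (f := fun u : ℤ × ℤ => u.1.natAbs + u.2.natAbs) (fun _ _ => Nat.zero_le _) hu
    omega
  obtain ⟨C, hC⟩ := hG3 (max l R)
  refine ⟨C, hC.mono fun N hN f hf => AllP_len ?_ (le_max_left _ _) (hN f hf)⟩
  intro u hu
  have h1 := hR u hu
  rw [hUf, mem_filter, mem_product, mem_Icc, mem_Icc]
  refine ⟨⟨⟨?_, ?_⟩, ?_, ?_⟩, hU u hu⟩ <;> omega

open Classical in
/-- transfer of a covering to the preimages under an injective map -/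
theorem transferC {α β : Type} [DecidableEq α] [DecidableEq β] (k m : ℕ) (ε : ℝ) (V : Finset α) (φ : α → β) (hφ : Function.Injective φ)
    (W : Fin m → Finset β) (G : Finset (Fin (k + 1) → β)) (h : IsCov k m ε (V.image φ) W G) :
    IsCov k m ε V (fun j => V.filter (fun v => φ v ∈ W j))
      ((Fintype.piFinset (fun _ : Fin (k + 1) => V)).filter (fun a => (fun i => φ (a i)) ∈ G)) := by
  obtain ⟨h1, h2, h3, h4⟩ := h
  have hcard : (V.image φ).card = V.card := card_image_of_injective _ hφ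
  have hcomp : Function.Injective (fun a : Fin (k + 1) → α => fun i => φ (a i)) := by
    intro a a' haa
    funext i
    exact hφ (congrFun haa i)
  refine ⟨fun a ha => ?_, fun j => filter_subset _ _, fun j => ?_, ?_⟩
  · rw [mem_filter, Fintype.mem_piFinset] at ha
    refine ⟨ha.1, ?_⟩
    have := (h1 _ ha.2).2
    exact Function.Injective.of_comp this
  · have h5 := h3 j
    rw [hcard] at h5
    refine le_trans ?_ h5
    rw [Nat.cast_le, ← card_image_of_injective _ hcomp]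
    apply card_le_card
    intro y hy
    obtain ⟨a, ha, rfl⟩ := mem_image.1 hy
    rw [mem_filter, Fintype.mem_piFinset] at ha ⊢
    refine ⟨fun i => (mem_filter.1 (ha.1 i)).2, fun hG => ha.2 ?_⟩
    rw [mem_filter, Fintype.mem_piFinset]
    exact ⟨fun i => (mem_filter.1 (ha.1 i)).1, hG⟩
  · rw [hcard] at h4
    refine le_trans ?_ h4
    rw [Nat.cast_le, ← card_image_of_injective _ hφ]
    apply card_le_card
    intro y hy
    obtain ⟨v, hv, rfl⟩ := mem_image.1 hy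
    rw [mem_filter] at hv ⊢
    refine ⟨mem_image_of_mem _ hv.1, fun h5 => hv.2 ?_⟩
    have e : (univ.filter (fun j => v ∈ V.filter (fun v => φ v ∈ W j))) = univ.filter (fun j => φ v ∈ W j) := by
      ext j
      simp only [mem_filter, mem_univ, true_and]
      exact ⟨fun h => h.2, fun h => ⟨hv.1, h⟩⟩
    rw [e]
    exact h5

open Classical in
theorem finPC (k : ℕ) (ε : ℝ) (hε : 0 < ε) : ∃ z n₀ m : ℕ, 1 ≤ m ∧
    ∀ (q b : ℕ) (V : Finset ℕ), 0 < q → (∀ v ∈ V, Nat.Coprime (b + v) q) →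
      (∀ p : ℕ, p ≤ z → p.Prime → ¬ p ∣ q → ∃ r : ℕ, ∀ v ∈ V, ¬ v ≡ r [MOD p]) → n₀ ≤ V.card →
      (∃ (W : Fin m → Finset ℕ) (G : Finset (Fin (k + 1) → ℕ)), IsCov k m ε V W G ∧
        ∀ l R : ℕ, ∃ C : ℕ, ∃ᶠ N : ℕ in atTop, ∀ a ∈ G, ∀ J : Finset (Fin (k + 1)), ∃ d : ℕ, 1 ≤ d ∧
          (d : ℝ) ≤ (Real.log N) ^ C ∧ (N : ℝ) / (Real.log N) ^ C ≤ (cntP V a J q b R l d N : ℝ)) ∧
      ∀ l R : ℕ, ∃ C : ℕ, ∀ᶠ N : ℕ in atTop, ∃ (W : Fin m → Finset ℕ) (G : Finset (Fin (k + 1) → ℕ)),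
        IsCov k m ε V W G ∧
        ∀ a ∈ G, ∀ J : Finset (Fin (k + 1)), ∃ d : ℕ, 1 ≤ d ∧
          (d : ℝ) ≤ (Real.log N) ^ C ∧ (N : ℝ) / (Real.log N) ^ C ≤ (cntP V a J q b R l d N : ℝ) := by
  obtain ⟨z, n₀, m, hm, h⟩ := finXC k ε hε
  refine ⟨z, n₀, m, hm, fun q b V hq hcop hadm hn => ?_⟩
  have hqz : (0 : ℤ) < (q : ℤ) := by exact_mod_cast hq
  have hφ := phi_inj q b
  have hpos : ∀ f ∈ V.image (phi q b), 0 < f.1 ∧ IsCoprime f.1 f.2 := by
    intro f hf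
    obtain ⟨v, hv, rfl⟩ := mem_image.1 hf
    refine ⟨?_, ?_⟩
    · show (0 : ℤ) < (q : ℤ)
      exact_mod_cast hq
    · exact (Nat.isCoprime_iff_coprime.2 (hcop v hv)).symm
  have hAdm : AdmF z (V.image (phi q b)) := by
    intro p hpz hp
    by_cases hpq : p ∣ q
    · refine ⟨0, fun f hf hd => ?_⟩
      obtain ⟨v, hv, rfl⟩ := mem_image.1 hf
      simp only [phi, mul_zero, zero_add] at hd
      have h1 : p ∣ b + v := by exact_mod_cast hd
      exact hp.one_lt.ne' (Nat.eq_one_of_dvd_coprimes (hcop v hv) h1 hpq)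
    · obtain ⟨r, hr⟩ := hadm p hpz hp hpq
      have hcpq : IsCoprime (q : ℤ) (p : ℤ) :=
        Nat.isCoprime_iff_coprime.2 ((Nat.Prime.coprime_iff_not_dvd hp).2 hpq).symm
      obtain ⟨u, w, huw⟩ := hcpq
      refine ⟨-(u * ((b : ℤ) + r)), fun f hf hd => ?_⟩
      obtain ⟨v, hv, rfl⟩ := mem_image.1 hf
      simp only [phi] at hd
      push_cast at hd
      apply hr v hv
      have h1 : (q : ℤ) * -(u * ((b : ℤ) + r)) + ((b : ℤ) + v) =
          (v - r) + p * (w * (b + r)) := by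
        linear_combination (-((b : ℤ) + r)) * huw
      rw [h1] at hd
      have h2 : (p : ℤ) ∣ (v : ℤ) - r := (dvd_add_left (dvd_mul_right _ _)).1 hd
      exact (Int.natCast_modEq_iff.1 (Int.modEq_iff_dvd.2 h2)).symm
  have hcard : (V.image (phi q b)).card = V.card := card_shift V (phi q b) hφ
  have hU : ∀ R, ∀ u ∈ UR q b R V, 0 < u.1 ∧ IsCoprime u.1 u.2 ∧ u ∉ V.image (phi q b) := by
    intro R u hu
    unfold UR at hu
    obtain ⟨h1, h2⟩ := mem_filter.1 hu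
    obtain ⟨t, -, rfl⟩ := mem_image.1 h1
    exact ⟨hqz, h2.1, h2.2⟩
  obtain ⟨hA, hB⟩ := h (V.image (phi q b)) hpos hAdm (by rw [hcard]; exact hn)
  refine ⟨?_, ?_⟩
  · obtain ⟨W, G, hG1, hG3⟩ := hA
    refine ⟨_, _, transferC k m ε V (phi q b) hφ W G hG1, ?_⟩
    intro l R
    obtain ⟨C, hC⟩ := hG3 (max l (R + 2)) (UR q b R V) (hU R)
    refine ⟨C + 1, ?_⟩
    have ht : Tendsto (fun m : ℕ => q * m + b) atTop atTop := by
      apply tendsto_atTop_mono (f := fun m : ℕ => m) _ tendsto_id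
      intro m
      have : 1 * m ≤ q * m := Nat.mul_le_mul_right _ hq
      show m ≤ q * m + b
      omega
    refine ht.frequently ?_
    refine (hC.and_eventually (((log_ev (2 * q)).and (eventually_ge_atTop 3)).and
      (eventually_ge_atTop (b + 1)))).mono ?_
    rintro N ⟨hN, ⟨hNl, hN3⟩, hNb⟩ a ha J
    have hNr : (0 : ℝ) < N := by exact_mod_cast (by omega : 0 < N)
    have hle : 1 * N ≤ q * N := Nat.mul_le_mul_right _ hq
    have hll : Real.log N ≤ Real.log ((q * N + b : ℕ) : ℝ) :=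
      Real.log_le_log hNr (by exact_mod_cast (by omega : N ≤ q * N + b))
    have ha2 := (mem_filter.1 ha).2
    have hainj : Function.Injective a := Function.Injective.of_comp (f := phi q b) (hG1.1 _ ha2).2
    exact conv hq hainj (hN _ ha2) le_rfl (by omega) hN3
      (by push_cast at hll ⊢; exact hNl.trans hll) J
  · intro l R
    obtain ⟨C, hC⟩ := hB (UR q b R V) (hU R) (max l (R + 2))
    refine ⟨C + 1, ?_⟩
    have ht : Tendsto (fun N : ℕ => (N - b) / q) atTop atTop := by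
      rw [tendsto_atTop_atTop]
      intro c
      refine ⟨q * c + b, fun N hN => ?_⟩
      rw [Nat.le_div_iff_mul_le hq]
      have : c * q = q * c := mul_comm _ _
      omega
    filter_upwards [ht.eventually hC, ht.eventually (eventually_ge_atTop 3), log_ev (2 * q),
      eventually_ge_atTop (2 * (b + q))] with N hN hN3 hNl hNr
    obtain ⟨N', hN'⟩ : ∃ N', N' = (N - b) / q := ⟨_, rfl⟩
    rw [← hN'] at hN hN3
    have hQN : q * N' ≤ N - b := by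
      rw [hN']
      exact Nat.mul_div_le _ _
    have hQN2 : N - b < q * N' + q := by
      rw [hN']
      have := Nat.lt_mul_div_succ (N - b) hq
      rw [Nat.mul_add, Nat.mul_one] at this
      exact this
    obtain ⟨W, hW⟩ := hN
    refine ⟨_, _, transferC k m ε V (phi q b) hφ W _ hW, fun a ha J => ?_⟩
    have ha2 := (mem_filter.1 ha).2
    have hainj : Function.Injective a := Function.Injective.of_comp (f := phi q b) (hW.1 _ ha2).2
    exact conv hq hainj (PhiX_mem ha2).2.2 (by omega) (by omega) hN3 (by push_cast; exact hNl) J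

end Pool.Agent.K7.H62
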