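import Mathlib
import Pool.Agent.K7.H62.Pat

/-! Nearly complete sets of multiples of a fixed number. -/

set_option autoImplicit false

namespace Pool.Agent.K7.H62

open Finset Filter Topology
open Pool.Agent.Y827.HN (cntP)

/-- the vectors of shifts which satisfy the prime tuples conjecture, in the class `r` modulo `q` -/
def GoodV (q : ℕ) (r : ℤ) {k : ℕ} (v : Fin k → ℤ) : Prop :=
  Function.Injective v ∧ (∀ i, v i ≠ 0) ∧
    {N : ℕ | N.Prime ∧ (N : ℤ) ≡ r [ZMOD q] ∧ ∀ i, ∃ p : ℕ, p.Prime ∧ (p : ℤ) = N + q * v i}.Infinite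

theorem infinite_of_count (P : ℕ → Prop) [DecidablePred P] (C : ℕ)
    (h : ∃ᶠ N : ℕ in atTop, (N : ℝ) / (Real.log N) ^ C ≤ (((Icc 1 N).filter P).card : ℝ)) :
    {n : ℕ | P n}.Infinite := by
  intro hfin
  have h1 : ∀ N, (((Icc 1 N).filter P).card : ℝ) ≤ (hfin.toFinset.card : ℝ) := by
    intro N
    rw [Nat.cast_le]
    apply card_le_card
    intro n hn
    rw [Set.Finite.mem_toFinset]
    exact (mem_filter.1 hn).2
  have h2 : Tendsto (fun N : ℕ => (N : ℝ) / (Real.log N) ^ C) atTop atTop := by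
    have h3 : Tendsto (fun x : ℝ => x / (Real.log x) ^ C) atTop atTop := by
      have h4 := (Real.isLittleO_pow_log_id_atTop (n := C)).tendsto_div_nhds_zero
      have h5 : ∀ᶠ x : ℝ in atTop, 0 < Real.log x ^ C / x := by
        filter_upwards [eventually_gt_atTop (1 : ℝ)] with x hx
        exact div_pos (pow_pos (Real.log_pos hx) _) (by linarith)
      have h6 : Tendsto (fun x : ℝ => Real.log x ^ C / x) atTop (𝓝[>] 0) := by
        rw [tendsto_nhdsWithin_iff]
        exact ⟨h4, h5⟩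
      have h7 := h6.inv_tendsto_nhdsGT_zero
      refine h7.congr fun x => ?_
      rw [Pi.inv_apply, inv_div]
    exact h3.comp tendsto_natCast_atTop_atTop
  have h3 := h2.eventually_gt_atTop ((hfin.toFinset.card : ℝ))
  obtain ⟨N, hN1, hN2⟩ := (h.and_eventually h3).exists
  exact absurd (hN1.trans (h1 N)) (not_le.2 hN2)

open Classical in
/-- **nearly complete sets** -/
theorem nc (k : ℕ) (ε : ℝ) (hε : 0 < ε) : ∃ M n₀ : ℕ, 1 ≤ M ∧ ∀ (q : ℕ) (r : ℤ), 1 ≤ q → IsCoprime r (q : ℤ) →
    ∀ n : ℕ, n₀ ≤ n → ∃ A : Finset ℤ, A ⊆ Icc 1 (n : ℤ) ∧ (5 / 18 - ε) * n ≤ (A.card : ℝ) ∧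
      (((Fintype.piFinset (fun _ : Fin (k + 1) => A)).filter (fun a =>
        ¬ GoodV q r (fun i : Fin k => (M : ℤ) * (a i.succ - a 0)))).card : ℝ) ≤ ε * (n : ℝ) ^ (k + 1) := by
  obtain ⟨z, n₀, m, hm, h⟩ := finPC k (ε / 2) (by linarith)
  set M : ℕ := ∏ p ∈ (range (z + 1)).filter Nat.Prime, p with hM
  have hM0 : 0 < M := prod_pos fun p hp => (mem_filter.1 hp).2.pos
  have hMd : ∀ p, p ≤ z → p.Prime → p ∣ M := fun p hp hpp =>
    dvd_prod_of_mem _ (mem_filter.2 ⟨mem_range.2 (by omega), hpp⟩)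
  refine ⟨M, n₀ + 1, hM0, ?_⟩
  intro q r hq hqr n hn
  -- the natural number in the class `r`
  obtain ⟨b, hb⟩ : ∃ b : ℕ, (b : ℤ) ≡ r [ZMOD q] := by
    refine ⟨(r % q).toNat, ?_⟩
    rw [Int.toNat_of_nonneg (Int.emod_nonneg _ (by omega))]
    exact Int.mod_modEq _ _
  have hbq : Nat.Coprime b q := by
    rw [← Nat.isCoprime_iff_coprime]
    obtain ⟨u, v, huv⟩ := hqr
    obtain ⟨t, ht⟩ := hb.symm.dvd
    -- b - r = q t
    refine ⟨u, v - u * t, ?_⟩
    have : (b : ℤ) = r + q * t := by linarith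
    rw [this]
    linear_combination huv
  set φ : ℕ → ℕ := fun x => q * M * x with hφ
  have hqM : 0 < q * M := Nat.mul_pos (by omega) hM0
  have hφi : Function.Injective φ := fun x y hxy => Nat.eq_of_mul_eq_mul_left hqM hxy
  set V : Finset ℕ := (Icc 1 n).image φ with hV
  have hVc : V.card = n := by
    rw [hV, card_image_of_injective _ hφi, Nat.card_Icc]
    omega
  obtain ⟨⟨W, G, ⟨hG1, hW1, hW2, hW3⟩, hG2⟩, -⟩ := h q b V (by omega) (by
      intro v hv
      obtain ⟨x, _, rfl⟩ := mem_image.1 hv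
      show Nat.Coprime (b + q * M * x) q
      have e : b + q * M * x = b + q * (M * x) := by ring
      rw [e, Nat.coprime_add_mul_left_left]
      exact hbq) (by
      intro p hp hpp hpq
      refine ⟨1, fun v hv hc => ?_⟩
      obtain ⟨x, _, rfl⟩ := mem_image.1 hv
      have h1 : p ∣ q * M * x := Dvd.dvd.mul_right (Dvd.dvd.mul_left (hMd p hp hpp) q) x
      have h2 : φ x ≡ 0 [MOD p] := (Nat.modEq_zero_iff_dvd).2 h1
      have h3 := (Nat.modEq_zero_iff_dvd).1 (hc.symm.trans h2)
      exact hpp.one_lt.ne' (Nat.eq_one_of_dvd_one h3)) (by rw [hVc]; omega)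
  rw [hVc] at hW2 hW3
  -- the good tuples
  have hgood : ∀ a ∈ G, {x : ℕ | x ≡ b [MOD q] ∧ ∀ i, (x + a i).Prime}.Infinite := by
    intro a ha
    obtain ⟨C, hC⟩ := hG2 1 0
    have h1 : ∃ᶠ N : ℕ in atTop, (N : ℝ) / (Real.log N) ^ C ≤
        (((Icc 1 N).filter (fun x : ℕ => x ≡ b [MOD q] ∧ ∀ i, (x + a i).Prime)).card : ℝ) := by
      refine hC.mono fun N hN => ?_
      obtain ⟨d, -, -, hd⟩ := hN a ha univ
      refine hd.trans ?_
      rw [Nat.cast_le]
      unfold cntP
      apply card_le_card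
      intro x hx
      rw [mem_filter] at hx ⊢
      have h2 := hx.2 0 (by norm_num)
      simp only [zero_mul, add_zero, mem_univ, iff_true] at h2
      exact ⟨hx.1, h2.1, h2.2.1⟩
    exact infinite_of_count _ C h1
  -- the choice of `j`
  have hn0 : (0 : ℝ) < n := by exact_mod_cast (by omega : 0 < n)
  have hm0 : (0 : ℝ) < m := by exact_mod_cast hm
  obtain ⟨j, hj⟩ : ∃ j : Fin m, (5 / 18 - ε) * n ≤ ((W j).card : ℝ) := by
    by_contra hcon
    push Not at hcon
    haveI : Nonempty (Fin m) := ⟨⟨0, hm⟩⟩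
    have h1 : ∑ j : Fin m, ((W j).card : ℝ) < ∑ _j : Fin m, (5 / 18 - ε) * n :=
      sum_lt_sum_of_nonempty univ_nonempty fun j _ => hcon j
    rw [sum_const, card_univ, Fintype.card_fin, nsmul_eq_mul] at h1
    have h2 : ∑ j : Fin m, ((W j).card : ℝ) = ∑ v ∈ V, ((univ.filter (fun j => v ∈ W j)).card : ℝ) := by
      have h3 : ∀ j, ((W j).card : ℝ) = ∑ v ∈ V, (if v ∈ W j then (1 : ℝ) else 0) := by
        intro j
        rw [sum_boole]
        congr 1
        rw [filter_mem_eq_inter, inter_eq_right.2 (hW1 j)]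
      rw [sum_congr rfl fun j _ => h3 j, sum_comm]
      refine sum_congr rfl fun v _ => ?_
      rw [sum_boole]
    have h4 : ∑ v ∈ V, ((5 / 18 - ε / 2) * m - (if ¬ |((univ.filter (fun j => v ∈ W j)).card : ℝ) / m - 5 / 18| ≤
        ε / 2 then (m : ℝ) else 0)) ≤ ∑ v ∈ V, ((univ.filter (fun j => v ∈ W j)).card : ℝ) := by
      refine sum_le_sum fun v _ => ?_
      by_cases h5 : |((univ.filter (fun j => v ∈ W j)).card : ℝ) / m - 5 / 18| ≤ ε / 2
      swap
      · rw [if_pos h5]
        have h6 : (0 : ℝ) ≤ ((univ.filter (fun j => v ∈ W j)).card : ℝ) := Nat.cast_nonneg _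
        nlinarith
      · rw [if_neg (not_not.2 h5)]
        have h6 := (abs_le.1 h5).1
        rw [sub_zero]
        have h7 : 5 / 18 - ε / 2 ≤ ((univ.filter (fun j => v ∈ W j)).card : ℝ) / m := by linarith
        rwa [le_div_iff₀ hm0] at h7
    rw [sum_sub_distrib, sum_const, hVc, nsmul_eq_mul, ← sum_filter, sum_const, nsmul_eq_mul] at h4
    have h8 := mul_le_mul_of_nonneg_right hW3 hm0.le
    rw [h2] at h1
    nlinarith
  -- the set
  refine ⟨((Icc 1 n).filter (fun x => φ x ∈ W j)).image (fun x : ℕ => (x : ℤ)), ?_, ?_, ?_⟩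
  · intro y hy
    obtain ⟨x, hx, rfl⟩ := mem_image.1 hy
    have := mem_Icc.1 (mem_filter.1 hx).1
    rw [mem_Icc]
    omega
  · rw [card_image_of_injective _ Nat.cast_injective]
    refine hj.trans ?_
    rw [Nat.cast_le]
    have h1 : W j ⊆ ((Icc 1 n).filter (fun x => φ x ∈ W j)).image φ := by
      intro v hv
      obtain ⟨x, hx, rfl⟩ := mem_image.1 (hW1 j hv)
      exact mem_image_of_mem _ (mem_filter.2 ⟨hx, hv⟩)
    exact (card_le_card h1).trans card_image_le
  · refine le_trans ?_ ((hW2 j).trans (mul_le_mul_of_nonneg_right (by linarith) (by positivity)))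
    rw [Nat.cast_le]
    refine card_le_card_of_injOn (fun a : Fin (k + 1) → ℤ => fun i => φ (a i).toNat) ?_ ?_
    · intro a ha
      rw [mem_coe, mem_filter, Fintype.mem_piFinset] at ha
      obtain ⟨ha1, ha2⟩ := ha
      have ha3 : ∀ i, ∃ x : ℕ, (1 ≤ x ∧ x ≤ n) ∧ φ x ∈ W j ∧ (x : ℤ) = a i := by
        intro i
        obtain ⟨x, hx, hxa⟩ := mem_image.1 (ha1 i)
        exact ⟨x, mem_Icc.1 (mem_filter.1 hx).1, (mem_filter.1 hx).2, hxa⟩
      choose x hx1 hx2 hx3 using ha3
      have hax : ∀ i, (a i).toNat = x i := fun i => by rw [← hx3 i, Int.toNat_natCast]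
      rw [mem_coe, mem_filter, Fintype.mem_piFinset]
      refine ⟨fun i => by
        show φ (a i).toNat ∈ W j
        rw [hax i]; exact hx2 i, fun hG => ha2 ?_⟩
      have hinf := hgood _ hG
      have hinj := (hG1 _ hG).2
      have hxinj : Function.Injective x := by
        intro i i' hii
        apply hinj
        show φ (a i).toNat = φ (a i').toNat
        rw [hax, hax, hii]
      refine ⟨?_, ?_, ?_⟩
      · intro i i' hii
        have h1 : (M : ℤ) * (a i.succ - a 0) = (M : ℤ) * (a i'.succ - a 0) := hii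
        have h2 := mul_left_cancel₀ (by exact_mod_cast hM0.ne') h1
        have h3 : a i.succ = a i'.succ := by linarith
        rw [← hx3, ← hx3] at h3
        exact Fin.succ_injective _ (hxinj (by exact_mod_cast h3))
      · intro i h0
        have h1 : (a i.succ - a 0) = 0 := by
          rcases mul_eq_zero.1 h0 with h | h
          · exact absurd h (by exact_mod_cast hM0.ne')
          · exact h
        have h3 : a i.succ = a 0 := by linarith
        rw [← hx3, ← hx3] at h3
        have h4 := hxinj (a₁ := i.succ) (a₂ := 0) (by exact_mod_cast h3)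
        exact absurd h4 (Fin.succ_ne_zero i)
      · refine Set.Infinite.mono ?_ (hinf.image (f := fun y : ℕ => y + φ (x 0)) (by
          intro y _ y' _ hyy
          exact Nat.add_right_cancel hyy))
        rintro _ ⟨y, ⟨hy1, hy2⟩, rfl⟩
        refine ⟨?_, ?_, fun i => ⟨y + φ (x i.succ), ?_, ?_⟩⟩
        · have := hy2 0
          simp only [hax] at this
          exact this
        · have h1 : (y : ℤ) ≡ (b : ℤ) [ZMOD q] := (Int.natCast_modEq_iff).2 hy1
          have h2 : ((y + φ (x 0) : ℕ) : ℤ) ≡ (y : ℤ) [ZMOD q] := by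
            simp only [hφ]
            push_cast
            exact Int.modEq_iff_dvd.2 ⟨-(M * x 0), by ring⟩
          exact (h2.trans h1).trans hb
        · have := hy2 i.succ
          simp only [hax] at this
          exact this
        · show ((y + φ (x i.succ) : ℕ) : ℤ) = ((y + φ (x 0) : ℕ) : ℤ) + (q : ℤ) * ((M : ℤ) * (a i.succ - a 0))
          rw [← hx3 i.succ, ← hx3 0]
          simp only [hφ]
          push_cast
          ring
    · intro a ha a' ha' haa
      rw [mem_coe, mem_filter, Fintype.mem_piFinset] at ha ha'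
      funext i
      have h1 : φ (a i).toNat = φ (a' i).toNat := congrFun haa i
      have h2 := hφi h1
      obtain ⟨x, hx, hxa⟩ := mem_image.1 (ha.1 i)
      obtain ⟨x', hx', hxa'⟩ := mem_image.1 (ha'.1 i)
      rw [← hxa, ← hxa', Int.toNat_natCast, Int.toNat_natCast] at h2
      rw [← hxa, ← hxa', h2]

end Pool.Agent.K7.H62
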