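import Mathlib
import Pool.Agent.K7.H62.NC
import Pool.Agent.K7.H62.Freq

/-! Two summands on a Bohr set. -/

set_option autoImplicit false

namespace Pool.Agent.K7.H62

open Finset

theorem card_imgQ {Q n : ℕ} (hQ : n ≤ Q) {A : Finset ℤ} (hA : A ⊆ Icc 1 (n : ℤ)) {σ : ℤ} (hσ : σ = 1 ∨ σ = -1) :
    (imgQ Q σ A).card = A.card := by
  unfold imgQ
  rw [card_image_of_injOn]
  intro a ha b hb hab
  have h1 := mem_Icc.1 (hA ha)
  have h2 := mem_Icc.1 (hA hb)
  have h3 : ((σ * a - σ * b : ℤ) : ZMod Q) = 0 := by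
    rw [Int.cast_sub, sub_eq_zero]; exact hab
  rw [ZMod.intCast_zmod_eq_zero_iff_dvd] at h3
  have h4 : |σ * a - σ * b| < (Q : ℤ) := by
    have : |σ * a - σ * b| ≤ (n : ℤ) - 1 := by
      rw [abs_le]
      rcases hσ with rfl | rfl <;> constructor <;> linarith
    have h5 : (n : ℤ) ≤ Q := by exact_mod_cast hQ
    linarith
  have h5 := Int.eq_zero_of_abs_lt_dvd h3 h4
  rcases hσ with rfl | rfl <;> linarith

theorem rep_bound {G : Type} [AddCommGroup G] [DecidableEq G] {s n : ℕ} (A : Fin (s + 1) → Finset G)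
    (hA : ∀ j, (A j).card ≤ n) (u : G) : rep A u ≤ n ^ s := by
  refine (rep_le A u 0).trans ?_
  rw [Fin.prod_univ_succ, Function.update_self, card_singleton, one_mul]
  refine (prod_le_pow_card _ _ n fun j _ => ?_).trans ?_
  · rw [Function.update_of_ne (Fin.succ_ne_zero j)]
    exact hA _
  · rw [card_univ, Fintype.card_fin]

theorem bad_count {G : Type} [Fintype G] (f : G → ℝ) {c B : ℝ} (hc : 0 ≤ c) (h : ∑ u, f u ^ 2 ≤ B) :
    ((univ.filter (fun u => c < |f u|)).card : ℝ) * c ^ 2 ≤ B := by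
  classical
  refine le_trans ?_ h
  rw [← nsmul_eq_mul]
  refine (card_nsmul_le_sum _ (fun u => f u ^ 2) _ ?_).trans
    (sum_le_sum_of_subset_of_nonneg (filter_subset _ _) fun _ _ _ => sq_nonneg _)
  intro u hu
  have := (mem_filter.1 hu).2
  rw [← sq_abs (f u)]
  exact pow_le_pow_left₀ hc this.le 2

set_option maxHeartbeats 1000000 in
open Classical in
/-- **two summands**, finite form -/
theorem two_fin (k : ℕ) (hk : 1 ≤ k) : ∃ M n₀ : ℕ, 1 ≤ M ∧ ∀ (q : ℕ) (r : ℤ), 1 ≤ q → IsCoprime r (q : ℤ) →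
    ∀ n : ℕ, n₀ ≤ n → ∃ θ : Fin (2 ^ 27 * k) → ℝ, (∀ j, 0 ≤ θ j ∧ θ j ≤ 1) ∧
      ∀ s : ℤ, (s = 1 ∨ s = -1) → ∀ w : Fin k → ℤ, (∀ i, |w i| ≤ n) →
        (∀ i j, |(w i : ℝ) * θ j - round ((w i : ℝ) * θ j)| ≤ 5 / (4 * (2 ^ 15 * k))) →
        ∃ v v' : Fin k → ℤ, GoodV q r v ∧ GoodV q r v' ∧ ∀ i, (M : ℤ) * w i = v i + s * v' i := by
  obtain ⟨M, n₀, hM, h⟩ := nc k (1 / 2 ^ (8 * k + 17)) (by positivity)
  refine ⟨M, n₀ + 1, hM, ?_⟩
  intro q r hq hqr n hn
  have hn1 : 1 ≤ n := by omega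
  have hn0 : (0 : ℝ) < n := by exact_mod_cast hn1
  have hk0 : (0 : ℝ) < k := by exact_mod_cast hk
  have hk1 : (1 : ℝ) ≤ k := by exact_mod_cast hk
  obtain ⟨A, hA1, hA2, hA3⟩ := h q r hq hqr n (by omega)
  obtain ⟨Q, hQ⟩ : ∃ Q : ℕ, Q = (0 + 3) * n := ⟨_, rfl⟩
  haveI : NeZero Q := ⟨by omega⟩
  have hcA : A.card ≤ n := by
    refine (card_le_card hA1).trans ?_
    rw [Int.card_Icc]
    omega
  set η : ℝ := Real.sqrt (1 / (2 ^ 25 * k)) with hη
  have hη2 : η ^ 2 = 1 / (2 ^ 25 * k) := Real.sq_sqrt (by positivity)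
  have hη0 : 0 < η := Real.sqrt_pos.2 (by positivity)
  obtain ⟨θ, hθ1, hθ2⟩ := freq (m := 0) (n := n) (d := 2 ^ 27 * k) hn1 hQ A hcA hη0
    (ρ := 5 / (4 * (2 ^ 15 * k))) (by positivity) (by
      rw [hη2]
      push_cast
      rw [div_div_eq_mul_div, div_one, zero_add]
      nlinarith)
  refine ⟨θ, hθ1, ?_⟩
  intro s hs w hw1 hw2
  set σ : Fin 2 → ℤ := ![1, s] with hσ
  have hσ1 : ∀ j, σ j = 1 ∨ σ j = -1 := by
    intro j
    fin_cases j
    · left; rfl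
    · exact hs
  set w' : Fin (k + 1) → ℤ := Fin.cons 0 w with hw'
  have hw'0 : w' 0 = 0 := rfl
  have hw's : ∀ i : Fin k, w' i.succ = w i := fun i => rfl
  -- the bound for the L2 norm
  have hκ : (2 * Real.pi * (5 / (4 * (2 ^ 15 * (k : ℝ))))) ^ 2 + 4 * η ^ 2 ≤ 1 / (2 ^ 22 * k) := by
    rw [hη2]
    have h1 : Real.pi ^ 2 ≤ 10 := by
      have := Real.pi_lt_d2
      have h3 := Real.pi_pos
      nlinarith
    have h2 : (2 * Real.pi * (5 / (4 * (2 ^ 15 * (k : ℝ))))) ^ 2 = Real.pi ^ 2 * (25 / 4) / (2 ^ 30 * (k : ℝ) ^ 2) := by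
      field_simp
      ring
    have h3 : Real.pi ^ 2 * (25 / 4) / (2 ^ 30 * (k : ℝ) ^ 2) ≤ 1 / (2 ^ 24 * k) := by
      rw [div_le_div_iff₀ (by positivity) (by positivity)]
      have h4 : (k : ℝ) ≤ (k : ℝ) ^ 2 := by nlinarith
      nlinarith
    rw [h2]
    have h4 : 4 * (1 / (2 ^ 25 * (k : ℝ))) = 1 / (2 ^ 23 * k) := by field_simp; norm_num
    rw [h4]
    refine (add_le_add_left h3 _).trans ?_
    have h5 : 1 / (2 ^ 24 * (k : ℝ)) + 1 / (2 ^ 23 * k) = 3 / (2 ^ 24 * k) := by field_simp; norm_num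
    rw [h5, div_le_div_iff₀ (by positivity) (by positivity)]
    nlinarith
  have hQr : ((Q : ℕ) : ℝ) = 3 * n := by rw [hQ]; push_cast; ring
  set F : ZMod Q → ℝ := fun u => (rep (fun j => imgQ Q (σ j) A) u : ℝ) with hF
  have hF0 : ∀ u, 0 ≤ F u := fun u => Nat.cast_nonneg _
  have hFn : ∀ u, F u ≤ n := by
    intro u
    have := rep_bound (s := 1) (fun j => imgQ Q (σ j) A) (n := n) (fun j => card_image_le.trans hcA) u
    rw [pow_one] at this
    show ((rep (fun j => imgQ Q (σ j) A) u : ℕ) : ℝ) ≤ n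
    exact_mod_cast this
  have hFs : (n : ℝ) ^ 2 / 16 ≤ ∑ u, F u := by
    have h1 : ∑ u, F u = ((∑ u, rep (fun j => imgQ Q (σ j) A) u : ℕ) : ℝ) := by push_cast; rfl
    rw [h1, sum_rep, Fin.prod_univ_two, card_imgQ (by omega) hA1 (hσ1 0), card_imgQ (by omega) hA1 (hσ1 1)]
    push_cast
    have h2 : (n : ℝ) / 4 ≤ A.card := by
      refine le_trans ?_ hA2
      have h3 : (1 : ℝ) / 2 ^ (8 * k + 17) ≤ 1 / 36 := by
        apply one_div_le_one_div_of_le (by norm_num)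
        calc (36 : ℝ) ≤ 2 ^ 17 := by norm_num
          _ ≤ 2 ^ (8 * k + 17) := pow_le_pow_right₀ (by norm_num) (by omega)
      nlinarith
    have h4 : (n : ℝ) / 4 * (n / 4) ≤ (A.card : ℝ) * A.card :=
      mul_le_mul h2 h2 (by positivity) (Nat.cast_nonneg _)
    refine le_trans (le_of_eq (by ring)) h4
  -- the popular values
  set P : Finset (ZMod Q) := univ.filter (fun u => (n : ℝ) / 128 ≤ F u) with hP
  have hPc : (n : ℝ) / 32 ≤ P.card := by
    have h1 : ∑ u, F u ≤ P.card * n + (3 * n) * (n / 128) := by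
      rw [← sum_filter_add_sum_filter_not univ (fun u => (n : ℝ) / 128 ≤ F u)]
      refine add_le_add ?_ ?_
      · rw [← nsmul_eq_mul]
        exact sum_le_card_nsmul _ _ _ fun u _ => hFn u
      · refine (sum_le_card_nsmul _ _ _ fun u hu => (not_le.1 (mem_filter.1 hu).2).le).trans ?_
        rw [nsmul_eq_mul, ← hQr]
        refine mul_le_mul_of_nonneg_right ?_ (by positivity)
        have := card_filter_le (univ : Finset (ZMod Q)) (fun u => ¬ (n : ℝ) / 128 ≤ F u)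
        rw [card_univ, ZMod.card] at this
        exact_mod_cast this
    have h2 := hFs.trans h1
    have h3 : (n : ℝ) / 32 * n ≤ P.card * n := by nlinarith
    exact le_of_mul_le_mul_right h3 hn0
  -- the deviations
  set Z : Fin k → Finset (ZMod Q) := fun i => univ.filter (fun u => (n : ℝ) / 256 < |F (u + (w i : ZMod Q)) - F u|) with hZ
  have hZc : ∀ i, ((Z i).card : ℝ) ≤ n / (64 * k) := by
    intro i
    have h1 := bad_count (fun u => F (u + (w i : ZMod Q)) - F u) (c := (n : ℝ) / 256) (by positivity)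
      ((hθ2 σ hσ1 (w i) (hw2 i)).trans (mul_le_mul_of_nonneg_right hκ (by positivity)))
    have h2 : ((Z i).card : ℝ) * ((n : ℝ) / 256) ^ 2 ≤ n / (64 * k) * ((n : ℝ) / 256) ^ 2 := by
      refine h1.trans (le_of_eq ?_)
      field_simp
      ring
    exact le_of_mul_le_mul_right h2 (by positivity)
  set G : Finset (ZMod Q) := P \ univ.biUnion Z with hG
  have hGc : (n : ℝ) / 64 ≤ G.card := by
    have h1 : P.card ≤ G.card + (univ.biUnion Z).card := by
      rw [hG]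
      have := le_card_sdiff (univ.biUnion Z) P
      omega
    have h2 : ((univ.biUnion Z).card : ℝ) ≤ n / 64 := by
      have h3 : (univ.biUnion Z).card ≤ ∑ i, (Z i).card := card_biUnion_le
      have h4 : ((univ.biUnion Z).card : ℝ) ≤ ∑ i, ((Z i).card : ℝ) := by exact_mod_cast h3
      refine h4.trans ((sum_le_card_nsmul _ _ _ fun i _ => hZc i).trans (le_of_eq ?_))
      rw [card_univ, Fintype.card_fin, nsmul_eq_mul]
      field_simp
    have h3 : (P.card : ℝ) ≤ G.card + (univ.biUnion Z).card := by exact_mod_cast h1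
    linarith
  have hGF : ∀ u ∈ G, ∀ i, (n : ℝ) / 256 ≤ F (u + (w' i : ZMod Q)) := by
    intro u hu i
    rw [hG, mem_sdiff] at hu
    have h1 := (mem_filter.1 hu.1).2
    refine Fin.cases ?_ (fun i => ?_) i
    · rw [hw'0, Int.cast_zero, add_zero]
      linarith
    · rw [hw's]
      have h2 : u ∉ Z i := fun h => hu.2 (mem_biUnion.2 ⟨i, mem_univ _, h⟩)
      have h3 : ¬ (n : ℝ) / 256 < |F (u + (w i : ZMod Q)) - F u| := fun h => h2 (mem_filter.2 ⟨mem_univ _, h⟩)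
      have h4 := (abs_le.1 (not_lt.1 h3)).1
      linarith
  have hsum : (n : ℝ) / 64 * (n / 256) ^ (k + 1) ≤ ∑ u, ∏ i : Fin (k + 1), F (u + (w' i : ZMod Q)) := by
    calc (n : ℝ) / 64 * (n / 256) ^ (k + 1) ≤ G.card * (n / 256) ^ (k + 1) :=
          mul_le_mul_of_nonneg_right hGc (by positivity)
      _ = ∑ u ∈ G, ((n : ℝ) / 256) ^ (k + 1) := by rw [sum_const, nsmul_eq_mul]
      _ ≤ ∑ u ∈ G, ∏ i : Fin (k + 1), F (u + (w' i : ZMod Q)) := by
          refine sum_le_sum fun u hu => ?_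
          have := prod_le_prod (s := (univ : Finset (Fin (k + 1)))) (f := fun _ => (n : ℝ) / 256)
            (g := fun i => F (u + (w' i : ZMod Q))) (fun _ _ => by positivity) (fun i _ => hGF u hu i)
          rwa [prod_const, card_univ, Fintype.card_fin] at this
      _ ≤ _ := sum_le_sum_of_subset_of_nonneg (subset_univ _) fun u _ _ => prod_nonneg fun i _ => hF0 _
  -- lifting
  obtain ⟨a, ha1, -, ha3⟩ := lift (m := 0) (k := k) (n := n)
    (E := ((Fintype.piFinset (fun _ : Fin (k + 1) => A)).filter (fun a =>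
        ¬ GoodV q r (fun i : Fin k => (M : ℤ) * (a i.succ - a 0)))).card) hQ A hA1 σ hσ1 w' (by
      intro i
      rw [hw'0, sub_zero]
      refine Fin.cases ?_ (fun i => ?_) i
      · rw [hw'0, abs_zero]; exact Int.natCast_nonneg n
      · rw [hw's]; exact hw1 i)
    (fun a => GoodV q r (fun i : Fin k => (M : ℤ) * (a i.succ - a 0))) le_rfl (by
      refine lt_of_lt_of_le ?_ hsum
      push_cast
      rw [zero_mul, pow_zero, mul_one, hQr]
      have h2 := mul_le_mul_of_nonneg_left hA3 (by positivity : (0 : ℝ) ≤ 2 * (3 * n))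
      refine lt_of_le_of_lt h2 ?_
      have h3 : (n : ℝ) / 64 * (n / 256) ^ (k + 1) = (n : ℝ) * (n : ℝ) ^ (k + 1) * (8 / 2 ^ (8 * k + 17)) := by
        have e1 : (256 : ℝ) ^ (k + 1) = 2 ^ (8 * k + 17) / 2 ^ 9 := by
          rw [show (256 : ℝ) = 2 ^ 8 by norm_num, ← pow_mul, eq_div_iff (by positivity), ← pow_add]
          congr 1
        rw [div_pow, e1]
        field_simp
        norm_num
      have h4 : 2 * (3 * (n : ℝ)) * (1 / 2 ^ (8 * k + 17) * (n : ℝ) ^ (k + 1)) =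
          (n : ℝ) * (n : ℝ) ^ (k + 1) * (6 / 2 ^ (8 * k + 17)) := by
        field_simp
        norm_num
      rw [h3, h4]
      refine mul_lt_mul_of_pos_left ?_ (by positivity)
      exact div_lt_div_of_pos_right (by norm_num) (by positivity))
  refine ⟨_, _, ha1 0, ha1 1, ?_⟩
  intro i
  have h1 := ha3 i.succ
  rw [hw's, hw'0, sub_zero, Fin.sum_univ_two] at h1
  rw [← h1]
  show (M : ℤ) * (1 * _ + s * _) = _
  ring

/-- **two summands** on a Bohr set -/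
theorem two (k : ℕ) (hk : 1 ≤ k) : ∃ M : ℕ, 1 ≤ M ∧ ∀ (q : ℕ) (r : ℤ), 1 ≤ q → IsCoprime r (q : ℤ) →
    ∃ θ : Fin (2 ^ 27 * k) → ℝ, ∀ s : ℤ, (s = 1 ∨ s = -1) → ∀ w : Fin k → ℤ,
      (∀ i j, |(w i : ℝ) * θ j - round ((w i : ℝ) * θ j)| ≤ 1 / (2 ^ 15 * k)) →
      ∃ v v' : Fin k → ℤ, GoodV q r v ∧ GoodV q r v' ∧ ∀ i, (M : ℤ) * w i = v i + s * v' i := by
  obtain ⟨M, n₀, hM, h⟩ := two_fin k hk
  refine ⟨M, hM, ?_⟩
  intro q r hq hqr
  have hk0 : (0 : ℝ) < k := by exact_mod_cast hk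
  have h1 : ∀ n : ℕ, ∃ θ : Fin (2 ^ 27 * k) → ℝ, (∀ j, 0 ≤ θ j ∧ θ j ≤ 1) ∧ (n₀ ≤ n →
      ∀ s : ℤ, (s = 1 ∨ s = -1) → ∀ w : Fin k → ℤ, (∀ i, |w i| ≤ n) →
        (∀ i j, |(w i : ℝ) * θ j - round ((w i : ℝ) * θ j)| ≤ 5 / (4 * (2 ^ 15 * k))) →
        ∃ v v' : Fin k → ℤ, GoodV q r v ∧ GoodV q r v' ∧ ∀ i, (M : ℤ) * w i = v i + s * v' i) := by
    intro n
    by_cases hn : n₀ ≤ n
    · obtain ⟨θ, h1, h2⟩ := h q r hq hqr n hn
      exact ⟨θ, h1, fun _ => h2⟩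
    · exact ⟨fun _ => 0, fun _ => ⟨le_rfl, zero_le_one⟩, fun h => absurd h hn⟩
  choose x hx1 hx2 using h1
  obtain ⟨θ, hθ⟩ := cluster x hx1
  refine ⟨θ, fun s hs w hw => ?_⟩
  set W : ℝ := ∑ i, |(w i : ℝ)| with hW
  have hW0 : 0 ≤ W := sum_nonneg fun _ _ => abs_nonneg _
  have hWi : ∀ i, |(w i : ℝ)| ≤ W := fun i => single_le_sum (f := fun i => |(w i : ℝ)|)
    (fun _ _ => abs_nonneg _) (mem_univ i)
  obtain ⟨N, hN⟩ := exists_nat_ge W
  obtain ⟨n, hn1, hn2⟩ := hθ (1 / (4 * (2 ^ 15 * k) * (W + 1))) (by positivity) (max n₀ N)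
  refine hx2 n ((le_max_left _ _).trans hn1) s hs w ?_ ?_
  · intro i
    have h1 : |(w i : ℝ)| ≤ n := (hWi i).trans (hN.trans (by exact_mod_cast (le_max_right _ _).trans hn1))
    have h2 : ((|w i| : ℤ) : ℝ) ≤ ((n : ℤ) : ℝ) := by push_cast; exact h1
    exact_mod_cast h2
  · intro i j
    have h1 := dist_round_le (x := (w i : ℝ) * θ j) (y := (w i : ℝ) * x n j) (round ((w i : ℝ) * θ j))
      (b := 1 / (4 * (2 ^ 15 * k))) (hw i j) (by
        rw [← mul_sub, abs_mul]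
        refine (mul_le_mul ((hWi i).trans (by linarith : W ≤ W + 1)) (hn2 j) (abs_nonneg _) (by positivity)).trans
          (le_of_eq ?_)
        field_simp)
    refine h1.trans (le_of_eq ?_)
    field_simp
    norm_num

end Pool.Agent.K7.H62
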