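import Mathlib
import Pool.Agent.K7.H62.Alm1
import Pool.Agent.K7.H62.Two

/-! Almost all vectors of a Bohr set. -/

set_option autoImplicit false

namespace Pool.Agent.K7.H62

open Finset

/-- the Bohr set -/
noncomputable def bohr {d : ℕ} (H : ℕ) (θ : Fin d → ℝ) (ρ : ℝ) : Finset ℤ :=
  (Icc (-(H : ℤ)) H).filter (fun h => ∀ j, |(h : ℝ) * θ j - round ((h : ℝ) * θ j)| ≤ ρ)

theorem bohr_zero {d H : ℕ} {θ : Fin d → ℝ} {ρ : ℝ} (hρ : 0 ≤ ρ) : (0 : ℤ) ∈ bohr H θ ρ := by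
  unfold bohr
  rw [mem_filter, mem_Icc]
  refine ⟨⟨by omega, by omega⟩, fun j => ?_⟩
  simp [hρ]

/-- the size of a Bohr set -/
theorem bohr_card {d : ℕ} (H : ℕ) (θ : Fin d → ℝ) {ρ : ℝ} {N : ℕ} (hN : 1 ≤ N) (hNρ : 1 / (N : ℝ) ≤ ρ) :
    H + 1 ≤ (bohr H θ ρ).card * N ^ d := by
  classical
  haveI : NeZero N := ⟨by omega⟩
  have hN0 : (0 : ℝ) < N := by exact_mod_cast hN
  -- the cells
  have hcell : ∀ y : ℝ, ∃ c : Fin N, (c : ℝ) / N ≤ Int.fract y ∧ Int.fract y < (c + 1) / N := by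
    intro y
    have h0 := Int.fract_nonneg y
    have h1 := Int.fract_lt_one y
    have h2 : ⌊(N : ℝ) * Int.fract y⌋₊ < N := by
      rw [Nat.floor_lt (by positivity)]
      nlinarith
    refine ⟨⟨⌊(N : ℝ) * Int.fract y⌋₊, h2⟩, ?_, ?_⟩
    · rw [div_le_iff₀ hN0]
      exact (Nat.floor_le (by positivity)).trans (le_of_eq (mul_comm _ _))
    · rw [lt_div_iff₀ hN0]
      exact lt_of_le_of_lt (le_of_eq (mul_comm _ _)) (Nat.lt_floor_add_one _)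
  choose c hc1 hc2 using hcell
  have hmain : ∀ b : Fin d → Fin N, ((Icc (0 : ℤ) (H : ℤ)).filter (fun h : ℤ => (fun j => c ((h : ℝ) * θ j)) = b)).card ≤
      (bohr H θ ρ).card := by
    intro b
    rcases ((Icc (0 : ℤ) (H : ℤ)).filter (fun h : ℤ => (fun j => c ((h : ℝ) * θ j)) = b)).eq_empty_or_nonempty with he | ⟨h₀, hh₀⟩
    · rw [he]; simp
    refine card_le_card_of_injOn (fun h : ℤ => h - h₀) ?_ (fun x _ y _ hxy => by simpa using hxy)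
    intro h hh
    rw [mem_coe, mem_filter, mem_Icc] at hh
    rw [mem_filter, mem_Icc] at hh₀
    rw [mem_coe]
    unfold bohr
    rw [mem_filter, mem_Icc]
    have hlo : -(H : ℤ) ≤ h - h₀ := by omega
    have hhi : h - h₀ ≤ (H : ℤ) := by omega
    refine ⟨⟨hlo, hhi⟩, fun j => ?_⟩
    have e1 : c ((h : ℝ) * θ j) = c ((h₀ : ℝ) * θ j) := by
      have := (congrFun hh.2 j).trans (congrFun hh₀.2 j).symm
      exact this
    have e2 := hc1 ((h : ℝ) * θ j)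
    have e3 := hc2 ((h : ℝ) * θ j)
    have e4 := hc1 ((h₀ : ℝ) * θ j)
    have e5 := hc2 ((h₀ : ℝ) * θ j)
    rw [e1] at e2 e3
    refine (round_le _ (⌊(h : ℝ) * θ j⌋ - ⌊(h₀ : ℝ) * θ j⌋)).trans ?_
    have e6 : ((h - h₀ : ℤ) : ℝ) * θ j - ((⌊(h : ℝ) * θ j⌋ - ⌊(h₀ : ℝ) * θ j⌋ : ℤ) : ℝ) =
        Int.fract ((h : ℝ) * θ j) - Int.fract ((h₀ : ℝ) * θ j) := by
      rw [← Int.self_sub_floor, ← Int.self_sub_floor]
      push_cast
      ring
    rw [e6]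
    refine le_trans ?_ hNρ
    have e7 : ((c ((h₀ : ℝ) * θ j) : ℕ) + 1 : ℝ) / N = (c ((h₀ : ℝ) * θ j) : ℕ) / N + 1 / N := by ring
    rw [abs_le]
    constructor <;> linarith
  have h1 := card_le_mul_card_image_of_maps_to (s := Icc (0 : ℤ) H) (t := (univ : Finset (Fin d → Fin N)))
    (f := fun h : ℤ => (fun j => c ((h : ℝ) * θ j))) (fun _ _ => mem_univ _) _ (fun b _ => hmain b)
  rw [Int.card_Icc, card_univ, Fintype.card_fun, Fintype.card_fin, Fintype.card_fin] at h1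
  have h2 : ((H : ℤ) + 1 - 0).toNat = H + 1 := by omega
  rw [h2] at h1
  exact h1

/-- the size of a Bohr set when many frequencies vanish -/
theorem bohr_card' {d d' : ℕ} (H : ℕ) (θ : Fin d → ℝ) {ρ : ℝ} {N : ℕ} (hN : 1 ≤ N) (hNρ : 1 / (N : ℝ) ≤ ρ)
    (hθ : ∀ j : Fin d, d' ≤ (j : ℕ) → θ j = 0) : H + 1 ≤ (bohr H θ ρ).card * N ^ d' := by
  have hρ : 0 ≤ ρ := le_trans (by positivity) hNρ
  refine (bohr_card (d := d') H (fun j => if h : (j : ℕ) < d then θ ⟨j, h⟩ else 0) hN hNρ).trans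
    (Nat.mul_le_mul_right _ (card_le_card ?_))
  intro h hh
  unfold bohr at hh ⊢
  rw [mem_filter] at hh ⊢
  refine ⟨hh.1, fun j => ?_⟩
  by_cases hj : (j : ℕ) < d'
  · have := hh.2 ⟨j, hj⟩
    simp only [j.2, dif_pos] at this
    exact this
  · rw [hθ j (not_lt.1 hj)]
    simp [hρ]

/-- choice of the level -/
theorem level {Q J : ℕ} [NeZero Q] (f : ZMod Q → ℝ) (hf : ∑ ξ, f ξ ^ 2 ≤ (Q : ℝ) ^ 2) (η : ℕ → ℝ) (hη : Antitone η)
    {σ : ℝ} (hJ : 1 < J * σ ^ 2) : ∃ i < J, ∑ ξ ∈ (univ.filter (fun ξ => η (i + 1) * Q ≤ f ξ)) \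
      (univ.filter (fun ξ => η i * Q ≤ f ξ)), f ξ ^ 2 ≤ σ ^ 2 * (Q : ℝ) ^ 2 := by
  classical
  have hQ : (0 : ℝ) < Q := by exact_mod_cast (NeZero.pos Q)
  by_contra hcon
  push Not at hcon
  set D : ℕ → Finset (ZMod Q) := fun i => (univ.filter (fun ξ => η (i + 1) * Q ≤ f ξ)) \
      (univ.filter (fun ξ => η i * Q ≤ f ξ)) with hD
  have hdisj : ∀ i i' : ℕ, i < i' → Disjoint (D i) (D i') := by
    intro i i' hii
    rw [disjoint_left]
    intro ξ h1 h2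
    simp only [hD, mem_sdiff, mem_filter, mem_univ, true_and, not_le] at h1 h2
    have h3 : η i' ≤ η (i + 1) := hη hii
    have h4 := mul_le_mul_of_nonneg_right h3 hQ.le
    linarith [h1.1, h2.2]
  have hpd : ((range J : Finset ℕ) : Set ℕ).PairwiseDisjoint D := by
    intro i _ i' _ hne
    rcases lt_or_gt_of_ne hne with h | h
    · exact hdisj i i' h
    · exact (hdisj i' i h).symm
  have h1 : ∑ i ∈ range J, ∑ ξ ∈ D i, f ξ ^ 2 ≤ (Q : ℝ) ^ 2 := by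
    rw [← sum_biUnion hpd]
    exact (sum_le_sum_of_subset_of_nonneg (subset_univ _) fun _ _ _ => sq_nonneg _).trans hf
  have h2 : (J : ℝ) * (σ ^ 2 * (Q : ℝ) ^ 2) ≤ ∑ i ∈ range J, ∑ ξ ∈ D i, f ξ ^ 2 := by
    have := card_nsmul_le_sum (range J) (fun i => ∑ ξ ∈ D i, f ξ ^ 2) (σ ^ 2 * (Q : ℝ) ^ 2)
      (fun i hi => (hcon i (mem_range.1 hi)).le)
    rw [card_range, nsmul_eq_mul] at this
    exact this
  have h3 : (0 : ℝ) < (Q : ℝ) ^ 2 := by positivity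
  nlinarith

end Pool.Agent.K7.H62
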