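import Mathlib
import Pool.Agent.K7.H62.Alm2

/-! Almost all vectors of a Bohr set are good. -/

set_option autoImplicit false

namespace Pool.Agent.K7.H62

open Finset

open Classical in
theorem cnt_le {H Q k : ℕ} [NeZero Q] (hQ : Q = 2 * H + 1) (A : Finset ℤ) (hA : A ⊆ Icc 1 (H : ℤ)) (h : Fin k → ℤ)
    (hh : ∀ i, |h i| ≤ H) :
    ∑ x : ZMod Q, fR (imgQ Q 1 A) x * ∏ i, fR (imgQ Q 1 A) (x + (h i : ZMod Q)) ≤
      (((Fintype.piFinset (fun _ : Fin (k + 1) => A)).filter (fun a => ∀ i : Fin k, a i.succ - a 0 = h i)).card : ℝ) := by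
  have h1 : ∀ x : ZMod Q, fR (imgQ Q 1 A) x * ∏ i, fR (imgQ Q 1 A) (x + (h i : ZMod Q)) =
      if x ∈ imgQ Q 1 A ∧ ∀ i, x + (h i : ZMod Q) ∈ imgQ Q 1 A then 1 else 0 := by
    intro x
    unfold fR
    by_cases hc : x ∈ imgQ Q 1 A ∧ ∀ i, x + (h i : ZMod Q) ∈ imgQ Q 1 A
    · rw [if_pos hc, if_pos hc.1, one_mul]
      exact prod_eq_one fun i _ => if_pos (hc.2 i)
    · rw [if_neg hc]
      by_cases h2 : x ∈ imgQ Q 1 A
      · have h3 : ∃ i, x + (h i : ZMod Q) ∉ imgQ Q 1 A := by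
          by_contra h4
          push Not at h4
          exact hc ⟨h2, h4⟩
        obtain ⟨i, hi⟩ := h3
        rw [prod_eq_zero (mem_univ i) (if_neg hi), mul_zero]
      · rw [if_neg h2, zero_mul]
  rw [sum_congr rfl fun x _ => h1 x, sum_boole, Nat.cast_le]
  have h2 : ∀ x : ZMod Q, ∃ a : ℤ, x ∈ imgQ Q 1 A → a ∈ A ∧ (a : ZMod Q) = x := by
    intro x
    by_cases hx : x ∈ imgQ Q 1 A
    · obtain ⟨a, ha, hax⟩ := mem_image.1 hx
      exact ⟨a, fun _ => ⟨ha, by rw [← hax, one_mul]⟩⟩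
    · exact ⟨0, fun h => absurd h hx⟩
  choose l hl using h2
  refine card_le_card_of_injOn (fun x => (Fin.cons (l x) (fun i => l (x + (h i : ZMod Q))) : Fin (k + 1) → ℤ)) ?_ ?_
  · intro x hx
    rw [mem_coe, mem_filter] at hx
    obtain ⟨-, hx1, hx2⟩ := hx
    rw [mem_coe, mem_filter, Fintype.mem_piFinset]
    refine ⟨fun i => ?_, fun i => ?_⟩
    · refine Fin.cases (hl x hx1).1 (fun i => ?_) i
      exact (hl _ (hx2 i)).1
    · show l (x + (h i : ZMod Q)) - l x = h i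
      have e1 := hl x hx1
      have e2 := hl _ (hx2 i)
      have e3 := mem_Icc.1 (hA e1.1)
      have e4 := mem_Icc.1 (hA e2.1)
      have e5 : ((l (x + (h i : ZMod Q)) - l x - h i : ℤ) : ZMod Q) = 0 := by
        push_cast
        rw [e1.2, e2.2]
        ring
      rw [ZMod.intCast_zmod_eq_zero_iff_dvd] at e5
      have e6 : |l (x + (h i : ZMod Q)) - l x - h i| < (Q : ℤ) := by
        have := abs_le.1 (hh i)
        have hQz : (Q : ℤ) = 2 * H + 1 := by exact_mod_cast hQ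
        rw [hQz, abs_lt]
        constructor <;> linarith
      have e7 := Int.eq_zero_of_abs_lt_dvd e5 e6
      linarith
  · intro x hx y hy hxy
    rw [mem_coe, mem_filter] at hx hy
    have e1 : l x = l y := congrFun hxy 0
    rw [← (hl x hx.2.1).2, ← (hl y hy.2.1).2, e1]

/-- few vectors have a small count -/
theorem few_small {Q : ℕ} [NeZero Q] (A B : Finset (ZMod Q)) (k : ℕ) {X y : ℝ}
    (hT : ∑ h ∈ Fintype.piFinset (fun _ : Fin k => B), |∑ x, fR A x * (∏ i, fR A (x + h i) - gR A B x ^ k)| ≤ X)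
    (hmain : y ≤ ∑ x, fR A x * gR A B x ^ k) :
    (((Fintype.piFinset (fun _ : Fin k => B)).filter (fun h => ∑ x, fR A x * ∏ i, fR A (x + h i) < y / 2)).card : ℝ) *
      (y / 2) ≤ X := by
  classical
  refine le_trans ?_ hT
  have h1 : ∀ h : Fin k → ZMod Q, ∑ x, fR A x * (∏ i, fR A (x + h i) - gR A B x ^ k) =
      ∑ x, fR A x * ∏ i, fR A (x + h i) - ∑ x, fR A x * gR A B x ^ k := by
    intro h
    rw [← sum_sub_distrib]
    exact sum_congr rfl fun x _ => by ring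
  set S := (Fintype.piFinset (fun _ : Fin k => B)).filter (fun h => ∑ x, fR A x * ∏ i, fR A (x + h i) < y / 2) with hS
  have h2 : ∀ h ∈ S, y / 2 ≤ |∑ x, fR A x * (∏ i, fR A (x + h i) - gR A B x ^ k)| := by
    intro h hh
    rw [h1 h, abs_sub_comm]
    have h3 := (mem_filter.1 hh).2
    exact le_trans (by linarith) (le_abs_self _)
  have h3 : (S.card : ℝ) * (y / 2) ≤ ∑ h ∈ S, |∑ x, fR A x * (∏ i, fR A (x + h i) - gR A B x ^ k)| := by
    have := card_nsmul_le_sum S (fun h => |∑ x, fR A x * (∏ i, fR A (x + h i) - gR A B x ^ k)|) (y / 2) h2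
    rwa [nsmul_eq_mul] at this
  exact h3.trans (sum_le_sum_of_subset_of_nonneg (filter_subset _ _) fun _ _ _ => abs_nonneg _)

open Classical in
/-- vectors with a large count are rarely bad -/
theorem few_bad {H Q k : ℕ} [NeZero Q] (hQ : Q = 2 * H + 1) (A : Finset ℤ) (hA : A ⊆ Icc 1 (H : ℤ)) {y X : ℝ}
    (P : (Fin k → ℤ) → Prop) (S : Finset (Fin k → ℤ)) (hS1 : ∀ h ∈ S, ∀ i, |h i| ≤ H) (hS2 : ∀ h ∈ S, ¬ P h)
    (hS3 : ∀ h ∈ S, y ≤ ∑ x : ZMod Q, fR (imgQ Q 1 A) x * ∏ i, fR (imgQ Q 1 A) (x + (h i : ZMod Q)))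
    (hX : (((Fintype.piFinset (fun _ : Fin (k + 1) => A)).filter (fun a =>
        ¬ P (fun i : Fin k => a i.succ - a 0))).card : ℝ) ≤ X) : (S.card : ℝ) * y ≤ X := by
  refine le_trans ?_ hX
  set T : (Fin k → ℤ) → Finset (Fin (k + 1) → ℤ) := fun h => (Fintype.piFinset (fun _ : Fin (k + 1) => A)).filter
      (fun a => ∀ i : Fin k, a i.succ - a 0 = h i) with hT
  have h2 : ∀ h ∈ S, y ≤ ((T h).card : ℝ) := fun h hh => (hS3 h hh).trans (cnt_le hQ A hA h (hS1 h hh))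
  have h3 : (S.card : ℝ) * y ≤ ∑ h ∈ S, ((T h).card : ℝ) := by
    calc (S.card : ℝ) * y = ∑ _h ∈ S, y := by rw [sum_const, nsmul_eq_mul]
      _ ≤ _ := sum_le_sum h2
  refine h3.trans ?_
  rw [← Nat.cast_sum, Nat.cast_le, ← card_biUnion]
  · apply card_le_card
    intro a ha
    rw [mem_biUnion] at ha
    obtain ⟨h, hh, ha⟩ := ha
    rw [mem_filter] at ha
    rw [mem_filter]
    refine ⟨ha.1, fun hG => hS2 h hh ?_⟩
    have h4 : h = (fun i : Fin k => a i.succ - a 0) := by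
      funext i
      rw [ha.2 i]
    rw [h4]
    exact hG
  · intro h _ h' _ hne
    rw [Function.onFun, disjoint_left]
    intro a ha ha'
    rw [mem_filter] at ha ha'
    apply hne
    funext i
    rw [← ha.2 i, ← ha'.2 i]

/-- the levels -/
noncomputable def lev (σ : ℝ) (N : ℕ) : ℕ → ℝ
  | 0 => 1
  | i + 1 => min (lev σ N i) (σ * Real.sqrt (1 / (2 * (N : ℝ) ^ ⌈1 / (lev σ N i) ^ 2⌉₊)))

theorem lev_pos {σ : ℝ} (hσ : 0 < σ) {N : ℕ} (hN : 1 ≤ N) : ∀ i, 0 < lev σ N i := by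
  intro i
  have hN0 : (0 : ℝ) < N := by exact_mod_cast hN
  induction i with
  | zero => exact one_pos
  | succ i ih =>
    show 0 < min (lev σ N i) (σ * Real.sqrt (1 / (2 * (N : ℝ) ^ ⌈1 / (lev σ N i) ^ 2⌉₊)))
    refine lt_min ih (mul_pos hσ (Real.sqrt_pos.2 (by positivity)))

theorem lev_anti (σ : ℝ) (N : ℕ) : Antitone (lev σ N) := antitone_nat_of_succ_le fun _ => min_le_left _ _

set_option maxHeartbeats 2000000 in
open Classical in
/-- **almost all vectors of a Bohr set** are frequent differences of a dense set -/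
theorem almost_core (k : ℕ) (ε : ℝ) (hε : 0 < ε) : ∃ (d : ℕ) (ρ c ε' : ℝ), 0 < ρ ∧ 0 < c ∧ 0 < ε' ∧
    ∀ (H : ℕ) (A : Finset ℤ), 4 ≤ H → A ⊆ Icc 1 (H : ℤ) → (5 / 18 - ε') * H ≤ (A.card : ℝ) →
      ∃ θ : Fin d → ℝ, c * H ≤ ((bohr H θ ρ).card : ℝ) ∧ ∀ P : (Fin k → ℤ) → Prop,
      (((Fintype.piFinset (fun _ : Fin (k + 1) => A)).filter (fun a =>
        ¬ P (fun i : Fin k => a i.succ - a 0))).card : ℝ) ≤ ε' * (H : ℝ) ^ (k + 1) →
      (((Fintype.piFinset (fun _ : Fin k => bohr H θ ρ)).filter (fun h => ¬ P h)).card : ℝ) ≤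
        ε * ((bohr H θ ρ).card : ℝ) ^ k := by
  have hk0 : (0 : ℝ) ≤ k := Nat.cast_nonneg k
  set c₀ : ℝ := (1 / 9) ^ (k + 1) with hc₀
  have hc₀0 : 0 < c₀ := by positivity
  set σ : ℝ := min 1 (ε * c₀ / (28 * (k + 1))) with hσ
  have hσ0 : 0 < σ := lt_min one_pos (by positivity)
  have hσ2 : σ ≤ ε * c₀ / (28 * (k + 1)) := min_le_right _ _
  set ρ : ℝ := σ / 7 with hρ
  have hρ0 : 0 < ρ := by positivity
  obtain ⟨N, hN⟩ : ∃ N : ℕ, 1 ≤ N ∧ 1 / (N : ℝ) ≤ ρ := by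
    obtain ⟨N, hN⟩ := exists_nat_ge (1 / ρ)
    refine ⟨N + 1, by omega, ?_⟩
    rw [div_le_iff₀ hρ0] at hN
    rw [div_le_iff₀ (by positivity)]
    push_cast
    nlinarith
  obtain ⟨hN1, hNρ⟩ := hN
  have hN0 : (0 : ℝ) < N := by exact_mod_cast hN1
  have hN1' : (1 : ℝ) ≤ N := by exact_mod_cast hN1
  set J : ℕ := ⌈1 / σ ^ 2⌉₊ + 1 with hJ
  have hJσ : 1 < J * σ ^ 2 := by
    have h1 : 1 / σ ^ 2 < J := by
      rw [hJ]
      push_cast
      have := Nat.le_ceil (1 / σ ^ 2)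
      linarith
    rwa [div_lt_iff₀ (by positivity)] at h1
  set d : ℕ := ⌈1 / (lev σ N J) ^ 2⌉₊ with hd
  set ε' : ℝ := min (1 / 36) (c₀ / 2 * (ε / 2) * (1 / (2 * (N : ℝ) ^ d)) ^ k) with hε'
  have hε'0 : 0 < ε' := lt_min (by norm_num) (by positivity)
  refine ⟨d, ρ, 1 / (2 * (N : ℝ) ^ d), ε', hρ0, by positivity, hε'0, ?_⟩
  intro H A hH hA1 hA2
  have hH0 : (0 : ℝ) < H := by exact_mod_cast (by omega : 0 < H)
  have hH4 : (4 : ℝ) ≤ H := by exact_mod_cast (by omega : 4 ≤ H)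
  obtain ⟨Q, hQ⟩ : ∃ Q : ℕ, Q = 2 * H + 1 := ⟨_, rfl⟩
  haveI : NeZero Q := ⟨by omega⟩
  have hQr : ((Q : ℕ) : ℝ) = 2 * H + 1 := by rw [hQ]; push_cast; ring
  have hQ0 : (0 : ℝ) < Q := by rw [hQr]; positivity
  set A' : Finset (ZMod Q) := imgQ Q 1 A with hA'
  have hA'c : A'.card = A.card := card_imgQ (by omega) hA1 (Or.inl rfl)
  have hA'1 : (Q : ℝ) / 9 ≤ A'.card := by
    rw [hA'c]
    refine le_trans ?_ hA2
    have h1 : ε' ≤ 1 / 36 := min_le_left _ _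
    rw [hQr]
    nlinarith
  have hA'n : A'.Nonempty := by
    rw [← card_pos]
    have : (0 : ℝ) < A'.card := lt_of_lt_of_le (by positivity) hA'1
    exact_mod_cast this
  have hA'Q : (A'.card : ℝ) ≤ Q := by
    have := card_le_univ A'
    rw [ZMod.card] at this
    exact_mod_cast this
  -- the level
  have hf2 : ∑ ξ, ‖Sf (indc A') ξ‖ ^ 2 ≤ (Q : ℝ) ^ 2 := by
    rw [parseval, sum_indc, sq]
    exact mul_le_mul_of_nonneg_left hA'Q hQ0.le
  obtain ⟨i, hiJ, hi⟩ := level (fun ξ => ‖Sf (indc A') ξ‖) hf2 (lev σ N) (lev_anti σ N) hJσ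
  set Λ : Finset (ZMod Q) := univ.filter (fun ξ => lev σ N i * Q ≤ ‖Sf (indc A') ξ‖) with hΛ
  set L : Finset (ZMod Q) := univ.filter (fun ξ => lev σ N (i + 1) * Q ≤ ‖Sf (indc A') ξ‖) with hL
  set d' : ℕ := ⌈1 / (lev σ N i) ^ 2⌉₊ with hd'
  have hlev := lev_pos hσ0 hN1 i
  have hlevJ := lev_pos hσ0 hN1 J
  have hdd : d' ≤ d := by
    apply Nat.ceil_le_ceil
    apply one_div_le_one_div_of_le (by positivity)
    exact pow_le_pow_left₀ hlevJ.le (lev_anti σ N hiJ.le) 2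
  have hΛc : Λ.card ≤ d' := by
    have h1 := spec_card A' (t := lev σ N i * Q) (by positivity)
    have h2 : (Λ.card : ℝ) * (lev σ N i * Q) ^ 2 ≤ Q * Q := h1.trans (mul_le_mul_of_nonneg_left hA'Q hQ0.le)
    have h3 : (Λ.card : ℝ) ≤ 1 / (lev σ N i) ^ 2 := by
      rw [le_div_iff₀ (by positivity)]
      have h4 : (Λ.card : ℝ) * (lev σ N i) ^ 2 * (Q : ℝ) ^ 2 ≤ 1 * (Q : ℝ) ^ 2 := by
        rw [mul_pow] at h2
        nlinarith
      exact le_of_mul_le_mul_right h4 (by positivity)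
    have h5 := h3.trans (Nat.le_ceil _)
    exact_mod_cast h5
  -- the frequencies
  set θ : Fin d → ℝ := fun j => if h : (j : ℕ) < Λ.card then
    (((Λ.equivFin.symm ⟨j, h⟩ : ZMod Q).val : ℕ) : ℝ) / Q else 0 with hθ
  refine ⟨θ, ?_⟩
  set B₀ : Finset ℤ := bohr H θ ρ with hB₀
  set B : Finset (ZMod Q) := B₀.image (fun h : ℤ => (h : ZMod Q)) with hB
  have hB₀i : Set.InjOn (fun h : ℤ => (h : ZMod Q)) (B₀ : Set ℤ) := by
    intro a ha b hb hab
    rw [mem_coe, hB₀] at ha hb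
    unfold bohr at ha hb
    rw [mem_filter, mem_Icc] at ha hb
    have h1 : ((a - b : ℤ) : ZMod Q) = 0 := by
      rw [Int.cast_sub, sub_eq_zero]; exact hab
    rw [ZMod.intCast_zmod_eq_zero_iff_dvd] at h1
    have h2 : |a - b| < (Q : ℤ) := by
      rw [hQ, abs_lt]
      push_cast
      constructor <;> linarith [ha.1.1, ha.1.2, hb.1.1, hb.1.2]
    have := Int.eq_zero_of_abs_lt_dvd h1 h2
    linarith
  have hBc : B.card = B₀.card := card_image_of_injOn hB₀i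
  have hBn : B.Nonempty := ⟨_, mem_image_of_mem _ (bohr_zero (d := d) (H := H) (θ := θ) hρ0.le)⟩
  have hBsize : (Q : ℝ) / (2 * (N : ℝ) ^ d') ≤ B.card := by
    have h1 := bohr_card' (d' := d') H θ hN1 hNρ (by
      intro j hj
      simp only [hθ]
      rw [dif_neg (by omega)])
    have h2 : ((H : ℝ) + 1) ≤ (B.card : ℝ) * (N : ℝ) ^ d' := by
      rw [hBc]
      exact_mod_cast h1
    rw [div_le_iff₀ (by positivity), hQr]
    linarith
  have hBsize2 : (H : ℝ) * (1 / (2 * (N : ℝ) ^ d)) ≤ B.card := by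
    refine le_trans ?_ hBsize
    have h5 : (N : ℝ) ^ d' ≤ (N : ℝ) ^ d := pow_le_pow_right₀ hN1' hdd
    calc (H : ℝ) * (1 / (2 * (N : ℝ) ^ d)) ≤ Q * (1 / (2 * (N : ℝ) ^ d')) := by
          refine mul_le_mul (by rw [hQr]; linarith) ?_ (by positivity) hQ0.le
          apply one_div_le_one_div_of_le (by positivity)
          linarith
      _ = _ := by ring
  refine ⟨by rw [← hBc]; linarith, ?_⟩
  intro P hA3
  -- the uniformity
  have hU := unif A' B Λ L (σ := σ) (η := lev σ N (i + 1)) (μ := Real.sqrt (1 / (2 * (N : ℝ) ^ d'))) hσ0.le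
    (lev_pos hσ0 hN1 (i + 1)).le (Real.sqrt_pos.2 (by positivity)) (min_le_right _ _) hBn (by
      rw [Real.sq_sqrt (by positivity)]
      refine le_trans (le_of_eq ?_) hBsize
      ring) (by
      intro ξ hξ
      by_contra hcon
      exact hξ (mem_filter.2 ⟨mem_univ _, (not_le.1 hcon).le⟩)) hi (by
      intro ξ hξ h hh
      obtain ⟨h₀, hh₀, rfl⟩ := mem_image.1 hh
      set j := Λ.equivFin ⟨ξ, hξ⟩ with hj
      have h1 : |(h₀ : ℝ) * (((ξ.val : ℕ) : ℝ) / Q) - round ((h₀ : ℝ) * (((ξ.val : ℕ) : ℝ) / Q))| ≤ ρ := by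
        rw [hB₀] at hh₀
        unfold bohr at hh₀
        have h2 := (mem_filter.1 hh₀).2 ⟨j, lt_of_lt_of_le j.2 (hΛc.trans hdd)⟩
        simp only [hθ, j.2, dif_pos] at h2
        have h3 : Λ.equivFin.symm ⟨(j : ℕ), j.2⟩ = ⟨ξ, hξ⟩ := by
          rw [Fin.eta, hj, Equiv.symm_apply_apply]
        rw [h3] at h2
        exact h2
      refine (norm_char_le ξ h₀ h1).trans ?_
      rw [hρ]
      have := Real.pi_lt_d2
      nlinarith)
  have hT := teleU A' B (δ := 7 * σ * Q) (by positivity) (fun Φ hΦ => (hU Φ hΦ).trans (le_of_eq (by ring))) k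
    (fR A') (fun x => by rw [abs_of_nonneg (fR_nonneg A' x)]; exact fR_le A' x)
  have hmain : c₀ * Q ≤ ∑ x, fR A' x * gR A' B x ^ k := by
    refine le_trans ?_ (main_term A' B hA'n hBn k)
    have h1 : (1 : ℝ) / 9 ≤ (A'.card : ℝ) / Q := by
      rw [le_div_iff₀ hQ0]; linarith
    have h2 := pow_le_pow_left₀ (by norm_num) h1 k
    calc c₀ * Q = (Q : ℝ) / 9 * (1 / 9) ^ k := by rw [hc₀, pow_succ]; ring
      _ ≤ _ := mul_le_mul hA'1 h2 (by positivity) (Nat.cast_nonneg _)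
  set S₁ : Finset (Fin k → ZMod Q) := (Fintype.piFinset (fun _ : Fin k => B)).filter (fun h =>
    ∑ x, fR A' x * ∏ i, fR A' (x + h i) < c₀ * Q / 2) with hS₁
  have hS₁c : (S₁.card : ℝ) ≤ ε / 2 * (B.card : ℝ) ^ k := by
    have h1 : (S₁.card : ℝ) * (c₀ * Q / 2) ≤ k * (7 * σ * Q) * (B.card : ℝ) ^ k := few_small A' B k hT hmain
    have h2 : (k : ℝ) * (7 * σ * Q) * (B.card : ℝ) ^ k ≤ ε / 2 * (B.card : ℝ) ^ k * (c₀ * Q / 2) := by
      have h3 : (k : ℝ) * (7 * σ) ≤ ε * c₀ / 4 := by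
        have h4 : (k : ℝ) * (7 * σ) ≤ (k + 1) * (7 * (ε * c₀ / (28 * (k + 1)))) :=
          mul_le_mul (by linarith) (by linarith) (by positivity) (by positivity)
        refine h4.trans (le_of_eq ?_)
        field_simp
        norm_num
      calc (k : ℝ) * (7 * σ * Q) * (B.card : ℝ) ^ k = (k * (7 * σ)) * (Q * (B.card : ℝ) ^ k) := by ring
        _ ≤ (ε * c₀ / 4) * (Q * (B.card : ℝ) ^ k) := mul_le_mul_of_nonneg_right h3 (by positivity)
        _ = _ := by ring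
    exact le_of_mul_le_mul_right (h1.trans h2) (by positivity)
  -- the bad vectors
  set S₂ := (Fintype.piFinset (fun _ : Fin k => B₀)).filter (fun h => ¬ P h) with hS₂
  set S₃ := S₂.filter (fun h => ¬ (fun i => (h i : ZMod Q)) ∈ S₁) with hS₃
  have hS₂B : ∀ h ∈ S₂, ∀ i, h i ∈ B₀ := fun h hh i => by
    have := (mem_filter.1 hh).1
    rw [Fintype.mem_piFinset] at this
    exact this i
  have hS₂1 : (S₂.filter (fun h => (fun i => (h i : ZMod Q)) ∈ S₁)).card ≤ S₁.card := by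
    refine card_le_card_of_injOn (fun h => fun i => (h i : ZMod Q)) (fun h hh => (mem_filter.1 hh).2) ?_
    intro h hh h' hh' hhh
    funext i
    exact hB₀i (hS₂B h (mem_filter.1 hh).1 i) (hS₂B h' (mem_filter.1 hh').1 i) (congrFun hhh i)
  have hS₃c : (S₃.card : ℝ) ≤ ε / 2 * (B.card : ℝ) ^ k := by
    have h1 : (S₃.card : ℝ) * (c₀ * Q / 2) ≤ ε' * (H : ℝ) ^ (k + 1) := by
      refine few_bad hQ A hA1 P S₃ ?_ ?_ ?_ hA3
      · intro h hh i
        have h5 := hS₂B h (mem_filter.1 hh).1 i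
        rw [hB₀] at h5
        unfold bohr at h5
        rw [mem_filter, mem_Icc] at h5
        exact abs_le.2 h5.1
      · intro h hh
        exact (mem_filter.1 (mem_filter.1 hh).1).2
      · intro h hh
        have h4 := (mem_filter.1 hh).2
        by_contra h3
        apply h4
        refine mem_filter.2 ⟨?_, not_le.1 h3⟩
        rw [Fintype.mem_piFinset]
        exact fun i => mem_image_of_mem _ (hS₂B h (mem_filter.1 hh).1 i)
    have h2 : ε' * (H : ℝ) ^ (k + 1) ≤ ε / 2 * (B.card : ℝ) ^ k * (c₀ * Q / 2) := by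
      have h3 : ε' ≤ c₀ / 2 * (ε / 2) * (1 / (2 * (N : ℝ) ^ d)) ^ k := min_le_right _ _
      have h6 := pow_le_pow_left₀ (by positivity) hBsize2 k
      calc ε' * (H : ℝ) ^ (k + 1) ≤ (c₀ / 2 * (ε / 2) * (1 / (2 * (N : ℝ) ^ d)) ^ k) * (H : ℝ) ^ (k + 1) :=
            mul_le_mul_of_nonneg_right h3 (by positivity)
        _ = (ε / 2) * ((H : ℝ) * (1 / (2 * (N : ℝ) ^ d))) ^ k * (c₀ * H / 2) := by
            rw [mul_pow, pow_succ]; ring
        _ ≤ (ε / 2) * (B.card : ℝ) ^ k * (c₀ * Q / 2) := by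
            refine mul_le_mul (mul_le_mul_of_nonneg_left h6 (by positivity)) ?_ (by positivity) (by positivity)
            have : (H : ℝ) ≤ Q := by rw [hQr]; linarith
            nlinarith
    exact le_of_mul_le_mul_right (h1.trans h2) (by positivity)
  have hfin : (S₂.card : ℝ) ≤ S₁.card + S₃.card := by
    have h1 := card_filter_add_card_filter_not (s := S₂) (fun h => (fun i => (h i : ZMod Q)) ∈ S₁)
    have h2 : S₂.card ≤ S₁.card + S₃.card := by
      rw [← h1]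
      exact Nat.add_le_add_right hS₂1 _
    exact_mod_cast h2
  rw [← hBc]
  linarith

end Pool.Agent.K7.H62
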