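import Mathlib
import Pool.Agent.K7.H62.NC

/-! Nearly complete sets of multiples of a fixed number, at every scale. -/

set_option autoImplicit false

namespace Pool.Agent.K7.H62

open Finset Filter Topology
open Pool.Agent.Y827.HN (cntP)

/-- the primes `N ≡ r` modulo `q` such that all `N + q v_i` are prime -/
def PN (q : ℕ) (r : ℤ) {k : ℕ} (v : Fin k → ℤ) : Set ℕ :=
  {N : ℕ | N.Prime ∧ (N : ℤ) ≡ r [ZMOD q] ∧ ∀ i, ∃ p : ℕ, p.Prime ∧ (p : ℤ) = N + q * v i}

/-- many such primes up to `x` -/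
def GoodAt (C x q : ℕ) (r : ℤ) {k : ℕ} (v : Fin k → ℤ) : Prop :=
  Function.Injective v ∧ (∀ i, v i ≠ 0) ∧ (x : ℝ) / (Real.log x) ^ C ≤ (({N : ℕ | N ∈ PN q r v ∧ N ≤ x}).ncard : ℝ)

open Classical in
theorem choice_of {k m q M n : ℕ} {ε : ℝ} (hε : 0 < ε) (hm : 1 ≤ m) (hn : 1 ≤ n) (hqM : 0 < q * M)
    {W : Fin m → Finset ℕ} {G : Finset (Fin (k + 1) → ℕ)}
    (hcov : IsCov k m (ε / 2) ((Icc 1 n).image (fun x => q * M * x)) W G) (P : (Fin (k + 1) → ℤ) → Prop)
    (hP : ∀ x : Fin (k + 1) → ℕ, (∀ i, 1 ≤ x i ∧ x i ≤ n) → Function.Injective x →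
      (fun i => q * M * x i) ∈ G → P (fun i => (x i : ℤ))) :
    ∃ A : Finset ℤ, A ⊆ Icc 1 (n : ℤ) ∧ (5 / 18 - ε) * n ≤ (A.card : ℝ) ∧
      (((Fintype.piFinset (fun _ : Fin (k + 1) => A)).filter (fun a => ¬ P a)).card : ℝ) ≤ ε * (n : ℝ) ^ (k + 1) := by
  obtain ⟨hG1, hW1, hW2, hW3⟩ := hcov
  set φ : ℕ → ℕ := fun x => q * M * x with hφ
  have hφi : Function.Injective φ := fun x y hxy => Nat.eq_of_mul_eq_mul_left hqM hxy
  set V : Finset ℕ := (Icc 1 n).image φ with hV
  have hVc : V.card = n := by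
    rw [hV, card_image_of_injective _ hφi, Nat.card_Icc]
    omega
  rw [hVc] at hW2 hW3
  -- the choice of `j`
  have hn0 : (0 : ℝ) < n := by exact_mod_cast (by omega : 0 < n)
  have hm0 : (0 : ℝ) < m := by exact_mod_cast hm
  obtain ⟨j, hj⟩ : ∃ j : Fin m, (5 / 18 - ε) * n ≤ ((W j).card : ℝ) := by
    by_contra hcon
    push Not at hcon
    haveI : Nonempty (Fin m) := ⟨⟨0, hm⟩⟩
    have h1 : ∑ j : Fin m, ((W j).card : ℝ) < ∑ _j : Fin m, (5 / 18 - ε) * n :=
      sum_lt_sum_of_nonempty univ_nonempty fun j _ => hcon j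
    rw [sum_const, card_univ, Fintype.card_fin, nsmul_eq_mul] at h1
    have h2 : ∑ j : Fin m, ((W j).card : ℝ) = ∑ v ∈ V, ((univ.filter (fun j => v ∈ W j)).card : ℝ) := by
      have h3 : ∀ j, ((W j).card : ℝ) = ∑ v ∈ V, (if v ∈ W j then (1 : ℝ) else 0) := by
        intro j
        rw [sum_boole]
        congr 1
        rw [filter_mem_eq_inter, inter_eq_right.2 (hW1 j)]
      rw [sum_congr rfl fun j _ => h3 j, sum_comm]
      refine sum_congr rfl fun v _ => ?_
      rw [sum_boole]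
    have h4 : ∑ v ∈ V, ((5 / 18 - ε / 2) * m - (if ¬ |((univ.filter (fun j => v ∈ W j)).card : ℝ) / m - 5 / 18| ≤
        ε / 2 then (m : ℝ) else 0)) ≤ ∑ v ∈ V, ((univ.filter (fun j => v ∈ W j)).card : ℝ) := by
      refine sum_le_sum fun v _ => ?_
      by_cases h5 : |((univ.filter (fun j => v ∈ W j)).card : ℝ) / m - 5 / 18| ≤ ε / 2
      swap
      · rw [if_pos h5]
        have h6 : (0 : ℝ) ≤ ((univ.filter (fun j => v ∈ W j)).card : ℝ) := Nat.cast_nonneg _
        nlinarith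
      · rw [if_neg (not_not.2 h5)]
        have h6 := (abs_le.1 h5).1
        rw [sub_zero]
        have h7 : 5 / 18 - ε / 2 ≤ ((univ.filter (fun j => v ∈ W j)).card : ℝ) / m := by linarith
        rwa [le_div_iff₀ hm0] at h7
    rw [sum_sub_distrib, sum_const, hVc, nsmul_eq_mul, ← sum_filter, sum_const, nsmul_eq_mul] at h4
    have h8 := mul_le_mul_of_nonneg_right hW3 hm0.le
    rw [h2] at h1
    nlinarith
  -- the set
  refine ⟨((Icc 1 n).filter (fun x => φ x ∈ W j)).image (fun x : ℕ => (x : ℤ)), ?_, ?_, ?_⟩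
  · intro y hy
    obtain ⟨x, hx, rfl⟩ := mem_image.1 hy
    have := mem_Icc.1 (mem_filter.1 hx).1
    rw [mem_Icc]
    omega
  · rw [card_image_of_injective _ Nat.cast_injective]
    refine hj.trans ?_
    rw [Nat.cast_le]
    have h1 : W j ⊆ ((Icc 1 n).filter (fun x => φ x ∈ W j)).image φ := by
      intro v hv
      obtain ⟨x, hx, rfl⟩ := mem_image.1 (hW1 j hv)
      exact mem_image_of_mem _ (mem_filter.2 ⟨hx, hv⟩)
    exact (card_le_card h1).trans card_image_le
  · refine le_trans ?_ ((hW2 j).trans (mul_le_mul_of_nonneg_right (by linarith) (by positivity)))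
    rw [Nat.cast_le]
    refine card_le_card_of_injOn (fun a : Fin (k + 1) → ℤ => fun i => φ (a i).toNat) ?_ ?_
    · intro a ha
      rw [mem_coe, mem_filter, Fintype.mem_piFinset] at ha
      obtain ⟨ha1, ha2⟩ := ha
      have ha3 : ∀ i, ∃ x : ℕ, (1 ≤ x ∧ x ≤ n) ∧ φ x ∈ W j ∧ (x : ℤ) = a i := by
        intro i
        obtain ⟨x, hx, hxa⟩ := mem_image.1 (ha1 i)
        exact ⟨x, mem_Icc.1 (mem_filter.1 hx).1, (mem_filter.1 hx).2, hxa⟩
      choose x hx1 hx2 hx3 using ha3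
      have hax : ∀ i, (a i).toNat = x i := fun i => by rw [← hx3 i, Int.toNat_natCast]
      rw [mem_coe, mem_filter, Fintype.mem_piFinset]
      refine ⟨fun i => by
        show φ (a i).toNat ∈ W j
        rw [hax i]; exact hx2 i, fun hG => ha2 ?_⟩
      have hG' : (fun i => q * M * x i) ∈ G := by
        have : (fun i => φ (a i).toNat) = (fun i => q * M * x i) := by
          funext i
          show φ (a i).toNat = q * M * x i
          rw [hax i]
        rw [← this]; exact hG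
      have hxinj : Function.Injective x := by
        intro i i' hii
        apply (hG1 _ hG').2
        show q * M * x i = q * M * x i'
        rw [hii]
      have hfin := hP x hx1 hxinj hG'
      have : a = (fun i => (x i : ℤ)) := by
        funext i
        exact (hx3 i).symm
      rw [this]
      exact hfin
    · intro a ha a' ha' haa
      rw [mem_coe, mem_filter, Fintype.mem_piFinset] at ha ha'
      funext i
      have h1 : φ (a i).toNat = φ (a' i).toNat := congrFun haa i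
      have h2 := hφi h1
      obtain ⟨x, hx, hxa⟩ := mem_image.1 (ha.1 i)
      obtain ⟨x', hx', hxa'⟩ := mem_image.1 (ha'.1 i)
      rw [← hxa, ← hxa', Int.toNat_natCast, Int.toNat_natCast] at h2
      rw [← hxa, ← hxa', h2]

open Classical in
/-- **nearly complete sets** at every scale -/
theorem nc_at (k : ℕ) (ε : ℝ) (hε : 0 < ε) : ∃ M n₀ : ℕ, 1 ≤ M ∧ ∀ (q : ℕ) (r : ℤ), 1 ≤ q → IsCoprime r (q : ℤ) →
    ∀ n : ℕ, n₀ ≤ n →
    (∃ A : Finset ℤ, A ⊆ Icc 1 (n : ℤ) ∧ (5 / 18 - ε) * n ≤ (A.card : ℝ) ∧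
      (((Fintype.piFinset (fun _ : Fin (k + 1) => A)).filter (fun a =>
        ¬ GoodV q r (fun i : Fin k => (M : ℤ) * (a i.succ - a 0)))).card : ℝ) ≤ ε * (n : ℝ) ^ (k + 1)) ∧
    ∃ C : ℕ, ∀ᶠ x : ℕ in atTop, ∃ A : Finset ℤ, A ⊆ Icc 1 (n : ℤ) ∧ (5 / 18 - ε) * n ≤ (A.card : ℝ) ∧
      (((Fintype.piFinset (fun _ : Fin (k + 1) => A)).filter (fun a =>
        ¬ GoodAt C x q r (fun i : Fin k => (M : ℤ) * (a i.succ - a 0)))).card : ℝ) ≤ ε * (n : ℝ) ^ (k + 1) := by
  obtain ⟨z, n₀, m, hm, h⟩ := finPC k (ε / 2) (by linarith)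
  set M : ℕ := ∏ p ∈ (range (z + 1)).filter Nat.Prime, p with hM
  have hM0 : 0 < M := prod_pos fun p hp => (mem_filter.1 hp).2.pos
  have hMd : ∀ p, p ≤ z → p.Prime → p ∣ M := fun p hp hpp =>
    dvd_prod_of_mem _ (mem_filter.2 ⟨mem_range.2 (by omega), hpp⟩)
  refine ⟨M, n₀ + 1, hM0, ?_⟩
  intro q r hq hqr n hn
  -- the natural number in the class `r`
  obtain ⟨b, hb⟩ : ∃ b : ℕ, (b : ℤ) ≡ r [ZMOD q] := by
    refine ⟨(r % q).toNat, ?_⟩
    rw [Int.toNat_of_nonneg (Int.emod_nonneg _ (by omega))]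
    exact Int.mod_modEq _ _
  have hbq : Nat.Coprime b q := by
    rw [← Nat.isCoprime_iff_coprime]
    obtain ⟨u, v, huv⟩ := hqr
    obtain ⟨t, ht⟩ := hb.symm.dvd
    refine ⟨u, v - u * t, ?_⟩
    have : (b : ℤ) = r + q * t := by linarith
    rw [this]
    linear_combination huv
  set φ : ℕ → ℕ := fun x => q * M * x with hφ
  have hqM : 0 < q * M := Nat.mul_pos (by omega) hM0
  have hφi : Function.Injective φ := fun x y hxy => Nat.eq_of_mul_eq_mul_left hqM hxy
  set V : Finset ℕ := (Icc 1 n).image φ with hV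
  have hVc : V.card = n := by
    rw [hV, card_image_of_injective _ hφi, Nat.card_Icc]
    omega
  obtain ⟨⟨W, G, hcov, hG2⟩, hat⟩ := h q b V (by omega) (by
      intro v hv
      obtain ⟨x, _, rfl⟩ := mem_image.1 hv
      show Nat.Coprime (b + q * M * x) q
      have e : b + q * M * x = b + q * (M * x) := by ring
      rw [e, Nat.coprime_add_mul_left_left]
      exact hbq) (by
      intro p hp hpp hpq
      refine ⟨1, fun v hv hc => ?_⟩
      obtain ⟨x, _, rfl⟩ := mem_image.1 hv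
      have h1 : p ∣ q * M * x := Dvd.dvd.mul_right (Dvd.dvd.mul_left (hMd p hp hpp) q) x
      have h2 : φ x ≡ 0 [MOD p] := (Nat.modEq_zero_iff_dvd).2 h1
      have h3 := (Nat.modEq_zero_iff_dvd).1 (hc.symm.trans h2)
      exact hpp.one_lt.ne' (Nat.eq_one_of_dvd_one h3)) (by rw [hVc]; omega)
  -- common part
  have hvec : ∀ x : Fin (k + 1) → ℕ, Function.Injective x →
      Function.Injective (fun i : Fin k => (M : ℤ) * ((x i.succ : ℤ) - (x 0 : ℤ))) ∧
      ∀ i : Fin k, (M : ℤ) * ((x i.succ : ℤ) - (x 0 : ℤ)) ≠ 0 := by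
    intro x hx
    have hMz : (M : ℤ) ≠ 0 := by exact_mod_cast hM0.ne'
    refine ⟨fun i i' hii => ?_, fun i h0 => ?_⟩
    · have h2 := mul_left_cancel₀ hMz hii
      have h3 : (x i.succ : ℤ) = x i'.succ := by linarith
      exact Fin.succ_injective _ (hx (by exact_mod_cast h3))
    · rcases mul_eq_zero.1 h0 with h | h
      · exact hMz h
      · have h4 := hx (a₁ := i.succ) (a₂ := 0) (by
          have : (x i.succ : ℤ) = x 0 := by linarith
          exact_mod_cast this)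
        exact absurd h4 (Fin.succ_ne_zero i)
  have hmem : ∀ (x : Fin (k + 1) → ℕ) (y : ℕ), y ≡ b [MOD q] → (∀ i, (y + q * M * x i).Prime) →
      y + q * M * x 0 ∈ PN q r (fun i : Fin k => (M : ℤ) * ((x i.succ : ℤ) - (x 0 : ℤ))) := by
    intro x y hy1 hy2
    refine ⟨hy2 0, ?_, fun i => ⟨y + q * M * x i.succ, hy2 i.succ, ?_⟩⟩
    · have h1 : (y : ℤ) ≡ (b : ℤ) [ZMOD q] := (Int.natCast_modEq_iff).2 hy1
      have h2 : ((y + q * M * x 0 : ℕ) : ℤ) ≡ (y : ℤ) [ZMOD q] := by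
        push_cast
        exact Int.modEq_iff_dvd.2 ⟨-(M * x 0), by ring⟩
      exact (h2.trans h1).trans hb
    · push_cast
      ring
  refine ⟨?_, ?_⟩
  · obtain ⟨C, hC⟩ := hG2 1 0
    refine choice_of hε hm (by omega) hqM hcov _ ?_
    intro x hx1 hx2 hxG
    refine ⟨(hvec x hx2).1, (hvec x hx2).2, ?_⟩
    have h1 : ∃ᶠ N : ℕ in atTop, (N : ℝ) / (Real.log N) ^ C ≤
        (((Icc 1 N).filter (fun y : ℕ => y ≡ b [MOD q] ∧ ∀ i, (y + q * M * x i).Prime)).card : ℝ) := by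
      refine hC.mono fun N hN => ?_
      obtain ⟨d, -, -, hd⟩ := hN _ hxG univ
      refine hd.trans ?_
      rw [Nat.cast_le]
      unfold cntP
      apply card_le_card
      intro y hy
      rw [mem_filter] at hy ⊢
      have h2 := hy.2 0 (by norm_num)
      simp only [zero_mul, add_zero, mem_univ, iff_true] at h2
      exact ⟨hy.1, h2.1, h2.2.1⟩
    have hinf := infinite_of_count _ C h1
    refine Set.Infinite.mono ?_ (hinf.image (f := fun y : ℕ => y + q * M * x 0) (by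
      intro y _ y' _ hyy
      exact Nat.add_right_cancel hyy))
    rintro _ ⟨y, ⟨hy1, hy2⟩, rfl⟩
    exact hmem x y hy1 hy2
  · obtain ⟨C, hC⟩ := hat 1 0
    refine ⟨C + 1, ?_⟩
    set K : ℕ := q * M * n with hK
    have hC' : ∀ᶠ x : ℕ in atTop, ∃ (W : Fin m → Finset ℕ) (G : Finset (Fin (k + 1) → ℕ)),
        IsCov k m (ε / 2) V W G ∧
        ∀ a ∈ G, ∀ J : Finset (Fin (k + 1)), ∃ d : ℕ, 1 ≤ d ∧
          (d : ℝ) ≤ (Real.log ((x - K : ℕ) : ℝ)) ^ C ∧
          (((x - K : ℕ) : ℕ) : ℝ) / (Real.log ((x - K : ℕ) : ℝ)) ^ C ≤ (cntP V a J q b 0 1 d (x - K) : ℝ) :=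
      (tendsto_sub_atTop_nat K).eventually hC
    have hlog : ∀ᶠ x : ℕ in atTop, (2 : ℝ) ≤ Real.log x :=
      (Real.tendsto_log_atTop.comp tendsto_natCast_atTop_atTop).eventually_ge_atTop 2
    filter_upwards [hC', hlog, eventually_ge_atTop (2 * K + 4)] with x hx hxl hxK
    obtain ⟨W', G', hcov', hG'⟩ := hx
    refine choice_of hε hm (by omega) hqM hcov' _ ?_
    intro y hy1 hy2 hyG
    refine ⟨(hvec y hy2).1, (hvec y hy2).2, ?_⟩
    obtain ⟨d, -, -, hd⟩ := hG' _ hyG univ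
    have hx0 : (0 : ℝ) < x := by exact_mod_cast (by omega : 0 < x)
    have hxr : (((x - K : ℕ)) : ℝ) = x - K := Nat.cast_sub (by omega)
    have hxK' : (x : ℝ) / 2 ≤ ((x - K : ℕ) : ℝ) := by
      rw [hxr]
      have : (2 * K + 4 : ℝ) ≤ x := by exact_mod_cast hxK
      linarith
    have hx1 : (1 : ℝ) < ((x - K : ℕ) : ℝ) := by exact_mod_cast (by omega : 1 < x - K)
    have hl1 : 0 < Real.log ((x - K : ℕ) : ℝ) := Real.log_pos hx1
    have hl2 : Real.log ((x - K : ℕ) : ℝ) ≤ Real.log x := by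
      apply Real.log_le_log (by linarith)
      exact_mod_cast Nat.sub_le x K
    have h1 : (x : ℝ) / (Real.log x) ^ (C + 1) ≤ ((x - K : ℕ) : ℝ) / (Real.log ((x - K : ℕ) : ℝ)) ^ C := by
      have hlx : 0 < Real.log x := by linarith
      have h2 : (x : ℝ) / (Real.log x) ^ (C + 1) ≤ (x / 2) / (Real.log x) ^ C := by
        rw [pow_succ, div_le_div_iff₀ (by positivity) (by positivity)]
        have : 0 ≤ (x : ℝ) * (Real.log x) ^ C := by positivity
        nlinarith
      have h3 : ((x : ℝ) / 2) / (Real.log x) ^ C ≤ ((x - K : ℕ) : ℝ) / (Real.log ((x - K : ℕ) : ℝ)) ^ C := by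
        apply div_le_div₀ (by linarith) hxK' (by positivity)
        exact pow_le_pow_left₀ hl1.le hl2 C
      exact h2.trans h3
    refine (h1.trans hd).trans ?_
    rw [Nat.cast_le]
    unfold cntP
    rw [← Set.ncard_coe_finset]
    refine Set.ncard_le_ncard_of_injOn (fun w : ℕ => w + q * M * y 0) ?_ ?_ ?_
    · intro w hw
      rw [mem_coe, mem_filter, mem_Icc] at hw
      have h2 := hw.2 0 (by norm_num)
      simp only [zero_mul, add_zero, mem_univ, iff_true] at h2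
      refine ⟨hmem y w h2.1 h2.2.1, ?_⟩
      have h3 : q * M * y 0 ≤ K := Nat.mul_le_mul_left _ (hy1 0).2
      show w + q * M * y 0 ≤ x
      omega
    · intro w _ w' _ hww
      exact Nat.add_right_cancel hww
    · exact (Set.finite_Iic x).subset fun w hw => hw.2

end Pool.Agent.K7.H62
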