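import Mathlib
import Pool.Agent.K7.H62.Alm3
import Pool.Agent.K7.H62.NC2

/-! Almost all vectors of a Bohr set are good, also at every scale. -/

set_option autoImplicit false

namespace Pool.Agent.K7.H62

open Finset Filter

open Classical in
theorem almost_all (k : ℕ) (ε : ℝ) (hε : 0 < ε) : ∃ (d M H₀ : ℕ) (ρ c : ℝ), 1 ≤ M ∧ 0 < ρ ∧ 0 < c ∧
    ∀ (q : ℕ) (r : ℤ), 1 ≤ q → IsCoprime r (q : ℤ) → ∀ H : ℕ, H₀ ≤ H →
      (∃ θ : Fin d → ℝ, c * H ≤ ((bohr H θ ρ).card : ℝ) ∧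
        (((Fintype.piFinset (fun _ : Fin k => bohr H θ ρ)).filter (fun h =>
          ¬ GoodV q r (fun i => (M : ℤ) * h i))).card : ℝ) ≤ ε * ((bohr H θ ρ).card : ℝ) ^ k) ∧
      ∃ C : ℕ, ∀ᶠ x : ℕ in atTop, ∃ θ : Fin d → ℝ, c * H ≤ ((bohr H θ ρ).card : ℝ) ∧
        (((Fintype.piFinset (fun _ : Fin k => bohr H θ ρ)).filter (fun h =>
          ¬ GoodAt C x q r (fun i => (M : ℤ) * h i))).card : ℝ) ≤ ε * ((bohr H θ ρ).card : ℝ) ^ k := by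
  obtain ⟨d, ρ, c, ε', hρ, hc, hε', hcore⟩ := almost_core k ε hε
  obtain ⟨M, n₀, hM, hnc⟩ := nc_at k ε' hε'
  refine ⟨d, M, n₀ + 4, ρ, c, hM, hρ, hc, ?_⟩
  intro q r hq hqr H hH
  obtain ⟨⟨A, hA1, hA2, hA3⟩, C, hC⟩ := hnc q r hq hqr H (by omega)
  refine ⟨?_, C, ?_⟩
  · obtain ⟨θ, h1, h2⟩ := hcore H A (by omega) hA1 hA2
    exact ⟨θ, h1, h2 (fun h => GoodV q r (fun i => (M : ℤ) * h i)) hA3⟩
  · filter_upwards [hC] with x hx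
    obtain ⟨A, hA1, hA2, hA3⟩ := hx
    obtain ⟨θ, h1, h2⟩ := hcore H A (by omega) hA1 hA2
    exact ⟨θ, h1, h2 (fun h => GoodAt C x q r (fun i => (M : ℤ) * h i)) hA3⟩

end Pool.Agent.K7.H62
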