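import Mathlib
import Pool.Agent.W654.Kron

/-! Rational independence, Kronecker's theorem, and approximation by the multiples of a torsion point. -/

set_option autoImplicit false

namespace Pool.Agent.K7.H62

open Finset

/-- reduction to rationally independent frequencies -/
theorem reduce_indep : ∀ (d : ℕ) (θ : Fin d → ℝ), ∃ (D e : ℕ) (θ' : Fin e → ℝ) (C : Fin d → Fin e → ℤ)
    (b : Fin d → ℤ), 1 ≤ D ∧ (∀ (k : Fin e → ℤ) (m : ℤ), ∑ l, (k l : ℝ) * θ' l = m → k = 0) ∧
      ∀ i, (D : ℝ) * θ i = ∑ l, (C i l : ℝ) * θ' l + b i := by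
  intro d
  induction d with
  | zero =>
    intro θ
    refine ⟨1, 0, fun _ => 0, fun _ _ => 0, fun _ => 0, le_rfl, fun k m _ => ?_, fun i => i.elim0⟩
    funext i; exact i.elim0
  | succ d ih =>
    intro θ
    obtain ⟨D, e, θ', C, b, hD, hind, hrep⟩ := ih (fun i => θ i.succ)
    by_cases hdep : ∃ (c : ℕ) (k : Fin e → ℤ) (m : ℤ), 1 ≤ c ∧ (c : ℝ) * θ 0 = ∑ l, (k l : ℝ) * θ' l + m
    · obtain ⟨c, k, m, hc, hk⟩ := hdep
      refine ⟨D * c, e, θ', Fin.cons (fun l => (D : ℤ) * k l) (fun i l => (c : ℤ) * C i l),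
        Fin.cons ((D : ℤ) * m) (fun i => (c : ℤ) * b i), Nat.mul_pos hD hc, hind, fun i => ?_⟩
      refine Fin.cases ?_ (fun i => ?_) i
      · simp only [Fin.cons_zero]
        push_cast
        rw [mul_assoc, hk, mul_add, mul_sum]
        congr 1
        exact sum_congr rfl fun l _ => by ring
      · simp only [Fin.cons_succ]
        push_cast
        have h1 := hrep i
        have h2 : (D : ℝ) * c * θ i.succ = c * ((D : ℝ) * θ i.succ) := by ring
        rw [h2, h1, mul_add, mul_sum]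
        congr 1
        exact sum_congr rfl fun l _ => by ring
    · refine ⟨D, e + 1, Fin.cons (θ 0) θ', Fin.cons (Fin.cons (D : ℤ) (fun _ => 0))
        (fun i => Fin.cons 0 (C i)), Fin.cons 0 b, hD, ?_, fun i => ?_⟩
      · intro k m hkm
        rw [Fin.sum_univ_succ] at hkm
        simp only [Fin.cons_zero, Fin.cons_succ] at hkm
        have hk0 : k 0 = 0 := by
          by_contra hne
          apply hdep
          rcases lt_or_gt_of_ne hne with hlt | hgt
          · refine ⟨(-(k 0)).toNat, fun l => k l.succ, -m, by omega, ?_⟩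
            have h1 : (((-(k 0)).toNat : ℕ) : ℝ) = -(k 0 : ℝ) := by
              have : (((-(k 0)).toNat : ℕ) : ℤ) = -(k 0) := Int.toNat_of_nonneg (by omega)
              exact_mod_cast this
            rw [h1]
            push_cast
            linarith
          · refine ⟨(k 0).toNat, fun l => -(k l.succ), m, by omega, ?_⟩
            have h1 : (((k 0).toNat : ℕ) : ℝ) = (k 0 : ℝ) := by
              have : (((k 0).toNat : ℕ) : ℤ) = k 0 := Int.toNat_of_nonneg (by omega)
              exact_mod_cast this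
            rw [h1]
            push_cast
            simp only [neg_mul, sum_neg_distrib]
            linarith
        rw [hk0, Int.cast_zero, zero_mul, zero_add] at hkm
        have h1 := hind (fun l => k l.succ) m hkm
        funext i
        refine Fin.cases hk0 (fun i => ?_) i
        exact congrFun h1 i
      · refine Fin.cases ?_ (fun i => ?_) i
        · rw [Fin.sum_univ_succ]
          simp
        · rw [Fin.sum_univ_succ]
          simp only [Fin.cons_succ, Fin.cons_zero, Int.cast_zero, zero_mul, zero_add]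
          exact hrep i

/-- **Kronecker's theorem** for rationally independent numbers -/
theorem kro {e : ℕ} (θ : Fin e → ℝ) (hind : ∀ (k : Fin e → ℤ) (m : ℤ), ∑ l, (k l : ℝ) * θ l = m → k = 0)
    (x : Fin e → ℝ) {ε : ℝ} (hε : 0 < ε) :
    ∃ n : ℕ, ∀ l, |(n : ℝ) * θ l - x l - round ((n : ℝ) * θ l - x l)| ≤ ε := by
  obtain ⟨n, hn⟩ := Pool.Agent.W654.Kron.kronecker (d := Fin e) (fun l => (θ l : UnitAddCircle))
    (fun l => (x l : UnitAddCircle)) (by
      intro k hk
      have h1 : ∑ i, k i • ((θ i : ℝ) : UnitAddCircle) = ((∑ i, (k i : ℝ) * θ i : ℝ) : UnitAddCircle) := by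
        have h3 : ((∑ i, (k i : ℝ) * θ i : ℝ) : UnitAddCircle) =
            ∑ i, (((k i : ℝ) * θ i : ℝ) : UnitAddCircle) :=
          map_sum (QuotientAddGroup.mk' (AddSubgroup.zmultiples (1 : ℝ))) _ _
        rw [h3]
        refine sum_congr rfl fun i _ => ?_
        rw [← zsmul_eq_mul]
        rfl
      rw [h1, AddCircle.coe_eq_zero_iff] at hk
      obtain ⟨m, hm⟩ := hk
      have h2 := hind k m (by rw [← hm]; simp)
      rw [h2]
      simp) ε hε
  refine ⟨n, fun l => ?_⟩
  have h1 := (dist_le_pi_dist (n • (fun l => (θ l : UnitAddCircle))) (fun l => (x l : UnitAddCircle)) l).trans hn.le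
  rw [dist_eq_norm] at h1
  have h2 : (n • (fun l => (θ l : UnitAddCircle))) l - (x l : UnitAddCircle) =
      (((n : ℝ) * θ l - x l : ℝ) : UnitAddCircle) := by
    rw [AddCircle.coe_sub, ← nsmul_eq_mul]
    rfl
  rw [h2, UnitAddCircle.norm_eq] at h1
  exact h1

/-- digits -/
theorem digits (g : ℕ) (hg : 1 ≤ g) : ∀ (e : ℕ) (y : Fin e → ℝ), ∃ t : ℝ, 0 ≤ t ∧ t < 1 ∧
    ∀ l : Fin e, ∃ m : ℤ, |(g : ℝ) ^ (l : ℕ) * t - y l - m| ≤ 1 / g := by
  have hg0 : (0 : ℝ) < g := by exact_mod_cast hg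
  intro e
  induction e with
  | zero => exact fun y => ⟨0, le_rfl, zero_lt_one, fun l => l.elim0⟩
  | succ e ih =>
    intro y
    obtain ⟨t', ht0, ht1, ht⟩ := ih (fun l => y l.succ)
    set T : ℝ := (⌊(g : ℝ) * y 0⌋ + t') / g with hT
    refine ⟨Int.fract T, Int.fract_nonneg T, Int.fract_lt_one T, fun l => ?_⟩
    refine Fin.cases ?_ (fun l => ?_) l
    · refine ⟨-⌊T⌋, ?_⟩
      have h1 : (g : ℝ) ^ ((0 : Fin (e + 1)) : ℕ) * Int.fract T - y 0 - ((-⌊T⌋ : ℤ) : ℝ) = T - y 0 := by
        have := Int.self_sub_floor T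
        push_cast
        rw [Fin.val_zero, pow_zero, one_mul, ← this]
        ring
      rw [h1]
      have h2 : T - y 0 = (⌊(g : ℝ) * y 0⌋ + t' - g * y 0) / g := by rw [hT]; field_simp
      rw [h2, abs_div, abs_of_pos hg0]
      refine div_le_div_of_nonneg_right ?_ hg0.le
      have h3 := Int.floor_le ((g : ℝ) * y 0)
      have h4 := Int.lt_floor_add_one ((g : ℝ) * y 0)
      rw [abs_le]
      constructor <;> linarith
    · obtain ⟨m, hm⟩ := ht l
      refine ⟨m + (g : ℤ) ^ (l : ℕ) * ⌊(g : ℝ) * y 0⌋ - (g : ℤ) ^ ((l : ℕ) + 1) * ⌊T⌋, ?_⟩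
      have h1 : (g : ℝ) ^ ((l.succ : Fin (e + 1)) : ℕ) * Int.fract T - y l.succ -
          ((m + (g : ℤ) ^ (l : ℕ) * ⌊(g : ℝ) * y 0⌋ - (g : ℤ) ^ ((l : ℕ) + 1) * ⌊T⌋ : ℤ) : ℝ) =
          (g : ℝ) ^ (l : ℕ) * t' - y l.succ - m := by
        have h2 : (g : ℝ) * T = ⌊(g : ℝ) * y 0⌋ + t' := by rw [hT]; field_simp
        have h3 : Int.fract T = T - ⌊T⌋ := (Int.self_sub_floor T).symm
        rw [h3, Fin.val_succ, pow_succ]
        push_cast
        have h4 : (g : ℝ) ^ (l : ℕ) * g * (T - ⌊T⌋) = (g : ℝ) ^ (l : ℕ) * (g * T) - (g : ℝ) ^ (l : ℕ) * g * ⌊T⌋ := by ring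
        rw [h4, h2]
        ring
      rw [h1]
      exact hm

end Pool.Agent.K7.H62
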