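import Mathlib
import Pool.Agent.K7.H62.Kro

/-! Approximate homomorphisms from a cyclic group of prime order. -/

set_option autoImplicit false

namespace Pool.Agent.K7.H62

open Finset

/-- `z θ_l` is close to the multiple `c` of the torsion point `(g ^ l / p)_l` -/
def Clo {e : ℕ} (θ : Fin e → ℝ) (g p : ℕ) (δ : ℝ) (z : ℤ) (c : ZMod p) : Prop :=
  ∀ l : Fin e, ∃ m : ℤ, |(z : ℝ) * θ l - (c.val : ℝ) * ((g : ℝ) ^ (l : ℕ) / p) - m| ≤ δ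

theorem Clo_sum {e : ℕ} {θ : Fin e → ℝ} {g p : ℕ} [NeZero p] {δ : ℝ} {s : ℕ} {z₀ z : ℤ} {e₀ e₁ : ZMod p}
    {x : Fin s → ℤ} {f : Fin s → ZMod p} (h0 : Clo θ g p δ z₀ e₀) (h1 : Clo θ g p δ z e₁)
    (hx : ∀ j, Clo θ g p δ (x j) (f j)) (hf : ∑ j, f j = e₀ + e₁) (l : Fin e) :
    ∃ m : ℤ, |((z₀ + z - ∑ j, x j : ℤ) : ℝ) * θ l - m| ≤ (s + 2) * δ := by
  have hp : (p : ℝ) ≠ 0 := by exact_mod_cast (NeZero.ne p)
  obtain ⟨m0, hm0⟩ := h0 l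
  obtain ⟨m1, hm1⟩ := h1 l
  choose mx hmx using fun j => hx j l
  -- the relation between the residues
  have hN : ∃ N : ℤ, ((e₀.val : ℤ) + e₁.val - ∑ j, ((f j).val : ℤ)) = p * N := by
    have : ((((e₀.val : ℤ) + e₁.val - ∑ j, ((f j).val : ℤ)) : ℤ) : ZMod p) = 0 := by
      push_cast
      simp only [ZMod.natCast_zmod_val]
      rw [hf]
      ring
    rw [ZMod.intCast_zmod_eq_zero_iff_dvd] at this
    exact this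
  obtain ⟨N, hN⟩ := hN
  have hN' : (e₀.val : ℝ) + e₁.val - ∑ j, ((f j).val : ℝ) = p * N := by exact_mod_cast hN
  refine ⟨m0 + m1 - ∑ j, mx j + N * (g : ℤ) ^ (l : ℕ), ?_⟩
  have key : ((z₀ + z - ∑ j, x j : ℤ) : ℝ) * θ l - ((m0 + m1 - ∑ j, mx j + N * (g : ℤ) ^ (l : ℕ) : ℤ) : ℝ) =
      ((z₀ : ℝ) * θ l - (e₀.val : ℝ) * ((g : ℝ) ^ (l : ℕ) / p) - m0) +
      ((z : ℝ) * θ l - (e₁.val : ℝ) * ((g : ℝ) ^ (l : ℕ) / p) - m1) -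
      ∑ j, ((x j : ℝ) * θ l - ((f j).val : ℝ) * ((g : ℝ) ^ (l : ℕ) / p) - mx j) := by
    rw [sum_sub_distrib, sum_sub_distrib, ← sum_mul, ← sum_mul]
    push_cast
    have h2 : (N : ℝ) * (g : ℝ) ^ (l : ℕ) = ((e₀.val : ℝ) + e₁.val - ∑ j, ((f j).val : ℝ)) * ((g : ℝ) ^ (l : ℕ) / p) := by
      rw [hN']; field_simp
    rw [h2]
    ring
  rw [key]
  refine (abs_sub _ _).trans ?_
  have h3 := abs_add_le ((z₀ : ℝ) * θ l - (e₀.val : ℝ) * ((g : ℝ) ^ (l : ℕ) / p) - m0)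
      ((z : ℝ) * θ l - (e₁.val : ℝ) * ((g : ℝ) ^ (l : ℕ) / p) - m1)
  have h4 : |∑ j, ((x j : ℝ) * θ l - ((f j).val : ℝ) * ((g : ℝ) ^ (l : ℕ) / p) - mx j)| ≤ s * δ := by
    refine (abs_sum_le_sum_abs _ _).trans ((sum_le_card_nsmul _ _ δ fun j _ => hmx j).trans ?_)
    rw [card_univ, Fintype.card_fin, nsmul_eq_mul]
  linarith

theorem Clo_left {e : ℕ} {θ : Fin e → ℝ} (hind : ∀ (k : Fin e → ℤ) (m : ℤ), ∑ l, (k l : ℝ) * θ l = m → k = 0)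
    {g p : ℕ} {δ : ℝ} (hδ : 0 < δ) (c : ZMod p) : ∃ z : ℤ, Clo θ g p δ z c := by
  obtain ⟨n, hn⟩ := kro θ hind (fun l => (c.val : ℝ) * ((g : ℝ) ^ (l : ℕ) / p)) hδ
  refine ⟨n, fun l => ⟨round ((n : ℝ) * θ l - (c.val : ℝ) * ((g : ℝ) ^ (l : ℕ) / p)), ?_⟩⟩
  rw [Int.cast_natCast]
  exact hn l

theorem Clo_right {e : ℕ} (θ : Fin e → ℝ) {g p : ℕ} [NeZero p] (hg : 1 ≤ g) (hp : g ^ e ≤ p) {δ : ℝ}
    (hδ : 2 / (g : ℝ) ≤ δ) (z : ℤ) : ∃ c : ZMod p, Clo θ g p δ z c := by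
  have hg0 : (0 : ℝ) < g := by exact_mod_cast hg
  have hp0 : (0 : ℝ) < p := by exact_mod_cast (NeZero.pos p)
  obtain ⟨t, ht0, ht1, ht⟩ := digits g hg e (fun l => (z : ℝ) * θ l)
  have hpt : 0 ≤ (p : ℝ) * t := by positivity
  have hlt : ⌊(p : ℝ) * t⌋₊ < p := by
    rw [Nat.floor_lt hpt]
    nlinarith
  refine ⟨((⌊(p : ℝ) * t⌋₊ : ℕ) : ZMod p), fun l => ?_⟩
  rw [ZMod.val_natCast_of_lt hlt]
  obtain ⟨m, hm⟩ := ht l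
  refine ⟨-m, ?_⟩
  have h1 := Nat.floor_le hpt
  have h2 := Nat.lt_floor_add_one ((p : ℝ) * t)
  have h3 : |(g : ℝ) ^ (l : ℕ) * t - (⌊(p : ℝ) * t⌋₊ : ℝ) * ((g : ℝ) ^ (l : ℕ) / p)| ≤ 1 / g := by
    have h4 : (g : ℝ) ^ (l : ℕ) * t - (⌊(p : ℝ) * t⌋₊ : ℝ) * ((g : ℝ) ^ (l : ℕ) / p) =
        ((g : ℝ) ^ (l : ℕ) / p) * (p * t - ⌊(p : ℝ) * t⌋₊) := by field_simp
    rw [h4, abs_mul, abs_of_nonneg (by positivity : (0 : ℝ) ≤ (g : ℝ) ^ (l : ℕ) / p),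
      abs_of_nonneg (by linarith : (0 : ℝ) ≤ p * t - ⌊(p : ℝ) * t⌋₊)]
    have h5 : (g : ℝ) ^ (l : ℕ) / p ≤ 1 / g := by
      rw [div_le_div_iff₀ hp0 hg0, one_mul, ← pow_succ]
      have h6 : (g : ℝ) ^ ((l : ℕ) + 1) ≤ (g : ℝ) ^ e :=
        pow_le_pow_right₀ (by exact_mod_cast hg) (by have := l.2; omega)
      exact h6.trans (by exact_mod_cast hp)
    calc (g : ℝ) ^ (l : ℕ) / p * (p * t - ⌊(p : ℝ) * t⌋₊) ≤ (g : ℝ) ^ (l : ℕ) / p * 1 :=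
          mul_le_mul_of_nonneg_left (by linarith) (by positivity)
      _ ≤ 1 / g := by rw [mul_one]; exact h5
  have h4 : (z : ℝ) * θ l - (⌊(p : ℝ) * t⌋₊ : ℝ) * ((g : ℝ) ^ (l : ℕ) / p) - ((-m : ℤ) : ℝ) =
      -((g : ℝ) ^ (l : ℕ) * t - (z : ℝ) * θ l - m) +
      ((g : ℝ) ^ (l : ℕ) * t - (⌊(p : ℝ) * t⌋₊ : ℝ) * ((g : ℝ) ^ (l : ℕ) / p)) := by
    push_cast; ring
  rw [h4]
  refine (abs_add_le _ _).trans ?_
  rw [abs_neg]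
  have h5 : (2 : ℝ) / g = 1 / g + 1 / g := by ring
  linarith

/-- **approximation by a cyclic group of prime order** -/
theorem approx {d : ℕ} (s P₀ : ℕ) (θ : Fin d → ℝ) {ρ : ℝ} (hρ : 0 < ρ) :
    ∃ (D p : ℕ) (R : ℤ → ZMod p → Prop), 1 ≤ D ∧ p.Prime ∧ P₀ ≤ p ∧ (∀ e, ∃ y, R y e) ∧ (∀ z, ∃ e, R z e) ∧
      ∀ (z₀ z : ℤ) (e₀ e : ZMod p) (x : Fin s → ℤ) (f : Fin s → ZMod p), R z₀ e₀ → R z e →
        (∀ j, R (x j) (f j)) → ∑ j, f j = e₀ + e →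
        ∀ i, ∃ m : ℤ, |(((D : ℤ) * (z₀ + z - ∑ j, x j) : ℤ) : ℝ) * θ i - m| ≤ ρ := by
  obtain ⟨D, e, θ', C, b, hD, hind, hrep⟩ := reduce_indep d θ
  set K : ℝ := ∑ i, ∑ l, |(C i l : ℝ)| + 1 with hK
  have hK0 : 0 < K := by
    have : 0 ≤ ∑ i, ∑ l, |(C i l : ℝ)| := sum_nonneg fun _ _ => sum_nonneg fun _ _ => abs_nonneg _
    linarith
  set δ : ℝ := ρ / (K * (s + 2)) with hδ
  have hδ0 : 0 < δ := by positivity
  obtain ⟨g, hg⟩ := exists_nat_ge (2 / δ)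
  have hg1 : 1 ≤ g + 1 := by omega
  have hg2 : 2 / ((g + 1 : ℕ) : ℝ) ≤ δ := by
    rw [div_le_iff₀ (by positivity)]
    rw [div_le_iff₀ hδ0] at hg
    push_cast
    nlinarith
  obtain ⟨p, hp1, hp2⟩ := Nat.exists_infinite_primes (max P₀ ((g + 1) ^ e))
  haveI : NeZero p := ⟨hp2.ne_zero⟩
  refine ⟨D, p, Clo θ' (g + 1) p δ, hD, hp2, (le_max_left _ _).trans hp1, fun c => Clo_left hind hδ0 c,
    fun z => Clo_right θ' hg1 ((le_max_right _ _).trans hp1) hg2 z, ?_⟩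
  intro z₀ z e₀ e₁ x f h0 h1 hx hf i
  choose m hm using fun l => Clo_sum h0 h1 hx hf l
  set w : ℤ := z₀ + z - ∑ j, x j with hw
  refine ⟨∑ l, C i l * m l + w * b i, ?_⟩
  have h2 : (((D : ℤ) * w : ℤ) : ℝ) * θ i - ((∑ l, C i l * m l + w * b i : ℤ) : ℝ) =
      ∑ l, (C i l : ℝ) * ((w : ℝ) * θ' l - m l) := by
    have h3 := hrep i
    have h4 : (((D : ℤ) * w : ℤ) : ℝ) * θ i = w * ((D : ℝ) * θ i) := by push_cast; ring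
    rw [h4, h3, mul_add, mul_sum]
    push_cast
    simp only [mul_sub]
    rw [sum_sub_distrib]
    have h5 : ∑ l, (w : ℝ) * ((C i l : ℝ) * θ' l) = ∑ l, (C i l : ℝ) * ((w : ℝ) * θ' l) :=
      sum_congr rfl fun l _ => by ring
    rw [h5]
    ring
  rw [h2]
  refine (abs_sum_le_sum_abs _ _).trans ?_
  have h3 : ∑ l, |(C i l : ℝ) * ((w : ℝ) * θ' l - m l)| ≤ ∑ l, |(C i l : ℝ)| * ((s + 2) * δ) :=
    sum_le_sum fun l _ => by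
      rw [abs_mul]
      exact mul_le_mul_of_nonneg_left (hm l) (abs_nonneg _)
  refine h3.trans ?_
  rw [← sum_mul]
  have h4 : ∑ l, |(C i l : ℝ)| ≤ K := by
    have := single_le_sum (f := fun i => ∑ l, |(C i l : ℝ)|) (s := univ)
      (fun i _ => sum_nonneg fun l _ => abs_nonneg _) (mem_univ i)
    rw [hK]
    linarith
  calc (∑ l, |(C i l : ℝ)|) * ((s + 2) * δ) ≤ K * ((s + 2) * δ) := mul_le_mul_of_nonneg_right h4 (by positivity)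
    _ = ρ := by rw [hδ]; field_simp

end Pool.Agent.K7.H62
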