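import Pool.Agent.K7.H47.DM.Stm4

set_option autoImplicit false

namespace Pool.Agent.K7.H62.D4

open Polynomial Pool.Agent.K7.H47.DM4

theorem lead (h : StU) (h' : StBlk) : StK := by
  classical
  intro ι _ _ t j cl ht hcj ⟨σ1, hσ1⟩
  obtain ⟨σ0, hσ0, hmax⟩ := Finset.exists_max_image
    (Finset.univ.filter (fun σ : Equiv.Perm ι => Feas t j σ)) (Wt t cl) ⟨σ1, by simpa using hσ1⟩
  simp only [Finset.mem_filter, Finset.mem_univ, true_and] at hσ0 hmax
  have hb := h' ι t j cl ht hcj σ0 hσ0
  intro hdet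
  apply hb
  have hcoef := congrArg (fun P => Polynomial.coeff P (Wt t cl σ0)) hdet
  simp only [coeff_zero] at hcoef
  refine Eq.trans ?_ hcoef
  rw [Matrix.det_apply', Matrix.det_apply', finset_sum_coeff]
  apply Finset.sum_congr rfl
  intro σ _
  simp only [Matrix.of_apply]
  rw [Finset.prod_mul_distrib, Finset.prod_pow_eq_pow_sum, ← map_prod,
    show (((Equiv.Perm.sign σ : ℤˣ) : ℤ) : ℚ[X]) = C (((Equiv.Perm.sign σ : ℤˣ) : ℤ) : ℚ) from
      (map_intCast (C : ℚ →+* ℚ[X]) _).symm, coeff_C_mul, coeff_C_mul_X_pow]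
  congr 1
  by_cases hA : ∀ c, cl (σ0.symm (σ c)) = cl c
  · have hW : Wt t cl σ = Wt t cl σ0 := by
      unfold Wt
      calc ∑ c, cl c * t (σ c) = ∑ c, cl (σ0.symm (σ c)) * t (σ c) := by
            apply Finset.sum_congr rfl
            intro c _
            rw [hA c]
        _ = ∑ r, cl (σ0.symm r) * t r := Equiv.sum_comp σ (fun r => cl (σ0.symm r) * t r)
        _ = ∑ c, cl (σ0.symm (σ0 c)) * t (σ0 c) :=
            (Equiv.sum_comp σ0 (fun r => cl (σ0.symm r) * t r)).symm
        _ = _ := by simp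
    rw [if_pos (show Wt t cl σ0 = ∑ c, cl c * t (σ c) from hW.symm)]
    apply Finset.prod_congr rfl
    intro c _
    rw [if_pos (hA c)]
  · push Not at hA
    obtain ⟨c0, hc0⟩ := hA
    rw [Finset.prod_eq_zero (Finset.mem_univ c0) (if_neg hc0)]
    split_ifs with hW
    · by_cases hF : Feas t j σ
      · exfalso
        have hmax' : ∀ τ, Feas t j τ → Wt t cl τ ≤ Wt t cl σ := by
          intro τ hτ
          rw [show Wt t cl σ = Wt t cl σ0 from hW.symm]
          exact hmax τ hτ
        have := h ι t j cl ht σ0 σ hσ0 hF hmax hmax' (σ c0)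
        rw [Equiv.symm_apply_apply] at this
        exact hc0 this
      · unfold Feas at hF
        push Not at hF
        obtain ⟨c, hc⟩ := hF
        symm
        apply Finset.prod_eq_zero (Finset.mem_univ c)
        rw [Nat.choose_eq_zero_of_lt hc, Nat.cast_zero]
    · rfl

end Pool.Agent.K7.H62.D4
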