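import Pool.Agent.K7.H80.EC.Stm

/-!
# Project EC, job SET: the forcing set
-/

set_option autoImplicit false

namespace Pool.Agent.K7.H62.ECSET

open Finset Pool.Agent.K7.H80.EC

variable {d : ℕ}

/-- the coordinates of `S` at which `x` is true -/
def U (S : Finset (Fin d)) (x : Fin d → Bool) : Finset (Fin d) := S.filter (fun i => x i = true)

/-- the parity -/
def par (S : Finset (Fin d)) (x : Fin d → Bool) (j : Fin d) : Bool :=
  Nat.bodd ((U S x).filter (· < j)).card

theorem U_update {S : Finset (Fin d)} {x : Fin d → Bool} {s : Fin d} (hs : s ∉ S) (v : Bool) :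
    U S (Function.update x s v) = U S x := by
  unfold U
  refine Finset.filter_congr fun i hi => ?_
  have : i ≠ s := fun h => hs (h ▸ hi)
  rw [Function.update_of_ne this]

theorem par_update {S : Finset (Fin d)} {x : Fin d → Bool} {s : Fin d} (hs : s ∉ S) (v : Bool)
    (j : Fin d) : par S (Function.update x s v) j = par S x j := by
  unfold par
  rw [U_update hs]

theorem par_flip {S : Finset (Fin d)} {x : Fin d → Bool} {p q : Fin d} (hp : p ∈ S) (hpq : p < q)
    (hx : x p = false) : par S (Function.update x p true) q = !(par S x q) := by
  unfold par
  have h1 : U S (Function.update x p true) = insert p (U S x) := by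
    ext i
    unfold U
    rw [Finset.mem_filter, Finset.mem_insert, Finset.mem_filter]
    by_cases hi : i = p
    · subst hi
      simp [hp]
    · rw [Function.update_of_ne hi]
      simp [hi]
  have h2 : p ∉ (U S x).filter (· < q) := by
    unfold U
    rw [Finset.mem_filter, Finset.mem_filter]
    rintro ⟨⟨-, h⟩, -⟩
    rw [hx] at h
    exact absurd h (by simp)
  rw [h1, Finset.filter_insert, if_pos hpq, Finset.card_insert_of_notMem h2, Nat.bodd_succ]

/-- the edges of the forcing set -/
def P (S : Finset (Fin d)) (y : Fin d → Bool) (a b : Fin d) (e : E d) : Prop :=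
  (∀ i, i ∉ S → i ≠ a → i ≠ b → e.1.1 i = y i) ∧
  ((e.1.2 = a ∧ e.1.1 b = y b) ∨ (e.1.2 = b ∧ e.1.1 a = y a) ∨
   (e.1.2 ∈ S ∧ e.1.1 a = xor (y a) (!par S e.1.1 e.1.2) ∧
    e.1.1 b = xor (y b) (par S e.1.1 e.1.2)))

theorem P_S {S : Finset (Fin d)} {y : Fin d → Bool} {a b : Fin d} (ha : a ∉ S) (hb : b ∉ S)
    {e : E d} (h : P S y a b e) (he : e.1.2 ∈ S) :
    e.1.1 a = xor (y a) (!par S e.1.1 e.1.2) ∧ e.1.1 b = xor (y b) (par S e.1.1 e.1.2) := by
  rcases h.2 with h | h | h
  · exact absurd (h.1 ▸ he) ha
  · exact absurd (h.1 ▸ he) hb
  · exact h.2

theorem sqfree {S : Finset (Fin d)} {y : Fin d → Bool} {a b : Fin d} (ha : a ∉ S) (hb : b ∉ S)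
    (hab : a ≠ b) (S' : Finset (Fin d)) (z : Fin d → Bool) (hc : S'.card = 2)
    (hz : ∀ i ∈ S', z i = false)
    (h : ∀ e : E d, InCopy (S', z) e → P S y a b e) : False := by
  obtain ⟨p, q, hpq, rfl⟩ := Finset.card_eq_two.1 hc
  have hzp : z p = false := hz p (by simp)
  have hzq : z q = false := hz q (by simp)
  have f1 : P S y a b ⟨(z, p), hzp⟩ := h _ ⟨by simp, fun i _ => rfl⟩
  have f3 : P S y a b ⟨(z, q), hzq⟩ := h _ ⟨by simp, fun i _ => rfl⟩
  have h2 : Function.update z q true p = false := by
    rw [Function.update_of_ne hpq]
    exact hzp
  have h4 : Function.update z p true q = false := by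
    rw [Function.update_of_ne hpq.symm]
    exact hzq
  have f2 : P S y a b ⟨(Function.update z q true, p), h2⟩ := h _ ⟨by simp, fun i hi => by
    have : i ≠ q := fun h => hi (by simp [h])
    simp only
    rw [Function.update_of_ne this]⟩
  have f4 : P S y a b ⟨(Function.update z p true, q), h4⟩ := h _ ⟨by simp, fun i hi => by
    have : i ≠ p := fun h => hi (by simp [h])
    simp only
    rw [Function.update_of_ne this]⟩
  have key : ∀ p q : Fin d, p ≠ q → ∀ (hzp : z p = false) (hzq : z q = false)
      (h2 : Function.update z q true p = false),
      P S y a b ⟨(z, p), hzp⟩ → P S y a b ⟨(Function.update z q true, p), h2⟩ →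
      p ∈ S → (q = a ∨ q = b ∨ (q ∈ S ∧ q < p)) → False := by
    intro p q hpq hzp hzq h2 f1 f2 hp hq
    have g1 := P_S ha hb f1 hp
    have g2 := P_S ha hb f2 hp
    simp only at g1 g2
    rcases hq with rfl | rfl | ⟨hq, hlt⟩
    · rw [par_update ha, Function.update_self, Function.update_of_ne hab.symm] at g2
      rw [hzq] at g1
      have := g1.1.trans g2.1.symm
      exact absurd this (by simp)
    · rw [par_update hb, Function.update_self, Function.update_of_ne hab] at g2
      rw [hzq] at g1
      have := g1.2.trans g2.2.symm
      exact absurd this (by simp)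
    · have hqa : a ≠ q := fun h => ha (h ▸ hq)
      rw [par_flip hq hlt hzq, Function.update_of_ne hqa] at g2
      have := g1.1.symm.trans g2.1
      revert this
      cases y a <;> cases par S z p <;> simp
  have dir : ∀ e : E d, P S y a b e → e.1.2 = a ∨ e.1.2 = b ∨ e.1.2 ∈ S := by
    intro e he
    rcases he.2 with h | h | h
    · exact Or.inl h.1
    · exact Or.inr (Or.inl h.1)
    · exact Or.inr (Or.inr h.1)
  have dp := dir _ f1
  have dq := dir _ f3
  simp only at dp dq
  by_cases hpS : p ∈ S
  · rcases dq with h | h | hqS
    · exact key p q hpq hzp hzq h2 f1 f2 hpS (Or.inl h)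
    · exact key p q hpq hzp hzq h2 f1 f2 hpS (Or.inr (Or.inl h))
    · rcases lt_or_gt_of_ne hpq with hlt | hlt
      · exact key q p hpq.symm hzq hzp h4 f3 f4 hqS (Or.inr (Or.inr ⟨hpS, hlt⟩))
      · exact key p q hpq hzp hzq h2 f1 f2 hpS (Or.inr (Or.inr ⟨hqS, hlt⟩))
  · have dp' : p = a ∨ p = b := by tauto
    by_cases hqS : q ∈ S
    · refine key q p hpq.symm hzq hzp h4 f3 f4 hqS ?_
      rcases dp' with h | h
      · exact Or.inl h
      · exact Or.inr (Or.inl h)
    · have dq' : q = a ∨ q = b := by tauto
      rcases dp' with rfl | rfl
      · rcases dq' with h | rfl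
        · exact hpq h.symm
        · -- p = a, q = b
          have g1 : z q = y q := by
            rcases f1.2 with h | h | h
            · exact h.2
            · exact absurd h.1 hpq
            · exact absurd h.1 ha
          have g2 : Function.update z q true q = y q := by
            rcases f2.2 with h | h | h
            · exact h.2
            · exact absurd h.1 hpq
            · exact absurd h.1 ha
          rw [Function.update_self, ← g1, hzq] at g2
          exact absurd g2 (by simp)
      · rcases dq' with rfl | h
        · -- p = b, q = a
          have g1 : z q = y q := by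
            rcases f1.2 with h | h | h
            · exact absurd h.1 hpq
            · exact h.2
            · exact absurd h.1 hb
          have g2 : Function.update z q true q = y q := by
            rcases f2.2 with h | h | h
            · exact absurd h.1 hpq
            · exact h.2
            · exact absurd h.1 hb
          rw [Function.update_self, ← g1, hzq] at g2
          exact absurd g2 (by simp)
        · exact hpq h.symm

theorem inj {S : Finset (Fin d)} {y : Fin d → Bool} {a b : Fin d} (ha : a ∉ S) (hb : b ∉ S)
    (hab : a ≠ b) {e f : E d} (he : P S y a b e) (hf : P S y a b f) (h1 : U S e.1.1 = U S f.1.1)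
    (h2 : e.1.2 = f.1.2) : e = f := by
  obtain ⟨⟨x, j⟩, hx⟩ := e
  obtain ⟨⟨z, l⟩, hz⟩ := f
  simp only at h1 h2 hx hz
  subst h2
  have hS : ∀ i ∈ S, x i = z i := by
    intro i hi
    have : i ∈ U S x ↔ i ∈ U S z := by rw [h1]
    unfold U at this
    rw [Finset.mem_filter, Finset.mem_filter] at this
    simp only [hi, true_and] at this
    exact Bool.eq_iff_iff.2 this
  have hpar : par S x j = par S z j := by
    unfold par
    rw [h1]
  have hxa : x a = z a := by
    rcases he.2 with h | h | h
    · simp only at h
      rw [← h.1, hx, hz]
    · simp only at h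
      have g : z a = y a := by
        rcases hf.2 with h' | h' | h'
        · exact absurd (h'.1.symm.trans h.1) hab
        · exact h'.2
        · exact absurd (h.1 ▸ h'.1) hb
      rw [h.2, g]
    · have g := P_S ha hb hf h.1
      simp only at h g
      rw [h.2.1, g.1, hpar]
  have hxb : x b = z b := by
    rcases he.2 with h | h | h
    · simp only at h
      have g : z b = y b := by
        rcases hf.2 with h' | h' | h'
        · exact h'.2
        · exact absurd (h.1.symm.trans h'.1) hab
        · exact absurd (h.1 ▸ h'.1) ha
      rw [h.2, g]
    · simp only at h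
      rw [← h.1, hx, hz]
    · have g := P_S ha hb hf h.1
      simp only at h g
      rw [h.2.2, g.2, hpar]
  have hxz : x = z := by
    funext i
    by_cases hi : i ∈ S
    · exact hS i hi
    · by_cases hia : i = a
      · rw [hia, hxa]
      · by_cases hib : i = b
        · rw [hib, hxb]
        · have g1 := he.1 i hi hia hib
          have g2 := hf.1 i hi hia hib
          simp only at g1 g2
          rw [g1, g2]
  subst hxz
  rfl

open Classical in
theorem t : StSet := by
  intro d k hk c hc
  obtain ⟨S, y⟩ := c
  unfold Copies at hc
  rw [Finset.mem_filter] at hc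
  obtain ⟨-, hS, hy⟩ := hc
  simp only at hS hy
  have hcard : 2 ≤ (Sᶜ).card := by
    rw [Finset.card_compl, Fintype.card_fin, hS]
    omega
  obtain ⟨a, ha', b, hb', hab⟩ := Finset.one_lt_card.1 (show 1 < (Sᶜ).card by omega)
  have ha : a ∉ S := by simpa using ha'
  have hb : b ∉ S := by simpa using hb'
  refine ⟨univ.filter (P S y a b), ?_, ?_, ?_⟩
  · rintro ⟨c', hc', h⟩
    unfold Copies at hc'
    rw [Finset.mem_filter] at hc'
    exact sqfree ha hb hab c'.1 c'.2 hc'.2.1 hc'.2.2 fun e he => by
      have := h e he
      rw [Finset.mem_filter] at this
      exact this.2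
  · have h1 : (univ.filter (P S y a b)).card ≤
        (S.powerset ×ˢ insert a (insert b S)).card := by
      refine Finset.card_le_card_of_injOn (fun e : E d => (U S e.1.1, e.1.2)) ?_ ?_
      · intro e he
        have he' : P S y a b e := by simpa using he
        simp only [Finset.coe_product, Set.mem_prod, Finset.mem_coe, Finset.mem_powerset,
          Finset.mem_insert]
        refine ⟨Finset.filter_subset _ _, ?_⟩
        rcases he'.2 with h | h | h
        · exact Or.inl h.1
        · exact Or.inr (Or.inl h.1)
        · exact Or.inr (Or.inr h.1)
      · intro e he f hf hef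
        have he' : P S y a b e := by simpa using he
        have hf' : P S y a b f := by simpa using hf
        simp only [Prod.mk.injEq] at hef
        exact inj ha hb hab he' hf' hef.1 hef.2
    refine h1.trans ?_
    rw [Finset.card_product, Finset.card_powerset, hS, mul_comm]
    refine Nat.mul_le_mul_right _ ?_
    have h2 := Finset.card_insert_le a (insert b S)
    have h3 := Finset.card_insert_le b S
    omega
  · intro e he
    obtain ⟨⟨x, j⟩, hx⟩ := e
    obtain ⟨hj, hxy⟩ := he
    simp only at hj hxy hx
    have hja : j ≠ a := fun h => ha (h ▸ hj)
    have hjb : j ≠ b := fun h => hb (h ▸ hj)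
    have hxa : x a = y a := hxy a ha
    have hxb : x b = y b := hxy b hb
    constructor
    · intro h
      rw [Finset.mem_filter] at h
      have g := P_S ha hb h.2 hj
      simp only at g
      rw [hxa, hxb] at g
      revert g
      cases y a <;> cases y b <;> cases par S x j <;> simp
    · -- the square
      have main : ∀ s o : Fin d, s ∉ S → (s = a ∧ par S x j = false ∧ o = b ∨
          s = b ∧ par S x j = true ∧ o = a) → ∃ c' ∈ Copies d 2, InCopy c' ⟨(x, j), hx⟩ ∧
          ∀ f : E d, InCopy c' f → f ≠ ⟨(x, j), hx⟩ → f ∈ univ.filter (P S y a b) := by
        intro s o hs hso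
        have hjs : j ≠ s := fun h => hs (h ▸ hj)
        refine ⟨({j, s}, Function.update x s false), ?_, ?_, ?_⟩
        · unfold Copies
          rw [Finset.mem_filter]
          refine ⟨Finset.mem_univ _, Finset.card_pair hjs, ?_⟩
          intro i hi
          simp only [Finset.mem_insert, Finset.mem_singleton] at hi
          rcases hi with rfl | rfl
          · simp only
            rw [Function.update_of_ne hjs, hx]
          · simp
        · refine ⟨by simp, ?_⟩
          intro i hi
          simp only [Finset.mem_insert, Finset.mem_singleton, not_or] at hi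
          simp only
          rw [Function.update_of_ne hi.2]
        · intro f hf hne
          obtain ⟨⟨z, l⟩, hz⟩ := f
          obtain ⟨hl, hzx⟩ := hf
          simp only at hl hzx hz
          have hzx' : ∀ i, i ≠ j → i ≠ s → z i = x i := by
            intro i h1 h2
            rw [hzx i (by simp [h1, h2]), Function.update_of_ne h2]
          rw [Finset.mem_filter]
          refine ⟨Finset.mem_univ _, ?_, ?_⟩
          · intro i hi hia hib
            simp only
            have h1 : i ≠ j := fun h => hi (h ▸ hj)
            have h2 : i ≠ s := by
              rcases hso with ⟨rfl, -, -⟩ | ⟨rfl, -, -⟩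
              · exact hia
              · exact hib
            rw [hzx' i h1 h2, hxy i hi]
          · simp only [Finset.mem_insert, Finset.mem_singleton] at hl
            simp only
            rcases hl with rfl | rfl
            · -- direction j
              right; right
              have hzs : z s = !x s := by
                by_contra hcon
                have h1 : z s = x s := by
                  revert hcon
                  cases z s <;> cases x s <;> simp
                apply hne
                have : z = x := by
                  funext i
                  by_cases hil : i = l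
                  · rw [hil, hz, hx]
                  · by_cases his : i = s
                    · rw [his, h1]
                    · exact hzx' i hil his
                subst this
                rfl
              have hU : U S z = U S x := by
                unfold U
                refine Finset.filter_congr fun i hi => ?_
                have his : i ≠ s := fun h => hs (h ▸ hi)
                by_cases hil : i = l
                · rw [hil, hz, hx]
                · rw [hzx' i hil his]
              have hpar : par S z l = par S x l := by
                unfold par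
                rw [hU]
              refine ⟨hj, ?_, ?_⟩
              · rw [hpar]
                rcases hso with ⟨rfl, hp, rfl⟩ | ⟨rfl, hp, rfl⟩
                · rw [hp, hzs, hxa]
                  cases y s <;> rfl
                · rw [hp, hzx' _ (Ne.symm hja) hab, hxa]
                  simp
              · rw [hpar]
                rcases hso with ⟨rfl, hp, rfl⟩ | ⟨rfl, hp, rfl⟩
                · rw [hp, hzx' _ (Ne.symm hjb) hab.symm, hxb]
                  simp
                · rw [hp, hzs, hxb]
                  cases y s <;> rfl
            · rcases hso with ⟨rfl, hp, rfl⟩ | ⟨rfl, hp, rfl⟩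
              · left
                refine ⟨rfl, ?_⟩
                rw [hzx' _ (Ne.symm hjb) hab.symm, hxb]
              · right; left
                refine ⟨rfl, ?_⟩
                rw [hzx' _ (Ne.symm hja) hab, hxa]
      rcases hp : par S x j with _ | _
      · exact main a b ha (Or.inl ⟨rfl, hp, rfl⟩)
      · exact main b a hb (Or.inr ⟨rfl, hp, rfl⟩)

end Pool.Agent.K7.H62.ECSET
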