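import Pool.Agent.K7.H87.EX.Stm2

/-!
# Project EX2, job INV: convex subgroups are invariant if there are only finitely many of them
-/

set_option autoImplicit false

namespace Pool.Agent.K7.H62.EXINV

open Pool.Agent.K7.H87.EX

theorem exists_pos {N : Type} [Group N] [LinearOrder N]
    (hl : ∀ a b c : N, a ≤ b → c * a ≤ c * b) {C D : Subgroup N} {a : N} (ha : a ∈ C)
    (hb : a ∉ D) : ∃ b ∈ C, b ∉ D ∧ 1 ≤ b := by
  rcases le_total 1 a with h | h
  · exact ⟨a, ha, hb, h⟩
  · refine ⟨a⁻¹, C.inv_mem ha, fun h' => hb (by simpa using D.inv_mem h'), ?_⟩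
    have := hl a 1 a⁻¹ h
    simpa using this

theorem chain {N : Type} [Group N] [LinearOrder N]
    (hl : ∀ a b c : N, a ≤ b → c * a ≤ c * b) {C D : Subgroup N} (hC : Conv C) (hD : Conv D) :
    C ≤ D ∨ D ≤ C := by
  by_contra hcon
  rw [not_or] at hcon
  obtain ⟨h1, h2⟩ := hcon
  rw [SetLike.not_le_iff_exists] at h1 h2
  obtain ⟨a, ha, ha'⟩ := h1
  obtain ⟨b, hb, hb'⟩ := h2
  obtain ⟨x, hx, hx', hx1⟩ := exists_pos hl ha ha'
  obtain ⟨y, hy, hy', hy1⟩ := exists_pos hl hb hb'
  rcases le_total x y with h | h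
  · exact hx' (hD x y hx1 h hy)
  · exact hy' (hC y x hy1 h hx)

theorem t : StInv := by
  intro K _ N hN _ hl hr hc hfin g C hC a ha
  let σ : N →* N := (MulAut.conjNormal g : MulAut N).toMonoidHom
  have hσ : ∀ b : N, σ b = cj N hN g b := by
    intro b
    apply Subtype.ext
    show ((MulAut.conjNormal g b : N) : K) = g * b * g⁻¹
    exact MulAut.conjNormal_apply g b
  have hsurj : Function.Surjective σ := (MulAut.conjNormal g : MulAut N).surjective
  have hone : cj N hN g 1 = 1 := by
    rw [← hσ, map_one]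
  have hconv : ∀ D : Subgroup N, Conv D → Conv (D.comap σ) := by
    intro D hD x y hx hxy hy
    rw [Subgroup.mem_comap, hσ] at hy ⊢
    refine hD _ _ ?_ (hc g _ _ hxy) hy
    have := hc g _ _ hx
    rwa [hone] at this
  suffices h : C ≤ C.comap σ by
    have := h ha
    rwa [Subgroup.mem_comap, hσ] at this
  rcases chain hl hC (hconv C hC) with h | h
  · exact h
  · by_contra hne
    have hlt : C.comap σ < C := lt_of_le_not_ge h hne
    have hfin' : Finite {D : Subgroup N // Conv D} := hfin
    let f : {D : Subgroup N // Conv D} → {D : Subgroup N // Conv D} :=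
      fun D => ⟨D.1.comap σ, hconv D.1 D.2⟩
    have hf : StrictMono f := by
      intro D E hDE
      have h1 : D.1 ≤ E.1 := hDE.le
      have h2 : f D ≤ f E := Subgroup.comap_mono h1
      refine lt_of_le_of_ne h2 fun heq => ?_
      have h3 : D.1.comap σ = E.1.comap σ := congrArg Subtype.val heq
      have h4 := Subgroup.comap_injective hsurj h3
      exact hDE.ne (Subtype.ext h4)
    have h0 : f ⟨C, hC⟩ < ⟨C, hC⟩ := hlt
    have hs : StrictAnti (fun n : ℕ => f^[n] ⟨C, hC⟩) := by
      refine strictAnti_nat_of_succ_lt fun n => ?_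
      show f^[n + 1] ⟨C, hC⟩ < f^[n] ⟨C, hC⟩
      rw [Function.iterate_succ_apply]
      exact hf.iterate n h0
    exact not_injective_infinite_finite _ hs.injective

end Pool.Agent.K7.H62.EXINV
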