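import Pool.Agent.K7.H62.GG_WEIS

set_option autoImplicit false

/-!
Project GG (helper84), job S5 (backup copy).
-/

namespace Pool.Agent.K7.H62.GGS5

open Finset DC813 Pool.Agent.K7.H84.GG
open Pool.Agent.W573.RF (out_all cl_le single_le mu_congr)
open Pool.Agent.K7.H62.GGWEIS (mem_fl)

theorem t (hTR : StTR) (hBco : StBco) (hBp : StBp) : StS5 := by
  intro α _ r E L p f H c ih hf hH hd
  have hr := c.hr
  obtain ⟨hHfl, hHr, hpH⟩ := mem_filter.1 hH
  obtain ⟨hHE, hHc⟩ := (mem_fl hr).1 hHfl
  have out : ∀ e ∈ E, e ∉ H → ∀ X ⊆ H, r (insert e X) = r X + 1 := by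
    intro e he heH X hX
    have h1 : r (insert e H) ≠ r H := fun h => heH (hHc e he h)
    have h2 := hr.mono H (insert e H) (subset_insert _ _)
    have h3 := hr.insert_le H e
    exact out_all hr (by omega) hX
  obtain ⟨hLE, hLc⟩ := (mem_fl hr).1 c.hL
  have rp : ∀ X ⊆ H, r (insert p X) = r X + 1 := out p c.hp hpH
  have pL : ∀ A : Finset α, insert p A ⊆ A ∪ L := fun A =>
    insert_subset (mem_union_right _ c.hpL) subset_union_left
  have iL : ∀ A : Finset α, insert p A ∪ L = A ∪ L := by
    intro A
    rw [insert_union, insert_eq_of_mem (mem_union_right _ c.hpL)]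
  have trA : ∀ A ⊆ H, tr r L A = r A := by
    intro A hA
    have h1 := rp A hA
    have h2 := hr.mono _ _ (pL A)
    unfold tr
    rw [if_neg (by omega)]
    rfl
  have trp : ∀ A ⊆ H, tr r L (insert p A) =
      r A + 1 - (if r (A ∪ L) = r A + 1 then 1 else 0) := by
    intro A hA
    unfold tr
    rw [iL, rp A hA]
  have hN : IsRk (tr r L) := hTR α r L hr (by rw [c.hL2]; norm_num)
  have hrE2 : 2 ≤ r E := by
    have := hr.mono _ _ hLE
    rw [c.hL2] at this
    exact this
  have hE' : tr r L (insert p H) = r E - 1 := by
    have h2 : r (H ∪ L) = r H + 1 := by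
      have h3 := hr.mono _ _ (pL H)
      have h4 := hr.mono (H ∪ L) E (union_subset hHE hLE)
      have h5 := rp H Subset.rfl
      omega
    rw [trp H Subset.rfl, if_pos h2]
    omega
  have hlp : Lp (tr r L) (insert p H) := by
    intro x hx
    rcases mem_insert.1 hx with rfl | hx
    · have h1 := trp ∅ (empty_subset _)
      rw [empty_union, c.hL2, hr.empty, if_neg (by norm_num)] at h1
      have h2 : insert x (∅ : Finset α) = {x} := rfl
      rw [h2] at h1
      omega
    · rw [trA {x} (singleton_subset_iff.2 hx)]
      exact c.lp x (hHE hx)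
  have hG := ih (r E - 1) (by omega) (tr r L) (insert p H) p f hN hE' hlp (mem_insert_self _ _) hf
  unfold GGs at hG
  -- the right side
  have hset : hy (tr r L) (insert p H) p = (T1 r E L).filter (fun G => G ⊆ H) := by
    ext G
    unfold hy T1
    rw [mem_filter, mem_filter, mem_filter, mem_fl hN, mem_fl hr, hE']
    constructor
    · rintro ⟨⟨h1, h2⟩, h3, h4⟩
      have hGH : G ⊆ H := by
        intro x hx
        rcases mem_insert.1 (h1 hx) with rfl | h
        · exact (h4 hx).elim
        · exact h
      rw [trA G hGH] at h3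
      have h5 : r (G ∪ L) ≠ r G + 1 := by
        intro h6
        refine h4 (h2 p (mem_insert_self _ _) ?_)
        rw [trp G hGH, trA G hGH, if_pos h6]
        omega
      have h6 := hr.submod G L
      have h7 := hr.mono _ _ (pL G)
      have h8 := rp G hGH
      rw [c.hL2] at h6
      refine ⟨⟨⟨hGH.trans hHE, ?_⟩, by omega, by omega⟩, hGH⟩
      intro e he h9
      by_cases heH : e ∈ H
      · refine h2 e (mem_insert_of_mem heH) ?_
        rw [trA G hGH, trA _ (insert_subset heH hGH)]
        exact h9
      · have := out e he heH G hGH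
        omega
    · rintro ⟨⟨⟨h1, h2⟩, h3, h4⟩, hGH⟩
      have hpG : p ∉ G := fun h => hpH (hGH h)
      refine ⟨⟨hGH.trans (subset_insert _ _), ?_⟩, ?_, hpG⟩
      · intro e he h5
        rcases mem_insert.1 he with rfl | he
        · rw [trp G hGH, trA G hGH, if_neg (by omega)] at h5
          omega
        · rw [trA G hGH, trA _ (insert_subset he hGH)] at h5
          exact h2 e (hHE he) h5
      · rw [trA G hGH]
        omega
  have hR : ∑ G ∈ hy (tr r L) (insert p H) p, mu (tr r L) G * f G =
      ∑ G ∈ (T1 r E L).filter (fun G => G ⊆ H), mu r G * f G := by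
    rw [hset]
    refine sum_congr rfl fun G hG => ?_
    have hGH := (mem_filter.1 hG).2
    rw [mu_congr fun X hX => trA X (hX.trans hGH)]
  rw [hR] at hG
  refine le_trans (le_of_eq ?_) hG
  -- the left side
  set S := (XX r E L).filter (fun X => X ⊆ H) with hS
  have memS : ∀ X ∈ S, X ∈ fl r E ∧ X.Nonempty ∧ Disjoint X L ∧ r (X ∪ L) = r X + 1 ∧ X ⊆ H := by
    intro X hX
    obtain ⟨h1, h2⟩ := mem_filter.1 hX
    unfold XX at h1
    obtain ⟨h3, h4, h5, h6⟩ := mem_filter.1 h1
    exact ⟨h3, h4, h5, h6, h2⟩
  have hpX : ∀ X ∈ S, p ∉ X := fun X hX h => hpH ((memS X hX).2.2.2.2 h)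
  have hsp : ({p} : Finset α) ∉ S.image (insert p) := by
    rw [mem_image]
    rintro ⟨X, hX, h1⟩
    obtain ⟨x, hx⟩ := (memS X hX).2.1
    have h2 : x ∈ ({p} : Finset α) := by rw [← h1]; exact mem_insert_of_mem hx
    rw [mem_singleton] at h2
    exact hpX X hX (h2 ▸ hx)
  have hinj : Set.InjOn (insert p : Finset α → Finset α) (S : Set (Finset α)) := by
    intro X hX Y hY h
    have h1 : X ∈ S := hX
    have h2 : Y ∈ S := hY
    rw [← erase_insert (hpX X h1), ← erase_insert (hpX Y h2)]
    exact congrArg (fun Z => Z.erase p) h
  have hsub : insert {p} (S.image (insert p)) ⊆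
      (fl (tr r L) (insert p H)).filter (fun F => p ∈ F) := by
    intro F hF
    rw [mem_filter, mem_fl hN]
    rcases mem_insert.1 hF with rfl | hF
    · refine ⟨⟨singleton_subset_iff.2 (mem_insert_self _ _), ?_⟩, mem_singleton_self p⟩
      intro e he h1
      rcases mem_insert.1 he with rfl | he
      · exact mem_singleton_self _
      exfalso
      have heE := hHE he
      have heL : e ∉ L := fun h => disjoint_left.1 hd he h
      have h2 : r (insert e L) ≠ r L := fun h => heL (hLc e heE h)
      have h3 := hr.mono L (insert e L) (subset_insert _ _)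
      have h4 : insert e ({p} : Finset α) = insert p {e} := by
        rw [insert_eq, insert_eq, union_comm]
      have h5 := trp {e} (singleton_subset_iff.2 he)
      have h6 : r (({e} : Finset α) ∪ L) = r (insert e L) := rfl
      have h7 := single_le hr e
      have h8 := c.lp e heE
      have h20 := c.hL2
      rw [if_neg (by omega)] at h5
      have h9 := trp ∅ (empty_subset _)
      rw [empty_union, c.hL2, hr.empty, if_neg (by norm_num)] at h9
      have h10 : insert p (∅ : Finset α) = {p} := rfl
      rw [h10] at h9
      rw [h4, h5, h9] at h1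
      omega
    · obtain ⟨X, hX, rfl⟩ := mem_image.1 hF
      obtain ⟨h1, h2, h3, h4, h5⟩ := memS X hX
      refine ⟨⟨insert_subset_insert p h5, ?_⟩, mem_insert_self _ _⟩
      intro e he h6
      rcases mem_insert.1 he with rfl | he
      · exact mem_insert_self _ _
      by_contra h7
      have heX : e ∉ X := fun h => h7 (mem_insert_of_mem h)
      have h8 : r (insert e X) ≠ r X := fun h => heX (((mem_fl hr).1 h1).2 e (hHE he) h)
      have h9 := hr.mono X (insert e X) (subset_insert _ _)
      rw [insert_comm, trp (insert e X) (insert_subset he h5), trp X h5, if_pos h4] at h6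
      split_ifs at h6 <;> omega
  have hzero : ∀ F ∈ (fl (tr r L) (insert p H)).filter (fun F => p ∈ F),
      F ∉ insert {p} (S.image (insert p)) →
        beta (tr r L) F * mc (tr r L) (insert p H) F * f (insert p H \ F) = 0 := by
    intro F hF hFn
    rw [mem_filter, mem_fl hN] at hF
    obtain ⟨⟨h1, h2⟩, h3⟩ := hF
    rw [mem_insert, not_or, mem_image] at hFn
    obtain ⟨h4, h5⟩ := hFn
    have hX : F.erase p ⊆ H := by
      intro x hx
      obtain ⟨hx1, hx2⟩ := mem_erase.1 hx
      rcases mem_insert.1 (h1 hx2) with h | h
      · exact (hx1 h).elim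
      · exact h
    have hFX : insert p (F.erase p) = F := insert_erase h3
    have hb : beta (tr r L) F = 0 := by
      refine hBco α (tr r L) F p hN h3 h4 ?_
      by_contra h6
      have h7 := trp _ hX
      rw [hFX] at h7
      rw [trA _ hX] at h6
      have h8 : r (F.erase p ∪ L) = r (F.erase p) + 1 := by
        by_contra h9
        rw [if_neg h9] at h7
        omega
      rw [if_pos h8] at h7
      refine h5 ⟨F.erase p, ?_, hFX⟩
      rw [hS, mem_filter]
      refine ⟨?_, hX⟩
      unfold XX
      rw [mem_filter, mem_fl hr]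
      refine ⟨⟨hX.trans hHE, ?_⟩, ?_, ?_, h8⟩
      · intro e he h9
        by_cases heH : e ∈ H
        · have hpe : e ≠ p := fun h => hpH (h ▸ heH)
          refine mem_erase.2 ⟨hpe, h2 e (mem_insert_of_mem heH) ?_⟩
          have h10 : insert e F = insert p (insert e (F.erase p)) := by
            rw [insert_comm, hFX]
          have h11 := cl_le hr (subset_union_left : F.erase p ⊆ F.erase p ∪ L) h9.le
          have h12 := hr.mono (F.erase p ∪ L) (insert e (F.erase p ∪ L)) (subset_insert _ _)
          rw [h10, trp _ (insert_subset heH hX), insert_union, h7,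
            if_pos (by omega : r (insert e (F.erase p ∪ L)) = r (insert e (F.erase p)) + 1)]
          omega
        · have := out e he heH _ hX
          omega
      · rw [nonempty_iff_ne_empty]
        intro h9
        rw [h9] at hFX
        exact h4 hFX.symm
      · exact disjoint_of_subset_left hX hd
    rw [hb]
    ring
  rw [← sum_subset hsub hzero, sum_insert hsp, sum_image hinj]
  congr 1
  · have h1 : insert p H \ {p} = H := by
      rw [sdiff_singleton_eq_erase, erase_insert hpH]
    rw [hBp α (tr r L) p hN (hlp p (mem_insert_self _ _))]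
    unfold mc
    rw [h1, one_mul]
  · refine sum_congr rfl fun X hX => ?_
    obtain ⟨h1, h2, h3, h4, h5⟩ := memS X hX
    have h6 : insert p H \ insert p X = H \ X := by
      ext x
      rw [mem_sdiff, mem_sdiff, mem_insert, mem_insert]
      constructor
      · rintro ⟨h | h, h'⟩
        · exact (h' (Or.inl h)).elim
        · exact ⟨h, fun h'' => h' (Or.inr h'')⟩
      · rintro ⟨h, h'⟩
        refine ⟨Or.inr h, ?_⟩
        rintro (rfl | h'')
        · exact hpH h
        · exact h' h''
    have h7 : mc (tr r L) (insert p H) (insert p X) = mc r H X := by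
      unfold mc
      rw [h6]
      refine mu_congr fun A hA => ?_
      have hAH : A ∪ X ⊆ H := union_subset (hA.trans sdiff_subset) h5
      unfold con
      rw [union_insert, trp _ hAH, trp X h5, if_pos h4]
      have h8 : r (A ∪ X ∪ L) = r (A ∪ X) + 1 := by
        have h9 := hr.submod (insert p (A ∪ X)) (X ∪ L)
        have h10 : insert p (A ∪ X) ∪ (X ∪ L) = A ∪ X ∪ L := by
          ext x
          simp only [mem_union, mem_insert]
          constructor
          · rintro ((rfl | h | h) | h | h)
            · exact Or.inr c.hpL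
            · exact Or.inl (Or.inl h)
            · exact Or.inl (Or.inr h)
            · exact Or.inl (Or.inr h)
            · exact Or.inr h
          · rintro ((h | h) | h)
            · exact Or.inl (Or.inr (Or.inl h))
            · exact Or.inr (Or.inl h)
            · exact Or.inr (Or.inr h)
        have h11 := hr.mono (insert p X) (insert p (A ∪ X) ∩ (X ∪ L))
          (subset_inter (insert_subset_insert p subset_union_right) (pL X))
        have h12 := rp X h5
        have h13 := rp _ hAH
        have h14 := hr.mono _ _ (pL (A ∪ X))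
        rw [h10] at h9
        omega
      rw [if_pos h8]
      omega
    rw [h6, h7]

end Pool.Agent.K7.H62.GGS5
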