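import Pool.Agent.K7.H12.GL.Defs

/-!
# Project GL: job CASE1
-/

set_option autoImplicit false

namespace Pool.Agent.K7.H62.GL

open Cardinal Pool.Agent.K7.H12.GL

/-- JOB CASE1 -/
theorem case1 (hG : StGreedy) : StCase1 := by
  classical
  intro L _ ρ hgeo hbase a A hA hr hinf hT hpoor
  obtain ⟨t, ht⟩ : ∃ t, t = tp a A := ⟨_, rfl⟩
  have hne : A.Nonempty := by
    rw [Set.nonempty_iff_ne_empty]
    intro h
    rw [h, Cardinal.mk_emptyCollection] at hinf
    exact absurd (lt_of_lt_of_le Cardinal.aleph0_pos hinf) (lt_irrefl _)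
  -- the exceptional point
  obtain ⟨p0, hp0, hrich⟩ : ∃ p0 ∈ A, ∀ p ∈ A, p ≠ p0 → #A ≤ #(Ln A p) := by
    by_cases h : ∃ p ∈ A, #(Ln A p) < #A
    · obtain ⟨p0, h1, h2⟩ := h
      refine ⟨p0, h1, fun p hp hne => ?_⟩
      by_contra hlt
      exact hne (hpoor p hp p0 h1 (not_le.1 hlt) h2)
    · obtain ⟨p0, h1⟩ := hne
      refine ⟨p0, h1, fun p hp _ => ?_⟩
      by_contra hlt
      exact h ⟨p, hp, not_le.1 hlt⟩
  have hρ : ∀ p ∈ A, ρ p = ρ a + 1 := fun p hp => hgeo.cov a p (hA p hp)
  -- the chain systems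
  have hT' : ∀ p ∈ A, ∃ f : L → ℕ → L, ∀ l ∈ Ln A p, f l 1 = l ∧
    (∀ i, 1 ≤ i → ρ p + i < ρ t → f l i ⋖ f l (i + 1)) ∧
    (∀ i, 1 ≤ i → ρ p + i ≤ ρ t → f l i ∈ Sp a A) ∧
    (∀ q ∈ Ln A p, ∀ i, 1 ≤ i → ρ p + i < ρ t → f l i = f q i → l = q) := by
    intro p hp
    obtain ⟨f, hf⟩ := hT p hp
    obtain ⟨-, h2, h3⟩ := hbase.lines a A hA p hp
    rw [h2, ← ht] at hf
    exact ⟨f, fun l hl => ⟨(hf l hl).1, (hf l hl).2.1, fun i hi hi' => h3 ((hf l hl).2.2.1 i hi hi'),
      (hf l hl).2.2.2⟩⟩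
  choose! f hf using hT'
  have hrank : ∀ p ∈ A, ∀ l ∈ Ln A p, ∀ j, ρ p + (j + 1) ≤ ρ t →
      ρ (f p l (j + 1)) = ρ p + (j + 1) := by
    intro p hp l hl j
    induction j with
    | zero =>
      intro _
      rw [zero_add, (hf p hp l hl).1]
      exact hgeo.cov p l ((hbase.lines a A hA p hp).1 l hl)
    | succ j ih =>
      intro h
      have h1 := ih (by omega)
      have h2 := hgeo.cov _ _ ((hf p hp l hl).2.1 (j + 1) (by omega) (by omega))
      omega
  -- the chain of the exceptional point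
  obtain ⟨c0, hc0, hc1, hc2⟩ := hbase.chain a A hA p0 (hbase.point a A hA p0 hp0)
  rw [← ht] at hc1 hc2
  obtain ⟨U, hU⟩ : ∃ U : Finset L, U = (Finset.range (ρ t)).image c0 := ⟨_, rfl⟩
  obtain ⟨c, hc⟩ : ∃ c : L → L → Finset L, c = fun p l =>
      ((Finset.range (ρ t - ρ p)).filter (fun j => 1 ≤ j)).image (fun j => f p l j) := ⟨_, rfl⟩
  have hmc : ∀ p l x, x ∈ c p l ↔ ∃ j, 1 ≤ j ∧ ρ p + j < ρ t ∧ f p l j = x := by
    intro p l x
    rw [hc]
    simp only [Finset.mem_image, Finset.mem_filter, Finset.mem_range]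
    constructor
    · rintro ⟨j, ⟨h1, h2⟩, h3⟩
      exact ⟨j, h2, by omega, h3⟩
    · rintro ⟨j, h1, h2, h3⟩
      exact ⟨j, ⟨by omega, h1⟩, h3⟩
  haveI : Nonempty L := ⟨a⟩
  obtain ⟨g, hg1, hg2⟩ := hG L L L (A \ {p0}) (#A) hinf (Cardinal.mk_le_mk_of_subset Set.diff_subset)
    (U : Set L) (lt_of_lt_of_le (Cardinal.lt_aleph0_iff_set_finite.2 U.finite_toSet) hinf)
    (fun p => Ln A p) c (fun p hp => hrich p hp.1 hp.2)
    (by
      intro p hp l hl l' hl' hne
      rw [Set.disjoint_left]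
      intro x hx hx'
      obtain ⟨j, h1, h2, h3⟩ := (hmc p l x).1 (Finset.mem_coe.1 hx)
      obtain ⟨j', h1', h2', h3'⟩ := (hmc p l' x).1 (Finset.mem_coe.1 hx')
      have e1 := hrank p hp.1 l hl (j - 1) (by omega)
      have e2 := hrank p hp.1 l' hl' (j' - 1) (by omega)
      rw [show j - 1 + 1 = j by omega, h3] at e1
      rw [show j' - 1 + 1 = j' by omega, h3'] at e2
      have e3 : j = j' := by omega
      subst e3
      exact hne ((hf p hp.1 l hl).2.2.2 l' hl' j h1 h2 (h3.trans h3'.symm)))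
  -- the chains
  refine ⟨fun p i => if p = p0 then c0 (i - 1) else if i = 1 then p else f p (g p) (i - 1), ?_⟩
  have hρt : ρ a + 3 ≤ ρ t := by rw [ht]; exact hr
  rw [← ht]
  intro p hp
  by_cases hpp : p = p0
  · subst hpp
    simp only [if_true]
    refine ⟨hc0, ?_, ?_, ?_⟩
    · intro i hi hi'
      have := hc2 (i - 1) (by rw [hρ p hp]; omega)
      rwa [show i - 1 + 1 = i + 1 - 1 by omega] at this
    · intro i hi hi'
      exact (hc1 (i - 1) (by rw [hρ p hp]; omega)).1
    · intro q hq i hi hi' he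
      by_cases hq0 : q = p
      · exact hq0.symm
      · exfalso
        rw [if_neg hq0] at he
        have hr0 := (hc1 (i - 1) (by rw [hρ p hp]; omega)).2.2
        rw [hρ p hp] at hr0
        by_cases h1 : i = 1
        · rw [if_pos h1] at he
          subst h1
          rw [show 1 - 1 = 0 from rfl, hc0] at he
          exact hq0 he.symm
        · rw [if_neg h1] at he
          have h2 := (hg1 q ⟨hq, hq0⟩).2
          rw [Set.disjoint_left] at h2
          apply h2 (a := c0 (i - 1))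
          · rw [he, Finset.mem_coe, hmc]
            exact ⟨i - 1, by omega, by rw [hρ q hq]; omega, rfl⟩
          · rw [hU, Finset.mem_coe, Finset.mem_image]
            exact ⟨i - 1, Finset.mem_range.2 (by omega), rfl⟩
  · have hl := (hg1 p ⟨hp, hpp⟩).1
    obtain ⟨f1, f2, f3, f4⟩ := hf p hp (g p) hl
    simp only [if_neg hpp]
    refine ⟨if_pos trivial, ?_, ?_, ?_⟩
    · intro i hi hi'
      rw [if_neg (show ¬ i + 1 = 1 by omega), show i + 1 - 1 = i by omega]
      by_cases h1 : i = 1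
      · rw [if_pos h1, h1, f1]
        exact (hbase.lines a A hA p hp).1 _ hl
      · rw [if_neg h1]
        have := f2 (i - 1) (by omega) (by rw [hρ p hp]; omega)
        rwa [show i - 1 + 1 = i by omega] at this
    · intro i hi hi'
      by_cases h1 : i = 1
      · rw [if_pos h1]
        exact hbase.point a A hA p hp
      · rw [if_neg h1]
        exact f3 (i - 1) (by omega) (by rw [hρ p hp]; omega)
    · intro q hq i hi hi' he
      by_cases hq0 : q = p0
      · exfalso
        rw [if_pos hq0] at he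
        by_cases h1 : i = 1
        · rw [if_pos h1] at he
          subst h1
          rw [show 1 - 1 = 0 from rfl, hc0] at he
          exact hpp he
        · rw [if_neg h1] at he
          have h2 := (hg1 p ⟨hp, hpp⟩).2
          rw [Set.disjoint_left] at h2
          apply h2 (a := c0 (i - 1))
          · rw [← he, Finset.mem_coe, hmc]
            exact ⟨i - 1, by omega, by rw [hρ p hp]; omega, rfl⟩
          · rw [hU, Finset.mem_coe, Finset.mem_image]
            exact ⟨i - 1, Finset.mem_range.2 (by omega), rfl⟩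
      · rw [if_neg hq0] at he
        by_cases h1 : i = 1
        · rw [if_pos h1, if_pos h1] at he
          exact he
        · rw [if_neg h1, if_neg h1] at he
          by_contra hpq
          have h2 := hg2 p ⟨hp, hpp⟩ q ⟨hq, hq0⟩ hpq
          rw [Set.disjoint_left] at h2
          apply h2 (a := f p (g p) (i - 1))
          · rw [Finset.mem_coe, hmc]
            exact ⟨i - 1, by omega, by rw [hρ p hp]; omega, rfl⟩
          · rw [he, Finset.mem_coe, hmc]
            exact ⟨i - 1, by omega, by rw [hρ q hq]; omega, rfl⟩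

end Pool.Agent.K7.H62.GL
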