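import Pool.Agent.K7.H24.KT.Stm

set_option autoImplicit false

/-!
# Project KT, job COPY
-/

namespace Pool.Agent.K7.H62.KT.Copy

open Finset Pool.Agent.K7.H24.KT

variable {V : Type}

/-- the subgraph of a pair of sets -/
def sub (G : SimpleGraph V) (P : Finset V × Finset V) : G.Subgraph where
  verts := {x | x ∈ P.1 ∨ x ∈ P.2}
  Adj x y := G.Adj x y ∧ ((x ∈ P.1 ∧ y ∈ P.2) ∨ (x ∈ P.2 ∧ y ∈ P.1))
  adj_sub := fun h => h.1
  edge_vert := by
    rintro x y ⟨-, ⟨h1, h2⟩ | ⟨h1, h2⟩⟩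
    · exact Or.inl h1
    · exact Or.inr h1
  symm := by
    constructor
    rintro x y ⟨h, ⟨h1, h2⟩ | ⟨h1, h2⟩⟩
    · exact ⟨h.symm, Or.inr ⟨h2, h1⟩⟩
    · exact ⟨h.symm, Or.inl ⟨h2, h1⟩⟩

theorem disj {t : ℕ} {G : SimpleGraph V} {P : Finset V × Finset V} (h : IsBi t G P) (x : V)
    (h1 : x ∈ P.1) (h2 : x ∈ P.2) : False := G.loopless.irrefl x (h.2.2 x h1 x h2)

theorem sub_adj {t : ℕ} {G : SimpleGraph V} {P : Finset V × Finset V} (h : IsBi t G P) (x y : V) :
    (sub G P).Adj x y ↔ (x ∈ P.1 ∧ y ∈ P.2) ∨ (x ∈ P.2 ∧ y ∈ P.1) := by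
  constructor
  · exact fun h => h.2
  · rintro (⟨h1, h2⟩ | ⟨h1, h2⟩)
    · exact ⟨h.2.2 x h1 y h2, Or.inl ⟨h1, h2⟩⟩
    · exact ⟨(h.2.2 y h2 x h1).symm, Or.inr ⟨h1, h2⟩⟩

theorem adj_left {t : ℕ} {G : SimpleGraph V} {P : Finset V × Finset V} (h : IsBi t G P) (x y : V)
    (hx : x ∈ P.1) : (sub G P).Adj x y ↔ y ∈ P.2 := by
  rw [sub_adj h]
  constructor
  · rintro (⟨h1, h2⟩ | ⟨h1, h2⟩)
    · exact h2
    · exact (disj h x hx h1).elim
  · exact fun h => Or.inl ⟨hx, h⟩

theorem adj_right {t : ℕ} {G : SimpleGraph V} {P : Finset V × Finset V} (h : IsBi t G P) (x y : V)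
    (hx : x ∈ P.2) : (sub G P).Adj x y ↔ y ∈ P.1 := by
  rw [sub_adj h]
  constructor
  · rintro (⟨h1, h2⟩ | ⟨h1, h2⟩)
    · exact (disj h x h1 hx).elim
    · exact h2
  · exact fun h => Or.inr ⟨hx, h⟩

theorem swap_bi {t : ℕ} {G : SimpleGraph V} {P : Finset V × Finset V} (h : IsBi t G P) :
    IsBi t G (P.2, P.1) := ⟨h.2.1, h.1, fun a ha b hb => (h.2.2 b hb a ha).symm⟩

theorem sub_swap (G : SimpleGraph V) (P : Finset V × Finset V) : sub G (P.2, P.1) = sub G P := by
  ext x y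
  · show (x ∈ P.2 ∨ x ∈ P.1) ↔ (x ∈ P.1 ∨ x ∈ P.2)
    exact or_comm
  · show (G.Adj x y ∧ ((x ∈ P.2 ∧ y ∈ P.1) ∨ (x ∈ P.1 ∧ y ∈ P.2))) ↔
      (G.Adj x y ∧ ((x ∈ P.1 ∧ y ∈ P.2) ∨ (x ∈ P.2 ∧ y ∈ P.1)))
    rw [or_comm]

theorem unique {t : ℕ} (ht : 1 ≤ t) {G : SimpleGraph V} {P P' : Finset V × Finset V}
    (h : IsBi t G P) (h' : IsBi t G P') (he : sub G P' = sub G P) :
    P' = P ∨ P' = (P.2, P.1) := by
  obtain ⟨a, ha⟩ : P.1.Nonempty := card_pos.1 (by rw [h.1]; omega)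
  obtain ⟨b, hb⟩ : P.2.Nonempty := card_pos.1 (by rw [h.2.1]; omega)
  have hv : a ∈ (sub G P').verts := by rw [he]; exact Or.inl ha
  have ea : ∀ y, (sub G P').Adj a y ↔ y ∈ P.2 := fun y => by rw [he]; exact adj_left h a y ha
  have eb : ∀ y, (sub G P').Adj b y ↔ y ∈ P.1 := fun y => by rw [he]; exact adj_right h b y hb
  rcases hv with hv | hv
  · left
    have h2 : P'.2 = P.2 := by
      ext y
      rw [← ea y, adj_left h' a y hv]
    have h1 : P'.1 = P.1 := by
      ext y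
      rw [← eb y, adj_right h' b y (by rw [h2]; exact hb)]
    exact Prod.ext h1 h2
  · right
    have h2 : P'.1 = P.2 := by
      ext y
      rw [← ea y, adj_right h' a y hv]
    have h1 : P'.2 = P.1 := by
      ext y
      rw [← eb y, adj_left h' b y (by rw [h2]; exact hb)]
    exact Prod.ext h2 h1

theorem iso {t : ℕ} {G : SimpleGraph V} {P : Finset V × Finset V} (h : IsBi t G P) :
    Nonempty (completeBipartiteGraph (Fin t) (Fin t) ≃g (sub G P).coe) := by
  let eA := (P.1.equivFinOfCardEq h.1).symm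
  let eB := (P.2.equivFinOfCardEq h.2.1).symm
  let g : Fin t ⊕ Fin t → (sub G P).verts :=
    Sum.elim (fun i => ⟨(eA i).1, Or.inl (eA i).2⟩) (fun i => ⟨(eB i).1, Or.inr (eB i).2⟩)
  have gi : Function.Injective g := by
    rintro (i | i) (j | j) hij
    · have := congrArg Subtype.val hij
      exact congrArg Sum.inl (eA.injective (Subtype.ext this))
    · have := congrArg Subtype.val hij
      have h3 : (eA i).1 = (eB j).1 := this
      exact (disj h _ (eA i).2 (by rw [h3]; exact (eB j).2)).elim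
    · have := congrArg Subtype.val hij
      have h3 : (eB i).1 = (eA j).1 := this
      exact (disj h _ (eA j).2 (by rw [← h3]; exact (eB i).2)).elim
    · have := congrArg Subtype.val hij
      exact congrArg Sum.inr (eB.injective (Subtype.ext this))
  have gs : Function.Surjective g := by
    rintro ⟨x, hx | hx⟩
    · exact ⟨Sum.inl (eA.symm ⟨x, hx⟩), Subtype.ext (by simp [g])⟩
    · exact ⟨Sum.inr (eB.symm ⟨x, hx⟩), Subtype.ext (by simp [g])⟩
  refine ⟨⟨Equiv.ofBijective g ⟨gi, gs⟩, ?_⟩⟩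
  intro s s'
  rw [SimpleGraph.Subgraph.coe_adj, sub_adj h]
  rcases s with i | i <;> rcases s' with j | j
  · simp only [Equiv.ofBijective_apply, g, Sum.elim_inl, completeBipartiteGraph_adj, Sum.isLeft_inl,
      Sum.isRight_inl]
    constructor
    · rintro (⟨h1, h2⟩ | ⟨h1, h2⟩)
      · exact (disj h _ (eA j).2 h2).elim
      · exact (disj h _ (eA i).2 h1).elim
    · simp
  · exact ⟨fun _ => by simp, fun _ => Or.inl ⟨(eA i).2, (eB j).2⟩⟩
  · exact ⟨fun _ => by simp, fun _ => Or.inr ⟨(eB i).2, (eA j).2⟩⟩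
  · simp only [Equiv.ofBijective_apply, g, Sum.elim_inr, completeBipartiteGraph_adj, Sum.isLeft_inr,
      Sum.isRight_inr]
    constructor
    · rintro (⟨h1, h2⟩ | ⟨h1, h2⟩)
      · exact (disj h _ h1 (eB i).2).elim
      · exact (disj h _ h2 (eB j).2).elim
    · simp

theorem exists_pair {t : ℕ} {G : SimpleGraph V} (G' : G.Subgraph)
    (e : completeBipartiteGraph (Fin t) (Fin t) ≃g G'.coe) :
    ∃ P : Finset V × Finset V, IsBi t G P ∧ sub G P = G' := by
  have inj : Function.Injective fun s : Fin t ⊕ Fin t => (e s).1 :=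
    Subtype.val_injective.comp e.injective
  let A : Finset V := univ.map ⟨fun i : Fin t => (e (Sum.inl i)).1, fun i j h => Sum.inl_injective (inj h)⟩
  let B : Finset V := univ.map ⟨fun i : Fin t => (e (Sum.inr i)).1, fun i j h => Sum.inr_injective (inj h)⟩
  have hA : ∀ x, x ∈ A ↔ ∃ i, (e (Sum.inl i)).1 = x := by
    intro x
    simp only [A, mem_map, mem_univ, true_and]
    rfl
  have hB : ∀ x, x ∈ B ↔ ∃ i, (e (Sum.inr i)).1 = x := by
    intro x
    simp only [B, mem_map, mem_univ, true_and]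
    rfl
  have hadj : ∀ s s', G'.Adj (e s).1 (e s').1 ↔ (completeBipartiteGraph (Fin t) (Fin t)).Adj s s' := by
    intro s s'
    rw [← SimpleGraph.Subgraph.coe_adj]
    exact e.map_adj_iff
  have hbi : IsBi t G (A, B) := by
    refine ⟨by simp [A], by simp [B], ?_⟩
    intro a ha b hb
    obtain ⟨i, rfl⟩ := (hA a).1 ha
    obtain ⟨j, rfl⟩ := (hB b).1 hb
    exact G'.adj_sub ((hadj _ _).2 (by simp))
  refine ⟨(A, B), hbi, ?_⟩
  have hv : ∀ x, x ∈ G'.verts → ∃ s, (e s).1 = x := by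
    intro x hx
    obtain ⟨s, hs⟩ := e.surjective ⟨x, hx⟩
    exact ⟨s, congrArg Subtype.val hs⟩
  ext x y
  · show (x ∈ A ∨ x ∈ B) ↔ _
    constructor
    · rintro (h | h)
      · obtain ⟨i, rfl⟩ := (hA x).1 h
        exact (e (Sum.inl i)).2
      · obtain ⟨i, rfl⟩ := (hB x).1 h
        exact (e (Sum.inr i)).2
    · intro hx
      obtain ⟨s, hs⟩ := hv x hx
      rcases s with i | i
      · exact Or.inl ((hA x).2 ⟨i, hs⟩)
      · exact Or.inr ((hB x).2 ⟨i, hs⟩)
  · rw [sub_adj hbi]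
    constructor
    · rintro (⟨h1, h2⟩ | ⟨h1, h2⟩)
      · obtain ⟨i, rfl⟩ := (hA x).1 h1
        obtain ⟨j, rfl⟩ := (hB y).1 h2
        exact (hadj _ _).2 (by simp)
      · obtain ⟨i, rfl⟩ := (hB x).1 h1
        obtain ⟨j, rfl⟩ := (hA y).1 h2
        exact (hadj _ _).2 (by simp)
    · intro hxy
      obtain ⟨s, rfl⟩ := hv x (G'.edge_vert hxy)
      obtain ⟨s', rfl⟩ := hv y (G'.edge_vert hxy.symm)
      have h3 := (hadj s s').1 hxy
      rcases s with i | i <;> rcases s' with j | j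
      · simp at h3
      · exact Or.inl ⟨(hA _).2 ⟨i, rfl⟩, (hB _).2 ⟨j, rfl⟩⟩
      · exact Or.inr ⟨(hB _).2 ⟨i, rfl⟩, (hA _).2 ⟨j, rfl⟩⟩
      · simp at h3

theorem t : StCopy := by
  classical
  intro V _ t ht G
  unfold bi SimpleGraph.copyCount
  rw [card_eq_sum_card_fiberwise (f := fun P => sub G P)
    (t := univ.filter fun G' : G.Subgraph =>
      Nonempty (completeBipartiteGraph (Fin t) (Fin t) ≃g G'.coe))]
  · have h2 : ∀ G' ∈ univ.filter (fun G' : G.Subgraph =>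
        Nonempty (completeBipartiteGraph (Fin t) (Fin t) ≃g G'.coe)),
        ((univ.filter fun P : Finset V × Finset V => IsBi t G P).filter
          fun P => sub G P = G').card = 2 := by
      intro G' hG'
      obtain ⟨e⟩ := (mem_filter.1 hG').2
      obtain ⟨P, hP, rfl⟩ := exists_pair G' e
      have hne : P ≠ (P.2, P.1) := by
        intro h
        have h1 : P.1 = P.2 := congrArg Prod.fst h
        obtain ⟨a, ha⟩ : P.1.Nonempty := card_pos.1 (by rw [hP.1]; omega)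
        exact disj hP a ha (h1 ▸ ha)
      have : ((univ.filter fun P : Finset V × Finset V => IsBi t G P).filter
          fun P' => sub G P' = sub G P) = {P, (P.2, P.1)} := by
        ext P'
        simp only [mem_filter, mem_univ, true_and, mem_insert, mem_singleton]
        constructor
        · rintro ⟨h1, h2⟩
          exact unique ht hP h1 h2
        · rintro (rfl | rfl)
          · exact ⟨hP, rfl⟩
          · exact ⟨swap_bi hP, sub_swap G P⟩
      rw [this, card_pair hne]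
    rw [sum_congr rfl h2, sum_const, smul_eq_mul, mul_comm]
  · intro P hP
    have hP' := (mem_filter.1 hP).2
    simp only [coe_filter, mem_univ, true_and, Set.mem_setOf_eq]
    exact iso hP'

end Pool.Agent.K7.H62.KT.Copy
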