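import Pool.Agent.K7.H24.KT.Stm

set_option autoImplicit false

/-!
# Project KT, job LOW: the lower bound from MAP, PLANE and PRIME
-/

namespace Pool.Agent.K7.H62.KT.Low

open Finset Filter Topology Pool.Agent.K7.H24.KT

theorem t (hMap : StMap) (hPlane : StPlane) (hPrime : StPrime) : StLow := by
  intro ε hε
  set δ : ℝ := min ε (1 / 2) with hδ
  have hδ0 : 0 < δ := lt_min hε (by norm_num)
  have hδε : δ ≤ ε := min_le_left _ _
  have hδ1 : δ ≤ 1 / 2 := min_le_right _ _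
  have hx : Tendsto (fun n : ℕ => Real.sqrt (3 * (n : ℝ))) atTop atTop :=
    Real.tendsto_sqrt_atTop.comp
      ((tendsto_natCast_atTop_atTop (R := ℝ)).const_mul_atTop (by norm_num : (0 : ℝ) < 3))
  filter_upwards [hx.eventually (hPrime δ hδ0), hx.eventually_ge_atTop (52 / ε),
    hx.eventually_ge_atTop 1] with n h1 h2 h3
  obtain ⟨p, hp, hp3, hlo, hhi⟩ := h1
  set x : ℝ := Real.sqrt (3 * (n : ℝ)) with hxdef
  have hx2 : x ^ 2 = 3 * n := Real.sq_sqrt (by positivity)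
  have hx0 : 0 < x := by linarith
  obtain ⟨Q, hQF, G, hQ, hcod, hbi⟩ := hPlane p hp hp3
  have hcard : Fintype.card Q ≤ n := by
    have e1 : (p : ℝ) ^ 2 ≤ 3 * n := by
      rw [← hx2]
      exact pow_le_pow_left₀ (by positivity) hhi 2
    have e2 : p ^ 2 ≤ 3 * n := by exact_mod_cast e1
    have e3 : (p - 1) ^ 2 ≤ p ^ 2 := Nat.pow_le_pow_left (by omega) 2
    omega
  obtain ⟨G', hc', hb'⟩ := hMap Q 3 n hcard (by norm_num) G hcod
  refine ⟨G', hc', ?_⟩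
  have hp1 : 1 ≤ p := hp.one_le
  have e4 : ((p : ℝ) - 1) ^ 4 ≤ 54 * (bi 3 G : ℝ) + 100 * (p : ℝ) ^ 3 := by
    have h := hbi
    have h' : (((p - 1) ^ 4 : ℕ) : ℝ) ≤ ((54 * bi 3 G + 100 * p ^ 3 : ℕ) : ℝ) := by exact_mod_cast h
    push_cast [Nat.cast_sub hp1] at h'
    exact h'
  have e5 : (bi 3 G : ℝ) ≤ bi 3 G' := by exact_mod_cast hb'
  have hpr : (1 : ℝ) ≤ p := by exact_mod_cast hp1
  have e6 : (p : ℝ) ^ 4 - 4 * (p : ℝ) ^ 3 ≤ ((p : ℝ) - 1) ^ 4 := by nlinarith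
  have e7 : ((1 - δ) * x) ^ 4 ≤ (p : ℝ) ^ 4 :=
    pow_le_pow_left₀ (mul_nonneg (by linarith) hx0.le) hlo 4
  have e8 : (p : ℝ) ^ 3 ≤ x ^ 3 := pow_le_pow_left₀ (by positivity) hhi 3
  have e9 : (1 - 4 * δ) * x ^ 4 ≤ ((1 - δ) * x) ^ 4 := by
    rw [mul_pow]
    refine mul_le_mul_of_nonneg_right ?_ (by positivity)
    nlinarith [sq_nonneg δ, sq_nonneg (δ ^ 2), mul_nonneg (sq_nonneg δ) (by linarith : 0 ≤ 1 - δ)]
  have e10 : 52 * x ^ 3 ≤ ε * x ^ 4 := by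
    have h : 52 ≤ ε * x := by
      rw [div_le_iff₀ hε] at h2
      linarith
    have : 52 * x ^ 3 ≤ (ε * x) * x ^ 3 := mul_le_mul_of_nonneg_right h (by positivity)
    calc 52 * x ^ 3 ≤ (ε * x) * x ^ 3 := this
      _ = ε * x ^ 4 := by ring
  have e11 : δ * x ^ 4 ≤ ε * x ^ 4 := mul_le_mul_of_nonneg_right hδε (by positivity)
  have e12 : (n : ℝ) ^ 2 * 9 = x ^ 4 := by
    have : x ^ 4 = (x ^ 2) ^ 2 := by ring
    rw [this, hx2]; ring
  have e13 : (1 / 6 - ε) * (n : ℝ) ^ 2 * 54 = (1 - 6 * ε) * x ^ 4 := by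
    rw [← e12]; ring
  nlinarith

end Pool.Agent.K7.H62.KT.Low
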