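import Pool.Agent.Y818.GF.SW
import Pool.Agent.K7.H24.KT.Stm

set_option autoImplicit false

/-!
# Project KT, job PRIME: primes `1 mod 3` in `[(1 - ε) x, x]`
-/

namespace Pool.Agent.K7.H62.KT.Prime

open Finset Filter Topology

theorem pi_tendsto :
    Tendsto (fun n : ℕ => H343E.piAP n 3 1 * Real.log n / n) atTop (𝓝 (1 / 2)) := by
  obtain ⟨C, hC, x0, h⟩ := Pool.Agent.Y818.GF.sw_FF 2
  have hL : Tendsto (fun n : ℕ => Real.log (n : ℝ)) atTop atTop :=
    Real.tendsto_log_atTop.comp tendsto_natCast_atTop_atTop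
  have hinv : Tendsto (fun n : ℕ => (Real.log (n : ℝ))⁻¹) atTop (𝓝 0) :=
    tendsto_inv_atTop_zero.comp hL
  set g : ℕ → ℝ := fun n => (1 + (Real.log (n : ℝ))⁻¹ + 2 * (Real.log (n : ℝ))⁻¹ ^ 2 +
    6 * (Real.log (n : ℝ))⁻¹ ^ 3) / 2 with hgdef
  have hg : Tendsto g atTop (𝓝 (1 / 2)) := by
    have h1 := ((((tendsto_const_nhds (x := (1 : ℝ))).add hinv).add
      ((hinv.pow 2).const_mul 2)).add ((hinv.pow 3).const_mul 6)).div_const 2
    have e : ((1 : ℝ) + 0 + 2 * 0 ^ 2 + 6 * 0 ^ 3) / 2 = 1 / 2 := by norm_num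
    rw [e] at h1
    exact h1
  have he : Tendsto (fun n : ℕ => C / 2 * (Real.log (n : ℝ))⁻¹ ^ 4) atTop (𝓝 0) := by
    have h1 := (hinv.pow 4).const_mul (C / 2)
    simpa using h1
  have hd : Tendsto (fun n : ℕ => H343E.piAP n 3 1 * Real.log n / n - g n) atTop (𝓝 0) := by
    refine squeeze_zero_norm' ?_ he
    filter_upwards [hL.eventually_ge_atTop 2, eventually_ge_atTop x0, eventually_ge_atTop 2]
      with n h1 h2 h3
    have hn : (0 : ℝ) < n := by exact_mod_cast (by omega : 0 < n)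
    have hL0 : 0 < Real.log (n : ℝ) := by linarith
    have h4 := h n h2 3 1 (by norm_num) (by push_cast; nlinarith) (by norm_num) (by norm_num)
    have ht : ((Nat.totient 3 : ℕ) : ℝ) = 2 := by
      have : Nat.totient 3 = 2 := by decide
      rw [this]; norm_num
    rw [ht] at h4
    have e1 : H343E.piAP n 3 1 * Real.log n / n - g n =
        (H343E.piAP n 3 1 - Pool.Agent.Y818.GF.FF n / 2) * (Real.log n / n) := by
      simp only [hgdef, Pool.Agent.Y818.GF.FF]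
      field_simp
    have e2 : C / 2 * (Real.log (n : ℝ))⁻¹ ^ 4 =
        C * (n / (2 * Real.log n ^ 5)) * (Real.log n / n) := by
      field_simp
    rw [e1, e2, Real.norm_eq_abs, abs_mul, abs_of_pos (div_pos hL0 hn)]
    exact mul_le_mul_of_nonneg_right h4 (by positivity)
  have := hd.add hg
  simpa using this

theorem piAP_eq (M N : ℕ) (hMN : M ≤ N)
    (hno : ∀ p : ℕ, p.Prime → p % 3 = 1 → M < p → ¬ p ≤ N) :
    H343E.piAP N 3 1 = H343E.piAP M 3 1 := by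
  unfold H343E.piAP
  have e : (Icc 1 N).filter (fun p => p.Prime ∧ p ≡ 1 [MOD 3]) =
      (Icc 1 M).filter (fun p => p.Prime ∧ p ≡ 1 [MOD 3]) := by
    ext p
    simp only [mem_filter, mem_Icc]
    constructor
    · rintro ⟨⟨h1, h2⟩, h3, h4⟩
      refine ⟨⟨h1, ?_⟩, h3, h4⟩
      by_contra h5
      exact hno p h3 (by have h6 : p % 3 = 1 % 3 := h4; omega) (by omega) h2
    · rintro ⟨⟨h1, h2⟩, h3, h4⟩
      exact ⟨⟨h1, by omega⟩, h3, h4⟩
  rw [e]

/-- `log ⌊a x⌋ / log x → 1` -/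
theorem log_floor (a : ℝ) (ha : 0 < a) :
    Tendsto (fun x : ℝ => Real.log (⌊a * x⌋₊ : ℕ) / Real.log x) atTop (𝓝 1) := by
  have h1 : Tendsto (fun x : ℝ => (⌊a * x⌋₊ : ℝ) / x) atTop (𝓝 a) :=
    tendsto_nat_floor_mul_div_atTop ha.le
  have h2 : Tendsto (fun x : ℝ => Real.log ((⌊a * x⌋₊ : ℝ) / x)) atTop (𝓝 (Real.log a)) :=
    h1.log ha.ne'
  have h3 : Tendsto (fun x : ℝ => Real.log ((⌊a * x⌋₊ : ℝ) / x) * (Real.log x)⁻¹) atTop (𝓝 0) := by
    have := h2.mul (tendsto_inv_atTop_zero.comp Real.tendsto_log_atTop)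
    simpa using this
  have h4 : Tendsto (fun x : ℝ => 1 + Real.log ((⌊a * x⌋₊ : ℝ) / x) * (Real.log x)⁻¹) atTop
      (𝓝 1) := by
    have := h3.const_add 1
    simpa using this
  refine h4.congr' ?_
  filter_upwards [h1.eventually_const_lt ha, eventually_gt_atTop 1] with x hx1 hx2
  have hx0 : 0 < x := by linarith
  have hl : 0 < Real.log x := Real.log_pos hx2
  have hf : (0 : ℝ) < (⌊a * x⌋₊ : ℝ) := by
    by_contra hcon
    have : (⌊a * x⌋₊ : ℝ) / x ≤ 0 := div_nonpos_of_nonpos_of_nonneg (not_lt.1 hcon) hx0.le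
    linarith
  rw [Real.log_div hf.ne' hx0.ne']
  field_simp
  ring

theorem t : Pool.Agent.K7.H24.KT.StPrime := by
  intro ε hε
  set δ : ℝ := min ε (1 / 2) with hδ
  have hδ0 : 0 < δ := lt_min hε (by norm_num)
  have hδε : δ ≤ ε := min_le_left _ _
  have hδ1 : δ ≤ 1 / 2 := min_le_right _ _
  have ha : 0 < 1 - δ := by linarith
  have hN : Tendsto (fun x : ℝ => ⌊(1 : ℝ) * x⌋₊) atTop atTop := by
    simpa using (tendsto_nat_floor_atTop (α := ℝ))
  have hM : Tendsto (fun x : ℝ => ⌊(1 - δ) * x⌋₊) atTop atTop :=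
    tendsto_nat_floor_atTop.comp (tendsto_id.const_mul_atTop ha)
  have h1 := pi_tendsto.comp hN
  have h2 := pi_tendsto.comp hM
  have h3 : Tendsto (fun x : ℝ => (⌊(1 - δ) * x⌋₊ : ℝ) / x) atTop (𝓝 (1 - δ)) :=
    tendsto_nat_floor_mul_div_atTop ha.le
  have h4 : Tendsto (fun x : ℝ => (⌊(1 : ℝ) * x⌋₊ : ℝ) / x) atTop (𝓝 1) :=
    tendsto_nat_floor_mul_div_atTop zero_le_one
  have h5 := log_floor 1 one_pos
  have h6 := log_floor (1 - δ) ha
  have h7 := h1.sub ((h2.mul (h3.div h4 one_ne_zero)).mul (h5.div h6 one_ne_zero))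
  have hlim : (1 : ℝ) / 2 - 1 / 2 * ((1 - δ) / 1) * (1 / 1) = δ / 2 := by ring
  rw [hlim] at h7
  filter_upwards [h7.eventually_const_lt (by linarith : (0 : ℝ) < δ / 2), hM.eventually_ge_atTop 2,
    eventually_gt_atTop 4] with x hx hM2 hx4
  have hx0 : 0 < x := by linarith
  by_contra hcon
  push Not at hcon
  have hMN : ⌊(1 - δ) * x⌋₊ ≤ ⌊(1 : ℝ) * x⌋₊ := Nat.floor_le_floor (by nlinarith)
  have heq := piAP_eq ⌊(1 - δ) * x⌋₊ ⌊(1 : ℝ) * x⌋₊ hMN (by
    intro p hp1 hp2 hp3 hp4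
    have h8 : (1 - δ) * x < p := (Nat.floor_lt (by positivity)).1 hp3
    have h9 : (p : ℝ) ≤ x := by
      have := (Nat.le_floor_iff (by linarith)).1 hp4
      linarith
    have h10 : (1 - ε) * x ≤ p := by nlinarith
    exact absurd h9 (not_le.2 (hcon p hp1 hp2 h10)))
  set M := ⌊(1 - δ) * x⌋₊ with hMdef
  set N := ⌊(1 : ℝ) * x⌋₊ with hNdef
  have hM0 : (2 : ℝ) ≤ M := by exact_mod_cast hM2
  have hN0 : (2 : ℝ) ≤ N := by exact_mod_cast hM2.trans hMN
  have hlM : 0 < Real.log M := Real.log_pos (by linarith)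
  have hlN : 0 < Real.log N := Real.log_pos (by linarith)
  have hlx : 0 < Real.log x := Real.log_pos (by linarith)
  have hz : ((fun n : ℕ => H343E.piAP n 3 1 * Real.log n / n) ∘ fun x : ℝ => ⌊(1 : ℝ) * x⌋₊) x -
      ((fun n : ℕ => H343E.piAP n 3 1 * Real.log n / n) ∘ fun x : ℝ => ⌊(1 - δ) * x⌋₊) x *
        ((M : ℝ) / x / ((N : ℝ) / x)) *
        (Real.log N / Real.log x / (Real.log M / Real.log x)) = 0 := by
    simp only [Function.comp_apply]
    rw [← hMdef, ← hNdef, heq]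
    field_simp
    ring
  have hx' : (0 : ℝ) < ((fun n : ℕ => H343E.piAP n 3 1 * Real.log n / n) ∘
      fun x : ℝ => ⌊(1 : ℝ) * x⌋₊) x -
      ((fun n : ℕ => H343E.piAP n 3 1 * Real.log n / n) ∘ fun x : ℝ => ⌊(1 - δ) * x⌋₊) x *
        ((M : ℝ) / x / ((N : ℝ) / x)) *
        (Real.log N / Real.log x / (Real.log M / Real.log x)) := hx
  rw [hz] at hx'
  exact lt_irrefl _ hx'

end Pool.Agent.K7.H62.KT.Prime
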