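import Mathlib
import Pool.Agent.W333.HF.POL
import Pool.Agent.K7.H62.Cnt

/-! Popular sums modulo a prime, from Pollard's theorem. -/

set_option autoImplicit false

namespace Pool.Agent.K7.H62

open Finset
open Pool.Agent.W333.HF (rr rr_le_left)

/-- recursion for the number of representations -/
theorem rep_succ {G : Type} [AddCommGroup G] [DecidableEq G] {s : ℕ} (A : Fin (s + 1) → Finset G) (u : G) :
    rep A u = ∑ x ∈ A 0, rep (fun j => A j.succ) (u - x) := by
  unfold rep
  rw [card_eq_sum_card_fiberwise (f := fun x : Fin (s + 1) → G => x 0) (t := A 0)]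
  · refine sum_congr rfl fun x hx => ?_
    refine card_nbij' (fun y => fun j => y j.succ) (fun y => Fin.cons x y) ?_ ?_ ?_ ?_
    · intro y hy
      simp only [mem_coe, mem_filter, Fintype.mem_piFinset] at hy ⊢
      refine ⟨fun j => hy.1.1 _, ?_⟩
      rw [← hy.1.2, Fin.sum_univ_succ, hy.2]
      abel
    · intro y hy
      simp only [mem_coe, mem_filter, Fintype.mem_piFinset] at hy ⊢
      refine ⟨⟨fun j => ?_, ?_⟩, rfl⟩
      · refine Fin.cases hx (fun j => ?_) j
        exact hy.1 j
      · rw [Fin.sum_univ_succ]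
        simp only [Fin.cons_zero, Fin.cons_succ]
        rw [hy.2]
        abel
    · intro y hy
      simp only [mem_coe, mem_filter] at hy
      funext j
      refine Fin.cases ?_ (fun j => rfl) j
      exact hy.2.symm
    · intro y _
      rfl
  · intro x hx
    simp only [mem_coe, mem_filter, Fintype.mem_piFinset] at hx ⊢
    exact hx.1 0

/-- two sets -/
theorem pop_two {p : ℕ} [NeZero p] (hp : p.Prime) {δ : ℝ} (hδ : 0 < δ) (hδp : 4 ≤ δ * p)
    (X Y : Finset (ZMod p)) (hX : δ * p ≤ X.card) (hY : δ * p ≤ Y.card) {a : ℝ} (ha : a ≤ p)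
    (ha2 : a ≤ X.card + Y.card) :
    a - δ * p ≤ ((univ.filter (fun e => δ ^ 2 * p / 8 ≤ (rr X Y e : ℝ))).card : ℝ) := by
  classical
  have hp0 : (0 : ℝ) < p := by exact_mod_cast hp.pos
  have hδp0 : 0 < δ * p := by positivity
  set t : ℕ := ⌊δ * p / 2⌋₊ with ht
  have ht1 : (t : ℝ) ≤ δ * p / 2 := Nat.floor_le (by positivity)
  have ht2 : δ * p / 2 - 1 < t := Nat.sub_one_lt_floor _
  have ht3 : δ * p / 4 ≤ t := by linarith
  have ht0 : (0 : ℝ) < t := by linarith
  have htX : t ≤ X.card := by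
    have : (t : ℝ) ≤ X.card := by linarith
    exact_mod_cast this
  have htY : t ≤ Y.card := by
    have : (t : ℝ) ≤ Y.card := by linarith
    exact_mod_cast this
  have h1 := Pool.Agent.W333.HF.main hp Y.card X Y t rfl htX htY
  set P := univ.filter (fun e => δ ^ 2 * p / 8 ≤ (rr X Y e : ℝ)) with hP
  have h2 : ((∑ d : ZMod p, min t (rr X Y d) : ℕ) : ℝ) ≤ t * P.card + p * (δ ^ 2 * p / 8) := by
    push_cast
    rw [← sum_filter_add_sum_filter_not univ (fun e => δ ^ 2 * p / 8 ≤ (rr X Y e : ℝ))]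
    refine add_le_add ?_ ?_
    · refine (sum_le_card_nsmul _ _ (t : ℝ) fun e _ => min_le_left _ _).trans ?_
      rw [nsmul_eq_mul, mul_comm]
    · refine (sum_le_card_nsmul _ _ (δ ^ 2 * p / 8) fun e he => (min_le_right _ _).trans
        (not_le.1 (mem_filter.1 he).2).le).trans ?_
      rw [nsmul_eq_mul]
      refine mul_le_mul_of_nonneg_right ?_ (by positivity)
      have := card_filter_le (univ : Finset (ZMod p)) (fun e => ¬ δ ^ 2 * p / 8 ≤ (rr X Y e : ℝ))
      rw [card_univ, ZMod.card] at this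
      exact_mod_cast this
  have h3 : (t : ℝ) * (min p (X.card + Y.card - t) : ℕ) ≤ t * P.card + p * (δ ^ 2 * p / 8) := by
    refine le_trans ?_ h2
    exact_mod_cast h1
  have h4 : a - t ≤ ((min p (X.card + Y.card - t) : ℕ) : ℝ) := by
    rw [Nat.cast_min, Nat.cast_sub (by omega)]
    push_cast
    refine le_min (by linarith) (by linarith)
  have h5 : (t : ℝ) * (a - t) ≤ t * P.card + p * (δ ^ 2 * p / 8) :=
    (mul_le_mul_of_nonneg_left h4 ht0.le).trans h3
  have h6 : (p : ℝ) * (δ ^ 2 * p / 8) ≤ t * (δ * p / 2) := by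
    have : (p : ℝ) * (δ ^ 2 * p / 8) = (δ * p / 4) * (δ * p / 2) := by ring
    rw [this]
    exact mul_le_mul_of_nonneg_right ht3 (by positivity)
  have h7 : (t : ℝ) * (a - t) ≤ t * (P.card + δ * p / 2) := by
    rw [mul_add]; linarith
  have h8 := le_of_mul_le_mul_left h7 ht0
  linarith

/-- **popular sums** of several sets -/
theorem pop_sum (s : ℕ) {δ : ℝ} (hδ : 0 < δ) : ∃ c : ℝ, 0 < c ∧ ∀ (p : ℕ) [NeZero p], p.Prime →
    4 ≤ δ * p → ∀ (β a : ℝ), β ≤ 1 → ((s : ℝ) + 1) * δ ≤ β → a ≤ 1 → a ≤ (s + 1) * β →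
    ∀ S : Fin (s + 1) → Finset (ZMod p),
    (∀ j, β * p ≤ (S j).card) →
      (a - (s + 1) * δ) * p ≤ ((univ.filter (fun e => c * (p : ℝ) ^ s ≤ (rep S e : ℝ))).card : ℝ) := by
  induction s with
  | zero =>
    refine ⟨1, one_pos, ?_⟩
    intro p _ hp hδp β a hβ1 hβ2 ha1 ha2 S hS
    have hp0 : (0 : ℝ) < p := by exact_mod_cast hp.pos
    have h1 : univ.filter (fun e => 1 * (p : ℝ) ^ 0 ≤ (rep S e : ℝ)) = S 0 := by
      ext e
      rw [mem_filter]
      have h2 : rep S e = if e ∈ S 0 then 1 else 0 := by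
        unfold rep
        split_ifs with h
        · rw [card_eq_one]
          refine ⟨fun _ => e, ?_⟩
          ext x
          rw [mem_filter, mem_singleton, Fintype.mem_piFinset, Fin.sum_univ_one]
          constructor
          · rintro ⟨_, h3⟩
            funext j
            rw [Fin.fin_one_eq_zero j]; exact h3
          · rintro rfl
            exact ⟨fun j => by rw [Fin.fin_one_eq_zero j]; exact h, rfl⟩
        · rw [card_eq_zero, filter_eq_empty_iff]
          intro x hx h3
          rw [Fintype.mem_piFinset] at hx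
          rw [Fin.sum_univ_one] at h3
          exact h (h3 ▸ hx 0)
      rw [h2]
      split_ifs with h <;> simp [h]
    rw [h1]
    refine le_trans ?_ (hS 0)
    refine mul_le_mul_of_nonneg_right ?_ hp0.le
    push_cast at ha2 ⊢
    linarith
  | succ s ih =>
    obtain ⟨c, hc, ih⟩ := ih
    refine ⟨c * (δ ^ 2 / 8), by positivity, ?_⟩
    intro p _ hp hδp β a hβ1 hβ2 ha1 ha2 S hS
    have hp0 : (0 : ℝ) < p := by exact_mod_cast hp.pos
    have hs0 : (0 : ℝ) ≤ s := Nat.cast_nonneg _
    push_cast at hβ2 ha2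
    -- the density of the popular sums of the first sets
    set a' : ℝ := min 1 ((s + 1) * β) with ha'
    have ha'1 : a' ≤ 1 := min_le_left _ _
    have ha'2 : a' ≤ (s + 1) * β := min_le_right _ _
    have hβ0 : 0 < β := lt_of_lt_of_le (by positivity) hβ2
    have hβa : β ≤ a' := le_min hβ1 (by nlinarith)
    have h1 := ih p hp hδp β a' hβ1 (by nlinarith) ha'1 ha'2 (fun j => S j.succ) (fun j => hS _)
    set P' := univ.filter (fun e => c * (p : ℝ) ^ s ≤ (rep (fun j : Fin (s + 1) => S j.succ) e : ℝ)) with hP'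
    have h2 := pop_two hp hδ hδp (S 0) P' (le_trans (mul_le_mul_of_nonneg_right (by nlinarith) hp0.le) (hS 0))
      (le_trans (mul_le_mul_of_nonneg_right (by nlinarith) hp0.le) h1)
      (a := (a - (s + 1) * δ) * p) (by nlinarith) (by
        have h3 := hS 0
        have h4 : a ≤ β + a' := by
          rcases le_total 1 ((s + 1) * β) with h | h
          · rw [ha', min_eq_left h]; linarith
          · rw [ha', min_eq_right h]; linarith
        nlinarith)
    have h3 : (a - (((s + 1 : ℕ) : ℝ) + 1) * δ) * p = (a - (s + 1) * δ) * p - δ * p := by push_cast; ring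
    rw [h3]
    refine h2.trans ?_
    rw [Nat.cast_le]
    apply card_le_card
    intro e he
    rw [mem_filter] at he ⊢
    refine ⟨mem_univ _, ?_⟩
    rw [rep_succ]
    push_cast
    have h4 : ∑ x ∈ (S 0).filter (fun x => e - x ∈ P'), c * (p : ℝ) ^ s ≤
        ∑ x ∈ S 0, (rep (fun j : Fin (s + 1) => S j.succ) (e - x) : ℝ) := by
      refine le_trans (sum_le_sum (g := fun x => (rep (fun j : Fin (s + 1) => S j.succ) (e - x) : ℝ)) ?_)
        (sum_le_sum_of_subset_of_nonneg (filter_subset _ _) fun _ _ _ => Nat.cast_nonneg _)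
      intro x hx
      exact (mem_filter.1 (mem_filter.1 hx).2).2
    refine le_trans ?_ h4
    rw [sum_const, nsmul_eq_mul]
    have h5 := he.2
    unfold rr at h5
    calc c * (δ ^ 2 / 8) * (p : ℝ) ^ (s + 1) = (δ ^ 2 * p / 8) * (c * (p : ℝ) ^ s) := by ring
      _ ≤ _ := mul_le_mul_of_nonneg_right h5 (by positivity)

end Pool.Agent.K7.H62
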