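import Mathlib
import Pool.Agent.K7.H62.Two
import Pool.Agent.K7.H62.Pop

/-! Auxiliary counting for the main count. -/

set_option autoImplicit false

namespace Pool.Agent.K7.H62

open Finset

/-- double counting -/
theorem dbl {α β : Type} [Fintype β] [DecidableEq β] (T : Finset α) (P : α → Finset β) {lam δ : ℝ} (hδ : 0 ≤ δ)
    (hT : 0 < T.card) (hP : ∀ x ∈ T, lam * Fintype.card β ≤ (P x).card) :
    (lam - δ) * Fintype.card β ≤
      ((univ.filter (fun b => δ * T.card ≤ ((T.filter (fun x => b ∈ P x)).card : ℝ))).card : ℝ) := by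
  classical
  have hT0 : (0 : ℝ) < T.card := by exact_mod_cast hT
  set E := univ.filter (fun b => δ * T.card ≤ ((T.filter (fun x => b ∈ P x)).card : ℝ)) with hE
  have h1 : ∑ b, ((T.filter (fun x => b ∈ P x)).card : ℝ) = ∑ x ∈ T, ((P x).card : ℝ) := by
    have e1 : ∀ b, ((T.filter (fun x => b ∈ P x)).card : ℝ) = ∑ x ∈ T, (if b ∈ P x then (1 : ℝ) else 0) := by
      intro b; rw [sum_boole]
    rw [sum_congr rfl fun b _ => e1 b, sum_comm]
    refine sum_congr rfl fun x _ => ?_
    rw [sum_boole, filter_mem_eq_inter, univ_inter]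
  have h2 : lam * Fintype.card β * T.card ≤ ∑ x ∈ T, ((P x).card : ℝ) := by
    have := card_nsmul_le_sum T (fun x => ((P x).card : ℝ)) _ hP
    rw [nsmul_eq_mul] at this
    linarith
  have h3 : ∑ b, ((T.filter (fun x => b ∈ P x)).card : ℝ) ≤ E.card * T.card + Fintype.card β * (δ * T.card) := by
    rw [← sum_filter_add_sum_filter_not univ (fun b => δ * T.card ≤ ((T.filter (fun x => b ∈ P x)).card : ℝ))]
    refine add_le_add ?_ ?_
    · rw [← nsmul_eq_mul]
      refine sum_le_card_nsmul _ _ _ fun b _ => ?_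
      exact_mod_cast card_filter_le _ _
    · refine (sum_le_card_nsmul _ _ _ fun b hb => (not_le.1 (mem_filter.1 hb).2).le).trans ?_
      rw [nsmul_eq_mul]
      refine mul_le_mul_of_nonneg_right ?_ (by positivity)
      have := card_filter_le (univ : Finset β) (fun b => ¬ δ * T.card ≤ ((T.filter (fun x => b ∈ P x)).card : ℝ))
      rw [card_univ] at this
      exact_mod_cast this
  rw [h1] at h3
  have h4 : (lam - δ) * Fintype.card β * T.card ≤ E.card * T.card := by linarith
  exact le_of_mul_le_mul_right h4 hT0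

/-- union bound for translates -/
theorem trans_bound {p k : ℕ} [NeZero p] (E : Finset (ZMod p)) (e : Fin (k + 1) → ZMod p) {μ : ℝ}
    (hE : μ * p ≤ E.card) :
    (1 - (k + 1) * (1 - μ)) * p ≤ ((univ.filter (fun e₀ => ∀ i, e₀ + e i ∈ E)).card : ℝ) := by
  classical
  have h1 : ∀ i, ((univ.filter (fun e₀ => ¬ e₀ + e i ∈ E)).card : ℝ) ≤ (1 - μ) * p := by
    intro i
    have e1 : (univ.filter (fun e₀ => e₀ + e i ∈ E)).card = E.card := by
      refine card_nbij' (fun x => x + e i) (fun x => x - e i) ?_ ?_ ?_ ?_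
      · intro x hx; exact (mem_filter.1 hx).2
      · intro x hx
        simp only [mem_coe, mem_filter, mem_univ, true_and, sub_add_cancel]
        exact hx
      · intro x _; simp
      · intro x _; simp
    have e2 := card_filter_add_card_filter_not (s := (univ : Finset (ZMod p))) (fun e₀ => e₀ + e i ∈ E)
    rw [card_univ, ZMod.card, e1] at e2
    have e3 : (E.card : ℝ) + ((univ.filter (fun e₀ => ¬ e₀ + e i ∈ E)).card : ℝ) = p := by exact_mod_cast e2
    linarith
  have h2 : univ \ univ.filter (fun e₀ => ∀ i, e₀ + e i ∈ E) ⊆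
      univ.biUnion (fun i => univ.filter (fun e₀ => ¬ e₀ + e i ∈ E)) := by
    intro x hx
    rw [mem_sdiff, mem_filter] at hx
    simp only [mem_univ, true_and, not_forall] at hx
    obtain ⟨i, hi⟩ := hx
    exact mem_biUnion.2 ⟨i, mem_univ _, mem_filter.2 ⟨mem_univ _, hi⟩⟩
  have h3 := card_le_card h2
  have h4 := le_card_sdiff (univ.filter (fun e₀ => ∀ i, e₀ + e i ∈ E)) (univ : Finset (ZMod p))
  rw [card_univ, ZMod.card] at h4
  have h5 : ((univ.biUnion (fun i => univ.filter (fun e₀ => ¬ e₀ + e i ∈ E))).card : ℝ) ≤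
      (k + 1) * ((1 - μ) * p) := by
    have e1 : ((univ.biUnion (fun i => univ.filter (fun e₀ => ¬ e₀ + e i ∈ E))).card : ℝ) ≤
        ∑ i : Fin (k + 1), ((univ.filter (fun e₀ => ¬ e₀ + e i ∈ E)).card : ℝ) := by
      exact_mod_cast card_biUnion_le
    refine e1.trans ((sum_le_card_nsmul _ _ _ fun i _ => h1 i).trans (le_of_eq ?_))
    rw [card_univ, Fintype.card_fin, nsmul_eq_mul]
    push_cast
    ring
  have h6 : (p : ℝ) ≤ ((univ.filter (fun e₀ => ∀ i, e₀ + e i ∈ E)).card : ℝ) +
      ((univ.biUnion (fun i => univ.filter (fun e₀ => ¬ e₀ + e i ∈ E))).card : ℝ) := by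
    have : p ≤ (univ.filter (fun e₀ => ∀ i, e₀ + e i ∈ E)).card +
      (univ.biUnion (fun i => univ.filter (fun e₀ => ¬ e₀ + e i ∈ E))).card := by omega
    exact_mod_cast this
  linarith

section sl

variable {p Q s : ℕ} [NeZero p] [NeZero Q]

/-- the slice of a set along the approximate subgroup -/
def Sl (y : ZMod p → ZMod Q) (A : Finset (ZMod Q)) (x : ZMod Q) : Finset (ZMod p) :=
  univ.filter (fun e => x + y e ∈ A)

theorem rep_shift (y : ZMod p → ZMod Q) (A : Fin s → Finset (ZMod Q)) (u : ZMod Q) (f : Fin s → ZMod p) :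
    rep A (u + ∑ j, y (f j)) =
      ∑ x ∈ univ.filter (fun x : Fin s → ZMod Q => ∑ j, x j = u), if ∀ j, x j + y (f j) ∈ A j then 1 else 0 := by
  rw [← card_filter]
  unfold rep
  refine card_nbij' (fun x => fun j => x j - y (f j)) (fun x => fun j => x j + y (f j)) ?_ ?_ ?_ ?_
  · intro x hx
    simp only [mem_coe, mem_filter, Fintype.mem_piFinset, mem_univ, true_and, sub_add_cancel] at hx ⊢
    refine ⟨?_, hx.1⟩
    rw [sum_sub_distrib, hx.2]
    ring
  · intro x hx
    simp only [mem_coe, mem_filter, Fintype.mem_piFinset, mem_univ, true_and] at hx ⊢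
    refine ⟨hx.2, ?_⟩
    rw [sum_add_distrib, hx.1]
  · intro x _
    funext j
    simp
  · intro x _
    funext j
    simp

theorem rep_Sl (y : ZMod p → ZMod Q) (A : Fin s → Finset (ZMod Q)) (x : Fin s → ZMod Q) (e : ZMod p) :
    rep (fun j => Sl y (A j) (x j)) e =
      ∑ f ∈ univ.filter (fun f : Fin s → ZMod p => ∑ j, f j = e), if ∀ j, x j + y (f j) ∈ A j then 1 else 0 := by
  rw [← card_filter]
  unfold rep Sl
  congr 1
  ext f
  simp only [mem_filter, Fintype.mem_piFinset, mem_univ, true_and]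
  exact and_comm

/-- the identity for the average over the approximate subgroup -/
theorem rep_avg (y : ZMod p → ZMod Q) (A : Fin s → Finset (ZMod Q)) (u : ZMod Q) (e : ZMod p) :
    ∑ f ∈ univ.filter (fun f : Fin s → ZMod p => ∑ j, f j = e), rep A (u + ∑ j, y (f j)) =
      ∑ x ∈ univ.filter (fun x : Fin s → ZMod Q => ∑ j, x j = u), rep (fun j => Sl y (A j) (x j)) e := by
  rw [sum_congr rfl fun f _ => rep_shift y A u f, sum_congr rfl fun x _ => rep_Sl y A x e, sum_comm]

theorem sum_Sl (y : ZMod p → ZMod Q) (A : Finset (ZMod Q)) : ∑ x, (Sl y A x).card = p * A.card := by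
  unfold Sl
  simp only [card_filter]
  rw [sum_comm]
  have h1 : ∀ e : ZMod p, ∑ x : ZMod Q, (if x + y e ∈ A then 1 else 0) = A.card := by
    intro e
    refine (Equiv.sum_comp (Equiv.addRight (y e)) (fun x : ZMod Q => if x ∈ A then (1 : ℕ) else 0)).trans ?_
    simp
  rw [sum_congr rfl fun e _ => h1 e, sum_const, card_univ, ZMod.card, smul_eq_mul]

/-- many points have a slice of large density -/
theorem X_card {n : ℕ} (A : Finset ℤ) (hA : A ⊆ Icc 1 (n : ℤ)) {σ : ℤ} (hσ : σ = 1 ∨ σ = -1) (y : ZMod p → ℤ)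
    {Y : ℕ} (hY : ∀ e, |y e| ≤ Y) {β : ℝ} (hβ : 0 ≤ β) (hQ : n ≤ Q) :
    (A.card : ℝ) - β * (n + 2 * Y) ≤ ((univ.filter (fun x : ZMod Q =>
      β * p ≤ ((Sl (fun e => (y e : ZMod Q)) (imgQ Q σ A) x).card : ℝ))).card : ℝ) := by
  classical
  have hp0 : (0 : ℝ) < p := by exact_mod_cast (NeZero.pos p)
  set y' : ZMod p → ZMod Q := fun e => (y e : ZMod Q) with hy'
  set X := univ.filter (fun x : ZMod Q => β * p ≤ ((Sl y' (imgQ Q σ A) x).card : ℝ)) with hX
  set Sup := univ.filter (fun x : ZMod Q => (Sl y' (imgQ Q σ A) x).Nonempty) with hSup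
  have hSupc : Sup.card ≤ n + 2 * Y := by
    have h1 : Sup ⊆ (Icc (1 - (Y : ℤ)) (n + Y)).image (fun z : ℤ => ((σ * z : ℤ) : ZMod Q)) := by
      intro x hx
      obtain ⟨e, he⟩ := (mem_filter.1 hx).2
      have h2 := (mem_filter.1 he).2
      obtain ⟨a, ha, hax⟩ := mem_image.1 h2
      have h3 := mem_Icc.1 (hA ha)
      have h4 := abs_le.1 (hY e)
      refine mem_image.2 ⟨a - σ * y e, ?_, ?_⟩
      · rw [mem_Icc]
        rcases hσ with rfl | rfl <;> constructor <;> linarith
      · have h5 : x = ((σ * a : ℤ) : ZMod Q) - (y e : ZMod Q) := by rw [hax]; ring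
        rw [h5, ← Int.cast_sub]
        congr 1
        rcases hσ with rfl | rfl <;> ring
    refine (card_le_card h1).trans (card_image_le.trans ?_)
    rw [Int.card_Icc]
    omega
  have h1 : ((∑ x : ZMod Q, (Sl y' (imgQ Q σ A) x).card : ℕ) : ℝ) = p * A.card := by
    rw [sum_Sl, card_imgQ hQ hA hσ]; push_cast; ring
  push_cast at h1
  have h2 : ∑ x : ZMod Q, ((Sl y' (imgQ Q σ A) x).card : ℝ) ≤ X.card * p + Sup.card * (β * p) := by
    have e1 : ∀ x, ((Sl y' (imgQ Q σ A) x).card : ℝ) ≤ (if x ∈ X then (p : ℝ) else 0) + (if x ∈ Sup then β * p else 0) := by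
      intro x
      have e2 : ((Sl y' (imgQ Q σ A) x).card : ℝ) ≤ p := by
        have := card_filter_le (univ : Finset (ZMod p)) (fun e => x + y' e ∈ imgQ Q σ A)
        rw [card_univ, ZMod.card] at this
        exact_mod_cast this
      have e4 : 0 ≤ β * p := by positivity
      by_cases h : x ∈ X
      · rw [if_pos h]
        split_ifs <;> linarith
      · rw [if_neg h, zero_add]
        by_cases h3 : x ∈ Sup
        · rw [if_pos h3]
          have : ¬ β * p ≤ ((Sl y' (imgQ Q σ A) x).card : ℝ) := fun h5 => h (mem_filter.2 ⟨mem_univ _, h5⟩)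
          exact (not_le.1 this).le
        · rw [if_neg h3]
          have : ¬ (Sl y' (imgQ Q σ A) x).Nonempty := fun h5 => h3 (mem_filter.2 ⟨mem_univ _, h5⟩)
          rw [not_nonempty_iff_eq_empty.1 this]
          simp
    refine (sum_le_sum fun x _ => e1 x).trans ?_
    rw [sum_add_distrib, sum_ite_mem, sum_ite_mem, univ_inter, univ_inter, sum_const, sum_const, nsmul_eq_mul,
      nsmul_eq_mul]
  have h3 : (Sup.card : ℝ) * (β * p) ≤ (n + 2 * Y) * (β * p) :=
    mul_le_mul_of_nonneg_right (by exact_mod_cast hSupc) (by positivity)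
  rw [h1] at h2
  have h4 : ((A.card : ℝ) - β * (n + 2 * Y)) * p ≤ X.card * p := by linarith
  exact le_of_mul_le_mul_right h4 hp0

end sl

end Pool.Agent.K7.H62
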