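import Mathlib
import Pool.Agent.K7.H62.MC1

/-! The main count: simultaneous representations of `u + z_i` as sums of few elements. -/

set_option autoImplicit false

namespace Pool.Agent.K7.H62

open Finset

open Classical in
theorem lower {p Q s : ℕ} [NeZero p] [NeZero Q] (y : ZMod p → ZMod Q) (A X : Fin s → Finset (ZMod Q)) {c : ℝ}
    (u : ZMod Q) (e : ZMod p) :
    c * ((((Fintype.piFinset X).filter (fun x => ∑ j, x j = u)).filter (fun x =>
      e ∈ univ.filter (fun e => c ≤ (rep (fun j => Sl y (A j) (x j)) e : ℝ)))).card : ℝ) ≤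
      ∑ f ∈ univ.filter (fun f : Fin s → ZMod p => ∑ j, f j = e), (rep A (u + ∑ j, y (f j)) : ℝ) := by
  have h1 : ∑ f ∈ univ.filter (fun f : Fin s → ZMod p => ∑ j, f j = e), (rep A (u + ∑ j, y (f j)) : ℝ) =
      ∑ x ∈ univ.filter (fun x : Fin s → ZMod Q => ∑ j, x j = u), (rep (fun j => Sl y (A j) (x j)) e : ℝ) := by
    exact_mod_cast rep_avg y A u e
  rw [h1, mul_comm, ← nsmul_eq_mul]
  set T' := ((Fintype.piFinset X).filter (fun x => ∑ j, x j = u)).filter (fun x =>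
      e ∈ univ.filter (fun e => c ≤ (rep (fun j => Sl y (A j) (x j)) e : ℝ))) with hT'
  have h2 : T' ⊆ univ.filter (fun x : Fin s → ZMod Q => ∑ j, x j = u) := by
    intro x hx
    rw [hT', mem_filter, mem_filter] at hx
    exact mem_filter.2 ⟨mem_univ _, hx.1.2⟩
  have h3 : ∀ x ∈ T', c ≤ (rep (fun j => Sl y (A j) (x j)) e : ℝ) := by
    intro x hx
    rw [hT', mem_filter] at hx
    exact (mem_filter.1 hx.2).2
  have h4 : T'.card • c ≤ ∑ x ∈ T', (rep (fun j => Sl y (A j) (x j)) e : ℝ) :=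
    card_nsmul_le_sum T' _ c h3
  refine h4.trans (sum_le_sum_of_subset_of_nonneg h2 ?_)
  intro x _ _
  exact Nat.cast_nonneg _

theorem sum_card_eq (p m : ℕ) [NeZero p] (e : ZMod p) :
    (univ.filter (fun f : Fin (m + 2) → ZMod p => ∑ j, f j = e)).card ≤ p ^ (m + 1) := by
  have := rep_bound (s := m + 1) (n := p) (fun _ => (univ : Finset (ZMod p))) (fun _ => by
    rw [card_univ, ZMod.card]) e
  unfold rep at this
  rw [Fintype.piFinset_univ] at this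
  exact this

set_option maxHeartbeats 4000000 in
open Classical in
theorem main_count (m k : ℕ) (hmk : 18 * (k + 1) < 18 + 5 * (m + 2) * (k + 1)) :
    ∃ (κ c : ℝ) (P₀ : ℕ), 0 < κ ∧ 0 < c ∧ ∀ (p : ℕ) [NeZero p], p.Prime → P₀ ≤ p → ∀ y : ZMod p → ℤ, ∃ n₁ : ℕ,
      ∀ (n Q : ℕ) [NeZero Q], n₁ ≤ n → Q = (m + 3) * n → ∀ A : Finset ℤ, A ⊆ Icc 1 (n : ℤ) →
        (5 / 18 - 1 / (1000 * ((k : ℝ) + 1) * (m + 3))) * n ≤ (A.card : ℝ) →
        ∀ σ : Fin (m + 2) → ℤ, (∀ j, σ j = 1 ∨ σ j = -1) → ∀ (z : Fin (k + 1) → ℤ) (e : Fin (k + 1) → ZMod p),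
        (∀ (e₀ : ZMod p) (i : Fin (k + 1)) (f : Fin (m + 2) → ZMod p), ∑ j, f j = e₀ + e i →
          ∑ u : ZMod Q, ((rep (fun j => imgQ Q (σ j) A) (u + ((y e₀ + z i : ℤ) : ZMod Q)) : ℝ) -
            rep (fun j => imgQ Q (σ j) A) (u + ((∑ j, y (f j) : ℤ) : ZMod Q))) ^ 2 ≤ κ * (n : ℝ) ^ (2 * m + 3)) →
        c * (n : ℝ) ^ (1 + (m + 1) * (k + 1)) ≤
          ∑ u : ZMod Q, ∏ i, (rep (fun j => imgQ Q (σ j) A) (u + (z i : ZMod Q)) : ℝ) := by
  have hk0 : (0 : ℝ) ≤ k := Nat.cast_nonneg k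
  have hm0 : (0 : ℝ) ≤ m := Nat.cast_nonneg m
  set δ : ℝ := 1 / (1000 * ((k : ℝ) + 1) * (m + 3)) with hδ
  have hδ0 : 0 < δ := by positivity
  have hδ1 : ((k : ℝ) + 1) * ((m + 3) * δ) = 1 / 1000 := by rw [hδ]; field_simp
  have hδ2 : ((m : ℝ) + 3) * δ ≤ 1 / 1000 := by
    have : 0 ≤ (k : ℝ) * ((m + 3) * δ) := by positivity
    linarith
  have hδ3 : 3 * δ ≤ 1 / 1000 := by
    have : 0 ≤ (m : ℝ) * δ := by positivity
    linarith
  set β : ℝ := 5 / 18 - 2 * δ with hβ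
  have hβ1 : 1 / 4 ≤ β := by rw [hβ]; linarith
  have hβ2 : β ≤ 1 / 2 := by rw [hβ]; linarith
  have hβ3 : (((m + 1 : ℕ) : ℝ) + 1) * δ ≤ β := by
    push_cast
    have : ((m : ℝ) + 1 + 1) * δ = (m + 3) * δ - δ := by ring
    linarith
  set a : ℝ := min 1 ((((m + 1 : ℕ) : ℝ) + 1) * β) with ha
  set μ : ℝ := a - (((m + 1 : ℕ) : ℝ) + 1) * δ - δ with hμ
  have hμ1 : ((k : ℝ) + 1) * (1 - μ) ≤ 35 / 36 := by
    have h1 : 1 - μ = 1 - a + (m + 3) * δ := by rw [hμ]; push_cast; ring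
    rw [h1]
    rcases le_total 1 ((((m + 1 : ℕ) : ℝ) + 1) * β) with h | h
    · rw [ha, min_eq_left h]
      have : ((k : ℝ) + 1) * (1 - 1 + (m + 3) * δ) = ((k : ℝ) + 1) * ((m + 3) * δ) := by ring
      rw [this, hδ1]; norm_num
    · rw [ha, min_eq_right h]
      have h2 : 18 * ((k : ℝ) + 1) + 1 ≤ 18 + 5 * (m + 2) * (k + 1) := by exact_mod_cast hmk
      have h3 : ((k : ℝ) + 1) * (1 - (((m + 1 : ℕ) : ℝ) + 1) * β + (m + 3) * δ) =
          (k + 1) * (1 - 5 * (m + 2) / 18) + 3 * (((k : ℝ) + 1) * ((m + 3) * δ)) - 2 * (((k : ℝ) + 1) * δ) := by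
        rw [hβ]; push_cast; ring
      rw [h3, hδ1]
      have h4 : 0 ≤ ((k : ℝ) + 1) * δ := by positivity
      nlinarith
  obtain ⟨c₁, hc₁, hpop⟩ := pop_sum (m + 1) hδ0
  set c₃ : ℝ := (δ / 2) ^ (m + 2) / (2 * (m + 3)) with hc₃
  set c₄ : ℝ := (δ / 8) ^ (m + 2) with hc₄
  set c₅ : ℝ := c₁ * δ * c₃ with hc₅
  have hc₃0 : 0 < c₃ := by positivity
  have hc₄0 : 0 < c₄ := by positivity
  have hc₅0 : 0 < c₅ := by positivity
  refine ⟨c₄ * c₅ ^ 2 / (288 * (k + 1)), c₄ / 72 * (c₅ / 2) ^ (k + 1), ⌈4 / δ⌉₊, by positivity, by positivity, ?_⟩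
  intro p _ hp hpP y
  have hp0 : (0 : ℝ) < p := by exact_mod_cast hp.pos
  have hδp : 4 ≤ δ * p := by
    have h1 := Nat.le_ceil (4 / δ)
    have h2 : 4 / δ ≤ p := h1.trans (by exact_mod_cast hpP)
    rw [div_le_iff₀ hδ0] at h2
    linarith
  set Y : ℕ := ∑ e, (y e).natAbs with hY
  have hYe : ∀ e, |y e| ≤ Y := by
    intro e
    have h1 : (y e).natAbs ≤ Y := single_le_sum (f := fun e => (y e).natAbs) (fun _ _ => Nat.zero_le _) (mem_univ e)
    rw [Int.abs_eq_natAbs]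
    exact_mod_cast h1
  refine ⟨⌈2 * (Y : ℝ) / δ⌉₊ + 1, ?_⟩
  intro n Q _ hn hQ A hA hAc σ hσ z e hL2
  have hn1 : 1 ≤ n := by omega
  have hn0 : (0 : ℝ) < n := by exact_mod_cast hn1
  have hnY : 2 * (Y : ℝ) ≤ δ * n := by
    have h1 := Nat.le_ceil (2 * (Y : ℝ) / δ)
    have h2 : 2 * (Y : ℝ) / δ ≤ n := h1.trans (by exact_mod_cast (by omega : ⌈2 * (Y : ℝ) / δ⌉₊ ≤ n))
    rw [div_le_iff₀ hδ0] at h2
    linarith
  have hnQ : n ≤ Q := by rw [hQ]; exact Nat.le_mul_of_pos_left n (by omega)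
  have hQr : ((Q : ℕ) : ℝ) = (m + 3) * n := by rw [hQ]; push_cast; ring
  have hcA : A.card ≤ n := by
    refine (card_le_card hA).trans ?_
    rw [Int.card_Icc]
    omega
  set y' : ZMod p → ZMod Q := fun e => (y e : ZMod Q) with hy'
  set B : Fin (m + 2) → Finset (ZMod Q) := fun j => imgQ Q (σ j) A with hB
  have hBc : ∀ j, (B j).card ≤ n := fun j => card_image_le.trans hcA
  set F : ZMod Q → ℝ := fun u => (rep B u : ℝ) with hF
  have hF0 : ∀ u, 0 ≤ F u := fun u => Nat.cast_nonneg _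
  -- the points with large slices
  set X : Fin (m + 2) → Finset (ZMod Q) := fun j => univ.filter (fun x : ZMod Q =>
      β * p ≤ ((Sl y' (imgQ Q (σ j) A) x).card : ℝ)) with hX
  have hX1 : ∀ j, δ / 2 * n ≤ ((X j).card : ℝ) := by
    intro j
    refine le_trans ?_ (X_card A hA (hσ j) y hYe (by linarith : 0 ≤ β) hnQ)
    have h1 : β * (n + 2 * Y) = 5 / 18 * n - 2 * (δ * n) + β * (2 * Y) := by rw [hβ]; ring
    have h2 : β * (2 * Y) ≤ 1 / 2 * (δ * n) := by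
      refine mul_le_mul hβ2 hnY (by positivity) (by norm_num)
    rw [h1]
    nlinarith
  have hX2 : ∀ j, (X j).card ≤ 4 * n := by
    intro j
    have h1 : ((∑ x : ZMod Q, (Sl y' (imgQ Q (σ j) A) x).card : ℕ) : ℝ) = p * A.card := by
      rw [sum_Sl, card_imgQ hnQ hA (hσ j)]; push_cast; ring
    push_cast at h1
    have h2 : ((X j).card : ℝ) * (β * p) ≤ ∑ x : ZMod Q, ((Sl y' (imgQ Q (σ j) A) x).card : ℝ) := by
      rw [← nsmul_eq_mul]
      refine (card_nsmul_le_sum _ (fun x => ((Sl y' (imgQ Q (σ j) A) x).card : ℝ)) _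
        fun x hx => (mem_filter.1 hx).2).trans
        (sum_le_sum_of_subset_of_nonneg (subset_univ _) fun _ _ _ => Nat.cast_nonneg _)
    rw [h1] at h2
    have h3 : ((X j).card : ℝ) * β * p ≤ A.card * p := by linarith
    have h4 := le_of_mul_le_mul_right h3 hp0
    have h5 : (A.card : ℝ) ≤ n := by exact_mod_cast hcA
    have h6 : ((X j).card : ℝ) * (1 / 4) ≤ n :=
      (mul_le_mul_of_nonneg_left hβ1 (Nat.cast_nonneg _)).trans (h4.trans h5)
    have h7 : ((X j).card : ℝ) ≤ ((4 * n : ℕ) : ℝ) := by push_cast; linarith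
    exact_mod_cast h7
  set T : ZMod Q → Finset (Fin (m + 2) → ZMod Q) := fun u => (Fintype.piFinset X).filter (fun x => ∑ j, x j = u) with hT
  have hTrep : ∀ u, (T u).card = rep X u := fun u => rfl
  have hT1 : (δ / 2 * n) ^ (m + 2) ≤ ∑ u, ((T u).card : ℝ) := by
    have h1 : ∑ u, ((T u).card : ℝ) = ((∑ u, rep X u : ℕ) : ℝ) := by push_cast; rfl
    rw [h1, sum_rep]
    push_cast
    have := prod_le_prod (s := (univ : Finset (Fin (m + 2)))) (f := fun _ => δ / 2 * n)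
      (g := fun j => ((X j).card : ℝ)) (fun _ _ => by positivity) (fun j _ => hX1 j)
    rwa [prod_const, card_univ, Fintype.card_fin] at this
  have hT2 : ∀ u, ((T u).card : ℝ) ≤ (4 * n) ^ (m + 1) := by
    intro u
    have := rep_bound (s := m + 1) X hX2 u
    rw [hTrep]
    exact_mod_cast this
  set U : Finset (ZMod Q) := univ.filter (fun u => c₃ * (n : ℝ) ^ (m + 1) ≤ ((T u).card : ℝ)) with hU
  have hUc : c₄ * n ≤ U.card := by
    have h1 : ∑ u, ((T u).card : ℝ) ≤ U.card * (4 * n) ^ (m + 1) + Q * (c₃ * (n : ℝ) ^ (m + 1)) := by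
      rw [← sum_filter_add_sum_filter_not univ (fun u => c₃ * (n : ℝ) ^ (m + 1) ≤ ((T u).card : ℝ))]
      refine add_le_add ?_ ?_
      · rw [← nsmul_eq_mul]
        exact sum_le_card_nsmul _ _ _ fun u _ => hT2 u
      · refine (sum_le_card_nsmul _ _ _ fun u hu => (not_le.1 (mem_filter.1 hu).2).le).trans ?_
        rw [nsmul_eq_mul]
        refine mul_le_mul_of_nonneg_right ?_ (by positivity)
        have := card_filter_le (univ : Finset (ZMod Q)) (fun u => ¬ c₃ * (n : ℝ) ^ (m + 1) ≤ ((T u).card : ℝ))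
        rw [card_univ, ZMod.card] at this
        exact_mod_cast this
    have h2 : (Q : ℝ) * (c₃ * (n : ℝ) ^ (m + 1)) = (δ / 2 * n) ^ (m + 2) / 2 := by
      rw [hQr, hc₃, mul_pow, pow_succ (n : ℝ) (m + 1)]
      field_simp
    have h3 : c₄ * n * (4 * n) ^ (m + 1) = (δ / 2 * n) ^ (m + 2) / 4 := by
      have e1 : (δ / 2 * n) ^ (m + 2) = (δ / 8) ^ (m + 2) * ((4 * n) ^ (m + 1) * (4 * n)) := by
        rw [← pow_succ, ← mul_pow]
        congr 1
        ring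
      rw [e1, hc₄]
      ring
    have h4 : 0 < (δ / 2 * n) ^ (m + 2) := by positivity
    have h5 : c₄ * n * (4 * n) ^ (m + 1) ≤ U.card * (4 * n) ^ (m + 1) := by
      rw [h3]; rw [h2] at h1; linarith
    exact le_of_mul_le_mul_right h5 (by positivity)
  -- the popular classes
  set P : (Fin (m + 2) → ZMod Q) → Finset (ZMod p) := fun x =>
    univ.filter (fun e => c₁ * (p : ℝ) ^ (m + 1) ≤ (rep (fun j => Sl y' (B j) (x j)) e : ℝ)) with hP
  set E : ZMod Q → Finset (ZMod p) := fun u =>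
    univ.filter (fun b => δ * (T u).card ≤ (((T u).filter (fun x => b ∈ P x)).card : ℝ)) with hE
  have hEc : ∀ u ∈ U, μ * p ≤ (E u).card := by
    intro u hu
    have hTu : 0 < (T u).card := by
      have h1 := (mem_filter.1 hu).2
      have h2 : (0 : ℝ) < (T u).card := lt_of_lt_of_le (by positivity) h1
      exact_mod_cast h2
    have h1 := dbl (T u) P (lam := a - (((m + 1 : ℕ) : ℝ) + 1) * δ) hδ0.le hTu (by
      intro x hx
      rw [ZMod.card]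
      have hx1 := (mem_filter.1 hx).1
      rw [Fintype.mem_piFinset] at hx1
      exact hpop p hp hδp β a (by linarith) hβ3 (min_le_left _ _) (min_le_right _ _)
        (fun j => Sl y' (B j) (x j)) (fun j => (mem_filter.1 (hx1 j)).2))
    rw [ZMod.card] at h1
    exact h1
  have hlow : ∀ u ∈ U, ∀ b ∈ E u, c₅ * (p : ℝ) ^ (m + 1) * (n : ℝ) ^ (m + 1) ≤
      ∑ f ∈ univ.filter (fun f : Fin (m + 2) → ZMod p => ∑ j, f j = b), F (u + ∑ j, y' (f j)) := by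
    intro u hu b hb
    refine le_trans ?_ (lower y' B X (c := c₁ * (p : ℝ) ^ (m + 1)) u b)
    have h1 := (mem_filter.1 hb).2
    have h2 := (mem_filter.1 hu).2
    have h3 : c₅ * (p : ℝ) ^ (m + 1) * (n : ℝ) ^ (m + 1) = c₁ * (p : ℝ) ^ (m + 1) * (δ * (c₃ * (n : ℝ) ^ (m + 1))) := by
      rw [hc₅]; ring
    rw [h3]
    refine mul_le_mul_of_nonneg_left ?_ (by positivity)
    exact (mul_le_mul_of_nonneg_left h2 hδ0.le).trans h1
  -- the exceptional points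
  set Hs : ZMod p → Fin (k + 1) → ZMod Q → ℝ := fun e₀ i u =>
    ∑ f ∈ univ.filter (fun f : Fin (m + 2) → ZMod p => ∑ j, f j = e₀ + e i),
      (F (u + ((y e₀ + z i : ℤ) : ZMod Q)) - F (u + ∑ j, y' (f j))) with hHs
  have hHs2 : ∀ e₀ i, ∑ u, Hs e₀ i u ^ 2 ≤ ((p : ℝ) ^ (m + 1)) ^ 2 * (c₄ * c₅ ^ 2 / (288 * (k + 1)) * (n : ℝ) ^ (2 * m + 3)) := by
    intro e₀ i
    set Tf := univ.filter (fun f : Fin (m + 2) → ZMod p => ∑ j, f j = e₀ + e i) with hTf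
    have hTfc : (Tf.card : ℝ) ≤ (p : ℝ) ^ (m + 1) := by exact_mod_cast sum_card_eq p m (e₀ + e i)
    have h1 : ∀ u, Hs e₀ i u ^ 2 ≤ Tf.card * ∑ f ∈ Tf, (F (u + ((y e₀ + z i : ℤ) : ZMod Q)) - F (u + ∑ j, y' (f j))) ^ 2 :=
      fun u => sq_sum_le_card_mul_sum_sq
    refine (sum_le_sum fun u _ => h1 u).trans ?_
    rw [← mul_sum, sum_comm]
    have h2 : ∑ f ∈ Tf, ∑ u, (F (u + ((y e₀ + z i : ℤ) : ZMod Q)) - F (u + ∑ j, y' (f j))) ^ 2 ≤
        Tf.card * (c₄ * c₅ ^ 2 / (288 * (k + 1)) * (n : ℝ) ^ (2 * m + 3)) := by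
      rw [← nsmul_eq_mul]
      refine sum_le_card_nsmul _ _ _ fun f hf => ?_
      have h3 := hL2 e₀ i f (mem_filter.1 hf).2
      have h4 : ((∑ j, y (f j) : ℤ) : ZMod Q) = ∑ j, y' (f j) := by push_cast; rfl
      rw [h4] at h3
      exact h3
    have h5 : 0 ≤ c₄ * c₅ ^ 2 / (288 * (k + 1)) * (n : ℝ) ^ (2 * m + 3) := by positivity
    calc (Tf.card : ℝ) * ∑ f ∈ Tf, ∑ u, (F (u + ((y e₀ + z i : ℤ) : ZMod Q)) - F (u + ∑ j, y' (f j))) ^ 2
        ≤ Tf.card * (Tf.card * (c₄ * c₅ ^ 2 / (288 * (k + 1)) * (n : ℝ) ^ (2 * m + 3))) :=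
          mul_le_mul_of_nonneg_left h2 (Nat.cast_nonneg _)
      _ ≤ (p : ℝ) ^ (m + 1) * ((p : ℝ) ^ (m + 1) * (c₄ * c₅ ^ 2 / (288 * (k + 1)) * (n : ℝ) ^ (2 * m + 3))) :=
          mul_le_mul hTfc (mul_le_mul_of_nonneg_right hTfc h5) (by positivity) (by positivity)
      _ = _ := by ring
  set Bad : ZMod p → Fin (k + 1) → Finset (ZMod Q) := fun e₀ i =>
    univ.filter (fun u => c₅ / 2 * (p : ℝ) ^ (m + 1) * (n : ℝ) ^ (m + 1) < |Hs e₀ i u|) with hBad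
  have hBadc : ∀ e₀ i, ((Bad e₀ i).card : ℝ) ≤ c₄ * n / (72 * (k + 1)) := by
    intro e₀ i
    have h1 := bad_count (Hs e₀ i) (c := c₅ / 2 * (p : ℝ) ^ (m + 1) * (n : ℝ) ^ (m + 1)) (by positivity) (hHs2 e₀ i)
    have h2 : ((Bad e₀ i).card : ℝ) * (c₅ / 2 * (p : ℝ) ^ (m + 1) * (n : ℝ) ^ (m + 1)) ^ 2 ≤
        c₄ * n / (72 * (k + 1)) * (c₅ / 2 * (p : ℝ) ^ (m + 1) * (n : ℝ) ^ (m + 1)) ^ 2 := by
      refine h1.trans (le_of_eq ?_)
      have e1 : (n : ℝ) ^ (2 * m + 3) = n * ((n : ℝ) ^ (m + 1)) ^ 2 := by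
        rw [← pow_mul, ← pow_succ']
        congr 1
        ring
      rw [e1]
      field_simp
      norm_num
    exact le_of_mul_le_mul_right h2 (by positivity)
  set V : ZMod p → Finset (ZMod Q) := fun e₀ => (U.filter (fun u => ∀ i, e₀ + e i ∈ E u)) \ univ.biUnion (Bad e₀) with hV
  have hVF : ∀ e₀, ∀ u ∈ V e₀, ∀ i, c₅ / 2 * (n : ℝ) ^ (m + 1) ≤ F (u + ((y e₀ + z i : ℤ) : ZMod Q)) := by
    intro e₀ u hu i
    have hu' : u ∈ (U.filter (fun u => ∀ i, e₀ + e i ∈ E u)) \ univ.biUnion (Bad e₀) := hu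
    rw [mem_sdiff, mem_filter] at hu'
    obtain ⟨⟨hu1, hu2⟩, hu3⟩ := hu'
    have h1 : ¬ c₅ / 2 * (p : ℝ) ^ (m + 1) * (n : ℝ) ^ (m + 1) < |Hs e₀ i u| := fun h =>
      hu3 (mem_biUnion.2 ⟨i, mem_univ _, mem_filter.2 ⟨mem_univ _, h⟩⟩)
    have h2 := hlow u hu1 _ (hu2 i)
    have h3 := (abs_le.1 (not_lt.1 h1)).1
    have h4 : Hs e₀ i u = ((univ.filter (fun f : Fin (m + 2) → ZMod p => ∑ j, f j = e₀ + e i)).card : ℝ) *
        F (u + ((y e₀ + z i : ℤ) : ZMod Q)) -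
        ∑ f ∈ univ.filter (fun f : Fin (m + 2) → ZMod p => ∑ j, f j = e₀ + e i), F (u + ∑ j, y' (f j)) := by
      show ∑ f ∈ univ.filter (fun f : Fin (m + 2) → ZMod p => ∑ j, f j = e₀ + e i),
        (F (u + ((y e₀ + z i : ℤ) : ZMod Q)) - F (u + ∑ j, y' (f j))) = _
      rw [sum_sub_distrib, sum_const, nsmul_eq_mul]
    rw [h4] at h3
    have h5 : ((univ.filter (fun f : Fin (m + 2) → ZMod p => ∑ j, f j = e₀ + e i)).card : ℝ) ≤ (p : ℝ) ^ (m + 1) := by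
      exact_mod_cast sum_card_eq p m (e₀ + e i)
    have h6 := mul_le_mul_of_nonneg_right h5 (hF0 (u + ((y e₀ + z i : ℤ) : ZMod Q)))
    have h7 : c₅ / 2 * (n : ℝ) ^ (m + 1) * (p : ℝ) ^ (m + 1) ≤ F (u + ((y e₀ + z i : ℤ) : ZMod Q)) * (p : ℝ) ^ (m + 1) := by
      linarith
    exact le_of_mul_le_mul_right h7 (by positivity)
  have hVc : c₄ * n * p / 72 ≤ ∑ e₀, ((V e₀).card : ℝ) := by
    have h1 : ∀ e₀, ((U.filter (fun u => ∀ i, e₀ + e i ∈ E u)).card : ℝ) - c₄ * n / 72 ≤ (V e₀).card := by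
      intro e₀
      have e1 := le_card_sdiff (univ.biUnion (Bad e₀)) (U.filter (fun u => ∀ i, e₀ + e i ∈ E u))
      have e2 : ((univ.biUnion (Bad e₀)).card : ℝ) ≤ c₄ * n / 72 := by
        have e3 : ((univ.biUnion (Bad e₀)).card : ℝ) ≤ ∑ i, ((Bad e₀ i).card : ℝ) := by
          exact_mod_cast card_biUnion_le
        refine e3.trans ((sum_le_card_nsmul _ _ _ fun i _ => hBadc e₀ i).trans (le_of_eq ?_))
        rw [card_univ, Fintype.card_fin, nsmul_eq_mul]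
        push_cast
        field_simp
      have e4 : ((U.filter (fun u => ∀ i, e₀ + e i ∈ E u)).card : ℝ) ≤ (V e₀).card + (univ.biUnion (Bad e₀)).card := by
        have : (U.filter (fun u => ∀ i, e₀ + e i ∈ E u)).card ≤ (V e₀).card + (univ.biUnion (Bad e₀)).card := by
          show _ ≤ ((U.filter (fun u => ∀ i, e₀ + e i ∈ E u)) \ univ.biUnion (Bad e₀)).card + _
          omega
        exact_mod_cast this
      linarith
    have h2 : c₄ * n * p / 36 ≤ ∑ e₀ : ZMod p, ((U.filter (fun u => ∀ i, e₀ + e i ∈ E u)).card : ℝ) := by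
      have e1 : ∑ e₀ : ZMod p, ((U.filter (fun u => ∀ i, e₀ + e i ∈ E u)).card : ℝ) =
          ∑ u ∈ U, ((univ.filter (fun e₀ => ∀ i, e₀ + e i ∈ E u)).card : ℝ) := by
        simp only [← sum_boole]
        rw [sum_comm]
      rw [e1]
      have e2 : ∀ u ∈ U, (p : ℝ) / 36 ≤ ((univ.filter (fun e₀ => ∀ i, e₀ + e i ∈ E u)).card : ℝ) := by
        intro u hu
        refine le_trans ?_ (trans_bound (E u) e (hEc u hu))
        have : (1 : ℝ) / 36 ≤ 1 - (k + 1) * (1 - μ) := by linarith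
        nlinarith
      have e3 := card_nsmul_le_sum U (fun u => ((univ.filter (fun e₀ => ∀ i, e₀ + e i ∈ E u)).card : ℝ)) _ e2
      rw [nsmul_eq_mul] at e3
      refine le_trans ?_ e3
      have e4 := mul_le_mul_of_nonneg_right hUc (by positivity : (0 : ℝ) ≤ p / 36)
      linarith
    have h3 := sum_le_sum fun e₀ (_ : e₀ ∈ (univ : Finset (ZMod p))) => h1 e₀
    rw [sum_sub_distrib, sum_const, card_univ, ZMod.card, nsmul_eq_mul] at h3
    refine le_trans ?_ h3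
    linarith
  -- the final inequality
  have hfin : (p : ℝ) * ∑ u : ZMod Q, ∏ i, F (u + (z i : ZMod Q)) =
      ∑ e₀ : ZMod p, ∑ u : ZMod Q, ∏ i, F (u + ((y e₀ + z i : ℤ) : ZMod Q)) := by
    have h1 : ∀ e₀ : ZMod p, ∑ u : ZMod Q, ∏ i, F (u + ((y e₀ + z i : ℤ) : ZMod Q)) =
        ∑ u : ZMod Q, ∏ i, F (u + (z i : ZMod Q)) := by
      intro e₀
      rw [← Equiv.sum_comp (Equiv.addRight (y e₀ : ZMod Q)) (fun u => ∏ i, F (u + (z i : ZMod Q)))]
      refine sum_congr rfl fun u _ => prod_congr rfl fun i _ => ?_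
      congr 1
      simp only [Equiv.coe_addRight]
      push_cast
      ring
    rw [sum_congr rfl fun e₀ _ => h1 e₀, sum_const, card_univ, ZMod.card, nsmul_eq_mul]
  have hlast : ∀ e₀ : ZMod p, ((V e₀).card : ℝ) * (c₅ / 2 * (n : ℝ) ^ (m + 1)) ^ (k + 1) ≤
      ∑ u : ZMod Q, ∏ i, F (u + ((y e₀ + z i : ℤ) : ZMod Q)) := by
    intro e₀
    rw [← nsmul_eq_mul]
    refine (card_nsmul_le_sum _ (fun u => ∏ i, F (u + ((y e₀ + z i : ℤ) : ZMod Q))) _ ?_).trans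
      (sum_le_sum_of_subset_of_nonneg (subset_univ _) fun u _ _ => prod_nonneg fun i _ => hF0 _)
    intro u hu
    have := prod_le_prod (s := (univ : Finset (Fin (k + 1)))) (f := fun _ => c₅ / 2 * (n : ℝ) ^ (m + 1))
      (g := fun i => F (u + ((y e₀ + z i : ℤ) : ZMod Q))) (fun _ _ => by positivity) (fun i _ => hVF e₀ u hu i)
    rwa [prod_const, card_univ, Fintype.card_fin] at this
  have h1 := sum_le_sum fun e₀ (_ : e₀ ∈ (univ : Finset (ZMod p))) => hlast e₀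
  rw [← sum_mul, ← hfin] at h1
  have h2 := (mul_le_mul_of_nonneg_right hVc
    (by positivity : (0 : ℝ) ≤ (c₅ / 2 * (n : ℝ) ^ (m + 1)) ^ (k + 1))).trans h1
  have h3 : c₄ * n * p / 72 * (c₅ / 2 * (n : ℝ) ^ (m + 1)) ^ (k + 1) =
      p * (c₄ / 72 * (c₅ / 2) ^ (k + 1) * (n : ℝ) ^ (1 + (m + 1) * (k + 1))) := by
    rw [mul_pow, ← pow_mul, pow_add, pow_one]
    ring
  rw [h3] at h2
  exact le_of_mul_le_mul_left h2 hp0

end Pool.Agent.K7.H62
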