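import Mathlib
import Pool.Agent.K7.H62.MC2
import Pool.Agent.K7.H62.Apx

/-! Every multiple of a suitable number is a sum of few good vectors. -/

set_option autoImplicit false

namespace Pool.Agent.K7.H62

open Finset

/-- a good vector divisible by a given number -/
theorem good_mul (k M q : ℕ) (r : ℤ) (hM : 1 ≤ M) (hq : 1 ≤ q) (hqr : IsCoprime r (q : ℤ)) :
    ∃ v : Fin k → ℤ, GoodV q r (fun i => (M : ℤ) * v i) := by
  classical
  obtain ⟨M₁, n₀, hM₁, h⟩ := nc k (1 / (36 * 4 ^ (k + 1))) (by positivity)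
  obtain ⟨r', hr'1, hr'2, hr'3⟩ := Nat.forall_exists_prime_gt_and_zmodEq (q * M) (q := q) (a := r) (by omega) hqr
  have hcop : IsCoprime (r' : ℤ) ((q * M : ℕ) : ℤ) := by
    rw [Nat.isCoprime_iff_coprime, Nat.Prime.coprime_iff_not_dvd hr'2]
    intro h
    have h1 := Nat.le_of_dvd (Nat.mul_pos (by omega) (by omega)) h
    omega
  obtain ⟨A, hA1, hA2, hA3⟩ := h (q * M) r' (Nat.mul_pos (by omega) (by omega)) hcop (n₀ + 1) (by omega)
  set n := n₀ + 1 with hn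
  have hn0 : (0 : ℝ) < n := by rw [hn]; positivity
  have hAc : (n : ℝ) / 4 ≤ A.card := by
    refine le_trans ?_ hA2
    have h3 : (1 : ℝ) / (36 * 4 ^ (k + 1)) ≤ 1 / 36 := by
      apply one_div_le_one_div_of_le (by norm_num)
      have : (1 : ℝ) ≤ 4 ^ (k + 1) := one_le_pow₀ (by norm_num)
      linarith
    nlinarith
  have hex : ∃ a : Fin (k + 1) → ℤ, GoodV (q * M) r' (fun i : Fin k => (M₁ : ℤ) * (a i.succ - a 0)) := by
    by_contra hcon
    push Not at hcon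
    rw [filter_true_of_mem (fun a _ => hcon a), Fintype.card_piFinset, prod_const, card_univ, Fintype.card_fin] at hA3
    push_cast at hA3
    have h1 := (pow_le_pow_left₀ (by positivity) hAc (k + 1)).trans hA3
    rw [div_pow] at h1
    have h2 : 0 < (n : ℝ) ^ (k + 1) := by positivity
    have h3 : (n : ℝ) ^ (k + 1) / 4 ^ (k + 1) = 36 * (1 / (36 * 4 ^ (k + 1)) * (n : ℝ) ^ (k + 1)) := by
      field_simp
    rw [h3] at h1
    have h4 : 0 < 1 / (36 * 4 ^ (k + 1)) * (n : ℝ) ^ (k + 1) := by positivity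
    linarith
  obtain ⟨a, ha1, ha2, ha3⟩ := hex
  refine ⟨fun i => (M₁ : ℤ) * (a i.succ - a 0), ?_, ?_, ?_⟩
  · intro i j hij
    exact ha1 (mul_left_cancel₀ (by positivity) hij)
  · intro i
    exact mul_ne_zero (by positivity) (ha2 i)
  · refine Set.Infinite.mono ?_ ha3
    rintro N ⟨hN1, hN2, hN3⟩
    refine ⟨hN1, ?_, fun i => ?_⟩
    · have h1 : (N : ℤ) ≡ r' [ZMOD q] := by
        refine Int.ModEq.of_mul_right (M : ℤ) ?_
        exact_mod_cast hN2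
      exact h1.trans hr'3
    · obtain ⟨p, hp1, hp2⟩ := hN3 i
      refine ⟨p, hp1, ?_⟩
      rw [hp2]
      push_cast
      ring

set_option maxHeartbeats 2000000 in
open Classical in
/-- **sums of `m + 2` good vectors** -/
theorem sum_base (m k q : ℕ) (r : ℤ) (hmk : 18 * (k + 1) < 18 + 5 * (m + 2) * (k + 1)) (hq : 1 ≤ q)
    (hqr : IsCoprime r (q : ℤ)) : ∃ M : ℕ, 1 ≤ M ∧ ∀ σ : Fin (m + 2) → ℤ, (∀ j, σ j = 1 ∨ σ j = -1) →
      ∀ w : Fin k → ℤ, ∃ v : Fin (m + 2) → Fin k → ℤ, (∀ j, GoodV q r (v j)) ∧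
        ∀ i, ∑ j, σ j * v j i = (M : ℤ) * w i := by
  obtain ⟨κ, c, P₀, hκ, hc, hmain⟩ := main_count m k hmk
  set ε : ℝ := min (1 / (1000 * ((k : ℝ) + 1) * (m + 3))) (c / (2 * (m + 2) * (m + 3))) with hε
  have hε0 : 0 < ε := lt_min (by positivity) (by positivity)
  obtain ⟨M₀, n₀, hM₀, hnc⟩ := nc k ε hε0
  set η : ℝ := Real.sqrt (κ / 8) with hη
  have hη0 : 0 < η := Real.sqrt_pos.2 (by positivity)
  have hη2 : η ^ 2 = κ / 8 := Real.sq_sqrt (by positivity)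
  set ρ : ℝ := Real.sqrt (κ / 2) / (2 * Real.pi) with hρ
  have hρ0 : 0 < ρ := by
    have := Real.sqrt_pos.2 (by positivity : 0 < κ / 2)
    positivity
  have hρη : (2 * Real.pi * ρ) ^ 2 + 4 * η ^ 2 = κ := by
    have h1 : 2 * Real.pi * ρ = Real.sqrt (κ / 2) := by
      rw [hρ]
      field_simp
    rw [h1, Real.sq_sqrt (by positivity), hη2]
    ring
  set d : ℕ := ⌈((m : ℝ) + 3) / η ^ 2⌉₊ with hd
  -- the sets and the frequencies
  have hseq : ∀ n : ℕ, ∃ (A : Finset ℤ) (θ : Fin d → ℝ), (∀ j, 0 ≤ θ j ∧ θ j ≤ 1) ∧ (n₀ + 1 ≤ n →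
      A ⊆ Icc 1 (n : ℤ) ∧ (5 / 18 - ε) * n ≤ (A.card : ℝ) ∧
      (((Fintype.piFinset (fun _ : Fin (k + 1) => A)).filter (fun a =>
        ¬ GoodV q r (fun i : Fin k => (M₀ : ℤ) * (a i.succ - a 0)))).card : ℝ) ≤ ε * (n : ℝ) ^ (k + 1) ∧
      ∀ (Q : ℕ) [NeZero Q], Q = (m + 3) * n → ∀ σ : Fin (m + 2) → ℤ, (∀ j, σ j = 1 ∨ σ j = -1) → ∀ h : ℤ,
        (∀ j, |(h : ℝ) * θ j - round ((h : ℝ) * θ j)| ≤ ρ) →
        ∑ u : ZMod Q, ((rep (fun j => imgQ Q (σ j) A) (u + (h : ZMod Q)) : ℝ) -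
          rep (fun j => imgQ Q (σ j) A) u) ^ 2 ≤ κ * (n : ℝ) ^ (2 * m + 3)) := by
    intro n
    by_cases hn : n₀ + 1 ≤ n
    · obtain ⟨A, hA1, hA2, hA3⟩ := hnc q r hq hqr n (by omega)
      have hcA : A.card ≤ n := by
        refine (card_le_card hA1).trans ?_
        rw [Int.card_Icc]
        omega
      obtain ⟨Q, hQ⟩ : ∃ Q : ℕ, Q = (m + 3) * n := ⟨_, rfl⟩
      haveI : NeZero Q := ⟨by rw [hQ]; exact Nat.mul_ne_zero (by omega) (by omega)⟩
      obtain ⟨θ, hθ1, hθ2⟩ := freq (m := m) (n := n) (d := d) (by omega) hQ A hcA hη0 hρ0.le (Nat.le_ceil _)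
      refine ⟨A, θ, hθ1, fun _ => ⟨hA1, hA2, hA3, ?_⟩⟩
      intro Q' _ hQ' σ hσ h hh
      have hQQ : Q' = Q := hQ'.trans hQ.symm
      subst hQQ
      have := hθ2 σ hσ h hh
      rw [hρη] at this
      exact this
    · exact ⟨∅, fun _ => 0, fun _ => ⟨le_rfl, zero_le_one⟩, fun h => absurd h hn⟩
  choose As θs hθs hAs using hseq
  obtain ⟨θ, hθ⟩ := cluster θs hθs
  obtain ⟨D, p, R, hD, hp, hpP, hR1, hR2, hR3⟩ := approx (m + 2) P₀ θ (half_pos hρ0)
  haveI : NeZero p := ⟨hp.ne_zero⟩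
  choose y hy using hR1
  obtain ⟨n₁, hn₁⟩ := hmain p hp hpP (fun e => (D : ℤ) * y e)
  refine ⟨M₀ * D, Nat.mul_pos hM₀ hD, ?_⟩
  intro σ hσ w
  set z : Fin (k + 1) → ℤ := Fin.cons 0 w with hz
  choose e he using fun i => hR2 (z i)
  -- bounds
  set Bd : ℝ := D * ((m + 3) * ∑ e, |(y e : ℝ)| + ∑ i, |(z i : ℝ)|) with hBd
  have hy0 : ∀ e, |(y e : ℝ)| ≤ ∑ e, |(y e : ℝ)| := fun e =>
    single_le_sum (f := fun e => |(y e : ℝ)|) (fun _ _ => abs_nonneg _) (mem_univ e)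
  have hz0 : ∀ i, |(z i : ℝ)| ≤ ∑ i, |(z i : ℝ)| := fun i =>
    single_le_sum (f := fun i => |(z i : ℝ)|) (fun _ _ => abs_nonneg _) (mem_univ i)
  have hsy : 0 ≤ ∑ e, |(y e : ℝ)| := sum_nonneg fun _ _ => abs_nonneg _
  have hsz : 0 ≤ ∑ i, |(z i : ℝ)| := sum_nonneg fun _ _ => abs_nonneg _
  have hBd0 : 0 ≤ Bd := by positivity
  obtain ⟨N₂, hN₂⟩ := exists_nat_ge Bd
  obtain ⟨n, hn1, hn2⟩ := hθ (ρ / (2 * (Bd + 1))) (by positivity) (max (n₀ + 1) (max n₁ N₂))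
  have hnn₀ : n₀ + 1 ≤ n := (le_max_left _ _).trans hn1
  have hnn₁ : n₁ ≤ n := (le_max_left _ _).trans ((le_max_right _ _).trans hn1)
  have hnN₂ : N₂ ≤ n := (le_max_right _ _).trans ((le_max_right _ _).trans hn1)
  obtain ⟨hA1, hA2, hA3, hA4⟩ := hAs n hnn₀
  have hn0 : (0 : ℝ) < n := by exact_mod_cast (by omega : 0 < n)
  obtain ⟨Q, hQ⟩ : ∃ Q : ℕ, Q = (m + 3) * n := ⟨_, rfl⟩
  haveI : NeZero Q := ⟨by rw [hQ]; exact Nat.mul_ne_zero (by omega) (by omega)⟩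
  have hQr : ((Q : ℕ) : ℝ) = (m + 3) * n := by rw [hQ]; push_cast; ring
  have hcount := hn₁ n Q hnn₁ hQ (As n) hA1 (by
      refine le_trans (mul_le_mul_of_nonneg_right ?_ hn0.le) hA2
      have : ε ≤ 1 / (1000 * ((k : ℝ) + 1) * (m + 3)) := min_le_left _ _
      linarith) σ hσ (fun i => (D : ℤ) * z i) e (by
      intro e₀ i f hf
      set h : ℤ := (D : ℤ) * (y e₀ + z i - ∑ j, y (f j)) with hh
      have h1 : ∀ j, |(h : ℝ) * θs n j - round ((h : ℝ) * θs n j)| ≤ ρ := by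
        intro j
        obtain ⟨m', hm'⟩ := hR3 (y e₀) (z i) e₀ (e i) (fun j => y (f j)) f (hy e₀) (he i) (fun j => hy (f j)) hf j
        have h2 : |(h : ℝ)| ≤ Bd := by
          rw [hh]
          push_cast
          rw [abs_mul, hBd, abs_of_nonneg (Nat.cast_nonneg D)]
          refine mul_le_mul_of_nonneg_left ?_ (Nat.cast_nonneg D)
          refine (abs_sub _ _).trans ?_
          have h3 := abs_add_le (y e₀ : ℝ) (z i)
          have h4 : |∑ j, (y (f j) : ℝ)| ≤ (m + 2) * ∑ e, |(y e : ℝ)| := by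
            refine (abs_sum_le_sum_abs _ _).trans ((sum_le_card_nsmul _ _ _ fun j _ => hy0 (f j)).trans (le_of_eq ?_))
            rw [card_univ, Fintype.card_fin, nsmul_eq_mul]
            push_cast
            ring
          have h5 := hy0 e₀
          have h6 := hz0 i
          linarith
        refine (dist_round_le (x := (h : ℝ) * θ j) (y := (h : ℝ) * θs n j) m' hm' (b := ρ / 2) ?_).trans (le_of_eq (by ring))
        rw [← mul_sub, abs_mul]
        refine (mul_le_mul (h2.trans (by linarith : Bd ≤ Bd + 1)) (hn2 j) (abs_nonneg _) (by positivity)).trans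
          (le_of_eq ?_)
        field_simp
      have h2 := hA4 Q hQ σ hσ h h1
      rw [← Equiv.sum_comp (Equiv.addRight ((∑ j, (D : ℤ) * y (f j) : ℤ) : ZMod Q))] at h2
      refine le_trans (le_of_eq ?_) h2
      refine sum_congr rfl fun u _ => ?_
      simp only [Equiv.coe_addRight]
      congr 3
      rw [hh, add_assoc, ← Int.cast_add]
      congr 3
      rw [← mul_sum]
      ring)
  -- lifting
  obtain ⟨a, ha1, -, ha3⟩ := lift (m := m) (k := k) (n := n)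
    (E := ((Fintype.piFinset (fun _ : Fin (k + 1) => As n)).filter (fun a =>
        ¬ GoodV q r (fun i : Fin k => (M₀ : ℤ) * (a i.succ - a 0)))).card) hQ (As n) hA1 σ hσ
    (fun i => (D : ℤ) * z i) (by
      intro i
      have h1 : z 0 = 0 := rfl
      rw [h1, mul_zero, sub_zero]
      have h2 : |(((D : ℤ) * z i : ℤ) : ℝ)| ≤ n := by
        push_cast
        rw [abs_mul, abs_of_nonneg (Nat.cast_nonneg D)]
        have h3 : (D : ℝ) * |(z i : ℝ)| ≤ Bd := by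
          rw [hBd]
          refine mul_le_mul_of_nonneg_left ?_ (Nat.cast_nonneg D)
          have := hz0 i
          have h4 : 0 ≤ ((m : ℝ) + 3) * ∑ e, |(y e : ℝ)| := by positivity
          linarith
        exact h3.trans (hN₂.trans (by exact_mod_cast hnN₂))
      have h3 : ((|(D : ℤ) * z i| : ℤ) : ℝ) ≤ ((n : ℤ) : ℝ) := by
        rw [Int.cast_abs]; exact h2
      exact_mod_cast h3)
    (fun a => GoodV q r (fun i : Fin k => (M₀ : ℤ) * (a i.succ - a 0))) le_rfl (by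
      refine lt_of_lt_of_le ?_ hcount
      push_cast
      rw [hQr]
      have h2 := mul_le_mul_of_nonneg_left hA3 (by positivity : (0 : ℝ) ≤ ((m : ℝ) + 2) * ((m + 3) * n) * (n : ℝ) ^ (m * (k + 1)))
      have h3 : ε ≤ c / (2 * (m + 2) * (m + 3)) := min_le_right _ _
      have h4 : ((m : ℝ) + 2) * ((m + 3) * n) * (n : ℝ) ^ (m * (k + 1)) * (ε * (n : ℝ) ^ (k + 1)) =
          ((m + 2) * (m + 3) * ε) * (n : ℝ) ^ (1 + (m + 1) * (k + 1)) := by
        have e1 : (n : ℝ) ^ (1 + (m + 1) * (k + 1)) = n * (n : ℝ) ^ (m * (k + 1)) * (n : ℝ) ^ (k + 1) := by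
          rw [mul_assoc, ← pow_add, ← pow_succ']
          congr 1
          ring
        rw [e1]; ring
      rw [h4] at h2
      have h5 : ((m : ℝ) + 2) * (m + 3) * ε ≤ c / 2 := by
        refine (mul_le_mul_of_nonneg_left h3 (by positivity)).trans (le_of_eq ?_)
        field_simp
      have h6 : 0 < (n : ℝ) ^ (1 + (m + 1) * (k + 1)) := by positivity
      have h7 := mul_le_mul_of_nonneg_right h5 h6.le
      have h8 : c / 2 * (n : ℝ) ^ (1 + (m + 1) * (k + 1)) < c * (n : ℝ) ^ (1 + (m + 1) * (k + 1)) :=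
        mul_lt_mul_of_pos_right (by linarith) h6
      refine lt_of_le_of_lt (le_trans (le_of_eq ?_) (h2.trans h7)) h8
      ring)
  refine ⟨_, ha1, ?_⟩
  intro i
  have h1 := ha3 i.succ
  have h2 : z 0 = 0 := rfl
  have h3 : z i.succ = w i := rfl
  rw [h2, h3, mul_zero, sub_zero] at h1
  calc ∑ j, σ j * ((M₀ : ℤ) * (a j i.succ - a j 0)) = (M₀ : ℤ) * ∑ j, σ j * (a j i.succ - a j 0) := by
        rw [mul_sum]
        exact sum_congr rfl fun j _ => by ring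
    _ = (((M₀ * D : ℕ) : ℤ)) * w i := by rw [h1]; push_cast; ring

/-- **sums of few good vectors** -/
theorem sum_all (k q : ℕ) (r : ℤ) (hq : 1 ≤ q) (hqr : IsCoprime r (q : ℤ)) : ∃ M : ℕ, 1 ≤ M ∧ ∀ s : ℕ, 2 ≤ s →
      18 * (k + 1) < 18 + 5 * s * (k + 1) → ∀ σ : Fin s → ℤ, (∀ j, σ j = 1 ∨ σ j = -1) →
      ∀ w : Fin k → ℤ, ∃ v : Fin s → Fin k → ℤ, (∀ j, GoodV q r (v j)) ∧
        ∀ i, ∑ j, σ j * v j i = (M : ℤ) * w i := by
  classical
  have hex : ∃ s : ℕ, 2 ≤ s ∧ 18 * (k + 1) < 18 + 5 * s * (k + 1) := ⟨4, by norm_num, by nlinarith⟩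
  obtain ⟨h1, h2⟩ := Nat.find_spec hex
  obtain ⟨m, hm⟩ : ∃ m, Nat.find hex = m + 2 := ⟨Nat.find hex - 2, by omega⟩
  rw [hm] at h2
  obtain ⟨M, hM, h⟩ := sum_base m k q r h2 hq hqr
  refine ⟨M, hM, ?_⟩
  intro s hs1 hs2
  have hsm : m + 2 ≤ s := by
    rw [← hm]
    exact Nat.find_min' hex ⟨hs1, hs2⟩
  clear hs1 hs2
  obtain ⟨v₀, hv₀⟩ := good_mul k M q r hM hq hqr
  induction s, hsm using Nat.le_induction with
  | base => exact h
  | succ s _ ih =>
    intro σ hσ w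
    obtain ⟨v, hv1, hv2⟩ := ih (fun j => σ j.succ) (fun j => hσ _) (fun i => w i - σ 0 * v₀ i)
    refine ⟨Fin.cons (fun i => (M : ℤ) * v₀ i) v, fun j => ?_, fun i => ?_⟩
    · refine Fin.cases hv₀ (fun j => ?_) j
      exact hv1 j
    · rw [Fin.sum_univ_succ]
      simp only [Fin.cons_zero, Fin.cons_succ]
      rw [hv2 i]
      ring

end Pool.Agent.K7.H62
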